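import Pool.Agent.Helper56.Volt.Orbit

/-!
Abstract description of all automorphisms.
-/

set_option linter.unusedSectionVars false
set_option linter.deprecated false

namespace Volt

open Filter Topology NormedSpace

variable {A : Type*} [NonUnitalNormedCommRing A] [NormedSpace ℂ A] [IsScalarTower ℂ A A]
  [SMulCommClass ℂ A A]

namespace VD

variable {V : VD A}

lemma RFam.toMul [CompleteSpace A] {N : ℕ → A} {K : ℝ} (hN : V.RFam N K) :
    ∃ C : ℕ → A →L[ℂ] A, V.CFam C K ∧ ∀ n, C n V.u = N n := by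
  have hNP : ∀ n, V.P (al n) (N n) = N n := fun n => compat_le' hN.compat le_rfl
  choose C hCmul hCu hCn using fun n => V.exists_isMul (hN.lip n)
  have hCu' : ∀ n, C n V.u = N n := fun n => by rw [hCu, hNP]
  refine ⟨C, ⟨hN.nonneg, hCmul, ?_, fun n f => hCn n f⟩, hCu'⟩
  intro n
  apply IsMul.ext_u V (a := al n) ((hCmul (n+1)).restrict (al_mono (Nat.le_succ n))) (hCmul n)
  rw [ContinuousLinearMap.mul_apply, hCu', hCu', hN.compat]

lemma CFam.toN {C : ℕ → A →L[ℂ] A} {K : ℝ} (hC : V.CFam C K) :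
    V.RFam (fun n => C n V.u) K where
  nonneg := hC.nonneg
  compat n := by
    have := congrArg (fun T : A →L[ℂ] A => T V.u) (hC.compat n)
    simpa using this
  lip n := by
    unfold Lip
    filter_upwards [Ioc_mem_nhdsGT (zero_lt_one : (0:ℝ)<1)] with h hh
    have h1 : V.P (al n) (C n V.u - V.S h (C n V.u)) = C n (V.P h V.u) := by
      rw [← V.u_sub h hh.1.le, map_sub, map_sub, (hC.mul n).apply_S hh.1.le, (hC.mul n).P_apply]
    rw [h1]
    refine (hC.bound n _).trans ?_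
    rw [V.norm_Pu h hh.1.le hh.2]

/-- uniqueness of the solution of the equation -/
lemma CFam.eq_of_eq [CompleteSpace A] {C : ℕ → A →L[ℂ] A} {K : ℝ} (hC : V.CFam C K) {g g' : A}
    (h1 : ∀ n, V.P (al n) (g + V.u * C n g) = V.P (al n) V.u)
    (h2 : ∀ n, V.P (al n) (g' + V.u * C n g') = V.P (al n) V.u) : g = g' := by
  apply V.ext_al
  intro n
  have h3 : V.P (al n) ((g - g') + V.u * C n (g - g')) = 0 := by
    have : (g - g') + V.u * C n (g - g') = (g + V.u * C n g) - (g' + V.u * C n g') := by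
      rw [map_sub, mul_sub]; abel
    rw [this, map_sub, h1, h2, sub_self]
  have h4 := IsMul.unique V (hC.mul n) h3
  rw [map_sub, sub_eq_zero] at h4
  exact h4

lemma hom_U_pow {T : A →L[ℂ] A} (hm : ∀ f g, T (f * g) = T f * T g) {T' : A →L[ℂ] A}
    (hm' : ∀ f g, T' (f * g) = T' f * T' g) (hu : T V.u = T' V.u) (j : ℕ) :
    T ((V.U ^ j) V.u) = T' ((V.U ^ j) V.u) := by
  induction j with
  | zero => simpa using hu
  | succ j ih =>
    rw [pow_succ', ContinuousLinearMap.mul_apply, U_apply, hm, hm', ih, hu]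

lemma hom_ext (hd : (Submodule.span ℂ (Set.range fun j : ℕ => (V.U ^ j) V.u)).topologicalClosure = ⊤)
    {T T' : A →L[ℂ] A} (hm : ∀ f g, T (f * g) = T f * T g)
    (hm' : ∀ f g, T' (f * g) = T' f * T' g) (hu : T V.u = T' V.u) : T = T' := by
  have h1 : Submodule.span ℂ (Set.range fun j : ℕ => (V.U ^ j) V.u) ≤
      LinearMap.eqLocus (T : A →ₗ[ℂ] A) (T' : A →ₗ[ℂ] A) := by
    rw [Submodule.span_le]
    rintro _ ⟨j, rfl⟩
    exact hom_U_pow hm hm' hu j
  have hcl : IsClosed ((LinearMap.eqLocus (T : A →ₗ[ℂ] A) (T' : A →ₗ[ℂ] A) : Submodule ℂ A) : Set A) :=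
    isClosed_eq T.continuous T'.continuous
  have h2 := Submodule.topologicalClosure_minimal _ h1 hcl
  rw [hd] at h2
  ext f
  exact h2 (Submodule.mem_top : f ∈ (⊤ : Submodule ℂ A))

/-- **All automorphisms.** -/
theorem aut_form [CompleteSpace A]
    (hd : (Submodule.span ℂ (Set.range fun j : ℕ => (V.U ^ j) V.u)).topologicalClosure = ⊤)
    (T : A →ₗ[ℂ] A) (hbij : Function.Bijective T) (hmul : ∀ f h, T (f * h) = T f * T h) :
    ∃ (C : ℕ → A →L[ℂ] A) (K : ℝ), V.CFam C K ∧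
      ∀ n f, V.P (al n) (T f) = V.P (al n) (V.TT (C n) f) := by
  have hcont : Continuous T := V.auto_continuous T hbij.2 hmul
  let e : A ≃ₗ[ℂ] A := LinearEquiv.ofBijective T hbij
  let eL : A ≃L[ℂ] A := e.toContinuousLinearEquivOfContinuous hcont
  have hT : ∀ f, (eL : A →L[ℂ] A) f = T f := fun f => rfl
  have hinj : Function.Injective T := hbij.1
  have hmE : ∀ f g, (eL : A →L[ℂ] A) (f * g) = (eL : A →L[ℂ] A) f * (eL : A →L[ℂ] A) g :=
    fun f g => by rw [hT, hT, hT, hmul]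
  obtain ⟨C, K, hC, hCg⟩ := V.necessity (T := (eL : A →L[ℂ] A))
    (T' := (eL.symm : A →L[ℂ] A)) (fun f => eL.apply_symm_apply f)
    (fun f => eL.symm_apply_apply f) hmE (fun f g => by
      apply hinj
      have e1 : ∀ f, T ((eL.symm : A →L[ℂ] A) f) = f := fun f => eL.apply_symm_apply f
      rw [e1, hmul, e1, e1])
  refine ⟨C, K, hC, ?_⟩
  obtain ⟨T', hT'⟩ := hC.exists_T
  have hu : (eL : A →L[ℂ] A) V.u = T' V.u :=
    hC.eq_of_eq hCg (CFam.T_u_eq hC hT')
  have hTT : (eL : A →L[ℂ] A) = T' := hom_ext hd hmE (CFam.T_mul hC hT') hu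
  intro n f
  rw [← hT f, hTT, hT']

theorem form_aut [CompleteSpace A] {C : ℕ → A →L[ℂ] A} {K : ℝ} (hC : V.CFam C K) :
    ∃ T : A →L[ℂ] A, Function.Bijective T ∧ (∀ f h, T (f * h) = T f * T h) ∧
      ∀ n f, V.P (al n) (T f) = V.P (al n) (V.TT (C n) f) := by
  obtain ⟨T, hT⟩ := hC.exists_T
  exact ⟨T, ⟨CFam.T_inj hC hT, CFam.T_surj hC hT⟩, CFam.T_mul hC hT, hT⟩

end VD

end Volt
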