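import Pool.Agent.Helper56.Volt.Suff

/-!
Automatic continuity of surjective endomorphisms (gliding hump).
-/

set_option linter.unusedSectionVars false
set_option linter.deprecated false

namespace Volt

open Filter Topology

section sepspace

variable {E F : Type*} [NormedAddCommGroup E] [NormedSpace ℂ E] [NormedAddCommGroup F]
  [NormedSpace ℂ F]

/-- The separating space of a linear map. -/
def sepSpace (T : E →ₗ[ℂ] F) : Submodule ℂ F where
  carrier := {y | ∀ ε > 0, ∃ x, ‖x‖ < ε ∧ ‖T x - y‖ < ε}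
  add_mem' := by
    intro a b ha hb ε hε
    obtain ⟨x, hx, hxa⟩ := ha (ε / 2) (by positivity)
    obtain ⟨y, hy, hyb⟩ := hb (ε / 2) (by positivity)
    refine ⟨x + y, ?_, ?_⟩
    · exact (norm_add_le _ _).trans_lt (by linarith)
    · have : T (x + y) - (a + b) = (T x - a) + (T y - b) := by rw [map_add]; abel
      rw [this]
      exact (norm_add_le _ _).trans_lt (by linarith)
  zero_mem' := by
    intro ε hε
    exact ⟨0, by simpa using hε, by simpa using hε⟩
  smul_mem' := by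
    intro c a ha ε hε
    have hc : 0 < ‖c‖ + 1 := by positivity
    obtain ⟨x, hx, hxa⟩ := ha (ε / (‖c‖ + 1)) (by positivity)
    have key : ∀ r : ℝ, 0 ≤ r → r < ε / (‖c‖ + 1) → ‖c‖ * r < ε := by
      intro r hr0 hr
      rw [lt_div_iff₀ hc] at hr
      nlinarith
    refine ⟨c • x, ?_, ?_⟩
    · rw [norm_smul]; exact key _ (norm_nonneg _) hx
    · rw [map_smul, ← smul_sub, norm_smul]; exact key _ (norm_nonneg _) hxa

lemma mem_sepSpace {T : E →ₗ[ℂ] F} {y : F} :
    y ∈ sepSpace T ↔ ∀ ε > 0, ∃ x, ‖x‖ < ε ∧ ‖T x - y‖ < ε := Iff.rfl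

lemma isClosed_sepSpace (T : E →ₗ[ℂ] F) : IsClosed (sepSpace T : Set F) := by
  rw [← closure_subset_iff_isClosed]
  intro y hy
  intro ε hε
  obtain ⟨y', hy', hd⟩ := Metric.mem_closure_iff.1 hy (ε / 2) (by positivity)
  obtain ⟨x, hx, hxy⟩ := hy' (ε / 2) (by positivity)
  refine ⟨x, by linarith, ?_⟩
  rw [dist_eq_norm, norm_sub_rev] at hd
  have : T x - y = (T x - y') + (y' - y) := by abel
  rw [this]
  exact (norm_add_le _ _).trans_lt (by linarith)

/-- continuity of the quotient map by the separating space -/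
lemma exists_bound_mod [CompleteSpace E] [CompleteSpace F] (T : E →ₗ[ℂ] F) :
    ∃ K : ℝ, 0 ≤ K ∧ ∀ x, ∃ y ∈ sepSpace T, ‖T x - y‖ ≤ K * ‖x‖ := by
  have hcl : IsClosed (sepSpace T : Set F) := isClosed_sepSpace T
  haveI : IsClosed (sepSpace T : Set F) := hcl
  set Q : F →ₗ[ℂ] F ⧸ sepSpace T := (sepSpace T).mkQ with hQ
  have hcont : Continuous (Q ∘ₗ T) := by
    apply LinearMap.continuous_of_seq_closed_graph
    intro u x y hu hy
    obtain ⟨w, rfl⟩ := Submodule.mkQ_surjective _ y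
    have hmem : w - T x ∈ sepSpace T := by
      intro ε hε
      have h1 : ∀ᶠ k in atTop, ‖u k - x‖ < ε / 2 := by
        have := (tendsto_iff_norm_sub_tendsto_zero.1 hu)
        exact this.eventually (gt_mem_nhds (by positivity))
      have h2 : ∀ᶠ k in atTop, ‖(Q ∘ₗ T) (u k) - (sepSpace T).mkQ w‖ < ε / 4 := by
        have := (tendsto_iff_norm_sub_tendsto_zero.1 hy)
        exact this.eventually (gt_mem_nhds (by positivity))
      obtain ⟨k, hk1, hk2⟩ := (h1.and h2).exists
      have h3 : (Q ∘ₗ T) (u k) - (sepSpace T).mkQ w = Submodule.Quotient.mk (T (u k) - w) := by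
        simp [hQ]
      rw [h3] at hk2
      obtain ⟨m, hm1, hm2⟩ := Submodule.Quotient.norm_mk_lt
        (Submodule.Quotient.mk (T (u k) - w) : F ⧸ sepSpace T) (show 0 < ε / 4 by positivity)
      have h4 : T (u k) - w - m ∈ sepSpace T := (Submodule.Quotient.eq _).1 hm1.symm
      obtain ⟨x', hx', hx'2⟩ := h4 (ε / 2) (by positivity)
      refine ⟨u k - x - x', ?_, ?_⟩
      · refine (norm_sub_le _ _).trans_lt ?_
        linarith
      · have h5 : T (u k - x - x') - (w - T x) = m - (T x' - (T (u k) - w - m)) := by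
          rw [map_sub, map_sub]; abel
        rw [h5]
        refine (norm_sub_le _ _).trans_lt ?_
        linarith
    have : (sepSpace T).mkQ (w - T x) = 0 := (Submodule.Quotient.mk_eq_zero _).2 hmem
    rw [map_sub, sub_eq_zero] at this
    rw [this]; rfl
  obtain ⟨K, hK⟩ : ∃ K : ℝ, 0 ≤ K ∧ ∀ x, ‖(Q ∘ₗ T) x‖ ≤ K * ‖x‖ := by
    let f : E →L[ℂ] F ⧸ sepSpace T := ⟨Q ∘ₗ T, hcont⟩
    exact ⟨‖f‖, ContinuousLinearMap.opNorm_nonneg f, f.le_opNorm⟩
  refine ⟨K + 1, by linarith [hK.1], fun x => ?_⟩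
  rcases eq_or_ne x 0 with h0 | h0
  · exact ⟨0, zero_mem _, by rw [h0]; simp⟩
  · have hx : 0 < ‖x‖ := norm_pos_iff.2 h0
    obtain ⟨m, hm1, hm2⟩ := Submodule.Quotient.norm_mk_lt
        (Submodule.Quotient.mk (T x) : F ⧸ sepSpace T) hx
    have h4 : T x - m ∈ sepSpace T := (Submodule.Quotient.eq _).1 hm1.symm
    refine ⟨T x - m, h4, ?_⟩
    have h5 : T x - (T x - m) = m := by abel
    rw [h5]
    have h6 : ‖(Submodule.Quotient.mk (T x) : F ⧸ sepSpace T)‖ ≤ K * ‖x‖ := hK.2 x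
    linarith

lemma continuous_of_sepSpace [CompleteSpace E] [CompleteSpace F] (T : E →ₗ[ℂ] F)
    (h : ∀ y ∈ sepSpace T, y = 0) : Continuous T := by
  obtain ⟨K, hK0, hK⟩ := exists_bound_mod T
  refine AddMonoidHomClass.continuous_of_bound T K ?_
  intro x
  obtain ⟨y, hy, hxy⟩ := hK x
  rw [h y hy, sub_zero] at hxy
  exact hxy

end sepspace

variable {A : Type*} [NonUnitalNormedCommRing A] [NormedSpace ℂ A] [IsScalarTower ℂ A A]
  [SMulCommClass ℂ A A] [CompleteSpace A]

namespace VD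

variable (V : VD A)

lemma U_S {s : ℝ} (hs : 0 ≤ s) (f : A) : V.U (V.S s f) = V.S s (V.U f) := by
  rw [U_apply, U_apply, V.S_mul s hs, mul_comm V.u, ← V.S_mul s hs, mul_comm f, V.S_mul s hs]

lemma P_U_pow (a : ℝ) (n : ℕ) (f : A) : V.P a ((V.U ^ n) (V.P a f)) = V.P a ((V.U ^ n) f) := by
  induction n with
  | zero => simp
  | succ n ih =>
    rw [pow_succ', ContinuousLinearMap.mul_apply, ContinuousLinearMap.mul_apply, U_apply, U_apply,
      V.P_mul_right, ih, ← V.P_mul_right]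

lemma U_pow_inj {a : ℝ} (n : ℕ) {f : A} (h : V.P a ((V.U ^ n) f) = 0) : V.P a f = 0 := by
  induction n with
  | zero => simpa using h
  | succ n ih =>
    rw [pow_succ', ContinuousLinearMap.mul_apply, U_apply] at h
    exact ih (V.u_mul_inj h)

lemma norm_U_pow_le (n : ℕ) (f : A) : ‖(V.U ^ n) f‖ ≤ ‖f‖ := by
  induction n with
  | zero => simp
  | succ n ih =>
    rw [pow_succ', ContinuousLinearMap.mul_apply, U_apply]
    refine (norm_mul_le _ _).trans ?_
    rw [V.norm_u, one_mul]; exact ih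

include V in
/-- Automatic continuity. -/
theorem auto_continuous (T : A →ₗ[ℂ] A) (hsurj : Function.Surjective T)
    (hmul : ∀ f g, T (f * g) = T f * T g) : Continuous T := by
  classical
  apply continuous_of_sepSpace
  by_contra hne
  push Not at hne
  obtain ⟨y₀, hy₀, hy₀0⟩ := hne
  obtain ⟨K, hK0, hK⟩ := exists_bound_mod T
  -- the infimum of the supports
  set Z : Set ℝ := {a | 0 ≤ a ∧ a ≤ 1 ∧ ∀ y ∈ sepSpace T, V.P a y = 0} with hZ
  have hZ0 : (0:ℝ) ∈ Z := ⟨le_rfl, zero_le_one, fun y _ => V.P_nonpos 0 le_rfl y⟩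
  have hZbdd : BddAbove Z := ⟨1, fun a ha => ha.2.1⟩
  set α := sSup Z with hα
  have hα0 : 0 ≤ α := le_csSup hZbdd hZ0
  have hα1 : α ≤ 1 := csSup_le ⟨0, hZ0⟩ fun a ha => ha.2.1
  have hαP : ∀ y ∈ sepSpace T, V.P α y = 0 := by
    intro y hy
    apply V.P_eq_zero_of_lt
    intro b hb
    obtain ⟨a, ha, hba⟩ := exists_lt_of_lt_csSup ⟨0, hZ0⟩ hb
    rw [← V.P_P_le hba.le, ha.2.2 y hy, map_zero]
  have hαlt : α < 1 := by
    rcases lt_or_eq_of_le hα1 with h | h
    · exact h
    · exfalso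
      apply hy₀0
      have := hαP y₀ hy₀
      rwa [h, V.P_one_le 1 le_rfl] at this
  have hαne : ∀ c, α < c → c ≤ 1 → ∃ y ∈ sepSpace T, V.P c y ≠ 0 := by
    intro c hc hc1
    by_contra hcon
    push Not at hcon
    have : c ∈ Z := ⟨hα0.trans hc.le, hc1, hcon⟩
    exact absurd (le_csSup hZbdd this) (not_le.2 hc)
  -- shifts
  set σ : ℕ → ℝ := fun n => (1 - α) * (1 - (1/2)^n) with hσ
  have hσ0 : σ 0 = 0 := by simp [hσ]
  have h1α : 0 < 1 - α := by linarith
  set d : ℕ → ℝ := fun n => (1 - α) * (1/2)^(n+1) with hd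
  have hd0 : ∀ n, 0 < d n := fun n => by positivity
  have hσs : ∀ n, σ (n+1) = σ n + d n := by
    intro n
    simp only [hσ, hd, pow_succ]; ring
  have hσnn : ∀ n, 0 ≤ σ n := by
    intro n
    have : ((1:ℝ)/2)^n ≤ 1 := pow_le_one₀ (by norm_num) (by norm_num)
    simp only [hσ]
    apply mul_nonneg h1α.le; linarith
  have hσlt : ∀ n, α + σ n < 1 := by
    intro n
    have : (0:ℝ) < (1/2)^n := by positivity
    simp only [hσ]
    nlinarith
  choose b hb using fun n => hsurj (V.S (d n) V.u)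
  set L : ℕ → (A →L[ℂ] A) := fun n => ContinuousLinearMap.mul ℂ A (b n) with hL
  -- products
  let B : ℕ → (A →L[ℂ] A) := fun n => Nat.rec 1 (fun n Bn => Bn * L n) n
  have hB0 : B 0 = 1 := rfl
  have hBs : ∀ n, B (n+1) = B n * L n := fun n => rfl
  have hTB : ∀ n x, T (B n x) = V.S (σ n) ((V.U ^ n) (T x)) := by
    intro n
    induction n with
    | zero => intro x; rw [hB0, hσ0, V.S_zero]; simp
    | succ n ih =>
      intro x
      have h1 : T (L n x) = V.S (d n) (V.u * T x) := by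
        simp only [hL, ContinuousLinearMap.mul_apply']
        rw [hmul, hb, ← V.S_mul _ (hd0 n).le]
      rw [hBs, ContinuousLinearMap.mul_apply, ih, h1, hσs, V.S_add _ _ (hσnn n) (hd0 n).le]
      congr 1
      rw [pow_succ, ContinuousLinearMap.mul_apply]
      have : ∀ k f, (V.U ^ k) (V.S (d n) f) = V.S (d n) ((V.U ^ k) f) := by
        intro k
        induction k with
        | zero => intro f; simp
        | succ k ihk =>
          intro f
          rw [pow_succ', ContinuousLinearMap.mul_apply, ContinuousLinearMap.mul_apply, ihk,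
            V.U_S (hd0 n).le]
      rw [this, U_apply]
  -- bounded part
  have hbd : ∀ n x, ‖V.P (α + σ n) (T (B n x))‖ ≤ K * ‖x‖ := by
    intro n x
    obtain ⟨y, hy, hxy⟩ := hK x
    have h1 : V.P (α + σ n) (V.S (σ n) ((V.U ^ n) y)) = 0 := by
      rw [V.P_S _ _ (hσnn n), add_sub_cancel_right, ← V.P_U_pow, hαP y hy, map_zero, map_zero,
        map_zero]
    have h2 : V.P (α + σ n) (T (B n x)) = V.P (α + σ n) (V.S (σ n) ((V.U ^ n) (T x - y))) := by
      rw [hTB, map_sub, map_sub, map_sub, h1, sub_zero]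
    rw [h2]
    exact (V.norm_P_le _ _).trans ((V.norm_S_le _ (hσnn n) _).trans
      ((V.norm_U_pow_le _ _).trans hxy))
  -- unbounded part
  have hunb : ∀ n (M : ℝ) (ε : ℝ), 0 < ε → ∃ x, ‖x‖ ≤ ε ∧ M ≤ ‖V.P (α + σ (n+1)) (T (B n x))‖ := by
    intro n M ε hε
    obtain ⟨y, hy, hyne⟩ := hαne (α + d n) (by linarith [hd0 n]) (by
      have := hσlt (n+1)
      rw [hσs] at this
      linarith [hσnn n])
    set z := V.P (α + σ (n+1)) (V.S (σ n) ((V.U ^ n) y)) with hz
    have hzne : z ≠ 0 := by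
      intro h0
      rw [hz, V.P_S _ _ (hσnn n), hσs] at h0
      have h1 : α + (σ n + d n) - σ n = α + d n := by ring
      rw [h1] at h0
      have h2 := V.R_S (σ n) (hσnn n) (V.P (α + d n) ((V.U ^ n) y))
      rw [h0, map_zero, V.P_P_le' (by
        have := hσlt (n+1)
        rw [hσs] at this
        linarith)] at h2
      exact hyne (V.U_pow_inj n h2.symm)
    have hzpos : 0 < ‖z‖ := norm_pos_iff.2 hzne
    set M' := |M| + 1 with hM'
    have hM'pos : 0 < M' := by positivity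
    obtain ⟨x, hx, hxy⟩ := hy (min (ε * ‖z‖ / (2 * M')) (‖z‖ / 2)) (by positivity)
    have hx1 : ‖x‖ < ε * ‖z‖ / (2 * M') := hx.trans_le (min_le_left _ _)
    have hx2 : ‖T x - y‖ < ‖z‖ / 2 := hxy.trans_le (min_le_right _ _)
    have h3 : ‖z‖ / 2 ≤ ‖V.P (α + σ (n+1)) (T (B n x))‖ := by
      have h4 : V.P (α + σ (n+1)) (T (B n x))
          = z + V.P (α + σ (n+1)) (V.S (σ n) ((V.U ^ n) (T x - y))) := by
        rw [hTB, hz, map_sub, map_sub, map_sub]; abel
      have h5 : ‖V.P (α + σ (n+1)) (V.S (σ n) ((V.U ^ n) (T x - y)))‖ ≤ ‖z‖ / 2 :=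
        (V.norm_P_le _ _).trans ((V.norm_S_le _ (hσnn n) _).trans
          ((V.norm_U_pow_le _ _).trans hx2.le))
      rw [h4]
      have h6 := norm_sub_le (z + V.P (α + σ (n+1)) (V.S (σ n) ((V.U ^ n) (T x - y))))
        (V.P (α + σ (n+1)) (V.S (σ n) ((V.U ^ n) (T x - y))))
      rw [add_sub_cancel_right] at h6
      linarith
    set c : ℝ := 2 * M' / ‖z‖ with hc
    have hcpos : 0 < c := by positivity
    refine ⟨(c:ℂ) • x, ?_, ?_⟩
    · rw [norm_smul, Complex.norm_real, Real.norm_eq_abs, abs_of_pos hcpos]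
      calc c * ‖x‖ ≤ c * (ε * ‖z‖ / (2 * M')) := by gcongr
        _ = ε := by rw [hc]; field_simp
    · rw [map_smul, map_smul, map_smul, norm_smul, Complex.norm_real, Real.norm_eq_abs,
        abs_of_pos hcpos]
      calc M ≤ M' := by rw [hM']; linarith [le_abs_self M]
        _ = c * (‖z‖ / 2) := by rw [hc]; field_simp
        _ ≤ _ := by gcongr
  -- weights
  let β : ℕ → ℝ := fun n => Nat.rec 1 (fun n βn => βn * (1 + ‖b n‖)) n
  have hβ0 : β 0 = 1 := rfl
  have hβs : ∀ n, β (n+1) = β n * (1 + ‖b n‖) := fun n => rfl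
  have hβpos : ∀ n, 1 ≤ β n := by
    intro n
    induction n with
    | zero => exact le_of_eq hβ0.symm
    | succ n ih =>
      rw [hβs]
      have : 0 ≤ ‖b n‖ := norm_nonneg _
      nlinarith
  have hex : ∀ n (y : A), ∃ x, ‖x‖ ≤ (1/2)^n / β n ∧
      (n + ‖T y‖ + K * 2) ≤ ‖V.P (α + σ (n+1)) (T (B n x))‖ := fun n y =>
    hunb n _ _ (by have := hβpos n; positivity)
  choose x hx1 hx2 using hex
  let y : ℕ → A := fun n => Nat.rec 0 (fun n yn => yn + B n (x n yn)) n
  have hy0 : y 0 = 0 := rfl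
  have hys : ∀ n, y (n+1) = y n + B n (x n (y n)) := fun n => rfl
  set ξ : ℕ → A := fun n => x n (y n) with hξ
  -- shifted products
  let G : ℕ → ℕ → (A →L[ℂ] A) := fun n k => Nat.rec 1 (fun k Gk => Gk * L (n + k)) k
  have hG0 : ∀ n, G n 0 = 1 := fun n => rfl
  have hGs : ∀ n k, G n (k+1) = G n k * L (n + k) := fun n k => rfl
  have hBG : ∀ n k, B (n + k) = B n * G n k := by
    intro n k
    induction k with
    | zero => rw [hG0, mul_one, add_zero]
    | succ k ih => rw [← add_assoc, hBs, ih, hGs, mul_assoc]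
  have hGn : ∀ n k f, ‖G n k f‖ ≤ β (n + k) * ‖f‖ := by
    intro n k
    induction k with
    | zero =>
      intro f
      rw [hG0, ContinuousLinearMap.one_apply, add_zero]
      have := hβpos n
      nlinarith [norm_nonneg f]
    | succ k ih =>
      intro f
      rw [hGs, ContinuousLinearMap.mul_apply]
      refine (ih _).trans ?_
      have h1 : ‖L (n + k) f‖ ≤ (1 + ‖b (n+k)‖) * ‖f‖ := by
        simp only [hL, ContinuousLinearMap.mul_apply']
        refine (norm_mul_le _ _).trans ?_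
        have := norm_nonneg f
        nlinarith
      rw [← add_assoc, hβs, mul_assoc]
      exact mul_le_mul_of_nonneg_left h1 (by linarith [hβpos (n+k)])
  have hterm : ∀ n k, ‖G n k (ξ (n + k))‖ ≤ (1/2)^(n+k) := by
    intro n k
    refine (hGn n k _).trans ?_
    have h1 := hx1 (n+k) (y (n+k))
    have h2 := hβpos (n+k)
    calc β (n+k) * ‖ξ (n+k)‖ ≤ β (n+k) * ((1/2)^(n+k) / β (n+k)) := by gcongr
      _ = (1/2)^(n+k) := by field_simp
  have hgeo : ∀ n : ℕ, Summable (fun k : ℕ => ((1:ℝ)/2)^(n+k)) := by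
    intro n
    simp_rw [pow_add]
    exact (summable_geometric_two).mul_left _
  have hsum : ∀ n, Summable (fun k => G n k (ξ (n + k))) := fun n =>
    Summable.of_norm_bounded (hgeo n) (hterm n)
  set w : ℕ → A := fun n => ∑' k, G n k (ξ (n + k)) with hw
  have hwn : ∀ n, ‖w n‖ ≤ 2 := by
    intro n
    have h1 : ‖w n‖ ≤ ∑' k : ℕ, ((1:ℝ)/2)^(n+k) := tsum_of_norm_bounded (hgeo n).hasSum (hterm n)
    have h2 : ∑' k : ℕ, ((1:ℝ)/2)^(n+k) ≤ 2 := by
      simp_rw [pow_add]
      rw [tsum_mul_left, tsum_geometric_two]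
      have : ((1:ℝ)/2)^n ≤ 1 := pow_le_one₀ (by norm_num) (by norm_num)
      linarith
    exact h1.trans h2
  -- recursion of `w`
  have hwrec : ∀ n, w n = ξ n + L n (w (n+1)) := by
    intro n
    have h1 := (hsum n).tsum_eq_zero_add
    have hGL : ∀ n k, G n (k+1) = L n * G (n+1) k := by
      intro n k
      induction k with
      | zero => rw [hGs, hG0, hG0, one_mul, mul_one, add_zero]
      | succ k ih =>
        calc G n (k+1+1) = G n (k+1) * L (n+(k+1)) := hGs n (k+1)
          _ = (L n * G (n+1) k) * L (n + 1 + k) := by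
              rw [ih, show n + (k+1) = n + 1 + k by ring]
          _ = L n * G (n+1) (k+1) := by rw [hGs (n+1) k, mul_assoc]
    have h2 : ∀ k, G n (k+1) (ξ (n + (k+1))) = L n (G (n+1) k (ξ (n + 1 + k))) := by
      intro k
      rw [hGL, ContinuousLinearMap.mul_apply, show n + (k+1) = n + 1 + k by ring]
    simp only [h2] at h1
    rw [← (L n).map_tsum (hsum (n+1))] at h1
    rw [hw]
    simp only
    rw [h1, hG0, add_zero, ContinuousLinearMap.one_apply]
  have hz : ∀ n, w 0 = y n + B n (w n) := by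
    intro n
    induction n with
    | zero => rw [hy0, hB0, zero_add, ContinuousLinearMap.one_apply]
    | succ n ih =>
      rw [ih, hwrec n, map_add, hys, hBs, ContinuousLinearMap.mul_apply, add_assoc]
  have hcontra : ∀ n : ℕ, (n:ℝ) ≤ ‖T (w 0)‖ := by
    intro n
    have h1 := hx2 n (y n)
    have h2 : T (w 0) = T (y n) + T (B n (ξ n)) + T (B (n+1) (w (n+1))) := by
      rw [hz (n+1), hys, map_add, map_add]
    have h3 := hbd (n+1) (w (n+1))
    have h4 : ‖V.P (α + σ (n+1)) (T (B n (ξ n)))‖ ≤ ‖V.P (α + σ (n+1)) (T (w 0))‖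
        + ‖V.P (α + σ (n+1)) (T (y n))‖ + ‖V.P (α + σ (n+1)) (T (B (n+1) (w (n+1))))‖ := by
      have : V.P (α + σ (n+1)) (T (B n (ξ n))) = V.P (α + σ (n+1)) (T (w 0))
        - V.P (α + σ (n+1)) (T (y n)) - V.P (α + σ (n+1)) (T (B (n+1) (w (n+1)))) := by
        rw [h2, map_add, map_add]; abel
      rw [this]
      exact (norm_sub_le _ _).trans (add_le_add_left (norm_sub_le _ _) _)
    have h5 := V.norm_P_le (α + σ (n+1)) (T (w 0))
    have h6 := V.norm_P_le (α + σ (n+1)) (T (y n))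
    have h7 : K * ‖w (n+1)‖ ≤ K * 2 := by
      have := hwn (n+1)
      gcongr
    have h8 : (n:ℝ) + ‖T (y n)‖ + K * 2 ≤ ‖V.P (α + σ (n+1)) (T (B n (ξ n)))‖ := h1
    linarith
  obtain ⟨n, hn⟩ := exists_nat_gt ‖T (w 0)‖
  exact absurd (hcontra n) (not_le.2 hn)

end VD

end Volt
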