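import Pool.Agent.Helper56.Volt.Model4

/-!
From compatible Lipschitz families to functions of locally bounded variation.
-/

set_option linter.deprecated false

namespace Volt

open MeasureTheory Set Filter Topology

namespace L1

lemma rep_P' (a : ℝ) (f : L1) : rep (P a f) =ᵐ[volume] (Iio a).indicator (rep f) := by
  refine (rep_P a f).trans (Eventually.of_forall fun t => ?_)
  by_cases ht : t ∈ Ico (0:ℝ) 1
  · rw [Wf_apply_mem _ _ _ ht, sub_zero]
    by_cases h : t < a
    · rw [wP_lt h, one_mul, indicator_of_mem (show t ∈ Iio a from h)]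
    · rw [wP_ge h, zero_mul, indicator_of_notMem (show t ∉ Iio a from h)]
  · rw [Wf_apply_notMem _ _ _ ht]
    simp only [indicator]
    split_ifs
    · rw [sup_rep f t ht]
    · rfl

lemma rep_S' (s : ℝ) (hs : 0 ≤ s) (f : L1) :
    rep (S s f) =ᵐ[volume] (Iio (1:ℝ)).indicator (fun t => rep f (t - s)) := by
  refine (rep_S s f).trans (Eventually.of_forall fun t => ?_)
  by_cases ht : t ∈ Ico (0:ℝ) 1
  · rw [Wf_apply_mem _ _ _ ht, w1_m, one_mul, indicator_of_mem (show t ∈ Iio (1:ℝ) from ht.2)]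
  · rw [Wf_apply_notMem _ _ _ ht]
    by_cases h1 : t < 1
    · rw [indicator_of_mem (show t ∈ Iio (1:ℝ) from h1)]
      have : t < 0 := by
        by_contra h2
        exact ht ⟨not_lt.1 h2, h1⟩
      exact ((sup_rep f).lt (by linarith)).symm
    · rw [indicator_of_notMem (show t ∉ Iio (1:ℝ) from h1)]

lemma norm_P_sub_S {a h : ℝ} (ha0 : 0 ≤ a) (ha : a ≤ 1) (hh : 0 ≤ h) (f : L1) :
    ‖P a (f - S h f)‖ = ∫ t in (0:ℝ)..a, ‖rep f t - rep f (t - h)‖ := by
  rw [norm_eq]
  have h1 : ∫ t, ‖rep (P a (f - S h f)) t‖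
      = ∫ t, (Ico (0:ℝ) a).indicator (fun t => ‖rep f t - rep f (t - h)‖) t := by
    apply integral_congr_ae
    filter_upwards [rep_P' a (f - S h f), rep_sub f (S h f), rep_S' h hh f] with t h1 h2 h3
    rw [h1]
    by_cases hta : t < a
    · rw [indicator_of_mem (show t ∈ Iio a from hta), h2, h3,
        indicator_of_mem (show t ∈ Iio (1:ℝ) from hta.trans_le ha)]
      by_cases ht0 : 0 ≤ t
      · rw [indicator_of_mem (show t ∈ Ico 0 a from ⟨ht0, hta⟩)]
      · rw [indicator_of_notMem (fun hh => ht0 hh.1), (sup_rep f).lt (not_le.1 ht0),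
          (sup_rep f).lt (by linarith [not_le.1 ht0])]
        simp
    · rw [indicator_of_notMem (show t ∉ Iio a from hta), indicator_of_notMem (fun hh => hta hh.2),
        norm_zero]
  rw [h1, integral_indicator measurableSet_Ico, integral_Ico_eq_integral_Ioc,
    ← intervalIntegral.integral_of_le ha0]

lemma avg_eq {F : ℝ → ℂ} (hF : Integrable F) (hF0 : ∀ t, t < 0 → F t = 0) (h : ℝ) (hh : 0 ≤ h)
    (t : ℝ) : ∫ s in (t-h)..t, F s = ∫ s in (0:ℝ)..t, (F s - F (s-h)) := by
  have hi : ∀ a b, IntervalIntegrable F volume a b := fun a b => hF.intervalIntegrable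
  have hi2 : ∀ a b, IntervalIntegrable (fun s => F (s - h)) volume a b :=
    fun a b => (hF.comp_sub_right h).intervalIntegrable
  rw [intervalIntegral.integral_sub (hi _ _) (hi2 _ _),
    intervalIntegral.integral_comp_sub_right (fun s => F s) h]
  have h0 : ∫ s in (0 - h)..0, F s = 0 := by
    rw [intervalIntegral.integral_of_le (by linarith)]
    apply setIntegral_eq_zero_of_ae_eq_zero
    have hne : ∀ᵐ s : ℝ, s ≠ 0 := compl_mem_ae_iff.2 (measure_singleton _)
    filter_upwards [hne] with s hs hs2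
    exact hF0 s (lt_of_le_of_ne hs2.2 hs)
  have h1 : ∫ s in (0 - h)..(t - h), F s = ∫ s in (0:ℝ)..(t-h), F s := by
    rw [← intervalIntegral.integral_add_adjacent_intervals (hi (0-h) 0) (hi 0 (t-h)), h0, zero_add]
  rw [h1, intervalIntegral.integral_interval_sub_left (hi _ _) (hi _ _)]

lemma eVar_primitive_le {φ : ℝ → ℂ} (hφ : Integrable φ) {a : ℝ} :
    eVariationOn (fun t => ∫ s in (0:ℝ)..t, φ s) (Icc 0 a)
      ≤ ENNReal.ofReal (∫ s in (0:ℝ)..a, ‖φ s‖) := by
  have hi : ∀ a b, IntervalIntegrable φ volume a b := fun a b => hφ.intervalIntegrable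
  apply iSup_le
  rintro ⟨n, u, hu, hus⟩
  simp only
  have h1 : ∀ i ∈ Finset.range n, edist (∫ s in (0:ℝ)..(u (i+1)), φ s) (∫ s in (0:ℝ)..(u i), φ s)
      ≤ ENNReal.ofReal (∫ s in (u i)..(u (i+1)), ‖φ s‖) := by
    intro i _
    rw [edist_dist, dist_eq_norm,
      intervalIntegral.integral_interval_sub_left (hi _ _) (hi _ _)]
    exact ENNReal.ofReal_le_ofReal
      (intervalIntegral.norm_integral_le_integral_norm (hu (Nat.le_succ i)))
  refine (Finset.sum_le_sum h1).trans ?_
  rw [← ENNReal.ofReal_sum_of_nonneg, intervalIntegral.sum_integral_adjacent_intervals]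
  · apply ENNReal.ofReal_le_ofReal
    apply intervalIntegral.integral_mono_interval (hus 0).1 (hu (Nat.zero_le n)) (hus n).2
    · exact Eventually.of_forall fun _ => norm_nonneg _
    · exact (hi _ _).norm
  · intro k _
    exact (hi _ _).norm
  · intro i _
    apply intervalIntegral.integral_nonneg (hu (Nat.le_succ i))
    intro _ _; exact norm_nonneg _

lemma exists_al' {t : ℝ} (ht : t < 1) : ∃ n, t ≤ al n := by
  obtain ⟨n, hn⟩ := (al_tendsto.eventually (lt_mem_nhds ht)).exists
  exact ⟨n, hn.le⟩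

lemma compat_ae {R : ℕ → L1} (hc : ∀ n, P (al n) (R (n+1)) = R n) {m n : ℕ} (hmn : m ≤ n) :
    ∀ᵐ t, t < al m → rep (R m) t = rep (R n) t := by
  have h1 : P (al m) (R n) = R m := VD.compat_le' (V := vd) hc hmn
  have h2 : P (al m) (R m) = P (al m) (R n) := by
    rw [← h1, P_P, min_self]
  exact P_eq_iff.1 h2

theorem exists_bv {R : ℕ → L1} {K : ℝ} (hR : vd.RFam R K) : ∃ Rf : ℝ → ℂ,
    (∀ x ∈ Ioo (0:ℝ) 1, eVariationOn Rf (Icc 0 (1-x)) ≤ ENNReal.ofReal (2*K/x)) ∧
    ∀ n, ∀ᵐ t, t ∈ Ico 0 (al n) → Rf t = rep (R n) t := by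
  classical
  have hK := hR.nonneg
  set k : ℝ → ℕ := fun t => if h : t < 1 then Nat.find (exists_al' h) else 0 with hk
  have hk1 : ∀ t, t < 1 → t ≤ al (k t) := by
    intro t ht
    simp only [hk, dif_pos ht]
    exact Nat.find_spec (exists_al' ht)
  have hk2 : ∀ t n, t ≤ al n → k t ≤ n := by
    intro t n htn
    have ht : t < 1 := htn.trans_lt (al_lt_one n)
    simp only [hk, dif_pos ht]
    exact Nat.find_min' _ htn
  set hh : ℕ → ℝ := fun j => 1 / ((j:ℝ) + 1) with hhdef
  have hhpos : ∀ j, 0 < hh j := fun j => by positivity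
  have hhlim : Tendsto hh atTop (𝓝 0) := tendsto_one_div_add_atTop_nhds_zero_nat
  set A : ℕ → ℝ → ℂ := fun j t => ((hh j)⁻¹ : ℂ) * ∫ s in (t - hh j)..t, rep (R (k t)) s with hA
  have hA1 : ∀ n t, t ≤ al n → ∀ j, A j t = ((hh j)⁻¹ : ℂ) * ∫ s in (t - hh j)..t, rep (R n) s := by
    intro n t htn j
    simp only [hA]
    congr 1
    apply intervalIntegral.integral_congr_ae
    have hne : ∀ᵐ s : ℝ, s ≠ al (k t) := compl_mem_ae_iff.2 (measure_singleton _)
    filter_upwards [compat_ae hR.compat (hk2 t n htn), hne] with s hs hsne hs2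
    apply hs
    rw [uIoc_of_le (by linarith [hhpos j])] at hs2
    exact lt_of_le_of_ne (hs2.2.trans (hk1 t (htn.trans_lt (al_lt_one n)))) hsne
  set φ : ℕ → ℕ → ℝ → ℂ := fun n j s => ((hh j)⁻¹ : ℂ) * (rep (R n) s - rep (R n) (s - hh j)) with hφ
  have hφi : ∀ n j, Integrable (φ n j) := fun n j =>
    ((integrable_rep (R n)).sub ((integrable_rep (R n)).comp_sub_right (hh j))).const_mul _
  have hA2 : ∀ n t, t ≤ al n → ∀ j, A j t = ∫ s in (0:ℝ)..t, φ n j s := by
    intro n t htn j
    rw [hA1 n t htn j, avg_eq (integrable_rep _) (fun t => (sup_rep _).lt) _ (hhpos j).le,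
      ← intervalIntegral.integral_const_mul]
  have hφn : ∀ n, ∀ᶠ j in atTop, ∫ s in (0:ℝ)..(al n), ‖φ n j s‖ ≤ K * 2^n := by
    intro n
    have h1 : Tendsto hh atTop (𝓝[>] 0) :=
      tendsto_nhdsWithin_of_tendsto_nhds_of_eventually_within _ hhlim
        (Eventually.of_forall fun j => hhpos j)
    filter_upwards [h1.eventually (hR.lip n)] with j hj
    have h2 : ‖P (al n) (R n - S (hh j) (R n))‖ ≤ K * 2^n * hh j := hj
    rw [norm_P_sub_S (al_nonneg n) (al_lt_one n).le (hhpos j).le] at h2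
    have h3 : ∫ s in (0:ℝ)..(al n), ‖φ n j s‖
        = (hh j)⁻¹ * ∫ s in (0:ℝ)..(al n), ‖rep (R n) s - rep (R n) (s - hh j)‖ := by
      rw [← intervalIntegral.integral_const_mul]
      congr 1; ext s
      simp only [hφ]
      rw [norm_mul, norm_inv, Complex.norm_real, Real.norm_eq_abs, abs_of_pos (hhpos j)]
    rw [h3]
    calc (hh j)⁻¹ * ∫ s in (0:ℝ)..(al n), ‖rep (R n) s - rep (R n) (s - hh j)‖
        ≤ (hh j)⁻¹ * (K * 2^n * hh j) := by
          apply mul_le_mul_of_nonneg_left h2 (inv_nonneg.2 (hhpos j).le)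
      _ = K * 2^n := by
          have := (hhpos j).ne'
          field_simp
  have hAvar : ∀ n, ∀ᶠ j in atTop, eVariationOn (A j) (Icc 0 (al n)) ≤ ENNReal.ofReal (K * 2^n) := by
    intro n
    filter_upwards [hφn n] with j hj
    rw [eVariationOn.congr (g := fun t => ∫ s in (0:ℝ)..t, φ n j s) (fun t ht => hA2 n t ht.2 j)]
    exact (eVar_primitive_le (hφi n j)).trans (ENNReal.ofReal_le_ofReal hj)
  have hAb : ∀ n, ∀ t ∈ Icc 0 (al n), ∀ᶠ j in atTop, A j t ∈ Metric.closedBall (0:ℂ) (K * 2^n) := by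
    intro n t ht
    filter_upwards [hφn n] with j hj
    rw [mem_closedBall_zero_iff, hA2 n t ht.2 j]
    refine (intervalIntegral.norm_integral_le_integral_norm ht.1).trans (le_trans ?_ hj)
    apply intervalIntegral.integral_mono_interval le_rfl ht.1 ht.2
    · exact Eventually.of_forall fun _ => norm_nonneg _
    · exact (hφi n j).norm.intervalIntegrable
  have hlim : ∀ t : ℝ, ∃ y : ℂ, t ∈ Ico (0:ℝ) 1 →
      Tendsto (fun j => A j t) (hyperfilter ℕ : Filter ℕ) (𝓝 y) := by
    intro t
    by_cases ht : t ∈ Ico (0:ℝ) 1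
    · have h1 := hAb (k t) t ⟨ht.1, hk1 t ht.2⟩
      have h2 : ((Ultrafilter.map (fun j => A j t) (hyperfilter ℕ) : Ultrafilter ℂ) : Filter ℂ)
          ≤ 𝓟 (Metric.closedBall (0:ℂ) (K * 2^(k t))) := by
        rw [le_principal_iff, Ultrafilter.coe_map, mem_map]
        exact Nat.hyperfilter_le_atTop h1
      obtain ⟨y, -, hy⟩ := (isCompact_closedBall (0:ℂ) (K * 2^(k t))).ultrafilter_le_nhds _ h2
      exact ⟨y, fun _ => hy⟩
    · exact ⟨0, fun h => absurd h ht⟩
  choose Rf hRf using hlim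
  refine ⟨Rf, ?_, ?_⟩
  · intro x hx
    obtain ⟨n, hn, hn2⟩ := exists_al (b := 1 - x) (by linarith [hx.1]) (by linarith [hx.2])
    rw [sub_sub_cancel] at hn2
    have h1 : eVariationOn Rf (Icc 0 (al n)) ≤ ENNReal.ofReal (K * 2^n) := by
      apply le_of_forall_lt
      intro v hv
      have h2 := eVariationOn.lowerSemicontinuous_aux (F := A) (p := (hyperfilter ℕ : Filter ℕ))
        (f := Rf) (s := Icc 0 (al n))
        (fun t ht => hRf t ⟨ht.1, ht.2.trans_lt (al_lt_one n)⟩) hv
      have h3 := Nat.hyperfilter_le_atTop (hAvar n)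
      obtain ⟨j, hj1, hj2⟩ := (h2.and h3).exists
      exact hj1.trans_le hj2
    refine (eVariationOn.mono _ (Icc_subset_Icc le_rfl hn)).trans (h1.trans ?_)
    apply ENNReal.ofReal_le_ofReal
    rw [le_div_iff₀ hx.1]
    calc K * 2^n * x = K * (2^n * x) := by ring
      _ ≤ K * 2 := by gcongr
      _ = 2 * K := by ring
  · intro n
    filter_upwards [LocallyIntegrable.ae_hasDerivAt_integral (integrable_rep (R n)).locallyIntegrable]
      with t ht htn
    have hder := ht 0
    have hi : ∀ a b, IntervalIntegrable (rep (R n)) volume a b :=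
      fun a b => (integrable_rep (R n)).intervalIntegrable
    have h1 : Tendsto (fun j => A j t) atTop (𝓝 (rep (R n) t)) := by
      have h2 : Tendsto (fun j => t - hh j) atTop (𝓝[≠] t) := by
        apply tendsto_nhdsWithin_of_tendsto_nhds_of_eventually_within
        · have := (tendsto_const_nhds (x := t)).sub hhlim
          rwa [sub_zero] at this
        · refine Eventually.of_forall fun j => ?_
          have := hhpos j
          simp only [mem_compl_iff, mem_singleton_iff]
          linarith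
      have h3 := (hasDerivAt_iff_tendsto_slope.1 hder).comp h2
      refine h3.congr fun j => ?_
      rw [hA1 n t htn.2.le j]
      simp only [Function.comp, slope_def_module]
      rw [intervalIntegral.integral_interval_sub_left (hi _ _) (hi _ _),
        show t - hh j - t = -hh j by ring, intervalIntegral.integral_symm, inv_neg, neg_smul,
        smul_neg, neg_neg, Complex.real_smul]
      push_cast
      rfl
    exact tendsto_nhds_unique (hRf t ⟨htn.1, htn.2.trans (al_lt_one n)⟩)
      (h1.mono_left Nat.hyperfilter_le_atTop)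

end L1

end Volt
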