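import Pool.Agent.Helper56.Volt.BV

/-!
From functions of locally bounded variation to compatible Lipschitz families.
-/

set_option linter.deprecated false

namespace Volt

open MeasureTheory Set Filter Topology

namespace L1

section

variable {Rf : ℝ → ℂ} {a : ℝ}

lemma bv_meas (h : BoundedVariationOn Rf (Icc 0 a)) :
    AEStronglyMeasurable Rf (volume.restrict (Icc 0 a)) := by
  have key : ∀ g : ℝ → ℝ, BoundedVariationOn g (Icc 0 a) →
      AEMeasurable g (volume.restrict (Icc 0 a)) := by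
    intro g hg
    obtain ⟨p, q, hp, hq, e⟩ := hg.locallyBoundedVariationOn.exists_monotoneOn_sub_monotoneOn
    rw [e]
    exact (aemeasurable_restrict_of_monotoneOn measurableSet_Icc hp).sub
      (aemeasurable_restrict_of_monotoneOn measurableSet_Icc hq)
  have hre : BoundedVariationOn (fun t => (Rf t).re) (Icc 0 a) :=
    Complex.reCLM.lipschitz.comp_boundedVariationOn h
  have him : BoundedVariationOn (fun t => (Rf t).im) (Icc 0 a) :=
    Complex.imCLM.lipschitz.comp_boundedVariationOn h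
  have h1 := Complex.measurable_ofReal.comp_aemeasurable (key _ hre)
  have h2 := Complex.measurable_ofReal.comp_aemeasurable (key _ him)
  have h3 := (h1.add (h2.mul_const Complex.I)).aestronglyMeasurable
  refine h3.congr (Eventually.of_forall fun t => ?_)
  simp only [Function.comp, Pi.add_apply]
  exact Complex.re_add_im (Rf t)

lemma bv_bound (ha : 0 ≤ a) (h : BoundedVariationOn Rf (Icc 0 a)) {t : ℝ} (ht : t ∈ Icc 0 a) :
    ‖Rf t‖ ≤ ‖Rf 0‖ + (eVariationOn Rf (Icc 0 a)).toReal := by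
  have h1 := h.dist_le ht (show (0:ℝ) ∈ Icc 0 a from ⟨le_rfl, ha⟩)
  rw [dist_eq_norm] at h1
  have h2 : ‖Rf t‖ ≤ ‖Rf t - Rf 0‖ + ‖Rf 0‖ := by
    calc ‖Rf t‖ = ‖(Rf t - Rf 0) + Rf 0‖ := by rw [sub_add_cancel]
      _ ≤ _ := norm_add_le _ _
  linarith

lemma bv_integrable (ha : 0 ≤ a) (h : BoundedVariationOn Rf (Icc 0 a)) :
    IntegrableOn Rf (Icc 0 a) := by
  have h0 : IntegrableOn (fun _ : ℝ => ‖Rf 0‖ + (eVariationOn Rf (Icc 0 a)).toReal) (Icc 0 a) :=
    integrableOn_const (by simp) (by simp)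
  refine Integrable.mono' h0 (bv_meas h) ?_
  rw [ae_restrict_iff' measurableSet_Icc]
  exact Eventually.of_forall fun t ht => bv_bound ha h ht

lemma bv_translate (h : BoundedVariationOn Rf (Icc 0 a)) {s : ℝ} (hs : 0 ≤ s) (hsa : s ≤ a) :
    ∫ t in s..a, ‖Rf t - Rf (t - s)‖ ≤ s * (eVariationOn Rf (Icc 0 a)).toReal := by
  have ha : 0 ≤ a := hs.trans hsa
  set V := (eVariationOn Rf (Icc 0 a)).toReal with hV
  have hl := h.locallyBoundedVariationOn
  set v := variationOnFromTo Rf (Icc 0 a) 0 with hv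
  have h0 : (0:ℝ) ∈ Icc 0 a := ⟨le_rfl, ha⟩
  have hmono : MonotoneOn v (Icc 0 a) := variationOnFromTo.monotoneOn hl h0
  have hvi : ∀ b c, b ∈ Icc 0 a → c ∈ Icc 0 a → IntervalIntegrable v volume b c := by
    intro b c hb hc
    apply MonotoneOn.intervalIntegrable
    apply hmono.mono
    intro x hx
    rw [uIcc, mem_Icc] at hx
    exact ⟨(le_min hb.1 hc.1).trans hx.1, hx.2.trans (max_le hb.2 hc.2)⟩
  have hv0 : ∀ t ∈ Icc 0 a, 0 ≤ v t := fun t ht => variationOnFromTo.nonneg_of_le _ _ ht.1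
  have hvV : ∀ t ∈ Icc 0 a, v t ≤ V := fun t ht =>
    (le_abs_self _).trans (variationOnFromTo.abs_le_eVariationOn h)
  have hpt : ∀ t ∈ Icc s a, ‖Rf t - Rf (t - s)‖ ≤ v t - v (t - s) := by
    intro t ht
    have ht1 : t ∈ Icc 0 a := ⟨hs.trans ht.1, ht.2⟩
    have ht2 : t - s ∈ Icc 0 a := ⟨by linarith [ht.1], by linarith [ht.2]⟩
    rw [hv, variationOnFromTo.sub_right hl h0 ht1 ht2, variationOnFromTo.eq_of_le _ _ (by linarith),
      ← dist_eq_norm]
    exact (h.mono inter_subset_left).dist_le ⟨ht1, by linarith, le_rfl⟩ ⟨ht2, le_rfl, by linarith⟩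
  have hmem : ∀ t, 0 ≤ t → t ≤ a → t ∈ Icc 0 a := fun t h1 h2 => ⟨h1, h2⟩
  have hi1 : IntervalIntegrable v volume s a := hvi _ _ (hmem s hs hsa) (hmem a ha le_rfl)
  have hi2 : IntervalIntegrable (fun t => v (t - s)) volume s a := by
    have := (hvi 0 (a - s) h0 (hmem _ (by linarith) (by linarith))).comp_sub_right s
    rwa [zero_add, sub_add_cancel] at this
  have h1 : ∫ t in s..a, ‖Rf t - Rf (t - s)‖ ≤ ∫ t in s..a, (v t - v (t - s)) := by
    rw [intervalIntegral.integral_of_le hsa, intervalIntegral.integral_of_le hsa]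
    apply integral_mono_of_nonneg (Eventually.of_forall fun _ => norm_nonneg _)
    · exact (hi1.sub hi2).1
    · rw [EventuallyLE, ae_restrict_iff' measurableSet_Ioc]
      exact Eventually.of_forall fun t ht => hpt t ⟨ht.1.le, ht.2⟩
  refine h1.trans ?_
  rw [intervalIntegral.integral_sub hi1 hi2, intervalIntegral.integral_comp_sub_right v s, sub_self]
  have h2 : ∫ t in s..a, v t = (∫ t in (0:ℝ)..a, v t) - ∫ t in (0:ℝ)..s, v t := by
    rw [intervalIntegral.integral_interval_sub_left (hvi _ _ h0 (hmem a ha le_rfl))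
      (hvi _ _ h0 (hmem s hs hsa))]
  have h3 : (∫ t in (0:ℝ)..a, v t) - (∫ t in (0:ℝ)..(a - s), v t) = ∫ t in (a-s)..a, v t := by
    rw [intervalIntegral.integral_interval_sub_left (hvi _ _ h0 (hmem a ha le_rfl))
      (hvi _ _ h0 (hmem _ (by linarith) (by linarith)))]
  have h4 : 0 ≤ ∫ t in (0:ℝ)..s, v t :=
    intervalIntegral.integral_nonneg hs fun t ht => hv0 t ⟨ht.1, ht.2.trans hsa⟩
  have h5 : ∫ t in (a-s)..a, v t ≤ ∫ t in (a-s)..a, V := by
    apply intervalIntegral.integral_mono_on (by linarith)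
      (hvi _ _ (hmem _ (by linarith) (by linarith)) (hmem a ha le_rfl)) intervalIntegrable_const
    intro t ht
    exact hvV t ⟨by linarith [ht.1], ht.2⟩
  rw [intervalIntegral.integral_const, smul_eq_mul, sub_sub_cancel] at h5
  linarith

end

/-- the truncated class of a function -/
lemma trunc_integrable {Rf : ℝ → ℂ} {a : ℝ} (ha : 0 ≤ a) (h : BoundedVariationOn Rf (Icc 0 a)) :
    Integrable ((Ico 0 a).indicator Rf) := by
  rw [integrable_indicator_iff measurableSet_Ico]
  exact (bv_integrable ha h).mono_set Ico_subset_Icc_self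

lemma bv_lip {Rf : ℝ → ℂ} {a : ℝ} (ha : 0 ≤ a) (ha1 : a ≤ 1) (h : BoundedVariationOn Rf (Icc 0 a))
    {f : L1} (hf : rep f =ᵐ[volume] (Ico 0 a).indicator Rf) {s : ℝ} (hs : 0 ≤ s) (hsa : s ≤ a) :
    ‖P a (f - S s f)‖ ≤ s * (‖Rf 0‖ + 2 * (eVariationOn Rf (Icc 0 a)).toReal) := by
  set V := (eVariationOn Rf (Icc 0 a)).toReal with hV
  have hFi := trunc_integrable ha h
  set F := (Ico 0 a).indicator Rf with hF
  rw [norm_P_sub_S ha ha1 hs]
  have e0 : ∫ t in (0:ℝ)..a, ‖rep f t - rep f (t - s)‖ = ∫ t in (0:ℝ)..a, ‖F t - F (t - s)‖ := by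
    apply intervalIntegral.integral_congr_ae
    filter_upwards [hf, ae_shift hf s] with t h1 h2 _
    rw [h1, h2]
  have hi : ∀ b c, IntervalIntegrable (fun t => ‖F t - F (t - s)‖) volume b c := fun b c =>
    (hFi.sub (hFi.comp_sub_right s)).norm.intervalIntegrable
  rw [e0, ← intervalIntegral.integral_add_adjacent_intervals (hi 0 s) (hi s a)]
  have hne : ∀ c : ℝ, ∀ᵐ t : ℝ, t ≠ c := fun c => compl_mem_ae_iff.2 (measure_singleton _)
  have e1 : ∫ t in (0:ℝ)..s, ‖F t - F (t - s)‖ ≤ s * (‖Rf 0‖ + V) := by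
    have h1 : ∫ t in (0:ℝ)..s, ‖F t - F (t - s)‖ ≤ ∫ t in (0:ℝ)..s, (‖Rf 0‖ + V) := by
      rw [intervalIntegral.integral_of_le hs, intervalIntegral.integral_of_le hs]
      apply integral_mono_of_nonneg (Eventually.of_forall fun _ => norm_nonneg _)
      · exact integrableOn_const (by simp) (by simp)
      · rw [EventuallyLE, ae_restrict_iff' measurableSet_Ioc]
        filter_upwards [hne s, hne a] with t h1 h2 ht
        have h3 : t < s := lt_of_le_of_ne ht.2 h1
        have h4 : t - s ∉ Ico 0 a := fun hh => by linarith [hh.1]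
        have h5 : t ∈ Ico 0 a := ⟨ht.1.le, h3.trans_le hsa⟩
        rw [hF, indicator_of_mem h5, indicator_of_notMem h4, sub_zero]
        exact bv_bound ha h ⟨h5.1, h5.2.le⟩
    rwa [intervalIntegral.integral_const, smul_eq_mul, sub_zero] at h1
  have e2 : ∫ t in s..a, ‖F t - F (t - s)‖ ≤ s * V := by
    refine le_trans (le_of_eq ?_) (bv_translate h hs hsa)
    apply intervalIntegral.integral_congr_ae
    filter_upwards [hne a] with t h2 ht
    rw [uIoc_of_le hsa] at ht
    have h4 : t < a := lt_of_le_of_ne ht.2 h2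
    have h5 : t ∈ Ico 0 a := ⟨hs.trans ht.1.le, h4⟩
    have h6 : t - s ∈ Ico 0 a := ⟨by linarith [ht.1], by linarith⟩
    rw [hF, indicator_of_mem h5, indicator_of_mem h6]
  linarith

theorem of_bv {Rf : ℝ → ℂ} {C : ℝ}
    (h : ∀ x ∈ Ioo (0:ℝ) 1, eVariationOn Rf (Icc 0 (1-x)) ≤ ENNReal.ofReal (C/x)) :
    ∃ (R : ℕ → L1) (K : ℝ), vd.RFam R K ∧
      (∀ n, ∀ᵐ t, t ∈ Ico 0 (al n) → Rf t = rep (R n) t) := by
  set C' := max C 0 with hC'
  have hC'0 : 0 ≤ C' := le_max_right _ _
  have hx : ∀ n : ℕ, 1 ≤ n → (1 - al n) ∈ Ioo (0:ℝ) 1 := by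
    intro n hn
    refine ⟨by linarith [al_lt_one n], ?_⟩
    have : al 1 ≤ al n := al_mono hn
    rw [al_one] at this
    linarith
  have hbv1 : ∀ n, 1 ≤ n → eVariationOn Rf (Icc 0 (al n)) ≤ ENNReal.ofReal (C' * 2^n) := by
    intro n hn
    have h1 := h _ (hx n hn)
    rw [sub_sub_cancel] at h1
    refine h1.trans (ENNReal.ofReal_le_ofReal ?_)
    have h2 : 1 - al n = (1/2)^n := by unfold al; ring
    rw [h2, div_eq_mul_inv, one_div, inv_pow, inv_inv]
    exact mul_le_mul_of_nonneg_right (le_max_left _ _) (by positivity)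
  have hbv : ∀ n, BoundedVariationOn Rf (Icc 0 (al n)) := by
    intro n
    rcases Nat.eq_zero_or_pos n with h0 | hpos
    · rw [h0, al_zero, Icc_self, BoundedVariationOn]
      rw [eVariationOn.subsingleton _ subsingleton_singleton]
      exact ENNReal.zero_ne_top
    · exact ne_top_of_le_ne_top ENNReal.ofReal_ne_top (hbv1 n hpos)
  have hF := fun n => trunc_integrable (al_nonneg n) (hbv n)
  set R : ℕ → L1 := fun n => mk ((Ico 0 (al n)).indicator Rf) (hF n) with hR
  have hrep : ∀ n, rep (R n) =ᵐ[volume] (Ico 0 (al n)).indicator Rf := by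
    intro n
    refine (rep_mk _ _).trans (Eventually.of_forall fun t => ?_)
    by_cases ht : t ∈ Ico (0:ℝ) 1
    · rw [indicator_of_mem ht]
    · rw [indicator_of_notMem ht, indicator_of_notMem]
      exact fun hh => ht ⟨hh.1, hh.2.trans (al_lt_one n)⟩
  refine ⟨R, ‖Rf 0‖ + 2 * C', ⟨by positivity, ?_, ?_⟩, ?_⟩
  · intro n
    apply ext_rep
    change rep (P (al n) (R (n+1))) =ᵐ[volume] _
    filter_upwards [rep_P' (al n) (R (n+1)), hrep n, hrep (n+1)] with t h1 h2 h3
    rw [h1, h2]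
    by_cases ht : t < al n
    · rw [indicator_of_mem (show t ∈ Iio (al n) from ht), h3]
      by_cases ht0 : 0 ≤ t
      · rw [indicator_of_mem (show t ∈ Ico 0 (al n) from ⟨ht0, ht⟩),
          indicator_of_mem (show t ∈ Ico 0 (al (n+1)) from ⟨ht0, ht.trans_le (al_mono (Nat.le_succ n))⟩)]
      · rw [indicator_of_notMem (fun hh => ht0 hh.1), indicator_of_notMem (fun hh => ht0 hh.1)]
    · rw [indicator_of_notMem (show t ∉ Iio (al n) from ht), indicator_of_notMem (fun hh => ht hh.2)]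
  · intro n
    rcases Nat.eq_zero_or_pos n with h0 | hpos
    · unfold VD.Lip
      filter_upwards [self_mem_nhdsWithin] with s hs
      have hs' : (0:ℝ) < s := hs
      rw [h0, al_zero, vd.P_nonpos 0 le_rfl, norm_zero]
      positivity
    · unfold VD.Lip
      have hal : 0 < al n := by
        have : al 1 ≤ al n := al_mono hpos
        rw [al_one] at this
        linarith
      filter_upwards [self_mem_nhdsWithin, Ioo_mem_nhdsGT hal] with s hs hs2
      have hs' : (0:ℝ) < s := hs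
      have h1 := bv_lip (al_nonneg n) (al_lt_one n).le (hbv n) (hrep n) hs'.le hs2.2.le
      change ‖P (al n) (R n - S s (R n))‖ ≤ _
      refine h1.trans ?_
      have h2 : (eVariationOn Rf (Icc 0 (al n))).toReal ≤ C' * 2^n :=
        ENNReal.toReal_le_of_le_ofReal (by positivity) (hbv1 n hpos)
      have h3 : (1:ℝ) ≤ 2^n := one_le_pow₀ (by norm_num)
      have h4 : ‖Rf 0‖ ≤ ‖Rf 0‖ * 2^n := le_mul_of_one_le_right (norm_nonneg _) h3
      calc s * (‖Rf 0‖ + 2 * (eVariationOn Rf (Icc 0 (al n))).toReal)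
          ≤ s * (‖Rf 0‖ * 2^n + 2 * (C' * 2^n)) := by gcongr
        _ = (‖Rf 0‖ + 2 * C') * 2^n * s := by ring
  · intro n
    filter_upwards [hrep n] with t h1 h2
    rw [h1, indicator_of_mem h2]

end L1

end Volt
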