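import Pool.Agent.Helper56.Volt.BV2

/-!
Concrete form of the orbit theorem.
-/

set_option linter.deprecated false

namespace Volt

open MeasureTheory Set Filter Topology

namespace L1

lemma cv_rep (f g : L1) {t : ℝ} (ht : t ∈ Ico (0:ℝ) 1) :
    cv (rep f) (rep g) t = ∫ s in (0:ℝ)..t, f s * g (t - s) := by
  rw [intervalIntegral.integral_of_le ht.1, ← integral_Icc_eq_integral_Ioc,
    ← integral_indicator measurableSet_Icc]
  simp only [cv]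
  congr 1; ext r
  by_cases hr : r ∈ Icc 0 t
  · have h1 : r ∈ Ico (0:ℝ) 1 := ⟨hr.1, hr.2.trans_lt ht.2⟩
    have h2 : t - r ∈ Ico (0:ℝ) 1 := ⟨by linarith [hr.2], by linarith [hr.1, ht.2]⟩
    rw [indicator_of_mem hr, rep, rep, indicator_of_mem h1, indicator_of_mem h2]
  · rw [indicator_of_notMem hr]
    rcases lt_or_ge r 0 with h | h
    · rw [(sup_rep f).lt h, zero_mul]
    · have h2 : t < r := by
        by_contra h3
        exact hr ⟨h, not_lt.1 h3⟩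
      rw [(sup_rep g).lt (show t - r < 0 by linarith), mul_zero]

lemma ae_mu0_Ico : ∀ᵐ t ∂mu0, t ∈ Ico (0:ℝ) 1 := by
  rw [mu0_eq]
  exact ae_restrict_mem measurableSet_Ico

lemma coe_mul (f g : L1) : ∀ᵐ t ∂mu0, (f * g : L1) t = ∫ s in (0:ℝ)..t, f s * g (t - s) := by
  have h1 : ∀ᵐ t ∂mu0, rep (conv f g) t = (Ico (0:ℝ) 1).indicator (cv (rep f) (rep g)) t :=
    ae_restrict_of_ae (rep_conv f g)
  filter_upwards [coe_ae_rep (f * g), h1, ae_mu0_Ico] with t h2 h3 h4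
  rw [h2]
  change rep (conv f g) t = _
  rw [h3, indicator_of_mem h4, cv_rep f g h4]

/-- the product relation -/
lemma isConv_iff (f g h : L1) :
    (∀ᵐ t ∂mu0, h t = ∫ s in (0:ℝ)..t, f s * g (t - s)) ↔ h = f * g := by
  constructor
  · intro H
    apply Lp.ext
    filter_upwards [H, coe_mul f g] with t h1 h2
    rw [h1, h2]
  · rintro rfl
    exact coe_mul f g

lemma coe_u : ∀ᵐ t ∂mu0, u t = 1 := by
  have h1 : ∀ᵐ t ∂mu0, rep u t = uf t := ae_restrict_of_ae rep_u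
  filter_upwards [coe_ae_rep u, h1, ae_mu0_Ico] with t h2 h3 h4
  rw [h2, h3, uf_mem h4]

lemma eq_u {v : L1} (h : ∀ᵐ t ∂mu0, v t = 1) : v = u := by
  apply Lp.ext
  filter_upwards [h, coe_u] with t h1 h2
  rw [h1, h2]

/-- translation of the equation -/
lemma eqn_iff {R : ℕ → L1} {Rf : ℝ → ℂ} (hR : ∀ n, ∀ᵐ t, t ∈ Ico 0 (al n) → Rf t = rep (R n) t)
    (g : L1) : (∀ n, P (al n) g = P (al n) (u + u * R n)) ↔
      ∀ᵐ t ∂mu0, g t = 1 + ∫ s in (0:ℝ)..t, Rf s := by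
  have hint : ∀ n, ∀ t ∈ Ico 0 (al n), ∫ s in (0:ℝ)..t, Rf s = ∫ s in (0:ℝ)..t, rep (R n) s := by
    intro n t ht
    apply intervalIntegral.integral_congr_ae
    filter_upwards [hR n] with s hs hs2
    rw [uIoc_of_le ht.1] at hs2
    exact hs ⟨hs2.1.le, hs2.2.trans_lt ht.2⟩
  have hrhs : ∀ n, ∀ᵐ t, t ∈ Ico 0 (al n) → rep (u + u * R n) t = 1 + ∫ s in (0:ℝ)..t, Rf s := by
    intro n
    filter_upwards [rep_add u (u * R n), rep_u, rep_u_mul (R n)] with t h1 h2 h3 h4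
    have h5 : t ∈ Ico (0:ℝ) 1 := ⟨h4.1, h4.2.trans (al_lt_one n)⟩
    rw [h1, h2, h3, uf_mem h5, indicator_of_mem h5, hint n t h4]
  constructor
  · intro h
    have h1 : ∀ᵐ t, ∀ n, t ∈ Ico 0 (al n) → rep g t = 1 + ∫ s in (0:ℝ)..t, Rf s := by
      rw [ae_all_iff]
      intro n
      filter_upwards [hrhs n, P_eq_iff.1 (h n)] with t h2 h3 h4
      rw [h3 h4.2, h2 h4]
    filter_upwards [coe_ae_rep g, ae_restrict_of_ae h1, ae_mu0_Ico] with t h2 h3 h4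
    obtain ⟨n, hn⟩ := (al_tendsto.eventually (lt_mem_nhds h4.2)).exists
    rw [h2, h3 n ⟨h4.1, hn⟩]
  · intro h n
    rw [P_eq_iff]
    have h1 : ∀ᵐ t, t ∈ Icc (0:ℝ) 1 → g t = 1 + ∫ s in (0:ℝ)..t, Rf s :=
      (ae_restrict_iff' measurableSet_Icc).1 h
    filter_upwards [hrhs n, h1] with t h2 h3 h4
    by_cases h5 : 0 ≤ t
    · have h6 : t ∈ Ico (0:ℝ) 1 := ⟨h5, h4.trans (al_lt_one n)⟩
      rw [h2 ⟨h5, h4⟩, ← h3 (Ico_subset_Icc_self h6), rep, indicator_of_mem h6]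
    · rw [(sup_rep g).lt (not_le.1 h5), (sup_rep _).lt (not_le.1 h5)]

/-- **Orbit of `u`, concrete form.** -/
theorem orbit_u (g : L1) :
    (∃ T : L1 →ₗ[ℂ] L1, Function.Bijective T ∧ (∀ f h, T (f * h) = T f * T h) ∧ T u = g) ↔
    ∃ (Rf : ℝ → ℂ) (C : ℝ),
      (∀ x ∈ Ioo (0:ℝ) 1, eVariationOn Rf (Icc 0 (1-x)) ≤ ENNReal.ofReal (C/x)) ∧
      ∀ᵐ t ∂mu0, g t = 1 + ∫ s in (0:ℝ)..t, Rf s := by
  rw [show (∃ T : L1 →ₗ[ℂ] L1, Function.Bijective T ∧ (∀ f h, T (f * h) = T f * T h) ∧ T u = g)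
    ↔ _ from vd.orbit g]
  constructor
  · rintro ⟨R, K, hR, hg⟩
    obtain ⟨Rf, h1, h2⟩ := exists_bv hR
    exact ⟨Rf, 2 * K, h1, (eqn_iff h2 g).1 hg⟩
  · rintro ⟨Rf, C, h1, h2⟩
    obtain ⟨R, K, hR, h3⟩ := of_bv h1
    exact ⟨R, K, hR, (eqn_iff h3 g).2 h2⟩

end L1

end Volt
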