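import Pool.Agent.Helper56.Volt.Poly

/-!
Concrete description of all automorphisms.
-/

set_option linter.deprecated false

namespace Volt

open MeasureTheory Set Filter Topology

namespace L1

/-- `b` is the derivative of `N * a` on `[0,1)` -/
def DConv (N a b : ℝ → ℂ) : Prop :=
  (∀ x ∈ Ico (0:ℝ) 1, IntegrableOn b (Icc 0 x)) ∧
  ∀ᵐ t ∂mu0, ∫ s in (0:ℝ)..t, b s = ∫ s in (0:ℝ)..t, N (t - s) * a s

/-- local representation -/
def Loc (a : ℝ → ℂ) (Z : ℕ → L1) : Prop := ∀ n, ∀ᵐ t, t ∈ Ico 0 (al n) → a t = rep (Z n) t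

lemma cv_interval {F G : ℝ → ℂ} (hF : ∀ t, t < 0 → F t = 0) (hG : ∀ t, t < 0 → G t = 0) {t : ℝ}
    (ht : 0 ≤ t) : cv F G t = ∫ s in (0:ℝ)..t, F s * G (t - s) := by
  rw [intervalIntegral.integral_of_le ht, ← integral_Icc_eq_integral_Ioc,
    ← integral_indicator measurableSet_Icc]
  simp only [cv]
  congr 1; ext r
  by_cases hr : r ∈ Icc 0 t
  · rw [indicator_of_mem hr]
  · rw [indicator_of_notMem hr]
    rcases lt_or_ge r 0 with h | h
    · rw [hF r h, zero_mul]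
    · have h2 : t < r := by
        by_contra h3
        exact hr ⟨h, not_lt.1 h3⟩
      rw [hG (t - r) (by linarith), mul_zero]

lemma ae_reflect {p : ℝ → Prop} (h : ∀ᵐ r, p r) (t : ℝ) : ∀ᵐ r, p (t - r) :=
  (Measure.measurePreserving_sub_left volume t).quasiMeasurePreserving.ae h

lemma ae_ne (c : ℝ) : ∀ᵐ t : ℝ, t ≠ c := compl_mem_ae_iff.2 (measure_singleton _)

lemma conv_local {N a : ℝ → ℂ} {Nn Z : ℕ → L1} (hN : Loc N Nn) (ha : Loc a Z) (n : ℕ) {t : ℝ}
    (ht : t ∈ Ico 0 (al n)) :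
    ∫ s in (0:ℝ)..t, N (t - s) * a s = cv (rep (Nn n)) (rep (Z n)) t := by
  rw [cv_comm, cv_interval (fun _ => (sup_rep _).lt) (fun _ => (sup_rep _).lt) ht.1]
  apply intervalIntegral.integral_congr_ae
  filter_upwards [ha n, ae_reflect (hN n) t] with s h1 h2 hs
  rw [uIoc_of_le ht.1] at hs
  rw [h1 ⟨hs.1.le, hs.2.trans_lt ht.2⟩, h2 ⟨by linarith [hs.2], by linarith [hs.1, ht.2]⟩, mul_comm]

lemma conv_local' {N a : ℝ → ℂ} {Nn Z : ℕ → L1} (hN : Loc N Nn) (ha : Loc a Z)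
    {C : ℕ → L1 →L[ℂ] L1} {K : ℝ} (hC : vd.CFam C K) (hCN : ∀ n, C n u = Nn n) (n : ℕ) :
    ∀ᵐ t, t ∈ Ico 0 (al n) →
      ∫ s in (0:ℝ)..t, N (t - s) * a s = ∫ s in (0:ℝ)..t, rep (C n (Z n)) s := by
  have h1 : P (al n) (u * C n (Z n)) = P (al n) (Nn n * Z n) := by
    rw [← hCN]
    exact ((hC.mul n).comm_apply u (Z n)).symm
  filter_upwards [P_eq_iff.1 h1, rep_u_mul (C n (Z n)), rep_conv (Nn n) (Z n)] with t h2 h3 h4 ht
  have h5 : t ∈ Ico (0:ℝ) 1 := ⟨ht.1, ht.2.trans (al_lt_one n)⟩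
  rw [conv_local hN ha n ht]
  have h6 := h2 ht.2
  rw [h3, indicator_of_mem h5] at h6
  have h7 : rep (Nn n * Z n) t = (Ico (0:ℝ) 1).indicator (cv (rep (Nn n)) (rep (Z n))) t := h4
  rw [h6, h7, indicator_of_mem h5]

lemma loc_integrable {b : ℝ → ℂ} {Z : ℕ → L1} (hb : Loc b Z) {x : ℝ} (hx : x < 1) :
    IntegrableOn b (Icc 0 x) := by
  obtain ⟨n, hn⟩ := (al_tendsto.eventually (lt_mem_nhds hx)).exists
  have h1 : IntegrableOn (rep (Z n)) (Icc 0 x) := (integrable_rep (Z n)).integrableOn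
  refine h1.congr ?_
  rw [EventuallyEq, ae_restrict_iff' measurableSet_Icc]
  filter_upwards [hb n] with t ht h2
  exact (ht ⟨h2.1, h2.2.trans_lt hn⟩).symm

lemma dconv_iff {N a b : ℝ → ℂ} {Nn Z : ℕ → L1} (hN : Loc N Nn) (ha : Loc a Z)
    {C : ℕ → L1 →L[ℂ] L1} {K : ℝ} (hC : vd.CFam C K) (hCN : ∀ n, C n u = Nn n) :
    DConv N a b ↔ Loc b (fun n => C n (Z n)) := by
  constructor
  · rintro ⟨hb, h⟩ n
    rcases Nat.eq_zero_or_pos n with h0 | hpos
    · refine Eventually.of_forall fun t ht => ?_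
      rw [h0, al_zero] at ht
      exact absurd (ht.1.trans_lt ht.2) (lt_irrefl _)
    have h' : ∀ᵐ t, t ∈ Icc (0:ℝ) 1 → ∫ s in (0:ℝ)..t, b s = ∫ s in (0:ℝ)..t, N (t - s) * a s :=
      (ae_restrict_iff' measurableSet_Icc).1 h
    set F : ℝ → ℂ := (Ico 0 (al n)).indicator (fun t => b t - rep (C n (Z n)) t) with hF
    have hFi : Integrable F := by
      rw [hF, integrable_indicator_iff measurableSet_Ico]
      exact ((hb _ ⟨al_nonneg n, al_lt_one n⟩).mono_set Ico_subset_Icc_self).sub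
        (integrable_rep _).integrableOn
    have hprim : ∀ t ∈ Ico 0 (al n), ∫ s in (0:ℝ)..t, F s
        = (∫ s in (0:ℝ)..t, b s) - ∫ s in (0:ℝ)..t, rep (C n (Z n)) s := by
      intro t ht
      rw [← intervalIntegral.integral_sub]
      · apply intervalIntegral.integral_congr
        intro s hs
        rw [uIcc_of_le ht.1] at hs
        exact indicator_of_mem (show s ∈ Ico 0 (al n) from ⟨hs.1, hs.2.trans_lt ht.2⟩) _
      · rw [intervalIntegrable_iff_integrableOn_Icc_of_le ht.1]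
        exact hb t ⟨ht.1, ht.2.trans (al_lt_one n)⟩
      · exact (integrable_rep _).intervalIntegrable
    have hz : ∀ᵐ t, t ∈ Ioo 0 (al n) → ∫ s in (0:ℝ)..t, F s = 0 := by
      filter_upwards [h', conv_local' hN ha hC hCN n] with t h1 h2 ht
      have h3 : t ∈ Ico 0 (al n) := ⟨ht.1.le, ht.2⟩
      rw [hprim t h3, h1 ⟨ht.1.le, (ht.2.trans (al_lt_one n)).le⟩, h2 h3, sub_self]
    have hz2 : EqOn (fun t => ∫ s in (0:ℝ)..t, F s) (fun _ => 0) (Ioo 0 (al n)) := by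
      apply Measure.eqOn_open_of_ae_eq (μ := volume) _ isOpen_Ioo
      · exact (intervalIntegral.continuous_primitive
          (fun _ _ => hFi.intervalIntegrable) 0).continuousOn
      · exact continuousOn_const
      · rw [EventuallyEq, ae_restrict_iff' measurableSet_Ioo]
        exact hz
    have hz3 := ae_zero_of_primitive_zero hFi (T := al n) hz2
    filter_upwards [hz3, ae_ne 0] with t h1 h2 h3
    have h4 := h1 ⟨lt_of_le_of_ne h3.1 (Ne.symm h2), h3.2⟩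
    rw [hF, indicator_of_mem h3, sub_eq_zero] at h4
    exact h4
  · intro hb
    refine ⟨fun x hx => loc_integrable hb hx.2, ?_⟩
    have h1 : ∀ᵐ t, ∀ n, t ∈ Ico 0 (al n) →
        ∫ s in (0:ℝ)..t, N (t - s) * a s = ∫ s in (0:ℝ)..t, rep (C n (Z n)) s :=
      ae_all_iff.2 fun n => conv_local' hN ha hC hCN n
    filter_upwards [ae_restrict_of_ae h1, ae_mu0_Ico] with t h2 h3
    obtain ⟨n, hn⟩ := (al_tendsto.eventually (lt_mem_nhds h3.2)).exists
    rw [h2 n ⟨h3.1, hn⟩]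
    apply intervalIntegral.integral_congr_ae
    filter_upwards [hb n] with s hs hs2
    rw [uIoc_of_le h3.1] at hs2
    exact hs ⟨hs2.1.le, hs2.2.trans_lt hn⟩

/-- gluing -/
lemma exists_glue {Z : ℕ → L1} (hZ : ∀ n, P (al n) (Z (n+1)) = P (al n) (Z n)) :
    ∃ z : ℝ → ℂ, Loc z Z := by
  classical
  have hZ' : ∀ m n, m ≤ n → P (al m) (Z n) = P (al m) (Z m) := by
    intro m n hmn
    induction n, hmn using Nat.le_induction with
    | base => rfl
    | succ n hn ih => 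
      rw [← ih]
      have h1 := congrArg (P (al m)) (hZ n)
      rwa [P_P, P_P, min_eq_left (al_mono hn)] at h1
  set k : ℝ → ℕ := fun t => if h : t < 1 then Nat.find (exists_al' h) else 0 with hk
  have hk1 : ∀ t, t < 1 → t ≤ al (k t) := by
    intro t ht
    simp only [hk, dif_pos ht]
    exact Nat.find_spec (exists_al' ht)
  have hk2 : ∀ t n, t ≤ al n → k t ≤ n := by
    intro t n htn
    have ht : t < 1 := htn.trans_lt (al_lt_one n)
    simp only [hk, dif_pos ht]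
    exact Nat.find_min' _ htn
  refine ⟨fun t => rep (Z (k t)) t, ?_⟩
  intro n
  have h1 : ∀ᵐ t, ∀ m, m ≤ n → t < al m → rep (Z m) t = rep (Z n) t := by
    rw [ae_all_iff]
    intro m
    by_cases hmn : m ≤ n
    · filter_upwards [P_eq_iff.1 (hZ' m n hmn).symm] with t ht _ h2
      exact ht h2
    · exact Eventually.of_forall fun t h => absurd h hmn
  have h2 : ∀ᵐ t, ∀ m, t ≠ al m := ae_all_iff.2 fun m => ae_ne (al m)
  filter_upwards [h1, h2] with t h3 h4 h5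
  have h6 : k t ≤ n := hk2 t n h5.2.le
  exact h3 (k t) h6 (lt_of_le_of_ne (hk1 t (h5.2.trans (al_lt_one n))) (h4 _))

lemma norm_P_eq {a : ℝ} (ha0 : 0 ≤ a) (f : L1) : ‖P a f‖ = ∫ t in (0:ℝ)..a, ‖rep f t‖ := by
  rw [norm_eq]
  have h1 : ∫ t, ‖rep (P a f) t‖ = ∫ t, (Ico (0:ℝ) a).indicator (fun t => ‖rep f t‖) t := by
    apply integral_congr_ae
    filter_upwards [rep_P' a f] with t h1
    rw [h1]
    by_cases hta : t < a
    · rw [indicator_of_mem (show t ∈ Iio a from hta)]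
      by_cases ht0 : 0 ≤ t
      · rw [indicator_of_mem (show t ∈ Ico 0 a from ⟨ht0, hta⟩)]
      · rw [indicator_of_notMem (fun hh => ht0 hh.1), (sup_rep f).lt (not_le.1 ht0), norm_zero]
    · rw [indicator_of_notMem (show t ∉ Iio a from hta), indicator_of_notMem (fun hh => hta hh.2),
        norm_zero]
  rw [h1, integral_indicator measurableSet_Ico, integral_Ico_eq_integral_Ioc,
    ← intervalIntegral.integral_of_le ha0]

/-- the series expansion -/
def Expands (N : ℝ → ℂ) (f g : L1) : Prop := ∃ y : ℕ → ℕ → ℝ → ℂ,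
  (∀ j, y j 0 = fun t : ℝ => (t:ℂ)^j * f t) ∧
  (∀ j i, DConv N (y j i) (y j (i+1))) ∧
  ∀ x ∈ Ico (0:ℝ) 1, Tendsto (fun m : ℕ => ∫ t in (0:ℝ)..x,
    ‖g t - ∑ j ∈ Finset.range m, ((-1)^j / (Nat.factorial j : ℂ)) * y j j t‖) atTop (𝓝 0)

lemma loc_base (f : L1) (j : ℕ) : Loc (fun t : ℝ => (t:ℂ)^j * f t) (fun _ => (X ^ j) f) := by
  intro n
  filter_upwards [rep_X_pow j f] with t h1 h2
  have h3 : t ∈ Ico (0:ℝ) 1 := ⟨h2.1, h2.2.trans (al_lt_one n)⟩
  rw [h1, rep, indicator_of_mem h3]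

lemma neg_pow_apply (C : L1 →L[ℂ] L1) (m : ℕ) (w : L1) :
    ((-C) ^ m) w = ((-1:ℂ)^m) • (C ^ m) w := by
  induction m with
  | zero => simp
  | succ m ih =>
    rw [pow_succ', ContinuousLinearMap.mul_apply, ih, ContinuousLinearMap.neg_apply, map_smul,
      pow_succ' C, ContinuousLinearMap.mul_apply, pow_succ' (-1:ℂ), neg_one_mul, neg_smul]

section

variable {N : ℝ → ℂ} {Nn : ℕ → L1} (hN : Loc N Nn) {C : ℕ → L1 →L[ℂ] L1} {K : ℝ}
  (hC : vd.CFam C K) (hCN : ∀ n, C n u = Nn n)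

include hN hC hCN in
lemma loc_iter {f : L1} {y : ℕ → ℕ → ℝ → ℂ} (h0 : ∀ j, y j 0 = fun t : ℝ => (t:ℂ)^j * f t)
    (h1 : ∀ j i, DConv N (y j i) (y j (i+1))) (j i : ℕ) :
    Loc (y j i) (fun n => (C n ^ i) ((X ^ j) f)) := by
  induction i with
  | zero =>
    rw [h0]
    exact loc_base f j
  | succ i ih =>
    have h2 := (dconv_iff hN ih hC hCN).1 (h1 j i)
    intro n
    have h3 := h2 n
    simp only [pow_succ', ContinuousLinearMap.mul_apply]
    exact h3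

lemma partial_sum_rep {f : L1} {y : ℕ → ℕ → ℝ → ℂ}
    (hy : ∀ j, Loc (y j j) (fun n => (C n ^ j) ((X ^ j) f))) (n m : ℕ) :
    ∀ᵐ t, t ∈ Ico 0 (al n) → ∑ j ∈ Finset.range m, ((-1)^j / (Nat.factorial j : ℂ)) * y j j t
      = rep (∑ j ∈ Finset.range m, vd.tt (C n) j f) t := by
  induction m with
  | zero =>
    simp only [Finset.range_zero, Finset.sum_empty]
    filter_upwards [rep_zero] with t ht _
    exact ht.symm
  | succ m ih =>
    have e : vd.tt (C n) m f = ((-1)^m / (Nat.factorial m : ℂ)) • (C n ^ m) ((X ^ m) f) := by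
      rw [VD.tt_apply, neg_pow_apply]
      change _ • (_ • (C n ^ m) ((X ^ m) f)) = _
      rw [smul_smul]
      congr 1
      ring
    filter_upwards [ih, hy m n, rep_add (∑ j ∈ Finset.range m, vd.tt (C n) j f) (vd.tt (C n) m f),
      rep_smul ((-1)^m / (Nat.factorial m : ℂ)) ((C n ^ m) ((X ^ m) f))] with t h1 h2 h3 h4 h5
    rw [Finset.sum_range_succ, Finset.sum_range_succ, h3, h1 h5, e, h4, h2 h5]

lemma tendsto_iff_eq {f g : L1} {y : ℕ → ℕ → ℝ → ℂ}
    (hy : ∀ j, Loc (y j j) (fun n => (C n ^ j) ((X ^ j) f))) (n : ℕ) {x : ℝ} (hx0 : 0 ≤ x)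
    (hx : x ≤ al n) :
    Tendsto (fun m : ℕ => ∫ t in (0:ℝ)..x,
      ‖g t - ∑ j ∈ Finset.range m, ((-1)^j / (Nat.factorial j : ℂ)) * y j j t‖) atTop (𝓝 0) ↔
    P x g = P x (vd.TT (C n) f) := by
  have h1 : ∀ m, ∫ t in (0:ℝ)..x,
      ‖g t - ∑ j ∈ Finset.range m, ((-1)^j / (Nat.factorial j : ℂ)) * y j j t‖
      = ‖P x g - P x (∑ j ∈ Finset.range m, vd.tt (C n) j f)‖ := by
    intro m
    rw [← map_sub, norm_P_eq hx0]
    apply intervalIntegral.integral_congr_ae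
    filter_upwards [partial_sum_rep hy n m, rep_sub g (∑ j ∈ Finset.range m, vd.tt (C n) j f),
      ae_ne (al n)] with t h1 h2 h3 h4
    rw [uIoc_of_le hx0] at h4
    have h5 : t ∈ Ico 0 (al n) := ⟨h4.1.le, lt_of_le_of_ne (h4.2.trans hx) h3⟩
    have h6 : t ∈ Ico (0:ℝ) 1 := ⟨h5.1, h5.2.trans (al_lt_one n)⟩
    rw [h1 h5, h2]
    congr 2
    rw [rep, indicator_of_mem h6]
  have h2 : Tendsto (fun m : ℕ => P x (∑ j ∈ Finset.range m, vd.tt (C n) j f)) atTop
      (𝓝 (P x (vd.TT (C n) f))) :=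
    ((P x).continuous.tendsto _).comp (vd.hasSum_TT_apply (C n) f).tendsto_sum_nat
  simp only [h1]
  have h3 : Tendsto (fun m : ℕ => P x (∑ j ∈ Finset.range m, vd.tt (C n) j f)) atTop
      (𝓝 (P x g)) ↔ Tendsto (fun m : ℕ =>
        ‖P x g - P x (∑ j ∈ Finset.range m, vd.tt (C n) j f)‖) atTop (𝓝 0) := by
    rw [tendsto_iff_norm_sub_tendsto_zero]
    simp only [norm_sub_rev]
  rw [← h3]
  constructor
  · intro h
    exact (tendsto_nhds_unique h h2)
  · intro h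
    rw [h]; exact h2

end

/-- the class of functions -/
def BVC (N : ℝ → ℂ) : Prop :=
  ∃ C : ℝ, ∀ x ∈ Ioo (0:ℝ) 1, eVariationOn N (Icc 0 (1-x)) ≤ ENNReal.ofReal (C/x)

lemma pow_compat {C : ℕ → L1 →L[ℂ] L1} {K : ℝ} (hC : vd.CFam C K) (n i : ℕ) (w : L1) :
    P (al n) ((C (n+1) ^ i) w) = P (al n) ((C n ^ i) w) := by
  apply VD.P_pow_congr (V := vd) (b := al n)
  · intro f
    have := congrArg (fun T : L1 →L[ℂ] L1 => T f) (hC.compat n)
    simp only [ContinuousLinearMap.mul_apply] at this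
    rw [this, (hC.mul n).P_apply]
  · intro f
    rw [(hC.mul n).apply_P]

/-- every automorphism has the form of the series -/
theorem aut_to_series (T : L1 →ₗ[ℂ] L1) (hbij : Function.Bijective T)
    (hmul : ∀ f h, T (f * h) = T f * T h) : ∃ N : ℝ → ℂ, BVC N ∧ ∀ f, Expands N f (T f) := by
  obtain ⟨C, K, hC, hT⟩ := VD.aut_form (V := vd) span_dense T hbij hmul
  have hR : vd.RFam (fun n => C n u) K := hC.toN
  obtain ⟨N, hN1, hN2⟩ := exists_bv hR
  refine ⟨N, ⟨2 * K, hN1⟩, fun f => ?_⟩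
  have hN : Loc N (fun n => C n u) := hN2
  have hglue : ∀ j i : ℕ, ∃ z : ℝ → ℂ, Loc z (fun n => (C n ^ (i+1)) ((X ^ j) f)) := fun j i =>
    exists_glue fun n => pow_compat hC n (i+1) _
  choose z hz using hglue
  set y : ℕ → ℕ → ℝ → ℂ := fun j i => match i with
    | 0 => fun t : ℝ => (t:ℂ)^j * f t
    | i+1 => z j i with hy
  have hyl : ∀ j i, Loc (y j i) (fun n => (C n ^ i) ((X ^ j) f)) := by
    intro j i
    cases i with
    | zero => exact loc_base f j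
    | succ i => exact hz j i
  refine ⟨y, fun j => rfl, ?_, ?_⟩
  · intro j i
    rw [dconv_iff hN (hyl j i) hC (fun n => rfl)]
    have h1 := hyl j (i+1)
    intro n
    have h2 := h1 n
    simp only [pow_succ', ContinuousLinearMap.mul_apply] at h2
    exact h2
  · intro x hx
    obtain ⟨n, hn⟩ := exists_al' hx.2
    rw [tendsto_iff_eq (fun j => hyl j j) n hx.1 hn]
    have h1 := congrArg (P x) (hT n f)
    change P x (P (al n) (T f)) = P x (P (al n) (vd.TT (C n) f)) at h1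
    rwa [P_P, P_P, min_eq_left hn] at h1

/-- every function of the class gives an automorphism -/
theorem series_to_aut {N : ℝ → ℂ} (hN : BVC N) : ∃ T : L1 →ₗ[ℂ] L1, Function.Bijective T ∧
    (∀ f h, T (f * h) = T f * T h) ∧ ∀ f g, Expands N f g → g = T f := by
  obtain ⟨c, hc⟩ := hN
  obtain ⟨Nn, K, hR, hNn⟩ := of_bv hc
  obtain ⟨C, hC, hCN⟩ := hR.toMul
  obtain ⟨T, hT1, hT2, hT3⟩ := VD.form_aut hC
  refine ⟨T, hT1, hT2, ?_⟩
  rintro f g ⟨y, h0, h1, h2⟩
  have hyl := loc_iter (C := C) hNn hC hCN h0 h1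
  apply VD.ext_al (V := vd)
  intro n
  have h3 := (tendsto_iff_eq (g := g) (fun j => hyl j j) n (al_nonneg n) le_rfl).1
    (h2 _ ⟨al_nonneg n, al_lt_one n⟩)
  exact h3.trans (hT3 n f).symm

/-- **All pairs.** -/
theorem pairs (f g : L1) :
    (∃ T : L1 →ₗ[ℂ] L1, Function.Bijective T ∧ (∀ f h, T (f * h) = T f * T h) ∧ T f = g) ↔
    ∃ N : ℝ → ℂ, BVC N ∧ Expands N f g := by
  constructor
  · rintro ⟨T, hbij, hmul, rfl⟩
    obtain ⟨N, hN, h⟩ := aut_to_series T hbij hmul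
    exact ⟨N, hN, h f⟩
  · rintro ⟨N, hN, h⟩
    obtain ⟨T, hbij, hmul, hT⟩ := series_to_aut hN
    exact ⟨T, hbij, hmul, (hT f g h).symm⟩

end L1

end Volt
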