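import Mathlib

/-!
Abstract axiomatisation of the Volterra algebra `L¹[0,1]` used for the determination of the orbit of
the constant function `1` under the automorphism group.
-/

namespace Volt

open Filter Topology

/-- The data of the Volterra algebra: unit function `u`, multiplication by `t` (`X`), right shifts
`S s`, left shifts `R s`, truncations `P a` (multiplication by the indicator of `[0,a)`), and
integration `I`. -/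
structure VD (A : Type*) [NonUnitalNormedCommRing A] [NormedSpace ℂ A] where
  u : A
  X : A →L[ℂ] A
  S : ℝ → A →L[ℂ] A
  R : ℝ → A →L[ℂ] A
  P : ℝ → A →L[ℂ] A
  I : A →L[ℂ] ℂ
  X_mul : ∀ f g, X (f * g) = X f * g + f * X g
  X_u : X u = u * u
  X_P_norm : ∀ a, 0 ≤ a → ∀ f, ‖X (P a f)‖ ≤ a * ‖P a f‖
  le_X_norm : ∀ a, 0 ≤ a → ∀ f, P a f = 0 → a * ‖f‖ ≤ ‖X f‖
  P_P : ∀ a b f, P a (P b f) = P (min a b) f
  P_nonpos : ∀ a, a ≤ 0 → ∀ f, P a f = 0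
  P_one_le : ∀ a, 1 ≤ a → ∀ f, P a f = f
  norm_P_add : ∀ a f, ‖P a f‖ + ‖f - P a f‖ = ‖f‖
  P_cont : ∀ f, Continuous (fun a => P a f)
  P_X : ∀ a f, P a (X f) = X (P a f)
  P_mul : ∀ a f g, P a (f * g) = P a (P a f * g)
  S_zero : ∀ f, S 0 f = f
  S_add : ∀ s r, 0 ≤ s → 0 ≤ r → ∀ f, S (s + r) f = S s (S r f)
  S_mul : ∀ s, 0 ≤ s → ∀ f g, S s (f * g) = S s f * g
  X_S : ∀ s, 0 ≤ s → ∀ f, X (S s f) = S s (X f) + (s : ℂ) • S s f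
  P_S : ∀ a s, 0 ≤ s → ∀ f, P a (S s f) = S s (P (a - s) f)
  norm_S : ∀ s, 0 ≤ s → ∀ f, ‖S s f‖ = ‖P (1 - s) f‖
  R_S : ∀ s, 0 ≤ s → ∀ f, R s (S s f) = P (1 - s) f
  S_R : ∀ s, 0 ≤ s → ∀ f, S s (R s f) = f - P s f
  P_R : ∀ s, 0 ≤ s → ∀ f, P (1 - s) (R s f) = R s f
  u_sub : ∀ h, 0 ≤ h → u - S h u = P h u
  norm_Pu : ∀ h, 0 ≤ h → h ≤ 1 → ‖P h u‖ = h
  I_norm : ∀ k, ‖I k‖ ≤ ‖k‖
  avg : ∀ ε, 0 ≤ ε → ∀ k, P ε k = k → ‖k * u - I k • u‖ ≤ ε * ‖k‖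
  dense : ∀ f : A, f ∈ closure (Set.range (fun g => u * g))
  scalar : ∀ a f, P a (X f) = P a (u * f) → ∃ c : ℂ, P a f = c • P a u
  square : ∀ a, 0 ≤ a → 2 * a ≤ 1 → ∀ f, P (2 * a) (f * f) = 0 → P a f = 0

variable {A : Type*} [NonUnitalNormedCommRing A] [NormedSpace ℂ A]

namespace VD

variable (V : VD A)

lemma norm_P_le (a : ℝ) (f : A) : ‖V.P a f‖ ≤ ‖f‖ := by
  have := V.norm_P_add a f
  have h2 : 0 ≤ ‖f - V.P a f‖ := norm_nonneg _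
  linarith

lemma norm_sub_P_le (a : ℝ) (f : A) : ‖f - V.P a f‖ ≤ ‖f‖ := by
  have := V.norm_P_add a f
  have h2 : 0 ≤ ‖V.P a f‖ := norm_nonneg _
  linarith

lemma norm_P_mono {a b : ℝ} (h : a ≤ b) (f : A) : ‖V.P a f‖ ≤ ‖V.P b f‖ := by
  have := V.norm_P_le a (V.P b f)
  rwa [V.P_P, min_eq_left h] at this

lemma P_P_le {a b : ℝ} (h : a ≤ b) (f : A) : V.P a (V.P b f) = V.P a f := by
  rw [V.P_P, min_eq_left h]

lemma P_P_le' {a b : ℝ} (h : a ≤ b) (f : A) : V.P b (V.P a f) = V.P a f := by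
  rw [V.P_P, min_eq_right h]

@[simp] lemma P_idem (a : ℝ) (f : A) : V.P a (V.P a f) = V.P a f := by
  rw [V.P_P, min_self]

lemma norm_S_le (s : ℝ) (hs : 0 ≤ s) (f : A) : ‖V.S s f‖ ≤ ‖f‖ := by
  rw [V.norm_S s hs]; exact V.norm_P_le _ _

lemma S_one (s : ℝ) (hs : 1 ≤ s) (f : A) : V.S s f = 0 := by
  have h0 : (0:ℝ) ≤ s := by linarith
  rw [← norm_eq_zero, V.norm_S s h0, V.P_nonpos _ (by linarith), norm_zero]

lemma norm_R_le (s : ℝ) (hs : 0 ≤ s) (f : A) : ‖V.R s f‖ ≤ ‖f‖ := by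
  rw [← V.P_R s hs, ← V.norm_S s hs, V.S_R s hs]
  exact V.norm_sub_P_le _ _

lemma P_S_self (s : ℝ) (hs : 0 ≤ s) (f : A) : V.P s (V.S s f) = 0 := by
  rw [V.P_S s s hs, sub_self, V.P_nonpos 0 le_rfl, map_zero]

lemma P_S_le {a s : ℝ} (hs : 0 ≤ s) (h : a ≤ s) (f : A) : V.P a (V.S s f) = 0 := by
  rw [V.P_S a s hs, V.P_nonpos (a - s) (by linarith), map_zero]

lemma P_mul_right (a : ℝ) (f g : A) : V.P a (f * g) = V.P a (f * V.P a g) := by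
  rw [mul_comm, V.P_mul, mul_comm]

lemma norm_P_mul_le (a : ℝ) (f g : A) : ‖V.P a (f * g)‖ ≤ ‖V.P a f‖ * ‖V.P a g‖ := by
  rw [V.P_mul, V.P_mul_right]
  exact (V.norm_P_le _ _).trans (norm_mul_le _ _)

/-- convergence of a bounded compatible family -/
lemma eq_S_of_P_eq_zero {s : ℝ} (hs : 0 ≤ s) {f : A} (hf : V.P s f = 0) :
    V.S s (V.R s f) = f := by
  rw [V.S_R s hs, hf, sub_zero]

lemma norm_X_le (f : A) : ‖V.X f‖ ≤ ‖f‖ := by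
  have := V.X_P_norm 1 zero_le_one f
  rwa [V.P_one_le 1 le_rfl, one_mul] at this

lemma P_tendsto_zero (f : A) : Tendsto (fun a => V.P a f) (𝓝[>] 0) (𝓝 0) := by
  have h := (V.P_cont f).tendsto 0
  rw [V.P_nonpos 0 le_rfl] at h
  exact h.mono_left nhdsWithin_le_nhds

end VD

end Volt
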