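import Pool.Agent.Helper56.Volt.Fam

/-!
The operator `T = ∑ (-1)^j/j! C^j X^j` attached to a local multiplier `C`.
-/

set_option linter.unusedSectionVars false
set_option linter.deprecated false

namespace Volt

open Filter Topology Finset

variable {A : Type*} [NonUnitalNormedCommRing A] [NormedSpace ℂ A] [IsScalarTower ℂ A A]
  [SMulCommClass ℂ A A]

lemma pow_apply_le (M : A →L[ℂ] A) {c : ℝ} (hc : 0 ≤ c) (h : ∀ f, ‖M f‖ ≤ c * ‖f‖) (j : ℕ) (f : A) :
    ‖(M ^ j) f‖ ≤ c ^ j * ‖f‖ := by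
  induction j with
  | zero => simp
  | succ j ih =>
    rw [pow_succ' M, ContinuousLinearMap.mul_apply, pow_succ', mul_assoc]
    exact (h _).trans (mul_le_mul_of_nonneg_left ih hc)

namespace VD

variable (V : VD A)

/-- terms of the series -/
noncomputable def tt (C : A →L[ℂ] A) (j : ℕ) : A →L[ℂ] A :=
  ((Nat.factorial j : ℂ)⁻¹) • ((-C) ^ j * V.X ^ j)

lemma tt_apply (C : A →L[ℂ] A) (j : ℕ) (f : A) :
    V.tt C j f = ((Nat.factorial j : ℂ)⁻¹) • ((-C) ^ j) ((V.X ^ j) f) := rfl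

lemma norm_tt_apply_le (C : A →L[ℂ] A) {c : ℝ} (hc : 0 ≤ c) (hC : ∀ f, ‖C f‖ ≤ c * ‖f‖)
    (j : ℕ) (f : A) : ‖V.tt C j f‖ ≤ c ^ j / (Nat.factorial j : ℝ) * ‖(V.X ^ j) f‖ := by
  rw [tt_apply, norm_smul]
  have h1 : ‖((-C) ^ j) ((V.X ^ j) f)‖ ≤ c ^ j * ‖(V.X ^ j) f‖ :=
    pow_apply_le (-C) hc (by intro f; rw [ContinuousLinearMap.neg_apply, norm_neg]; exact hC f) j _
  rw [norm_inv, Complex.norm_natCast]
  have : (0:ℝ) < Nat.factorial j := by exact_mod_cast Nat.factorial_pos j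
  calc (Nat.factorial j : ℝ)⁻¹ * ‖((-C) ^ j) ((V.X ^ j) f)‖
      ≤ (Nat.factorial j : ℝ)⁻¹ * (c ^ j * ‖(V.X ^ j) f‖) := by gcongr
    _ = _ := by ring

lemma norm_tt_le (C : A →L[ℂ] A) (j : ℕ) : ‖V.tt C j‖ ≤ ‖C‖ ^ j / (Nat.factorial j : ℝ) := by
  refine ContinuousLinearMap.opNorm_le_bound _ (by positivity) ?_
  intro f
  refine (V.norm_tt_apply_le C (norm_nonneg C) C.le_opNorm j f).trans ?_
  gcongr
  exact V.norm_X_pow_le j f

lemma summable_norm_tt (C : A →L[ℂ] A) : Summable (fun j => ‖V.tt C j‖) :=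
  Summable.of_nonneg_of_le (fun _ => norm_nonneg _) (V.norm_tt_le C)
    (Real.summable_pow_div_factorial ‖C‖)

lemma summable_norm_tt_apply (C : A →L[ℂ] A) (f : A) : Summable (fun j => ‖V.tt C j f‖) :=
  Summable.of_nonneg_of_le (fun _ => norm_nonneg _) (fun j => (V.tt C j).le_opNorm f)
    ((V.summable_norm_tt C).mul_right _)

/-- the operator `∑ (-1)^j/j! C^j X^j` -/
noncomputable def TT (C : A →L[ℂ] A) : A →L[ℂ] A := ∑' j, V.tt C j

variable [CompleteSpace A]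

lemma hasSum_TT (C : A →L[ℂ] A) : HasSum (V.tt C) (V.TT C) :=
  (V.summable_norm_tt C).of_norm.hasSum

lemma hasSum_TT_apply (C : A →L[ℂ] A) (f : A) : HasSum (fun j => V.tt C j f) (V.TT C f) := by
  have := (V.hasSum_TT C).mapL (ContinuousLinearMap.apply ℂ A f)
  simpa using this

omit [CompleteSpace A] in
/-- divided powers of `X` satisfy the Leibniz rule -/
lemma leibniz (j : ℕ) (f g : A) : ((Nat.factorial j : ℂ)⁻¹) • (V.X ^ j) (f * g) =
    ∑ p ∈ antidiagonal j, (((Nat.factorial p.1 : ℂ)⁻¹) • (V.X ^ p.1) f) *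
      (((Nat.factorial p.2 : ℂ)⁻¹) • (V.X ^ p.2) g) := by
  induction j with
  | zero => simp
  | succ j ih =>
    set d : ℕ → A → A := fun i f => ((Nat.factorial i : ℂ)⁻¹) • (V.X ^ i) f with hd
    have hX : ∀ i f, V.X (d i f) = ((i:ℂ) + 1) • d (i+1) f := by
      intro i f
      simp only [hd]
      rw [map_smul, smul_smul, pow_succ' V.X i, ContinuousLinearMap.mul_apply, Nat.factorial_succ]
      congr 1
      have h1 : ((i:ℂ) + 1) ≠ 0 := by exact_mod_cast Nat.succ_ne_zero i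
      have h2 : (Nat.factorial i : ℂ) ≠ 0 := by exact_mod_cast Nat.factorial_ne_zero i
      push_cast
      field_simp
    have hj : ((j:ℂ) + 1) ≠ 0 := by exact_mod_cast Nat.succ_ne_zero j
    have ih' : d j (f * g) = ∑ p ∈ antidiagonal j, d p.1 f * d p.2 g := ih
    have goal : ((j:ℂ) + 1) • d (j+1) (f * g)
        = ((j:ℂ) + 1) • ∑ p ∈ antidiagonal (j+1), d p.1 f * d p.2 g := by
      rw [← hX, ih', map_sum]
      simp only [V.X_mul, hX, smul_mul_assoc, mul_smul_comm, Finset.sum_add_distrib]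
      have e1 : ∑ p ∈ antidiagonal j, ((p.1:ℂ) + 1) • (d (p.1+1) f * d p.2 g)
          = ∑ p ∈ antidiagonal (j+1), (p.1:ℂ) • (d p.1 f * d p.2 g) := by
        rw [Finset.Nat.sum_antidiagonal_succ]
        simp
      have e2 : ∑ p ∈ antidiagonal j, ((p.2:ℂ) + 1) • (d p.1 f * d (p.2+1) g)
          = ∑ p ∈ antidiagonal (j+1), (p.2:ℂ) • (d p.1 f * d p.2 g) := by
        rw [Finset.Nat.sum_antidiagonal_succ']
        simp
      rw [e1, e2, ← Finset.sum_add_distrib, Finset.smul_sum]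
      refine Finset.sum_congr rfl ?_
      intro p hp
      rw [← add_smul]
      congr 1
      have := Finset.HasAntidiagonal.mem_antidiagonal.1 hp
      exact_mod_cast this
    have := congrArg (fun y => ((j:ℂ) + 1)⁻¹ • y) goal
    simp only [smul_smul, inv_mul_cancel₀ hj, one_smul] at this
    exact this

variable {V}

omit [CompleteSpace A] in
lemma IsMul.pow_add_apply {a : ℝ} {C : A →L[ℂ] A} (hC : V.IsMul a C) (i k : ℕ) (Y Z : A) :
    V.P a ((C ^ (i + k)) (Y * Z)) = V.P a ((C ^ i) Y * (C ^ k) Z) := by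
  have h1 : ∀ i (Y Z : A), V.P a ((C ^ i) (Y * Z)) = V.P a ((C ^ i) Y * Z) := by
    intro i Y Z
    have := IsMul.P_mul_pow V hC i Y Z
    simp only [ContinuousLinearMap.mul_apply] at this
    rw [this, ← V.P_mul]
  have h2 : ∀ i (Y : A), V.P a ((C ^ i) Y) = V.P a ((C ^ i) (V.P a Y)) := by
    intro i Y
    have := (IsMul.P_mul_pow V hC i).apply_P Y
    simp only [ContinuousLinearMap.mul_apply] at this
    exact this.symm
  rw [pow_add, ContinuousLinearMap.mul_apply, h2, mul_comm Y Z, h1, ← h2, mul_comm _ Y, h1]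

lemma IsMul.P_TT_mul {a : ℝ} {C : A →L[ℂ] A} (hC : V.IsMul a C) (f g : A) :
    V.P a (V.TT C (f * g)) = V.P a (V.TT C f * V.TT C g) := by
  have hf := V.summable_norm_tt_apply C f
  have hg := V.summable_norm_tt_apply C g
  have h0 : Summable (fun x : ℕ × ℕ => V.tt C x.1 f * V.tt C x.2 g) := by
    have h00 : Summable (fun x : ℕ × ℕ => ‖V.tt C x.1 f‖ * ‖V.tt C x.2 g‖) :=
      Summable.mul_of_nonneg (f := fun j => ‖V.tt C j f‖) (g := fun j => ‖V.tt C j g‖) hf hg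
        (fun _ => norm_nonneg _) (fun _ => norm_nonneg _)
    exact Summable.of_norm_bounded (g := fun x : ℕ × ℕ => ‖V.tt C x.1 f‖ * ‖V.tt C x.2 g‖) h00
      (fun x => norm_mul_le _ _)
  have h1 := (V.hasSum_TT_apply C f).summable.tsum_mul_tsum_eq_tsum_sum_antidiagonal
    (V.hasSum_TT_apply C g).summable h0
  have h2 := summable_sum_mul_antidiagonal_of_summable_mul (f := fun j => V.tt C j f)
    (g := fun j => V.tt C j g) h0
  rw [(V.hasSum_TT_apply C f).tsum_eq, (V.hasSum_TT_apply C g).tsum_eq] at h1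
  have h3 : HasSum (fun n => ∑ kl ∈ antidiagonal n, V.tt C kl.1 f * V.tt C kl.2 g)
      (V.TT C f * V.TT C g) := by
    rw [h1]; exact h2.hasSum
  have h4 := h3.mapL (V.P a)
  have h5 := (V.hasSum_TT_apply C (f * g)).mapL (V.P a)
  have key : ∀ j, V.P a (V.tt C j (f * g))
      = V.P a (∑ kl ∈ antidiagonal j, V.tt C kl.1 f * V.tt C kl.2 g) := by
    intro j
    have e1 : V.tt C j (f * g) = ∑ p ∈ antidiagonal j,
        ((-C) ^ j) ((((Nat.factorial p.1 : ℂ)⁻¹) • (V.X ^ p.1) f) *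
          (((Nat.factorial p.2 : ℂ)⁻¹) • (V.X ^ p.2) g)) := by
      rw [tt_apply, ← map_smul ((-C) ^ j), leibniz, map_sum]
    rw [e1, map_sum, map_sum]
    apply Finset.sum_congr rfl
    intro p hp
    have hp' := Finset.HasAntidiagonal.mem_antidiagonal.1 hp
    rw [← hp', IsMul.pow_add_apply hC.neg, map_smul, map_smul]
    rfl
  have h6 : (fun j => V.P a (V.tt C j (f * g)))
      = fun j => V.P a (∑ kl ∈ antidiagonal j, V.tt C kl.1 f * V.tt C kl.2 g) := funext key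
  rw [h6] at h5
  exact h5.unique h4

omit [CompleteSpace A] in
lemma IsMul.pow_apply_S {a : ℝ} {C : A →L[ℂ] A} (hC : V.IsMul a C) {s : ℝ} (hs : 0 ≤ s) (j : ℕ)
    (f : A) : V.P a ((C ^ j) (V.S s f)) = V.P a (V.S s ((C ^ j) f)) := by
  have := (IsMul.P_mul_pow V hC j).apply_S hs f
  simp only [ContinuousLinearMap.mul_apply] at this
  rw [this, V.P_S a s hs, V.P_S a s hs, V.P_P_le (by linarith)]

omit [CompleteSpace A] in
lemma X_pow_S {s : ℝ} (hs : 0 ≤ s) (j : ℕ) (f : A) :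
    (V.X ^ j) (V.S s f) = V.S s (((V.X + (s:ℂ) • (1 : A →L[ℂ] A)) ^ j) f) := by
  induction j with
  | zero => simp
  | succ j ih =>
    rw [pow_succ', pow_succ', ContinuousLinearMap.mul_apply, ContinuousLinearMap.mul_apply, ih,
      V.X_S s hs]
    simp

open NormedSpace in
/-- behaviour of `T` under shifts -/
lemma IsMul.P_TT_S {a : ℝ} {C : A →L[ℂ] A} (hC : V.IsMul a C) {s : ℝ} (hs : 0 ≤ s) (f : A) :
    V.P a (V.TT C (V.S s f)) = V.P a (V.S s (exp (-((s:ℂ) • C)) (V.TT C f))) := by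
  have hE := exp_series_hasSum_exp' (𝕂 := ℂ) (-((s:ℂ) • C))
  have hEn := norm_expSeries_summable' (𝕂 := ℂ) (-((s:ℂ) • C))
  have hT := V.hasSum_TT C
  have hTn := V.summable_norm_tt C
  have h1 := tsum_mul_tsum_eq_tsum_sum_antidiagonal_of_summable_norm hEn hTn
  have h2 := summable_norm_sum_mul_antidiagonal_of_summable_norm hEn hTn
  rw [hE.tsum_eq, hT.tsum_eq] at h1
  have h3 := h2.of_norm.hasSum
  rw [← h1] at h3
  have h4 := (((h3.mapL (ContinuousLinearMap.apply ℂ A f)).mapL (V.S s)).mapL (V.P a))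
  have h5 := (V.hasSum_TT_apply C (V.S s f)).mapL (V.P a)
  have h6 : V.P a (V.S s (exp (-((s:ℂ) • C)) (V.TT C f)))
      = V.P a (V.S s ((ContinuousLinearMap.apply ℂ A f) (exp (-((s:ℂ) • C)) * V.TT C))) := rfl
  rw [h6]
  refine h5.unique ?_
  convert h4 using 1
  funext j
  rw [tt_apply, X_pow_S hs, map_smul, hC.neg.pow_apply_S hs, ← map_smul, ← map_smul]
  congr 2
  rw [ContinuousLinearMap.apply_apply]
  have hcomm : Commute V.X ((s:ℂ) • (1 : A →L[ℂ] A)) := (Commute.one_right _).smul_right _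
  rw [add_comm V.X, Commute.add_pow' hcomm.symm]
  rw [ContinuousLinearMap.sum_apply, ContinuousLinearMap.sum_apply, map_sum, Finset.smul_sum]
  refine Finset.sum_congr rfl ?_
  intro p hp
  have hp' := Finset.HasAntidiagonal.mem_antidiagonal.1 hp
  rw [ContinuousLinearMap.mul_apply, tt_apply, ContinuousLinearMap.smul_apply, ← hp', pow_add,
    ContinuousLinearMap.mul_apply]
  have e1 : (((s:ℂ) • (1 : A →L[ℂ] A)) ^ p.1 * V.X ^ p.2) f = (s:ℂ)^p.1 • (V.X ^ p.2) f := by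
    rw [smul_pow, one_pow, smul_mul_assoc, one_mul]; rfl
  have e2 : (-((s:ℂ) • C)) ^ p.1 = (s:ℂ)^p.1 • (-C) ^ p.1 := by
    rw [← smul_neg, smul_pow]
  rw [ContinuousLinearMap.smul_apply, e1, e2, ContinuousLinearMap.smul_apply]
  simp only [map_smul, map_nsmul, smul_smul]
  rw [← Nat.cast_smul_eq_nsmul ℂ, smul_smul, smul_smul]
  congr 1
  have hch := Nat.add_choose_mul_factorial_mul_factorial p.1 p.2
  have hsym : (p.1 + p.2).choose p.2 = (p.1 + p.2).choose p.1 := by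
    rw [Nat.choose_symm_add]
  rw [hsym] at hch
  have hch' : ((p.1 + p.2).choose p.1 : ℂ) * (Nat.factorial p.1 : ℂ) * (Nat.factorial p.2 : ℂ)
      = (Nat.factorial (p.1 + p.2) : ℂ) := by exact_mod_cast hch
  have f1 : (Nat.factorial p.1 : ℂ) ≠ 0 := by exact_mod_cast Nat.factorial_ne_zero _
  have f2 : (Nat.factorial p.2 : ℂ) ≠ 0 := by exact_mod_cast Nat.factorial_ne_zero _
  have f3 : (Nat.factorial (p.1 + p.2) : ℂ) ≠ 0 := by exact_mod_cast Nat.factorial_ne_zero _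
  have f4 : ((p.1 + p.2).choose p.1 : ℂ) ≠ 0 := by
    intro h0
    rw [h0, zero_mul, zero_mul] at hch'
    exact f3 hch'.symm
  rw [← hch']
  field_simp

omit [CompleteSpace A] in
lemma norm_X_pow_P_le {δ : ℝ} (hδ : 0 ≤ δ) {f : A} (hf : V.P δ f = f) (j : ℕ) :
    ‖(V.X ^ j) f‖ ≤ δ ^ j * ‖f‖ ∧ V.P δ ((V.X ^ j) f) = (V.X ^ j) f := by
  induction j with
  | zero => simp [hf]
  | succ j ih =>
    rw [pow_succ' V.X, ContinuousLinearMap.mul_apply]
    constructor
    · have := V.X_P_norm δ hδ ((V.X ^ j) f)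
      rw [ih.2] at this
      refine this.trans ?_
      rw [pow_succ', mul_assoc]
      exact mul_le_mul_of_nonneg_left ih.1 hδ
    · rw [V.P_X, ih.2]

lemma norm_TT_sub_le (C : A →L[ℂ] A) {c δ : ℝ} (hc : 0 ≤ c) (hδ : 0 ≤ δ)
    (hC : ∀ f, ‖C f‖ ≤ c * ‖f‖) {f : A} (hf : V.P δ f = f) :
    ‖V.TT C f - f‖ ≤ (Real.exp (δ * c) - 1) * ‖f‖ := by
  have h1 := V.hasSum_TT_apply C f
  have h2 : HasSum (fun j => V.tt C (j+1) f) (V.TT C f - f) := by
    rw [hasSum_nat_add_iff (f := fun j => V.tt C j f) 1]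
    simpa [tt] using h1
  have h3 : HasSum (fun j : ℕ => (δ * c)^j / (Nat.factorial j : ℝ)) (Real.exp (δ * c)) := by
    rw [Real.exp_eq_exp_ℝ]
    exact NormedSpace.expSeries_div_hasSum_exp (δ * c)
  have h4 : HasSum (fun j : ℕ => (δ * c)^(j+1) / (Nat.factorial (j+1) : ℝ))
      (Real.exp (δ * c) - 1) := by
    rw [hasSum_nat_add_iff (f := fun j : ℕ => (δ * c)^j / (Nat.factorial j : ℝ)) 1]
    simpa using h3
  have h5 := h4.mul_right ‖f‖
  refine h2.norm_le_of_bounded h5 ?_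
  intro j
  refine (V.norm_tt_apply_le C hc hC (j+1) f).trans ?_
  have := (norm_X_pow_P_le hδ hf (j+1)).1
  calc c^(j+1) / (Nat.factorial (j+1) : ℝ) * ‖(V.X ^ (j+1)) f‖
      ≤ c^(j+1) / (Nat.factorial (j+1) : ℝ) * (δ ^ (j+1) * ‖f‖) := by gcongr
    _ = _ := by rw [mul_pow]; ring

lemma norm_TT_le (C : A →L[ℂ] A) {c δ : ℝ} (hc : 0 ≤ c) (hδ : 0 ≤ δ)
    (hC : ∀ f, ‖C f‖ ≤ c * ‖f‖) {f : A} (hf : V.P δ f = f) :
    ‖V.TT C f‖ ≤ Real.exp (δ * c) * ‖f‖ := by
  have h1 := norm_TT_sub_le (V := V) C hc hδ hC hf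
  have : V.TT C f = (V.TT C f - f) + f := by abel
  rw [this]
  refine (norm_add_le _ _).trans ?_
  linarith

/-- exponential of an operator bounded at level `b` -/
lemma norm_P_exp_le {b : ℝ} (M : A →L[ℂ] A) {c : ℝ} (hc : 0 ≤ c)
    (hM : ∀ f, ‖V.P b (M f)‖ ≤ c * ‖V.P b f‖) (f : A) :
    ‖V.P b (NormedSpace.exp M f)‖ ≤ Real.exp c * ‖V.P b f‖ := by
  have h1 := (((NormedSpace.exp_series_hasSum_exp' (𝕂 := ℂ) M).mapL
    (ContinuousLinearMap.apply ℂ A f)).mapL (V.P b))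
  have h3 : HasSum (fun j : ℕ => c^j / (Nat.factorial j : ℝ)) (Real.exp c) := by
    rw [Real.exp_eq_exp_ℝ]
    exact NormedSpace.expSeries_div_hasSum_exp c
  refine h1.norm_le_of_bounded (h3.mul_right ‖V.P b f‖) ?_
  intro j
  rw [ContinuousLinearMap.apply_apply, ContinuousLinearMap.smul_apply, map_smul, norm_smul,
    norm_inv, Complex.norm_natCast]
  have h4 : ‖V.P b ((M ^ j) f)‖ ≤ c ^ j * ‖V.P b f‖ := by
    induction j with
    | zero => simp
    | succ j ih =>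
      rw [pow_succ', ContinuousLinearMap.mul_apply, pow_succ', mul_assoc]
      exact (hM _).trans (mul_le_mul_of_nonneg_left ih hc)
  have : (0:ℝ) < Nat.factorial j := by exact_mod_cast Nat.factorial_pos j
  calc (Nat.factorial j : ℝ)⁻¹ * ‖V.P b ((M ^ j) f)‖
      ≤ (Nat.factorial j : ℝ)⁻¹ * (c ^ j * ‖V.P b f‖) := by gcongr
    _ = _ := by ring

end VD

end Volt
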