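import Pool.Agent.Helper56.Volt.Res

/-!
Compatible families of local multipliers and of local `L¹`-Lipschitz elements; resolvents.
-/

set_option linter.unusedSectionVars false
set_option linter.deprecated false

namespace Volt

open Filter Topology

variable {A : Type*} [NonUnitalNormedCommRing A] [NormedSpace ℂ A] [IsScalarTower ℂ A A]
  [SMulCommClass ℂ A A]

/-- the levels `1 - 2^{-n}` -/
noncomputable def al (n : ℕ) : ℝ := 1 - (1/2)^n

lemma al_zero : al 0 = 0 := by simp [al]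
lemma al_one : al 1 = 1/2 := by norm_num [al]
lemma al_lt_one (n : ℕ) : al n < 1 := by
  have : (0:ℝ) < (1/2)^n := by positivity
  unfold al; linarith
lemma al_mono : Monotone al := by
  intro m n h
  unfold al
  have : ((1:ℝ)/2)^n ≤ (1/2)^m := pow_le_pow_of_le_one (by norm_num) (by norm_num) h
  linarith
lemma al_nonneg (n : ℕ) : 0 ≤ al n := by
  rw [← al_zero]; exact al_mono (Nat.zero_le n)
lemma al_tendsto : Tendsto al atTop (𝓝 1) := by
  have : Tendsto (fun n : ℕ => 1 - ((1:ℝ)/2)^n) atTop (𝓝 (1 - 0)) :=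
    tendsto_const_nhds.sub (tendsto_pow_atTop_nhds_zero_of_lt_one (by norm_num) (by norm_num))
  rw [sub_zero] at this
  exact this

/-- every `b < 1` is below a level with controlled constant -/
lemma exists_al {b : ℝ} (hb : b < 1) (hb0 : 0 ≤ b) : ∃ n, b ≤ al n ∧ (2:ℝ)^n * (1 - b) ≤ 2 := by
  have hex : ∃ n : ℕ, b ≤ al n := by
    have := al_tendsto.eventually (lt_mem_nhds hb)
    obtain ⟨n, hn⟩ := this.exists
    exact ⟨n, hn.le⟩
  classical
  let n := Nat.find hex
  have hn : b ≤ al n := Nat.find_spec hex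
  refine ⟨n, hn, ?_⟩
  rcases Nat.eq_zero_or_pos n with h0 | hpos
  · rw [h0]; simp; linarith
  · have hlt : ¬ b ≤ al (n - 1) := Nat.find_min hex (Nat.sub_lt hpos one_pos)
    push Not at hlt
    obtain ⟨m, hm⟩ : ∃ m, n = m + 1 := ⟨n - 1, (Nat.succ_pred_eq_of_pos hpos).symm⟩
    rw [hm] at hlt ⊢
    simp only [Nat.add_sub_cancel] at hlt
    unfold al at hlt
    have h1 : 1 - b < (1/2)^m := by linarith
    have h2 : (2:ℝ)^(m+1) * (1 - b) ≤ 2^(m+1) * (1/2)^m := by gcongr
    refine h2.trans (le_of_eq ?_)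
    rw [pow_succ, mul_right_comm, ← mul_pow]; norm_num

namespace VD

variable (V : VD A)

/-- compatible family of local multipliers -/
structure CFam (C : ℕ → A →L[ℂ] A) (K : ℝ) : Prop where
  nonneg : 0 ≤ K
  mul : ∀ n, V.IsMul (al n) (C n)
  compat : ∀ n, V.P (al n) * C (n+1) = C n
  bound : ∀ n f, ‖C n f‖ ≤ K * 2^n * ‖f‖

/-- compatible family of Lipschitz elements -/
structure RFam (R : ℕ → A) (K : ℝ) : Prop where
  nonneg : 0 ≤ K
  compat : ∀ n, V.P (al n) (R (n+1)) = R n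
  lip : ∀ n, V.Lip (al n) (K * 2^n) (R n)

variable {V}

lemma compat_le {C : ℕ → A →L[ℂ] A} (h : ∀ n, V.P (al n) * C (n+1) = C n) {m n : ℕ}
    (hmn : m ≤ n) (f : A) : V.P (al m) (C n f) = C m f := by
  induction n, hmn using Nat.le_induction with
  | base =>
    have := congrArg (fun T : A →L[ℂ] A => T f) (h m)
    simp only [ContinuousLinearMap.mul_apply] at this
    rw [← this, V.P_idem]
  | succ n hn ih =>
    have := congrArg (fun T : A →L[ℂ] A => T f) (h n)
    simp only [ContinuousLinearMap.mul_apply] at this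
    rw [← ih, ← this, V.P_P_le (al_mono hn)]

lemma compat_le' {R : ℕ → A} (h : ∀ n, V.P (al n) (R (n+1)) = R n) {m n : ℕ}
    (hmn : m ≤ n) : V.P (al m) (R n) = R m := by
  induction n, hmn using Nat.le_induction with
  | base => rw [← h m, V.P_idem]
  | succ n hn ih => rw [← ih, ← h n, V.P_P_le (al_mono hn)]

/-- local norm bound of the family -/
lemma CFam.bound_half {C : ℕ → A →L[ℂ] A} {K : ℝ} (hC : V.CFam C K) (n : ℕ) (f : A) :
    ‖V.P (1/2) (C n f)‖ ≤ 2 * K * ‖f‖ := by
  have hK := hC.nonneg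
  rcases Nat.eq_zero_or_pos n with h0 | hpos
  · rw [h0]
    refine (V.norm_P_le _ _).trans ((hC.bound 0 f).trans ?_)
    have := norm_nonneg f
    nlinarith [mul_nonneg hK this]
  · rw [← al_one, compat_le hC.compat hpos]
    refine (hC.bound 1 f).trans (le_of_eq ?_)
    ring

/-- necessity direction: from the multiplier family to a Lipschitz family -/
lemma CFam.toRFam {C : ℕ → A →L[ℂ] A} {K : ℝ} (hC : V.CFam C K) {g : A}
    (hg : ∀ n, V.P (al n) (g + V.u * C n g) = V.P (al n) V.u) :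
    V.RFam (fun n => -(C n g)) (K + 4 * K^2 * ‖g‖) ∧
      ∀ n, V.P (al n) g = V.P (al n) (V.u + V.u * (-(C n g))) := by
  have hK := hC.nonneg
  have hg' : ∀ n, V.P (al n) g = V.P (al n) (V.u + V.u * (-(C n g))) := by
    intro n
    have := hg n
    rw [map_add] at this
    rw [mul_neg, map_add, map_neg, ← this]; abel
  refine ⟨⟨by positivity, fun n => ?_, fun n => ?_⟩, hg'⟩
  · have := congrArg (fun T : A →L[ℂ] A => T g) (hC.compat n)
    simp only [ContinuousLinearMap.mul_apply] at this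
    rw [map_neg, this]
  · unfold Lip
    filter_upwards [Ioc_mem_nhdsGT (zero_lt_one : (0:ℝ) < 1)] with h hh
    set a := al n with ha
    set R := -(C n g) with hR
    have hm := hC.mul n
    have hh0 : 0 ≤ h := hh.1.le
    have hPa : V.P a (C n g) = C n g := hm.P_apply g
    have h1 : V.P a (R - V.S h R) = -(C n (g - V.S h g)) := by
      rw [map_sub (C n), hm.apply_S hh0, hR]
      simp only [map_neg, map_sub, hPa, ← ha]
      abel
    have h2 : V.P a (g - V.S h g) = V.P a (V.P h V.u + V.P h V.u * R) := by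
      have e1 : V.P a (V.S h g) = V.P a (V.S h (V.P a g)) := by
        rw [V.P_S a h hh0, V.P_S a h hh0, V.P_P_le (by linarith)]
      rw [map_sub, e1, hg' n, ← ha, ← V.u_sub h hh0, sub_mul, V.P_S a h hh0, V.P_P_le (by linarith),
        ← V.P_S a h hh0, ← V.S_mul h hh0]
      simp only [map_add, map_sub]
      abel
    have h3 : C n (g - V.S h g) = C n (V.P h V.u) + V.P a (C n (V.P h V.u) * R) := by
      rw [← hm.apply_P, ← ha, h2, hm.apply_P, map_add, hm]
    have hb1 : ‖C n (V.P h V.u)‖ ≤ K * 2^n * h := by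
      have := hC.bound n (V.P h V.u)
      rwa [V.norm_Pu h hh0 hh.2] at this
    have hb2 : ‖V.P (1/2) (C n (V.P h V.u))‖ ≤ 2 * K * h := by
      have := hC.bound_half n (V.P h V.u)
      rwa [V.norm_Pu h hh0 hh.2] at this
    have hb3 : ‖V.P a R‖ ≤ K * 2^n * ‖g‖ := by
      refine (V.norm_P_le _ _).trans ?_
      rw [hR, norm_neg]; exact hC.bound n g
    have hb4 : ‖V.P (1/2) R‖ ≤ 2 * K * ‖g‖ := by
      rw [hR, map_neg, norm_neg]; exact hC.bound_half n g
    have hb5 : ‖V.P a (C n (V.P h V.u))‖ ≤ K * 2^n * h := (V.norm_P_le _ _).trans hb1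
    rw [h1, norm_neg, h3]
    refine (norm_add_le _ _).trans ?_
    have h4 := V.norm_P_mul_split a (C n (V.P h V.u)) R
    have h5 : ‖V.P (1/2) (C n (V.P h V.u))‖ * ‖V.P a R‖ ≤ (2 * K * h) * (K * 2^n * ‖g‖) := by
      gcongr
    have h6 : ‖V.P a (C n (V.P h V.u))‖ * ‖V.P (1/2) R‖ ≤ (K * 2^n * h) * (2 * K * ‖g‖) := by
      gcongr
    calc ‖C n (V.P h V.u)‖ + ‖V.P a (C n (V.P h V.u) * R)‖
        ≤ K * 2^n * h + ((2 * K * h) * (K * 2^n * ‖g‖) + (K * 2^n * h) * (2 * K * ‖g‖)) := by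
          linarith
      _ = (K + 4 * K^2 * ‖g‖) * 2^n * h := by ring

/-- the key norm estimate for the resolvent -/
lemma norm_resolvent_le {a : ℝ} {R Q : A} (hR : V.P a R = R) (hQ : V.P a Q = Q)
    (hRQ : R + Q + V.P a (R * Q) = 0) {q r : ℝ} (hq : ‖V.P (1/2) Q‖ ≤ q) (hr : ‖R‖ ≤ r) :
    ‖Q‖ ≤ q + (r * (1 + q) + q) * (1 + q) := by
  set Q1 := V.P (1/2) Q with hQ1
  set D := Q - Q1 with hD
  set E := R + Q1 + V.P a (R * Q1) with hE
  have hQ1a : V.P a Q1 = Q1 := by
    rw [hQ1, V.P_P, min_comm, ← V.P_P, hQ]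
  have hDa : V.P a D = D := by rw [hD, map_sub, hQ, hQ1a]
  have hEa : V.P a E = E := by rw [hE, map_add, map_add, hR, hQ1a, V.P_idem]
  have hD0 : V.P (1/2) D = 0 := by rw [hD, map_sub, hQ1, V.P_idem, sub_self]
  have h1 : -E = D + V.P a (R * D) := by
    have : D + V.P a (R * D) = (R + Q + V.P a (R * Q)) - E := by
      rw [hE, hD, mul_sub, map_sub]; abel
    rw [this, hRQ, zero_sub]
  have hE0 : V.P (1/2) E = 0 := by
    have : V.P (1/2) (-E) = 0 := by
      rw [h1, map_add, hD0, V.P_P, min_comm, ← V.P_P, V.P_mul_right (1/2), hD0, mul_zero,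
        map_zero, map_zero, add_zero]
    rw [map_neg, neg_eq_zero] at this
    exact this
  have hED : E * D = 0 := by
    rw [← V.eq_S_of_P_eq_zero (by norm_num : (0:ℝ) ≤ 1/2) hE0,
      ← V.eq_S_of_P_eq_zero (by norm_num : (0:ℝ) ≤ 1/2) hD0, ← V.S_mul _ (by norm_num), mul_comm,
      ← V.S_mul _ (by norm_num), ← V.S_add _ _ (by norm_num) (by norm_num)]
    exact V.S_one _ (by norm_num) _
  have h2 : D = -E - V.P a (Q1 * E) := by
    have h3 : V.P a (E * D) = V.P a (R * D) + V.P a (Q1 * D) + V.P a (Q1 * V.P a (R * D)) := by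
      have e1 : V.P a (Q1 * V.P a (R * D)) = V.P a (V.P a (R * Q1) * D) := by
        rw [← V.P_mul_right, ← V.P_mul]
        congr 1
        rw [mul_comm R Q1, mul_assoc]
      rw [hE, add_mul, add_mul, map_add, map_add, e1]
    rw [hED, map_zero] at h3
    have h4 : V.P a (Q1 * E) = -(V.P a (Q1 * D)) - V.P a (Q1 * V.P a (R * D)) := by
      have : E = -D - V.P a (R * D) := by
        rw [← neg_neg E, h1]; abel
      rw [this, mul_sub, mul_neg, map_sub, map_neg]
    rw [h4, h1]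
    have h5 : V.P a (R * D) + V.P a (Q1 * D) + V.P a (Q1 * V.P a (R * D)) = 0 := h3.symm
    have : D + V.P a (R * D) - (-(V.P a (Q1 * D)) - V.P a (Q1 * V.P a (R * D)))
        = D + (V.P a (R * D) + V.P a (Q1 * D) + V.P a (Q1 * V.P a (R * D))) := by abel
    rw [this, h5, add_zero]
  have hq0 : 0 ≤ q := (norm_nonneg _).trans hq
  have hr0 : 0 ≤ r := (norm_nonneg _).trans hr
  have hEn : ‖E‖ ≤ r * (1 + q) + q := by
    rw [hE]
    calc ‖R + Q1 + V.P a (R * Q1)‖ ≤ ‖R‖ + ‖Q1‖ + ‖V.P a (R * Q1)‖ := norm_add₃_le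
      _ ≤ r + q + r * q := by
          have h6 : ‖V.P a (R * Q1)‖ ≤ r * q := by
            refine (V.norm_P_le _ _).trans ((norm_mul_le _ _).trans ?_)
            gcongr
          linarith
      _ = _ := by ring
  have hEn0 : 0 ≤ r * (1 + q) + q := (norm_nonneg _).trans hEn
  have hDn : ‖D‖ ≤ (r * (1 + q) + q) * (1 + q) := by
    rw [h2]
    calc ‖-E - V.P a (Q1 * E)‖ ≤ ‖-E‖ + ‖V.P a (Q1 * E)‖ := norm_sub_le _ _
      _ ≤ (r * (1 + q) + q) + q * (r * (1 + q) + q) := by
          rw [norm_neg]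
          have h6 : ‖V.P a (Q1 * E)‖ ≤ q * (r * (1 + q) + q) := by
            refine (V.norm_P_le _ _).trans ((norm_mul_le _ _).trans ?_)
            gcongr
          linarith
      _ = _ := by ring
  have : Q = Q1 + D := by rw [hD]; abel
  rw [this]
  refine (norm_add_le _ _).trans ?_
  linarith

/-- sufficiency direction: from a Lipschitz family to a multiplier family -/
lemma RFam.toCFam [CompleteSpace A] {R : ℕ → A} {K : ℝ} (hR : V.RFam R K) :
    ∃ (C : ℕ → A →L[ℂ] A) (K' : ℝ), V.CFam C K' ∧ ∀ n, C n (V.u + V.u * R n) = - R n := by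
  classical
  have hK := hR.nonneg
  have hRP : ∀ n, V.P (al n) (R n) = R n := fun n => compat_le' hR.compat le_rfl
  choose CR hCRmul hCRu hCRn using fun n => V.exists_isMul (hR.lip n)
  have hCRu' : ∀ n, CR n V.u = R n := fun n => by rw [hCRu, hRP]
  have hCRcompat : ∀ n, V.P (al n) * CR (n+1) = CR n := by
    intro n
    apply IsMul.ext_u V ((hCRmul (n+1)).restrict (al_mono (Nat.le_succ n))) (hCRmul n)
    rw [ContinuousLinearMap.mul_apply, hCRu', hCRu', hR.compat]
  choose G hG1 hG2 using fun n => IsMul.exists_inv V (hCRmul n)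
  set Q : ℕ → A := fun n => -(G n (R n)) with hQdef
  have hQ : ∀ n, Q n + CR n (V.u * Q n) = - R n := by
    intro n
    have := hG1 n (R n)
    simp only [hQdef, mul_neg, map_neg]
    rw [← neg_add, this]
  have hQ' : ∀ n, R n + Q n + V.P (al n) (R n * Q n) = 0 := by
    intro n
    have h1 : CR n (V.u * Q n) = V.P (al n) (R n * Q n) := by
      rw [hCRmul n, hCRu']
    have := hQ n
    rw [h1] at this
    rw [add_assoc, this]; abel
  have hQP : ∀ n, V.P (al n) (Q n) = Q n := by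
    intro n
    have h1 : Q n = - R n - CR n (V.u * Q n) := by rw [← hQ n]; abel
    rw [h1, map_sub, map_neg, hRP, (hCRmul n).P_apply]
  have hQcompat : ∀ n, V.P (al n) (Q (n+1)) = Q n := by
    intro n
    have h1 : V.P (al n) (Q (n+1)) + V.P (al n) (CR (n+1) (V.u * Q (n+1))) = - R n := by
      rw [← map_add, hQ (n+1), map_neg, hR.compat]
    have h2 : V.P (al n) (CR (n+1) (V.u * Q (n+1))) = CR n (V.u * V.P (al n) (Q (n+1))) := by
      rw [← ContinuousLinearMap.mul_apply, hCRcompat, ← (hCRmul n).apply_P, V.P_mul_right,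
        (hCRmul n).apply_P]
    rw [h2] at h1
    have h3 := hG2 n (V.P (al n) (Q (n+1)))
    rw [h1, map_neg] at h3
    rw [← h3]
  set C : ℕ → A →L[ℂ] A := fun n =>
    -(CR n + CR n * (V.P (al n) * ContinuousLinearMap.mul ℂ A (Q n))) with hC
  have hCmul : ∀ n, V.IsMul (al n) (C n) := fun n =>
    ((hCRmul n).add ((hCRmul n).mul (V.isMul_mulLeft _ _))).neg
  have hCap : ∀ n f, C n f = -(CR n f + V.P (al n) (Q n * CR n f)) := by
    intro n f
    simp only [hC, ContinuousLinearMap.neg_apply, ContinuousLinearMap.add_apply,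
      ContinuousLinearMap.mul_apply, ContinuousLinearMap.mul_apply']
    rw [(hCRmul n).apply_P, (hCRmul n).mul_apply']
  have hCu : ∀ n, C n V.u = Q n := by
    intro n
    rw [hCap, hCRu', mul_comm (Q n)]
    have := hQ' n
    have h2 : Q n = -(R n + V.P (al n) (R n * Q n)) := by
      rw [eq_neg_iff_add_eq_zero, ← this]; abel
    exact h2.symm
  have hcompat : ∀ n, V.P (al n) * C (n+1) = C n := by
    intro n
    apply IsMul.ext_u V ((hCmul (n+1)).restrict (al_mono (Nat.le_succ n))) (hCmul n)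
    rw [ContinuousLinearMap.mul_apply, hCu, hCu, hQcompat]
  set q := ‖Q 1‖ with hq
  have hq0 : 0 ≤ q := norm_nonneg _
  have hqn : ∀ n, ‖V.P (1/2) (Q n)‖ ≤ q := by
    intro n
    rcases Nat.eq_zero_or_pos n with h0 | hpos
    · rw [h0]
      have : Q 0 = 0 := by rw [← hQP 0, al_zero, V.P_nonpos 0 le_rfl]
      rw [this, map_zero, norm_zero]; exact hq0
    · rw [← al_one, compat_le' hQcompat hpos]
  have hCRfam : V.CFam CR K := ⟨hK, hCRmul, hCRcompat, hCRn⟩
  set B := q + (K * (1 + q) + q) * (1 + q) with hB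
  have hB0 : 0 ≤ B := by positivity
  have hQn : ∀ n, ‖Q n‖ ≤ 2^n * B := by
    intro n
    have hRn : ‖R n‖ ≤ K * 2^n := by
      have := hCRn n V.u
      rwa [hCRu', norm_u, mul_one] at this
    have h1 := norm_resolvent_le (V := V) (hRP n) (hQP n) (hQ' n) (hqn n) hRn
    have h2n : (1:ℝ) ≤ 2^n := one_le_pow₀ (by norm_num)
    refine h1.trans ?_
    rw [hB]
    have e1 : 2^n * (q + (K * (1 + q) + q) * (1 + q)) - (q + (K * 2^n * (1 + q) + q) * (1 + q))
        = (2^n - 1) * (q + q * (1 + q)) := by ring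
    have e2 : 0 ≤ (2^n - 1) * (q + q * (1 + q)) := by
      apply mul_nonneg (by linarith); positivity
    linarith
  refine ⟨C, K + q * K + B * (2 * K), ⟨by positivity, hCmul, hcompat, fun n f => ?_⟩, fun n => ?_⟩
  · rw [hCap, norm_neg]
    refine (norm_add_le _ _).trans ?_
    have h1 := V.norm_P_mul_split (al n) (Q n) (CR n f)
    have h2 : ‖V.P (1/2) (Q n)‖ * ‖V.P (al n) (CR n f)‖ ≤ q * (K * 2^n * ‖f‖) := by
      have := (V.norm_P_le (al n) (CR n f)).trans (hCRn n f)
      have := hqn n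
      gcongr
    have h3 : ‖V.P (al n) (Q n)‖ * ‖V.P (1/2) (CR n f)‖ ≤ (2^n * B) * (2 * K * ‖f‖) := by
      have e1 := (V.norm_P_le (al n) (Q n)).trans (hQn n)
      have e2 := hCRfam.bound_half n f
      gcongr
    have h4 := hCRn n f
    calc ‖CR n f‖ + ‖V.P (al n) (Q n * CR n f)‖
        ≤ K * 2^n * ‖f‖ + (q * (K * 2^n * ‖f‖) + (2^n * B) * (2 * K * ‖f‖)) := by linarith
      _ = (K + q * K + B * (2 * K)) * 2^n * ‖f‖ := by ring
  · rw [map_add, hCmul n, hCu]
    have := hQ' n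
    rw [mul_comm (R n)] at this
    rw [eq_neg_iff_add_eq_zero, ← this]; abel

end VD

end Volt
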