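import Pool.Agent.Helper56.Volt.Auto

/-!
Mass at `0` of a local multiplier; logarithms; exponentials.
-/

set_option linter.unusedSectionVars false
set_option linter.deprecated false

namespace Volt

open Filter Topology NormedSpace

variable {A : Type*} [NonUnitalNormedCommRing A] [NormedSpace ℂ A] [IsScalarTower ℂ A A]
  [SMulCommClass ℂ A A]

namespace VD

variable (V : VD A)

/-- averaging: elements concentrated near `0` act like scalars -/
lemma avg_tendsto {r : ℕ → ℝ} (hr : Tendsto r atTop (𝓝 0)) (hr0 : ∀ j, 0 ≤ r j) {k : ℕ → A}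
    (hk : ∀ j, V.P (r j) (k j) = k j) {B : ℝ} (hB : ∀ j, ‖k j‖ ≤ B) (f : A) :
    Tendsto (fun j => k j * f - V.I (k j) • f) atTop (𝓝 0) := by
  have hB0 : 0 ≤ B := (norm_nonneg _).trans (hB 0)
  have := V.tendsto_of_dense (l := atTop)
    (fun j => ContinuousLinearMap.mul ℂ A (k j) - V.I (k j) • (1 : A →L[ℂ] A)) (2 * B)
    (Eventually.of_forall (by
      intro j f
      simp only [ContinuousLinearMap.sub_apply, ContinuousLinearMap.mul_apply',
        ContinuousLinearMap.smul_apply, ContinuousLinearMap.one_apply]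
      refine (norm_sub_le _ _).trans ?_
      have h1 : ‖k j * f‖ ≤ B * ‖f‖ :=
        (norm_mul_le _ _).trans (mul_le_mul_of_nonneg_right (hB j) (norm_nonneg _))
      have h2 : ‖V.I (k j) • f‖ ≤ B * ‖f‖ := by
        rw [norm_smul]
        exact mul_le_mul_of_nonneg_right ((V.I_norm _).trans (hB j)) (norm_nonneg _)
      linarith)) 0
    (by
      intro g
      simp only [ContinuousLinearMap.sub_apply, ContinuousLinearMap.mul_apply',
        ContinuousLinearMap.smul_apply, ContinuousLinearMap.one_apply,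
        ContinuousLinearMap.zero_apply]
      rw [tendsto_zero_iff_norm_tendsto_zero]
      have h1 : Tendsto (fun j => r j * B * ‖g‖) atTop (𝓝 (0 * B * ‖g‖)) :=
        (hr.mul_const B).mul_const _
      rw [zero_mul, zero_mul] at h1
      refine squeeze_zero (fun _ => norm_nonneg _) (fun j => ?_) h1
      have h2 : k j * (V.u * g) - V.I (k j) • (V.u * g) = (k j * V.u - V.I (k j) • V.u) * g := by
        rw [sub_mul, smul_mul_assoc, mul_assoc]
      rw [h2]
      refine (norm_mul_le _ _).trans ?_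
      refine mul_le_mul_of_nonneg_right ?_ (norm_nonneg _)
      refine (V.avg (r j) (hr0 j) (k j) (hk j)).trans ?_
      exact mul_le_mul_of_nonneg_left (hB j) (hr0 j)) f
  simpa using this

/-- The mass at `0` of a local multiplier. -/
lemma IsMul.mass {a : ℝ} (ha : 0 < a) {M : A →L[ℂ] A} (hM : V.IsMul a M) {η : ℝ} (hη : 0 < η) :
    ∃ ε, 0 < ε ∧ ε ≤ a ∧ ∃ χ : ℂ, ∀ f, ‖V.P ε (M f) - χ • V.P ε f‖ ≤ η * ‖V.P ε f‖ := by
  classical
  set q : ℝ → ℝ := fun ε => ‖V.P ε * M‖ with hq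
  set S : Set ℝ := q '' (Set.Ioc 0 a) with hS
  have hSne : S.Nonempty := ⟨q a, a, ⟨ha, le_rfl⟩, rfl⟩
  have hSbdd : BddBelow S := ⟨0, by rintro _ ⟨ε, -, rfl⟩; exact norm_nonneg _⟩
  set q0 := sInf S with hq0
  obtain ⟨_, ⟨ε₁, ⟨hε₁, hε₁a⟩, rfl⟩, hlt⟩ := exists_lt_of_csInf_lt hSne
    (show sInf S < q0 + η / 2 by rw [← hq0]; linarith)
  have hq0le : ∀ ε, 0 < ε → ε ≤ a → q0 ≤ q ε := fun ε h1 h2 => csInf_le hSbdd ⟨ε, ⟨h1, h2⟩, rfl⟩
  have hbig : ∀ ε, 0 < ε → ε ≤ a → ∀ᶠ h in 𝓝[>] (0:ℝ), q0 - η / 2 < ‖V.P ε (M (V.e h))‖ := by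
    intro ε h1 h2
    by_contra hcon
    rw [Filter.not_eventually] at hcon
    have hcon' : ∃ᶠ h in 𝓝[>] (0:ℝ), ‖(V.P ε * M) (V.e h)‖ ≤ q0 - η / 2 :=
      hcon.mono fun h hh => not_lt.1 hh
    have hB : 0 ≤ q0 - η / 2 := by
      obtain ⟨h, hh⟩ := hcon'.exists
      exact (norm_nonneg _).trans hh
    have h3 := IsMul.norm_le_of_e V (hM.restrict h2) hcon'
    have h4 : q ε ≤ q0 - η / 2 := ContinuousLinearMap.opNorm_le_bound _ hB h3
    have := hq0le ε h1 h2
    linarith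
  set r : ℕ → ℝ := fun j => ε₁ * (1 / ((j:ℝ) + 1)) with hr
  have hr0 : ∀ j, 0 < r j := fun j => by positivity
  have hrle : ∀ j, r j ≤ ε₁ := by
    intro j
    have : 1 / ((j:ℝ) + 1) ≤ 1 := by
      rw [div_le_one (by positivity)]; linarith [(Nat.cast_nonneg j : (0:ℝ) ≤ j)]
    simp only [hr]
    nlinarith
  have hrt : Tendsto r atTop (𝓝 0) := by
    have := (tendsto_one_div_add_atTop_nhds_zero_nat (𝕜 := ℝ)).const_mul ε₁
    rwa [mul_zero] at this
  have hchoose : ∀ j : ℕ, ∃ h : ℝ, 0 < h ∧ h ≤ 1 / ((j:ℝ) + 1) ∧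
      q0 - η / 2 < ‖V.P (r j) (M (V.e h))‖ := by
    intro j
    have h1 := hbig (r j) (hr0 j) ((hrle j).trans hε₁a)
    have h2 := Ioc_mem_nhdsGT (show (0:ℝ) < 1 / ((j:ℝ) + 1) by positivity)
    obtain ⟨h, hh1, hh2⟩ := (h1.and h2).exists
    exact ⟨h, hh2.1, hh2.2, hh1⟩
  choose h hh0 hh1 hh2 using hchoose
  have hht : Tendsto h atTop (𝓝[>] 0) := by
    apply tendsto_nhdsWithin_iff.2
    refine ⟨?_, Eventually.of_forall hh0⟩
    exact squeeze_zero (fun j => (hh0 j).le) hh1 tendsto_one_div_add_atTop_nhds_zero_nat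
  have hhle : ∀ j, h j ≤ 1 := by
    intro j
    refine (hh1 j).trans ?_
    rw [div_le_one (by positivity)]; linarith [(Nat.cast_nonneg j : (0:ℝ) ≤ j)]
  set k : ℕ → A := fun j => V.P ε₁ (M (V.e (h j))) with hk
  have hkn : ∀ j, ‖k j‖ ≤ q0 + η / 2 := by
    intro j
    have h3 := (V.P ε₁ * M).le_opNorm (V.e (h j))
    rw [V.norm_e (hh0 j) (hhle j), mul_one] at h3
    exact h3.trans hlt.le
  set k' : ℕ → A := fun j => V.P (r j) (k j) with hk'
  have hk'n : ∀ j, ‖k' j‖ ≤ q0 + η / 2 := fun j => (V.norm_P_le _ _).trans (hkn j)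
  have hkk' : ∀ j, ‖k j - k' j‖ ≤ η := by
    intro j
    have h3 := V.norm_P_add (r j) (k j)
    have h4 : q0 - η / 2 < ‖k' j‖ := by
      have := hh2 j
      simp only [hk', hk]
      rwa [V.P_P_le (hrle j)]
    have h5 := hkn j
    have h6 : ‖k' j‖ + ‖k j - k' j‖ = ‖k j‖ := h3
    linarith
  set χs : ℕ → ℂ := fun j => V.I (k' j) with hχs
  have hχb : ∀ j, χs j ∈ Metric.closedBall (0:ℂ) (q0 + η / 2) := by
    intro j
    rw [mem_closedBall_zero_iff]
    exact (V.I_norm _).trans (hk'n j)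
  obtain ⟨χ, -, φ, hφ, hχ⟩ := (isCompact_closedBall (0:ℂ) (q0 + η / 2)).tendsto_subseq hχb
  have hmain : ∀ f, V.P ε₁ f = f → ‖V.P ε₁ (M f) - χ • f‖ ≤ η * ‖f‖ := by
    intro f hf
    have h3 : ∀ j, ‖V.P ε₁ (M f) - χ • f‖ ≤ ‖V.P ε₁ (M (f - V.e (h j) * f))‖
        + (‖k' j * f - V.I (k' j) • f‖ + ‖χs j - χ‖ * ‖f‖) + η * ‖f‖ := by
      intro j
      have e1 : V.P ε₁ (M (V.e (h j) * f)) = V.P ε₁ (k j * f) := by
        rw [hM, V.P_P_le hε₁a, V.P_mul]
      have e2 : V.P ε₁ (M f) - χ • f = V.P ε₁ (M (f - V.e (h j) * f))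
          + V.P ε₁ ((k' j * f - V.I (k' j) • f) + (χs j - χ) • f)
          + V.P ε₁ ((k j - k' j) * f) := by
        rw [map_sub M, map_sub (V.P ε₁), e1, sub_smul, sub_mul, map_add, map_sub, map_sub, map_sub,
          map_smul, map_smul, hf]
        abel
      rw [e2]
      refine (norm_add_le _ _).trans (add_le_add ((norm_add_le _ _).trans (add_le_add le_rfl ?_))
        ?_)
      · refine (V.norm_P_le _ _).trans ((norm_add_le _ _).trans ?_)
        rw [norm_smul]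
      · refine (V.norm_P_le _ _).trans ((norm_mul_le _ _).trans ?_)
        exact mul_le_mul_of_nonneg_right (hkk' j) (norm_nonneg _)
    have h4 : Tendsto (fun j => ‖V.P ε₁ (M (f - V.e (h j) * f))‖
        + (‖k' j * f - V.I (k' j) • f‖ + ‖χs j - χ‖ * ‖f‖) + η * ‖f‖) (map φ atTop)
        (𝓝 (‖V.P ε₁ (M (f - f))‖ + (‖(0:A)‖ + ‖χ - χ‖ * ‖f‖) + η * ‖f‖)) := by
      have hle : map φ atTop ≤ atTop := hφ.tendsto_atTop
      refine Tendsto.add_const _ (Tendsto.add ?_ (Tendsto.add ?_ ?_))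
      · refine Tendsto.norm ?_
        refine (((V.P ε₁).continuous.comp M.continuous).tendsto _).comp ?_
        exact (tendsto_const_nhds.sub ((V.tendsto_e_mul f).comp hht)).mono_left hle
      · refine Tendsto.norm ?_
        exact (V.avg_tendsto hrt (fun j => (hr0 j).le) (k := k')
          (fun j => by simp only [hk', V.P_idem]) hk'n f).mono_left hle
      · refine Tendsto.mul_const _ (Tendsto.norm (Tendsto.sub_const ?_ _))
        rw [tendsto_map'_iff]; exact hχ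
    simp only [sub_self, map_zero, norm_zero, zero_mul, add_zero, zero_add] at h4
    exact ge_of_tendsto' h4 h3
  refine ⟨ε₁, hε₁, hε₁a, χ, fun f => ?_⟩
  have h5 := hmain (V.P ε₁ f) (V.P_idem _ _)
  rwa [hM.P_apply_P hε₁a] at h5

/-- multipliers commuting with `X` are scalars -/
lemma IsMul.scalar {a : ℝ} {M : A →L[ℂ] A} (hM : V.IsMul a M)
    (h : V.X * M - M * V.X = 0) : ∃ χ : ℂ, M = χ • V.P a := by
  have h1 : V.X (M V.u) = M (V.X V.u) := by
    have := congrArg (fun T : A →L[ℂ] A => T V.u) h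
    simp only [ContinuousLinearMap.sub_apply, ContinuousLinearMap.mul_apply,
      ContinuousLinearMap.zero_apply, sub_eq_zero] at this
    exact this
  obtain ⟨c, hc⟩ := V.scalar a (M V.u) (by
    rw [h1, V.X_u, hM.P_apply, hM.mul_apply'])
  refine ⟨c, ?_⟩
  apply IsMul.ext_u V hM ((V.isMul_P a).smul c)
  rw [← hM.P_apply, hc]; rfl

variable {V}

/-- commutator of a power -/
lemma IsMul.bracket_pow {b : ℝ} {M : A →L[ℂ] A} (hM : V.IsMul b M) (j : ℕ) :
    V.X * M ^ (j+1) - M ^ (j+1) * V.X = ((j:ℂ) + 1) • (M ^ j * (V.X * M - M * V.X)) := by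
  have hD := hM.bracket
  set D := V.X * M - M * V.X with hDdef
  have hcomm : Commute M D := hM.comm hD
  induction j with
  | zero => simp [hDdef]
  | succ j ih =>
    have h1 : V.X * M ^ (j+1+1) - M ^ (j+1+1) * V.X
        = (V.X * M ^ (j+1) - M ^ (j+1) * V.X) * M + M ^ (j+1) * D := by
      rw [hDdef, _root_.pow_succ M (j+1)]; noncomm_ring
    rw [h1, ih, smul_mul_assoc, mul_assoc, ← hcomm.eq, ← mul_assoc, ← _root_.pow_succ]
    push_cast
    rw [add_smul ((j:ℂ)+1) 1, one_smul]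

variable [CompleteSpace A]

lemma IsMul.exp {b : ℝ} {M : A →L[ℂ] A} (hM : V.IsMul b M) :
    V.IsMul b (V.P b * NormedSpace.exp M) := by
  have h1 := (exp_series_hasSum_exp' (𝕂 := ℂ) M).mul_left (V.P b)
  refine IsMul.of_tendsto V h1 ?_
  intro s f g
  have : ∀ j, V.IsMul b (V.P b * ((Nat.factorial j : ℂ)⁻¹ • M ^ j)) := by
    intro j
    rw [mul_smul_comm]
    exact (IsMul.P_mul_pow V hM j).smul _
  rw [ContinuousLinearMap.sum_apply, ContinuousLinearMap.sum_apply, Finset.sum_mul, map_sum]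
  exact Finset.sum_congr rfl fun j _ => this j f g

lemma IsMul.bracket_exp {b : ℝ} {M : A →L[ℂ] A} (hM : V.IsMul b M) :
    V.X * NormedSpace.exp M - NormedSpace.exp M * V.X
      = NormedSpace.exp M * (V.X * M - M * V.X) := by
  have h0 := exp_series_hasSum_exp' (𝕂 := ℂ) M
  have h1 := (h0.mul_left V.X).sub (h0.mul_right V.X)
  have h2 := h0.mul_right (V.X * M - M * V.X)
  have h3 : HasSum (fun j : ℕ => V.X * ((Nat.factorial (j+1) : ℂ)⁻¹ • M ^ (j+1))
      - ((Nat.factorial (j+1) : ℂ)⁻¹ • M ^ (j+1)) * V.X)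
      (V.X * NormedSpace.exp M - NormedSpace.exp M * V.X) := by
    rw [hasSum_nat_add_iff (f := fun j : ℕ => V.X * ((Nat.factorial j : ℂ)⁻¹ • M ^ j)
      - ((Nat.factorial j : ℂ)⁻¹ • M ^ j) * V.X) 1]
    simpa using h1
  have h4 : ∀ j : ℕ, V.X * ((Nat.factorial (j+1) : ℂ)⁻¹ • M ^ (j+1))
      - ((Nat.factorial (j+1) : ℂ)⁻¹ • M ^ (j+1)) * V.X
      = ((Nat.factorial j : ℂ)⁻¹ • M ^ j) * (V.X * M - M * V.X) := by
    intro j
    rw [mul_smul_comm, smul_mul_assoc, ← smul_sub, hM.bracket_pow, smul_smul, smul_mul_assoc]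
    congr 1
    rw [Nat.factorial_succ]
    have h1 : ((j:ℂ) + 1) ≠ 0 := by exact_mod_cast Nat.succ_ne_zero j
    have h2 : (Nat.factorial j : ℂ) ≠ 0 := by exact_mod_cast Nat.factorial_ne_zero j
    push_cast
    field_simp
  simp only [h4] at h3
  exact h3.unique h2

/-- existence of a logarithm -/
lemma IsMul.exists_log {b : ℝ} {E : A →L[ℂ] A} (hE : V.IsMul b E) (hn : ‖E‖ ≤ 1/2) :
    ∃ C : A →L[ℂ] A, V.IsMul b C ∧
      (V.X * C - C * V.X) + E * (V.X * C - C * V.X) = V.X * E - E * V.X := by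
  set D := V.X * E - E * V.X with hD
  set c : ℕ → (A →L[ℂ] A) := fun j => ((-1:ℂ)^j * ((j:ℂ) + 1)⁻¹) • E ^ (j+1) with hc
  have hcn : ∀ j, ‖c j‖ ≤ (1/2)^(j+1) := by
    intro j
    simp only [hc]
    rw [norm_smul, norm_mul, norm_pow, norm_neg, norm_one, one_pow, one_mul, norm_inv]
    have h1 : (1:ℝ) ≤ ‖((j:ℂ) + 1)‖ := by
      have : ((j:ℂ) + 1) = ((j + 1 : ℕ) : ℂ) := by push_cast; rfl
      rw [this, Complex.norm_natCast]
      exact_mod_cast Nat.succ_le_succ (Nat.zero_le j)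
    have h2 : ‖((j:ℂ) + 1)‖⁻¹ ≤ 1 := inv_le_one_of_one_le₀ h1
    have h3 : ‖E ^ (j+1)‖ ≤ (1/2)^(j+1) :=
      (norm_pow_le' _ (Nat.succ_pos _)).trans (pow_le_pow_left₀ (norm_nonneg _) hn _)
    calc ‖((j:ℂ) + 1)‖⁻¹ * ‖E ^ (j+1)‖ ≤ 1 * (1/2)^(j+1) := by gcongr
      _ = _ := one_mul _
  have hsum : Summable c := by
    refine Summable.of_norm_bounded (g := fun j : ℕ => ((1:ℝ)/2)^(j+1)) ?_ hcn
    simp_rw [_root_.pow_succ]
    exact summable_geometric_two.mul_right _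
  have hhas := hsum.hasSum
  refine ⟨∑' j, c j, ?_, ?_⟩
  · refine IsMul.of_tendsto V hhas ?_
    intro s f g
    rw [ContinuousLinearMap.sum_apply, ContinuousLinearMap.sum_apply, Finset.sum_mul, map_sum]
    exact Finset.sum_congr rfl fun j _ => ((IsMul.pow_succ V hE j).smul _) f g
  · set C := ∑' j, c j with hCdef
    -- commutator series
    have h1 := (hhas.mul_left V.X).sub (hhas.mul_right V.X)
    have h2 : ∀ j, V.X * c j - c j * V.X = (-1:ℂ)^j • (E ^ j * D) := by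
      intro j
      simp only [hc]
      rw [mul_smul_comm, smul_mul_assoc, ← smul_sub, hE.bracket_pow, smul_smul]
      congr 1
      have h1 : ((j:ℂ) + 1) ≠ 0 := by exact_mod_cast Nat.succ_ne_zero j
      field_simp
    simp only [h2] at h1
    have h3 := h1.mul_left E
    have h4 : ∀ j, E * ((-1:ℂ)^j • (E ^ j * D)) = - ((-1:ℂ)^(j+1) • (E ^ (j+1) * D)) := by
      intro j
      rw [mul_smul_comm, ← mul_assoc, ← _root_.pow_succ', _root_.pow_succ (-1:ℂ), mul_neg_one, neg_smul, neg_neg]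
    simp only [h4] at h3
    have h5 : HasSum (fun j : ℕ => (-1:ℂ)^(j+1) • (E ^ (j+1) * D)) ((V.X * C - C * V.X) - D) := by
      rw [hasSum_nat_add_iff (f := fun j : ℕ => (-1:ℂ)^j • (E ^ j * D)) 1]
      simpa using h1
    have h6 := h5.neg.unique h3
    rw [← h6]; abel

end VD

end Volt
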