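import Mathlib

/-!
Concrete model `L¹[0,1]`: representatives, weighted translations, truncated convolution.
-/

namespace Volt

open MeasureTheory Set Filter Topology

/-- Lebesgue measure on `[0,1]`. -/
noncomputable abbrev mu0 : Measure ℝ := volume.restrict (Icc (0:ℝ) 1)

/-- The space `L¹[0,1]`. -/
abbrev L1 : Type := Lp ℂ 1 mu0

namespace L1

/-- the extension by zero -/
noncomputable def rep (f : L1) : ℝ → ℂ := (Ico (0:ℝ) 1).indicator f

lemma mu0_eq : mu0 = volume.restrict (Ico (0:ℝ) 1) :=
  Measure.restrict_congr_set Ico_ae_eq_Icc.symm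

lemma integrable_mu0 {F : ℝ → ℂ} : Integrable F mu0 ↔ IntegrableOn F (Ico (0:ℝ) 1) volume := by
  rw [mu0_eq]; rfl

lemma ae_mu0 {F G : ℝ → ℂ} : F =ᵐ[mu0] G ↔ F =ᵐ[volume.restrict (Ico (0:ℝ) 1)] G := by
  rw [mu0_eq]

lemma integral_mu0 (F : ℝ → ℝ) : ∫ t, F t ∂mu0 = ∫ t in Ico (0:ℝ) 1, F t := by
  rw [mu0_eq]

lemma rep_zero_of_notMem (f : L1) {t : ℝ} (ht : t ∉ Ico (0:ℝ) 1) : rep f t = 0 :=
  indicator_of_notMem ht _

lemma rep_neg (f : L1) {t : ℝ} (ht : t < 0) : rep f t = 0 :=
  rep_zero_of_notMem f (fun h => absurd h.1 (not_le.2 ht))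

lemma rep_ge (f : L1) {t : ℝ} (ht : 1 ≤ t) : rep f t = 0 :=
  rep_zero_of_notMem f (fun h => absurd h.2 (not_lt.2 ht))

lemma integrable_rep (f : L1) : Integrable (rep f) := by
  rw [rep, integrable_indicator_iff measurableSet_Ico]
  exact integrable_mu0.1 (L1.integrable_coeFn f)

/-- the class of an integrable function -/
noncomputable def mk (F : ℝ → ℂ) (hF : Integrable F) : L1 := (hF.restrict (s := Icc 0 1)).toL1 F

lemma coe_mk (F : ℝ → ℂ) (hF : Integrable F) : mk F hF =ᵐ[mu0] F :=
  Integrable.coeFn_toL1 _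

lemma rep_ae_of_coe {f : L1} {F : ℝ → ℂ} (h : f =ᵐ[mu0] F) :
    rep f =ᵐ[volume] (Ico (0:ℝ) 1).indicator F := by
  exact (ae_eq_restrict_iff_indicator_ae_eq measurableSet_Ico).1 (ae_mu0.1 h)

lemma rep_mk (F : ℝ → ℂ) (hF : Integrable F) :
    rep (mk F hF) =ᵐ[volume] (Ico (0:ℝ) 1).indicator F := rep_ae_of_coe (coe_mk F hF)

lemma coe_ae_rep (f : L1) : f =ᵐ[mu0] rep f := by
  rw [ae_mu0, Filter.EventuallyEq, ae_restrict_iff' measurableSet_Ico]
  exact Eventually.of_forall fun t ht => (indicator_of_mem ht _).symm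

lemma ext_rep {f g : L1} (h : rep f =ᵐ[volume] rep g) : f = g := by
  apply Lp.ext
  have h1 : rep f =ᵐ[mu0] rep g := ae_restrict_of_ae h
  exact (coe_ae_rep f).trans (h1.trans (coe_ae_rep g).symm)

lemma norm_eq (f : L1) : ‖f‖ = ∫ t, ‖rep f t‖ := by
  rw [L1.norm_eq_integral_norm, integral_mu0, ← integral_indicator measurableSet_Ico]
  congr 1
  ext t
  rw [rep, norm_indicator_eq_indicator_norm]

lemma rep_add (f g : L1) : rep (f + g) =ᵐ[volume] fun t => rep f t + rep g t := by
  have h := rep_ae_of_coe (Lp.coeFn_add f g)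
  filter_upwards [h] with t ht
  rw [ht]
  by_cases h2 : t ∈ Ico (0:ℝ) 1
  · simp [rep, indicator_of_mem h2]
  · simp [rep, indicator_of_notMem h2]

lemma rep_sub (f g : L1) : rep (f - g) =ᵐ[volume] fun t => rep f t - rep g t := by
  have h := rep_ae_of_coe (Lp.coeFn_sub f g)
  filter_upwards [h] with t ht
  rw [ht]
  by_cases h2 : t ∈ Ico (0:ℝ) 1
  · simp [rep, indicator_of_mem h2]
  · simp [rep, indicator_of_notMem h2]

lemma rep_smul (c : ℂ) (f : L1) : rep (c • f) =ᵐ[volume] fun t => c * rep f t := by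
  have h := rep_ae_of_coe (Lp.coeFn_smul c f)
  filter_upwards [h] with t ht
  rw [ht]
  by_cases h2 : t ∈ Ico (0:ℝ) 1
  · simp [rep, indicator_of_mem h2]
  · simp [rep, indicator_of_notMem h2]

lemma rep_zero : rep (0 : L1) =ᵐ[volume] fun _ => (0:ℂ) := by
  have h := rep_ae_of_coe (Lp.coeFn_zero ℂ 1 mu0)
  filter_upwards [h] with t ht
  rw [ht]
  by_cases h2 : t ∈ Ico (0:ℝ) 1
  · simp [indicator_of_mem h2]
  · simp [indicator_of_notMem h2]

lemma ae_shift {F G : ℝ → ℂ} (h : F =ᵐ[volume] G) (s : ℝ) :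
    (fun t => F (t - s)) =ᵐ[volume] fun t => G (t - s) :=
  (measurePreserving_sub_right volume s).quasiMeasurePreserving.ae_eq_comp h

/-- weighted translation of a function -/
noncomputable def Wf (m : ℝ → ℂ) (s : ℝ) (F : ℝ → ℂ) : ℝ → ℂ :=
  (Ico (0:ℝ) 1).indicator (fun t => m t * F (t - s))

lemma Wf_congr (m : ℝ → ℂ) (s : ℝ) {F G : ℝ → ℂ} (h : F =ᵐ[volume] G) :
    Wf m s F =ᵐ[volume] Wf m s G := by
  filter_upwards [ae_shift h s] with t ht
  simp only [Wf, indicator]
  split_ifs
  · rw [ht]
  · rfl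

/-- a bounded weight -/
structure Wt where
  m : ℝ → ℂ
  B : ℝ
  meas : Measurable m
  nonneg : 0 ≤ B
  bound : ∀ t ∈ Ico (0:ℝ) 1, ‖m t‖ ≤ B

lemma Wf_integrable (w : Wt) (s : ℝ) {F : ℝ → ℂ} (hF : Integrable F) :
    Integrable (Wf w.m s F) := by
  rw [Wf, integrable_indicator_iff measurableSet_Ico]
  have h1 : IntegrableOn (fun t => F (t - s)) (Ico (0:ℝ) 1) := (hF.comp_sub_right s).integrableOn
  refine Integrable.bdd_mul (c := w.B) h1 w.meas.aestronglyMeasurable ?_
  rw [ae_restrict_iff' measurableSet_Ico]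
  exact Eventually.of_forall w.bound

lemma norm_Wf_le (w : Wt) (s : ℝ) {F : ℝ → ℂ} (hF : Integrable F) :
    ∫ t, ‖Wf w.m s F t‖ ≤ w.B * ∫ t, ‖F t‖ := by
  have h1 : ∫ t, ‖F (t - s)‖ = ∫ t, ‖F t‖ := integral_sub_right_eq_self (fun t => ‖F t‖) s
  rw [← h1, ← integral_const_mul]
  apply integral_mono_of_nonneg (Eventually.of_forall fun t => norm_nonneg _)
  · exact (hF.comp_sub_right s).norm.const_mul _
  · refine Eventually.of_forall fun t => ?_
    simp only [Wf]
    by_cases h2 : t ∈ Ico (0:ℝ) 1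
    · rw [indicator_of_mem h2, norm_mul]
      exact mul_le_mul_of_nonneg_right (w.bound t h2) (norm_nonneg _)
    · rw [indicator_of_notMem h2, norm_zero]
      have := w.nonneg
      positivity

/-- weighted translation operator -/
noncomputable def W (w : Wt) (s : ℝ) : L1 →L[ℂ] L1 :=
  LinearMap.mkContinuous
    { toFun := fun f => mk (Wf w.m s (rep f)) (Wf_integrable w s (integrable_rep f))
      map_add' := by
        intro f g
        apply ext_rep
        refine (rep_mk _ _).trans (EventuallyEq.trans ?_ (rep_add _ _).symm)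
        filter_upwards [rep_mk _ (Wf_integrable w s (integrable_rep f)),
          rep_mk _ (Wf_integrable w s (integrable_rep g)), ae_shift (rep_add f g) s]
          with t h1 h2 h3
        rw [h1, h2]
        simp only [Wf, indicator]
        split_ifs
        · rw [h3]; ring
        · ring
      map_smul' := by
        intro c f
        apply ext_rep
        refine (rep_mk _ _).trans (EventuallyEq.trans ?_ (rep_smul _ _).symm)
        filter_upwards [rep_mk _ (Wf_integrable w s (integrable_rep f)), ae_shift (rep_smul c f) s]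
          with t h1 h3
        rw [h1]
        simp only [Wf, indicator]
        split_ifs
        · rw [h3, RingHom.id_apply]; ring
        · ring } w.B (by
      intro f
      rw [norm_eq f]
      refine le_trans (le_of_eq ?_) (norm_Wf_le w s (integrable_rep f))
      simp only [LinearMap.coe_mk, AddHom.coe_mk]
      rw [norm_eq]
      apply integral_congr_ae
      filter_upwards [rep_mk _ (Wf_integrable w s (integrable_rep f))] with t h1
      rw [h1]
      congr 1
      simp only [Wf, indicator]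
      split_ifs <;> rfl)

lemma rep_W (w : Wt) (s : ℝ) (f : L1) : rep (W w s f) =ᵐ[volume] Wf w.m s (rep f) := by
  have h1 := rep_mk _ (Wf_integrable w s (integrable_rep f))
  refine h1.trans (Eventually.of_forall fun t => ?_)
  simp only [Wf, indicator]
  split_ifs <;> rfl

lemma norm_W_le (w : Wt) (s : ℝ) (f : L1) : ‖W w s f‖ ≤ w.B * ‖f‖ := by
  rw [norm_eq f, norm_eq]
  refine le_trans (le_of_eq ?_) (norm_Wf_le w s (integrable_rep f))
  apply integral_congr_ae
  filter_upwards [rep_W w s f] with t h1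
  rw [h1]

lemma rep_W_W (w w' : Wt) (s s' : ℝ) (f : L1) :
    rep (W w s (W w' s' f)) =ᵐ[volume] Wf w.m s (Wf w'.m s' (rep f)) :=
  (rep_W w s _).trans (Wf_congr _ _ (rep_W w' s' f))

/-! ### Convolution -/

/-- convolution of functions on the line -/
noncomputable def cv (F G : ℝ → ℂ) : ℝ → ℂ := fun t => ∫ r, F r * G (t - r)

lemma cv_eq (F G : ℝ → ℂ) : cv F G = convolution F G (ContinuousLinearMap.mul ℂ ℂ) volume := rfl

lemma cv_integrable {F G : ℝ → ℂ} (hF : Integrable F) (hG : Integrable G) :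
    Integrable (cv F G) := by
  rw [cv_eq]; exact hF.integrable_convolution _ hG

lemma cv_congr {F F' G G' : ℝ → ℂ} (h1 : F =ᵐ[volume] F') (h2 : G =ᵐ[volume] G') :
    cv F G = cv F' G' := by
  rw [cv_eq, cv_eq]; exact convolution_congr _ h1 h2

lemma cv_comm (F G : ℝ → ℂ) : cv F G = cv G F := by
  ext t
  simp only [cv]
  rw [← integral_sub_left_eq_self (fun r => F r * G (t - r)) volume t]
  congr 1
  ext r
  rw [sub_sub_cancel, mul_comm]

lemma cv_norm {F G : ℝ → ℂ} (hF : Integrable F) (hG : Integrable G) :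
    ∫ t, ‖cv F G t‖ ≤ (∫ t, ‖F t‖) * ∫ t, ‖G t‖ := by
  have h1 := integral_convolution (ContinuousLinearMap.mul ℝ ℝ) (μ := volume) (ν := volume)
    hF.norm hG.norm
  have h2 : ∀ t, ‖cv F G t‖ ≤ (convolution (fun t => ‖F t‖) (fun t => ‖G t‖)
      (ContinuousLinearMap.mul ℝ ℝ) volume) t := by
    intro t
    simp only [cv, convolution_def, ContinuousLinearMap.mul_apply']
    refine (norm_integral_le_integral_norm _).trans (le_of_eq ?_)
    congr 1; ext r; rw [norm_mul]
  rw [ContinuousLinearMap.mul_apply'] at h1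
  rw [← h1]
  exact integral_mono_of_nonneg (Eventually.of_forall fun t => norm_nonneg _)
    (hF.norm.integrable_convolution _ hG.norm) (Eventually.of_forall h2)

lemma cv_add_right {F G G' : ℝ → ℂ} (hF : Integrable F) (hG : Integrable G)
    (hG' : Integrable G') : cv F (fun t => G t + G' t) =ᵐ[volume] fun t => cv F G t + cv F G' t := by
  filter_upwards [hF.ae_convolution_exists (ContinuousLinearMap.mul ℂ ℂ) hG,
    hF.ae_convolution_exists (ContinuousLinearMap.mul ℂ ℂ) hG'] with t h1 h2
  have h1' : Integrable (fun r => F r * G (t - r)) := h1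
  have h2' : Integrable (fun r => F r * G' (t - r)) := h2
  simp only [cv]
  rw [← integral_add h1' h2']
  congr 1; ext r
  ring

lemma cv_smul_right (F G : ℝ → ℂ) (c : ℂ) : cv F (fun t => c * G t) = fun t => c * cv F G t := by
  ext t
  simp only [cv]
  rw [← integral_const_mul]
  congr 1; ext r; ring

lemma cv_assoc {F G H : ℝ → ℂ} (hF : Integrable F) (hG : Integrable G) (hH : Integrable H) :
    cv (cv F G) H =ᵐ[volume] cv F (cv G H) := by
  have h1 := hF.ae_convolution_exists (ContinuousLinearMap.mul ℂ ℂ) hG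
  have h2 := hG.norm.ae_convolution_exists (ContinuousLinearMap.mul ℝ ℝ) hH.norm
  have h3 := hF.norm.ae_convolution_exists (ContinuousLinearMap.mul ℝ ℝ)
    (hG.norm.integrable_convolution (ContinuousLinearMap.mul ℝ ℝ) hH.norm)
  filter_upwards [h3] with t h3t
  exact convolution_assoc (ContinuousLinearMap.mul ℂ ℂ) (ContinuousLinearMap.mul ℂ ℂ)
    (ContinuousLinearMap.mul ℂ ℂ) (ContinuousLinearMap.mul ℂ ℂ)
    (by intro x y z; simp only [ContinuousLinearMap.mul_apply']; ring) hF.aestronglyMeasurable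
    hG.aestronglyMeasurable hH.aestronglyMeasurable h1 h2 h3t

/-- truncation does not matter -/
lemma cv_trunc {F G : ℝ → ℂ} (hF : ∀ t, t < 0 → F t = 0) (hG : ∀ t, t < 0 → G t = 0) {t : ℝ}
    (ht : t < 1) : cv ((Ico (0:ℝ) 1).indicator F) G t = cv F G t := by
  simp only [cv]
  congr 1; ext r
  by_cases h1 : r ∈ Ico (0:ℝ) 1
  · rw [indicator_of_mem h1]
  · rw [indicator_of_notMem h1, zero_mul]
    rcases lt_or_ge r 0 with h2 | h2
    · rw [hF r h2, zero_mul]
    · have h3 : 1 ≤ r := by
        by_contra h4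
        exact h1 ⟨h2, not_le.1 h4⟩
      rw [hG (t - r) (by linarith), mul_zero]

lemma cv_neg {F G : ℝ → ℂ} (hF : ∀ t, t < 0 → F t = 0) (hG : ∀ t, t < 0 → G t = 0) {t : ℝ}
    (ht : t < 0) : cv F G t = 0 := by
  simp only [cv]
  rw [show (fun r => F r * G (t - r)) = fun _ => (0:ℂ) from ?_, integral_zero]
  ext r
  rcases lt_or_ge r 0 with h2 | h2
  · rw [hF r h2, zero_mul]
  · rw [hG (t - r) (by linarith), mul_zero]

/-- the truncated convolution product -/
noncomputable def conv (f g : L1) : L1 :=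
  mk (cv (rep f) (rep g)) (cv_integrable (integrable_rep f) (integrable_rep g))

lemma rep_conv (f g : L1) :
    rep (conv f g) =ᵐ[volume] (Ico (0:ℝ) 1).indicator (cv (rep f) (rep g)) := rep_mk _ _

lemma conv_comm (f g : L1) : conv f g = conv g f := by
  apply ext_rep
  refine (rep_conv f g).trans (EventuallyEq.trans ?_ (rep_conv g f).symm)
  rw [cv_comm]

lemma rep_conv_conv (f g h : L1) : rep (conv (conv f g) h) =ᵐ[volume]
    (Ico (0:ℝ) 1).indicator (cv (cv (rep f) (rep g)) (rep h)) := by
  refine (rep_conv _ _).trans ?_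
  rw [cv_congr (rep_conv f g) (EventuallyEq.refl _ _)]
  refine Eventually.of_forall fun t => ?_
  simp only [indicator]
  split_ifs with ht
  · exact cv_trunc (fun t ht => cv_neg (fun _ => rep_neg f) (fun _ => rep_neg g) ht)
      (fun _ => rep_neg h) ht.2
  · rfl

lemma conv_assoc (f g h : L1) : conv (conv f g) h = conv f (conv g h) := by
  apply ext_rep
  refine (rep_conv_conv f g h).trans ?_
  rw [conv_comm f, ]
  refine EventuallyEq.trans ?_ (rep_conv_conv g h f).symm
  filter_upwards [cv_assoc (integrable_rep f) (integrable_rep g) (integrable_rep h)] with t ht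
  simp only [indicator]
  split_ifs
  · rw [ht, cv_comm (rep f)]
  · rfl

lemma conv_add (f g h : L1) : conv f (g + h) = conv f g + conv f h := by
  apply ext_rep
  refine (rep_conv _ _).trans (EventuallyEq.trans ?_ (rep_add _ _).symm)
  rw [cv_congr (EventuallyEq.refl _ _) (rep_add g h)]
  filter_upwards [cv_add_right (integrable_rep f) (integrable_rep g) (integrable_rep h),
    rep_conv f g, rep_conv f h] with t h1 h2 h3
  rw [h2, h3]
  simp only [indicator]
  split_ifs
  · exact h1
  · simp

lemma conv_smul (c : ℂ) (f g : L1) : conv f (c • g) = c • conv f g := by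
  apply ext_rep
  refine (rep_conv _ _).trans (EventuallyEq.trans ?_ (rep_smul _ _).symm)
  rw [cv_congr (EventuallyEq.refl _ _) (rep_smul c g), cv_smul_right]
  filter_upwards [rep_conv f g] with t h2
  rw [h2]
  simp only [indicator]
  split_ifs <;> simp

lemma norm_conv_le (f g : L1) : ‖conv f g‖ ≤ ‖f‖ * ‖g‖ := by
  rw [norm_eq, norm_eq f, norm_eq g]
  refine le_trans ?_ (cv_norm (integrable_rep f) (integrable_rep g))
  have h1 : ∫ t, ‖rep (conv f g) t‖ = ∫ t, ‖(Ico (0:ℝ) 1).indicator (cv (rep f) (rep g)) t‖ := by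
    apply integral_congr_ae
    filter_upwards [rep_conv f g] with t ht
    rw [ht]
  rw [h1]
  apply integral_mono_of_nonneg (Eventually.of_forall fun t => norm_nonneg _)
  · exact (cv_integrable (integrable_rep f) (integrable_rep g)).norm
  · exact Eventually.of_forall fun t => norm_indicator_le_norm_self _ _

/-- `L¹[0,1]` as a commutative Banach algebra under truncated convolution. -/
noncomputable instance : NonUnitalNormedCommRing L1 :=
  { (inferInstance : NormedAddCommGroup L1) with
    mul := conv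
    left_distrib := conv_add
    right_distrib := fun f g h => by
      change conv (f + g) h = conv f h + conv g h
      rw [conv_comm, conv_add, conv_comm h, conv_comm h]
    zero_mul := fun f => by
      change conv 0 f = 0
      have := conv_smul 0 f 0
      rw [zero_smul, zero_smul] at this
      rw [conv_comm, this]
    mul_zero := fun f => by
      change conv f 0 = 0
      have := conv_smul 0 f 0
      rwa [zero_smul, zero_smul] at this
    mul_assoc := conv_assoc
    mul_comm := conv_comm
    norm_mul_le := norm_conv_le }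

lemma mul_def (f g : L1) : f * g = conv f g := rfl

instance : IsScalarTower ℂ L1 L1 := ⟨fun c f g => by
  change conv (c • f) g = c • conv f g
  rw [conv_comm, conv_smul, conv_comm]⟩

instance : SMulCommClass ℂ L1 L1 := ⟨fun c f g => by
  change c • conv f g = conv f (c • g)
  rw [conv_smul]⟩

end L1

end Volt
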