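import Pool.Agent.Helper56.Volt.Model1

/-!
The operators of the concrete model and their algebraic identities.
-/

set_option linter.deprecated false

namespace Volt

open MeasureTheory Set Filter Topology

namespace L1

/-- weight `1` -/
noncomputable def w1 : Wt where
  m := fun _ => 1
  B := 1
  meas := measurable_const
  nonneg := zero_le_one
  bound := by intro t _; simp

/-- weight `t` -/
noncomputable def wX : Wt where
  m := fun t => (t : ℂ)
  B := 1
  meas := Complex.measurable_ofReal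
  nonneg := zero_le_one
  bound := by
    intro t ht
    rw [Complex.norm_real, Real.norm_eq_abs, abs_of_nonneg ht.1]
    exact ht.2.le

/-- weight `1_{t < a}` -/
noncomputable def wP (a : ℝ) : Wt where
  m := (Iio a).indicator (fun _ => (1:ℂ))
  B := 1
  meas := measurable_const.indicator measurableSet_Iio
  nonneg := zero_le_one
  bound := by
    intro t _
    refine (norm_indicator_le_norm_self _ _).trans ?_
    simp

/-- weight `t 1_{t < a}` -/
noncomputable def wXP (a : ℝ) (ha : 0 ≤ a) : Wt where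
  m := (Iio a).indicator (fun t => (t:ℂ))
  B := a
  meas := Complex.measurable_ofReal.indicator measurableSet_Iio
  nonneg := ha
  bound := by
    intro t ht
    by_cases h : t < a
    · rw [indicator_of_mem (show t ∈ Iio a from h), Complex.norm_real, Real.norm_eq_abs,
        abs_of_nonneg ht.1]
      exact h.le
    · rw [indicator_of_notMem (show t ∉ Iio a from h), norm_zero]; exact ha

/-- shift -/
noncomputable def S (s : ℝ) : L1 →L[ℂ] L1 := W w1 s
/-- left shift -/
noncomputable def R (s : ℝ) : L1 →L[ℂ] L1 := W w1 (-s)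
/-- multiplication by `t` -/
noncomputable def X : L1 →L[ℂ] L1 := W wX 0
/-- truncation -/
noncomputable def P (a : ℝ) : L1 →L[ℂ] L1 := W (wP a) 0

/-- indicator of `[0,1)` -/
noncomputable def uf : ℝ → ℂ := (Ico (0:ℝ) 1).indicator (fun _ => (1:ℂ))

lemma uf_integrable : Integrable uf := by
  rw [uf, integrable_indicator_iff measurableSet_Ico]
  exact integrableOn_const (by simp) (by simp)

/-- the constant function `1` -/
noncomputable def u : L1 := mk uf uf_integrable

lemma rep_u : rep u =ᵐ[volume] uf := by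
  refine (rep_mk _ _).trans (Eventually.of_forall fun t => ?_)
  simp only [uf, indicator]
  split_ifs <;> rfl

/-- supported in `[0,1)` -/
def Sup (F : ℝ → ℂ) : Prop := ∀ t, t ∉ Ico (0:ℝ) 1 → F t = 0

lemma sup_rep (f : L1) : Sup (rep f) := fun _ ht => rep_zero_of_notMem f ht

lemma Sup.lt {F : ℝ → ℂ} (h : Sup F) {t : ℝ} (ht : t < 0) : F t = 0 :=
  h t (fun hh => absurd hh.1 (not_le.2 ht))

lemma Sup.ge {F : ℝ → ℂ} (h : Sup F) {t : ℝ} (ht : 1 ≤ t) : F t = 0 :=
  h t (fun hh => absurd hh.2 (not_lt.2 ht))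

lemma Wf_apply_mem (m : ℝ → ℂ) (s : ℝ) (F : ℝ → ℂ) {t : ℝ} (ht : t ∈ Ico (0:ℝ) 1) :
    Wf m s F t = m t * F (t - s) := indicator_of_mem ht _

lemma Wf_apply_notMem (m : ℝ → ℂ) (s : ℝ) (F : ℝ → ℂ) {t : ℝ} (ht : t ∉ Ico (0:ℝ) 1) :
    Wf m s F t = 0 := indicator_of_notMem ht _

lemma sup_Wf (m : ℝ → ℂ) (s : ℝ) (F : ℝ → ℂ) : Sup (Wf m s F) :=
  fun _ ht => Wf_apply_notMem m s F ht

/-- extensionality for compositions of two weighted shifts -/
lemma W_W_eq_W {w w' w'' : Wt} {s s' s'' : ℝ}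
    (h : ∀ F : ℝ → ℂ, Sup F → ∀ t ∈ Ico (0:ℝ) 1,
      w.m t * Wf w'.m s' F (t - s) = w''.m t * F (t - s'')) (f : L1) :
    W w s (W w' s' f) = W w'' s'' f := by
  apply ext_rep
  refine (rep_W_W _ _ _ _ _).trans (EventuallyEq.trans (Eventually.of_forall fun t => ?_)
    (rep_W _ _ _).symm)
  by_cases ht : t ∈ Ico (0:ℝ) 1
  · simp only [Wf_apply_mem _ _ _ ht]
    exact h _ (sup_rep f) t ht
  · simp only [Wf_apply_notMem _ _ _ ht]

lemma W_W_eq_W_W {w w' v v' : Wt} {s s' r r' : ℝ}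
    (h : ∀ F : ℝ → ℂ, Sup F → ∀ t ∈ Ico (0:ℝ) 1,
      w.m t * Wf w'.m s' F (t - s) = v.m t * Wf v'.m r' F (t - r)) (f : L1) :
    W w s (W w' s' f) = W v r (W v' r' f) := by
  apply ext_rep
  refine (rep_W_W _ _ _ _ _).trans (EventuallyEq.trans (Eventually.of_forall fun t => ?_)
    (rep_W_W _ _ _ _ _).symm)
  by_cases ht : t ∈ Ico (0:ℝ) 1
  · simp only [Wf_apply_mem _ _ _ ht]
    exact h _ (sup_rep f) t ht
  · simp only [Wf_apply_notMem _ _ _ ht]

lemma wP_lt {a t : ℝ} (h : t < a) : (wP a).m t = 1 := by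
  change (Iio a).indicator (fun _ => (1:ℂ)) t = 1
  rw [indicator_of_mem (show t ∈ Iio a from h)]
lemma wP_ge {a t : ℝ} (h : ¬ t < a) : (wP a).m t = 0 := by
  change (Iio a).indicator (fun _ => (1:ℂ)) t = 0
  rw [indicator_of_notMem (show t ∉ Iio a from h)]
lemma rep_P (a : ℝ) (f : L1) : rep (P a f) =ᵐ[volume] Wf (wP a).m 0 (rep f) := rep_W _ _ _
lemma rep_S (s : ℝ) (f : L1) : rep (S s f) =ᵐ[volume] Wf w1.m s (rep f) := rep_W _ _ _
lemma rep_X (f : L1) : rep (X f) =ᵐ[volume] Wf wX.m 0 (rep f) := rep_W _ _ _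
lemma uf_mem {t : ℝ} (ht : t ∈ Ico (0:ℝ) 1) : uf t = 1 := by
  rw [uf, indicator_of_mem ht]
lemma uf_notMem {t : ℝ} (ht : t ∉ Ico (0:ℝ) 1) : uf t = 0 := by
  rw [uf, indicator_of_notMem ht]
lemma w1_m (t : ℝ) : w1.m t = 1 := rfl
lemma wX_m (t : ℝ) : wX.m t = (t:ℂ) := rfl

lemma P_P (a b : ℝ) (f : L1) : P a (P b f) = P (min a b) f := by
  apply W_W_eq_W
  intro F hF t ht
  rw [sub_zero, Wf_apply_mem _ _ _ ht, sub_zero]
  by_cases h1 : t < a
  · by_cases h2 : t < b
    · rw [wP_lt h1, wP_lt h2, wP_lt (lt_min h1 h2)]; ring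
    · rw [wP_ge h2, wP_ge (fun h => h2 (h.trans_le (min_le_right _ _)))]; ring
  · rw [wP_ge h1, wP_ge (fun h => h1 (h.trans_le (min_le_left _ _)))]; ring

lemma P_X (a : ℝ) (f : L1) : P a (X f) = X (P a f) := by
  apply W_W_eq_W_W
  intro F hF t ht
  rw [sub_zero, Wf_apply_mem _ _ _ ht, Wf_apply_mem _ _ _ ht]
  ring

lemma P_nonpos (a : ℝ) (ha : a ≤ 0) (f : L1) : P a f = 0 := by
  apply ext_rep
  refine (rep_W _ _ _).trans (EventuallyEq.trans (Eventually.of_forall fun t => ?_) rep_zero.symm)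
  by_cases ht : t ∈ Ico (0:ℝ) 1
  · rw [Wf_apply_mem _ _ _ ht, wP_ge (by have := ht.1; linarith), zero_mul]
  · rw [Wf_apply_notMem _ _ _ ht]

lemma P_one_le (a : ℝ) (ha : 1 ≤ a) (f : L1) : P a f = f := by
  apply ext_rep
  refine (rep_W _ _ _).trans (Eventually.of_forall fun t => ?_)
  by_cases ht : t ∈ Ico (0:ℝ) 1
  · rw [Wf_apply_mem _ _ _ ht, wP_lt (by have := ht.2; linarith), one_mul, sub_zero]
  · rw [Wf_apply_notMem _ _ _ ht, sup_rep f t ht]

lemma S_zero (f : L1) : S 0 f = f := by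
  apply ext_rep
  refine (rep_W _ _ _).trans (Eventually.of_forall fun t => ?_)
  by_cases ht : t ∈ Ico (0:ℝ) 1
  · rw [Wf_apply_mem _ _ _ ht, w1_m, one_mul, sub_zero]
  · rw [Wf_apply_notMem _ _ _ ht, sup_rep f t ht]

lemma S_add (s r : ℝ) (hs : 0 ≤ s) (hr : 0 ≤ r) (f : L1) : S (s + r) f = S s (S r f) := by
  symm
  apply W_W_eq_W
  intro F hF t ht
  rw [w1_m, one_mul]
  by_cases h : t - s ∈ Ico (0:ℝ) 1
  · rw [Wf_apply_mem _ _ _ h, w1_m]; congr 2; ring
  · rw [Wf_apply_notMem _ _ _ h]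
    have h1 : t - s < 0 := by
      by_contra h2
      exact h ⟨not_lt.1 h2, by have := ht.2; linarith⟩
    rw [hF.lt (by linarith), one_mul]

lemma X_S (s : ℝ) (hs : 0 ≤ s) (f : L1) : X (S s f) = S s (X f) + (s : ℂ) • S s f := by
  apply ext_rep
  refine (rep_W_W _ _ _ _ _).trans (EventuallyEq.trans ?_ (rep_add _ _).symm)
  filter_upwards [rep_W_W w1 wX s 0 f, rep_smul (s:ℂ) (S s f), rep_W w1 s f] with t h1 h2 h3
  change _ = rep (W w1 s (W wX 0 f)) t + rep ((s:ℂ) • S s f) t
  rw [h1, h2]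
  change _ = _ + (s:ℂ) * rep (W w1 s f) t
  rw [h3]
  by_cases ht : t ∈ Ico (0:ℝ) 1
  · simp only [Wf_apply_mem _ _ _ ht, sub_zero, w1_m, one_mul, wX_m]
    by_cases h : t - s ∈ Ico (0:ℝ) 1
    · rw [Wf_apply_mem _ _ _ h, wX_m, sub_zero]; push_cast; ring
    · rw [Wf_apply_notMem _ _ _ h, sup_rep f _ h]; ring
  · simp only [Wf_apply_notMem _ _ _ ht]; ring

lemma P_S (a s : ℝ) (hs : 0 ≤ s) (f : L1) : P a (S s f) = S s (P (a - s) f) := by
  apply W_W_eq_W_W
  intro F hF t ht
  rw [sub_zero, Wf_apply_mem _ _ _ ht, w1_m, one_mul, one_mul]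
  by_cases h : t - s ∈ Ico (0:ℝ) 1
  · rw [Wf_apply_mem _ _ _ h, sub_zero]
    by_cases h1 : t < a
    · rw [wP_lt h1, wP_lt (by linarith)]
    · rw [wP_ge h1, wP_ge (by intro h2; apply h1; linarith)]
  · rw [Wf_apply_notMem _ _ _ h, hF _ h, mul_zero]

lemma R_S (s : ℝ) (hs : 0 ≤ s) (f : L1) : R s (S s f) = P (1 - s) f := by
  apply W_W_eq_W
  intro F hF t ht
  rw [w1_m, one_mul, sub_neg_eq_add, sub_zero]
  by_cases h : t + s ∈ Ico (0:ℝ) 1
  · rw [Wf_apply_mem _ _ _ h, w1_m, add_sub_cancel_right, wP_lt (by have := h.2; linarith)]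
  · rw [Wf_apply_notMem _ _ _ h, wP_ge, zero_mul]
    intro h1
    exact h ⟨by have := ht.1; linarith, by linarith⟩

lemma S_R (s : ℝ) (hs : 0 ≤ s) (f : L1) : S s (R s f) = f - P s f := by
  apply ext_rep
  refine (rep_W_W _ _ _ _ _).trans (EventuallyEq.trans ?_ (rep_sub _ _).symm)
  filter_upwards [rep_W (wP s) 0 f] with t h1
  change _ = rep f t - rep (W (wP s) 0 f) t
  rw [h1]
  by_cases ht : t ∈ Ico (0:ℝ) 1
  · rw [Wf_apply_mem _ _ _ ht, Wf_apply_mem _ _ _ ht, w1_m, one_mul, sub_zero]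
    by_cases h : t < s
    · have h2 : t - s ∉ Ico (0:ℝ) 1 := fun hh => by have := hh.1; linarith
      rw [Wf_apply_notMem _ _ _ h2, wP_lt h]; ring
    · have h2 : t - s ∈ Ico (0:ℝ) 1 := ⟨by linarith, by have := ht.2; linarith⟩
      rw [Wf_apply_mem _ _ _ h2, wP_ge h, w1_m, sub_neg_eq_add, sub_add_cancel]; ring
  · simp only [Wf_apply_notMem _ _ _ ht, sup_rep f _ ht]; ring

lemma P_R (s : ℝ) (hs : 0 ≤ s) (f : L1) : P (1 - s) (R s f) = R s f := by
  apply W_W_eq_W
  intro F hF t ht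
  rw [sub_zero, Wf_apply_mem _ _ _ ht, w1_m, one_mul, sub_neg_eq_add]
  by_cases h : t < 1 - s
  · rw [wP_lt h, one_mul]
  · rw [wP_ge h, hF.ge (by linarith), mul_zero]

lemma X_P_norm (a : ℝ) (ha : 0 ≤ a) (f : L1) : ‖X (P a f)‖ ≤ a * ‖P a f‖ := by
  have h : X (P a f) = W (wXP a ha) 0 (P a f) := by
    apply W_W_eq_W_W
    intro F hF t ht
    rw [sub_zero, Wf_apply_mem _ _ _ ht, wX_m, sub_zero]
    by_cases h : t < a
    · rw [wP_lt h]
      have : (wXP a ha).m t = (t:ℂ) := indicator_of_mem (show t ∈ Iio a from h) _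
      rw [this]
    · rw [wP_ge h]; ring
  rw [h]
  exact norm_W_le (wXP a ha) 0 (P a f)

lemma u_sub (h : ℝ) (hh : 0 ≤ h) : u - S h u = P h u := by
  apply ext_rep
  refine (rep_sub _ _).trans ?_
  filter_upwards [rep_W w1 h u, rep_W (wP h) 0 u, rep_u, ae_shift rep_u h] with t h1 h2 h3 h4
  change rep u t - rep (W w1 h u) t = rep (W (wP h) 0 u) t
  rw [h1, h2, h3]
  by_cases ht : t ∈ Ico (0:ℝ) 1
  · rw [Wf_apply_mem _ _ _ ht, Wf_apply_mem _ _ _ ht, w1_m, one_mul, sub_zero, h3, h4]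
    have e1 : uf t = 1 := uf_mem ht
    rw [e1]
    by_cases hlt : t < h
    · have e2 : uf (t - h) = 0 := uf_notMem (fun hh => by have := hh.1; linarith)
      rw [e2, wP_lt hlt]; ring
    · have e2 : uf (t - h) = 1 := uf_mem ⟨by linarith, by have := ht.2; linarith⟩
      rw [e2, wP_ge hlt]; ring
  · simp only [Wf_apply_notMem _ _ _ ht]
    have e1 : uf t = 0 := uf_notMem ht
    rw [e1]; ring

lemma norm_S (s : ℝ) (hs : 0 ≤ s) (f : L1) : ‖S s f‖ = ‖P (1 - s) f‖ := by
  rw [norm_eq, norm_eq]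
  have h1 : ∫ t, ‖rep (S s f) t‖ = ∫ t, ‖Wf (wP (1-s)).m 0 (rep f) (t - s)‖ := by
    apply integral_congr_ae
    filter_upwards [rep_W w1 s f] with t h1
    change ‖rep (W w1 s f) t‖ = _
    rw [h1]
    congr 1
    by_cases ht : t ∈ Ico (0:ℝ) 1
    · rw [Wf_apply_mem _ _ _ ht, w1_m, one_mul]
      by_cases h : t - s ∈ Ico (0:ℝ) 1
      · rw [Wf_apply_mem _ _ _ h, sub_zero, wP_lt (by have := ht.2; linarith), one_mul]
      · rw [Wf_apply_notMem _ _ _ h, sup_rep f _ h]
    · rw [Wf_apply_notMem _ _ _ ht]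
      by_cases h : t - s ∈ Ico (0:ℝ) 1
      · rw [Wf_apply_mem _ _ _ h, wP_ge, zero_mul]
        intro h2
        exact ht ⟨by have := h.1; linarith, by linarith⟩
      · rw [Wf_apply_notMem _ _ _ h]
  rw [h1, integral_sub_right_eq_self (fun t => ‖Wf (wP (1-s)).m 0 (rep f) t‖) s]
  apply integral_congr_ae
  filter_upwards [rep_W (wP (1-s)) 0 f] with t h1
  change _ = ‖rep (W (wP (1-s)) 0 f) t‖
  rw [h1]

lemma norm_P_add (a : ℝ) (f : L1) : ‖P a f‖ + ‖f - P a f‖ = ‖f‖ := by
  rw [norm_eq, norm_eq, norm_eq, ← integral_add (integrable_rep _).norm (integrable_rep _).norm]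
  apply integral_congr_ae
  filter_upwards [rep_W (wP a) 0 f, rep_sub f (P a f)] with t h1 h2
  have h3 : rep (P a f) t = Wf (wP a).m 0 (rep f) t := h1
  rw [h2, h3]
  by_cases ht : t ∈ Ico (0:ℝ) 1
  · rw [Wf_apply_mem _ _ _ ht, sub_zero]
    by_cases h : t < a
    · rw [wP_lt h]; simp
    · rw [wP_ge h]; simp
  · rw [Wf_apply_notMem _ _ _ ht, sup_rep f t ht]; simp

lemma le_X_norm (a : ℝ) (ha : 0 ≤ a) (f : L1) (hf : P a f = 0) : a * ‖f‖ ≤ ‖X f‖ := by
  rw [norm_eq, norm_eq, ← integral_const_mul]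
  have h0 : rep (P a f) =ᵐ[volume] fun _ => (0:ℂ) := by rw [hf]; exact rep_zero
  apply integral_mono_ae ((integrable_rep f).norm.const_mul a) (integrable_rep _).norm
  filter_upwards [rep_W (wP a) 0 f, rep_W wX 0 f, h0] with t h1 h2 h3
  have h1' : rep (P a f) t = Wf (wP a).m 0 (rep f) t := h1
  have h2' : rep (X f) t = Wf wX.m 0 (rep f) t := h2
  rw [h2']
  rw [h3] at h1'
  by_cases ht : t ∈ Ico (0:ℝ) 1
  · rw [Wf_apply_mem _ _ _ ht, sub_zero] at h1' ⊢
    by_cases h : t < a
    · rw [wP_lt h, one_mul] at h1'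
      rw [← h1']; simp
    · rw [wX_m, norm_mul, Complex.norm_real, Real.norm_eq_abs, abs_of_nonneg ht.1]
      exact mul_le_mul_of_nonneg_right (not_lt.1 h) (norm_nonneg _)
  · rw [sup_rep f t ht, Wf_apply_notMem _ _ _ ht]; simp

lemma P_mul (a : ℝ) (f g : L1) : P a (f * g) = P a (P a f * g) := by
  apply ext_rep
  refine (rep_W _ _ _).trans (EventuallyEq.trans ?_ (rep_W _ _ _).symm)
  filter_upwards [rep_conv f g, rep_conv (P a f) g] with t h1 h2
  by_cases ht : t ∈ Ico (0:ℝ) 1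
  · rw [Wf_apply_mem _ _ _ ht, Wf_apply_mem _ _ _ ht, sub_zero]
    by_cases h : t < a
    · rw [wP_lt h, one_mul, one_mul]
      change rep (conv f g) t = rep (conv (P a f) g) t
      rw [h1, h2, indicator_of_mem ht, indicator_of_mem ht, cv_congr (rep_P a f)
        (EventuallyEq.refl _ (rep g))]
      simp only [cv]
      congr 1; ext r
      by_cases hr : r ∈ Ico (0:ℝ) 1
      · rw [Wf_apply_mem _ _ _ hr, sub_zero]
        by_cases h3 : r < a
        · rw [wP_lt h3, one_mul]
        · rw [(sup_rep g).lt (show t - r < 0 by linarith), mul_zero, mul_zero]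
      · rw [sup_rep f r hr, Wf_apply_notMem _ _ _ hr]
    · rw [wP_ge h, zero_mul, zero_mul]
  · rw [Wf_apply_notMem _ _ _ ht, Wf_apply_notMem _ _ _ ht]

lemma S_mul (s : ℝ) (hs : 0 ≤ s) (f g : L1) : S s (f * g) = S s f * g := by
  apply ext_rep
  refine (rep_W _ _ _).trans ?_
  change _ =ᵐ[volume] rep (conv (S s f) g)
  filter_upwards [ae_shift (rep_conv f g) s, rep_conv (S s f) g] with t h1 h2
  rw [h2]
  by_cases ht : t ∈ Ico (0:ℝ) 1
  · rw [Wf_apply_mem _ _ _ ht, indicator_of_mem ht, w1_m, one_mul]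
    change rep (conv f g) (t - s) = _
    rw [h1, cv_congr (rep_S s f) (EventuallyEq.refl _ (rep g))]
    have e1 : cv (Wf w1.m s (rep f)) (rep g) t = cv (rep f) (rep g) (t - s) := by
      simp only [cv]
      rw [← integral_sub_right_eq_self (fun r => rep f r * rep g (t - s - r)) s]
      congr 1; ext r
      rw [show t - s - (r - s) = t - r by ring]
      by_cases hr : r ∈ Ico (0:ℝ) 1
      · rw [Wf_apply_mem _ _ _ hr, w1_m, one_mul]
      · rw [Wf_apply_notMem _ _ _ hr, zero_mul]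
        rcases lt_or_ge r 0 with h3 | h3
        · rw [(sup_rep f).lt (by linarith), zero_mul]
        · have h4 : 1 ≤ r := by
            by_contra h5
            exact hr ⟨h3, not_le.1 h5⟩
          rw [(sup_rep g).lt (by have := ht.2; linarith), mul_zero]
    rw [e1]
    by_cases h : t - s ∈ Ico (0:ℝ) 1
    · rw [indicator_of_mem h]
    · rw [indicator_of_notMem h]
      have h3 : t - s < 0 := by
        by_contra h2
        exact h ⟨not_lt.1 h2, by have := ht.2; linarith⟩
      rw [cv_neg (fun _ => (sup_rep f).lt) (fun _ => (sup_rep g).lt) h3]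
  · rw [Wf_apply_notMem _ _ _ ht, indicator_of_notMem ht]

lemma X_mul (f g : L1) : X (f * g) = X f * g + f * X g := by
  apply ext_rep
  refine (rep_W _ _ _).trans (EventuallyEq.trans ?_ (rep_add _ _).symm)
  change _ =ᵐ[volume] fun t => rep (conv (X f) g) t + rep (conv f (X g)) t
  have hXf := Wf_integrable wX 0 (integrable_rep f)
  have hXg := Wf_integrable wX 0 (integrable_rep g)
  filter_upwards [rep_conv f g, rep_conv (X f) g, rep_conv f (X g),
    hXf.ae_convolution_exists (ContinuousLinearMap.mul ℂ ℂ) (integrable_rep g),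
    (integrable_rep f).ae_convolution_exists (ContinuousLinearMap.mul ℂ ℂ) hXg] with t h1 h2 h3 h4 h5
  rw [h2, h3]
  by_cases ht : t ∈ Ico (0:ℝ) 1
  · rw [Wf_apply_mem _ _ _ ht, indicator_of_mem ht, indicator_of_mem ht, wX_m, sub_zero]
    change (t:ℂ) * rep (conv f g) t = _
    rw [h1, indicator_of_mem ht, cv_congr (rep_X f) (EventuallyEq.refl _ (rep g)),
      cv_congr (EventuallyEq.refl _ (rep f)) (rep_X g)]
    have h4' : Integrable (fun r => Wf wX.m 0 (rep f) r * rep g (t - r)) := h4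
    have h5' : Integrable (fun r => rep f r * Wf wX.m 0 (rep g) (t - r)) := h5
    simp only [cv]
    rw [← integral_add h4' h5', ← integral_const_mul]
    congr 1; ext r
    have e1 : ∀ (F : ℝ → ℂ), Sup F → ∀ r, Wf wX.m 0 F r = (r:ℂ) * F r := by
      intro F hF r
      by_cases hr : r ∈ Ico (0:ℝ) 1
      · rw [Wf_apply_mem _ _ _ hr, sub_zero, wX_m]
      · rw [Wf_apply_notMem _ _ _ hr, hF r hr, mul_zero]
    rw [e1 _ (sup_rep f), e1 _ (sup_rep g)]
    push_cast
    ring
  · rw [Wf_apply_notMem _ _ _ ht, indicator_of_notMem ht, indicator_of_notMem ht, add_zero]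

/-- convolution with `u` is integration -/
lemma cv_u (G : ℝ → ℂ) (hG : ∀ t, t < 0 → G t = 0) {t : ℝ} (ht : t ∈ Ico (0:ℝ) 1) :
    cv uf G t = ∫ r in (0:ℝ)..t, G r := by
  rw [cv_comm, intervalIntegral.integral_of_le ht.1, ← integral_Icc_eq_integral_Ioc,
    ← integral_indicator measurableSet_Icc]
  simp only [cv]
  congr 1; ext r
  by_cases hr : r ∈ Icc 0 t
  · rw [indicator_of_mem hr]
    have : uf (t - r) = 1 := uf_mem ⟨by linarith [hr.2], by linarith [hr.1, ht.2]⟩
    rw [this, mul_one]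
  · rw [indicator_of_notMem hr]
    rcases lt_or_ge r 0 with h | h
    · rw [hG r h, zero_mul]
    · have h2 : t < r := by
        by_contra h3
        exact hr ⟨h, not_lt.1 h3⟩
      have : uf (t - r) = 0 := uf_notMem (fun hh => by linarith [hh.1])
      rw [this, mul_zero]

/-- representative of `u * g` -/
lemma rep_u_mul (g : L1) : rep (u * g) =ᵐ[volume]
    (Ico (0:ℝ) 1).indicator (fun t => ∫ r in (0:ℝ)..t, rep g r) := by
  change rep (conv u g) =ᵐ[volume] _
  refine (rep_conv _ _).trans ?_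
  rw [cv_congr rep_u (EventuallyEq.refl _ (rep g))]
  refine Eventually.of_forall fun t => ?_
  by_cases ht : t ∈ Ico (0:ℝ) 1
  · rw [indicator_of_mem ht, indicator_of_mem ht]
    exact cv_u _ (fun _ => (sup_rep g).lt) ht
  · rw [indicator_of_notMem ht, indicator_of_notMem ht]

lemma intervalIntegral_congr_ae' {F G : ℝ → ℂ} (h : F =ᵐ[volume] G) (a b : ℝ) :
    ∫ r in a..b, F r = ∫ r in a..b, G r :=
  intervalIntegral.integral_congr_ae (h.mono fun t ht _ => ht)

lemma X_u : X u = u * u := by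
  apply ext_rep
  refine (rep_W _ _ _).trans (EventuallyEq.trans ?_ (rep_u_mul u).symm)
  filter_upwards [rep_u] with t h1
  by_cases ht : t ∈ Ico (0:ℝ) 1
  · rw [Wf_apply_mem _ _ _ ht, indicator_of_mem ht, wX_m, sub_zero, h1,
      intervalIntegral_congr_ae' rep_u]
    have e1 : uf t = 1 := uf_mem ht
    have e2 : ∫ r in (0:ℝ)..t, uf r = ∫ r in (0:ℝ)..t, (1:ℂ) := by
      apply intervalIntegral.integral_congr
      intro r hr
      rw [uIcc_of_le ht.1] at hr
      exact uf_mem ⟨hr.1, hr.2.trans_lt ht.2⟩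
    rw [e1, e2]
    simp
  · rw [Wf_apply_notMem _ _ _ ht, indicator_of_notMem ht]

lemma norm_Pu (h : ℝ) (h0 : 0 ≤ h) (h1 : h ≤ 1) : ‖P h u‖ = h := by
  rw [norm_eq]
  have e1 : ∫ t, ‖rep (P h u) t‖ = ∫ t, (Ico (0:ℝ) h).indicator (fun _ => (1:ℝ)) t := by
    apply integral_congr_ae
    filter_upwards [rep_W (wP h) 0 u, rep_u] with t h2 h3
    change ‖rep (W (wP h) 0 u) t‖ = _
    rw [h2]
    by_cases ht : t ∈ Ico (0:ℝ) 1
    · rw [Wf_apply_mem _ _ _ ht, sub_zero, h3]
      have e1 : uf t = 1 := uf_mem ht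
      rw [e1]
      by_cases hlt : t < h
      · rw [wP_lt hlt, indicator_of_mem (show t ∈ Ico 0 h from ⟨ht.1, hlt⟩)]; simp
      · rw [wP_ge hlt, indicator_of_notMem (show t ∉ Ico 0 h from fun hh => hlt hh.2)]; simp
    · rw [Wf_apply_notMem _ _ _ ht, indicator_of_notMem]
      · simp
      · intro hh
        exact ht ⟨hh.1, by linarith [hh.2]⟩
  rw [e1, integral_indicator measurableSet_Ico]
  simp [h0]

/-- integration functional -/
noncomputable def I : L1 →L[ℂ] ℂ :=
  LinearMap.mkContinuous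
    { toFun := fun f => ∫ t, rep f t
      map_add' := by
        intro f g
        rw [← integral_add (integrable_rep f) (integrable_rep g)]
        exact integral_congr_ae (rep_add f g)
      map_smul' := by
        intro c f
        rw [integral_congr_ae (rep_smul c f), integral_const_mul]
        rfl } 1 (by
      intro f
      rw [one_mul, norm_eq]
      exact norm_integral_le_integral_norm _)

lemma I_apply (f : L1) : I f = ∫ t, rep f t := rfl

lemma I_norm (f : L1) : ‖I f‖ ≤ ‖f‖ := by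
  rw [I_apply, norm_eq]; exact norm_integral_le_integral_norm _

lemma avg (ε : ℝ) (hε : 0 ≤ ε) (k : L1) (hk : P ε k = k) : ‖k * u - I k • u‖ ≤ ε * ‖k‖ := by
  have hk0 : ∀ᵐ t, ε ≤ t → rep k t = 0 := by
    have h1 : rep (P ε k) =ᵐ[volume] rep k := by rw [hk]
    filter_upwards [rep_W (wP ε) 0 k, h1] with t h2 h3 h4
    have h2' : rep (P ε k) t = Wf (wP ε).m 0 (rep k) t := h2
    rw [← h3, h2']
    by_cases ht : t ∈ Ico (0:ℝ) 1
    · rw [Wf_apply_mem _ _ _ ht, wP_ge (not_lt.2 h4), zero_mul]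
    · rw [Wf_apply_notMem _ _ _ ht]
  rw [norm_eq]
  have h1 : ∀ᵐ t, ‖rep (k * u - I k • u) t‖ ≤ (Ico (0:ℝ) ε).indicator (fun _ => ‖k‖) t := by
    have e0 : k * u = u * k := mul_comm _ _
    filter_upwards [rep_sub (k * u) (I k • u), rep_smul (I k) u, rep_u_mul k, rep_u]
      with t h2 h3 h4 h5
    rw [h2, h3, e0, h4, h5]
    by_cases ht : t ∈ Ico (0:ℝ) 1
    · rw [indicator_of_mem ht]
      have e1 : uf t = 1 := uf_mem ht
      have e2 : I k = (∫ r in (0:ℝ)..t, rep k r) + ∫ r in Ioi t, rep k r := by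
        rw [I_apply, intervalIntegral.integral_of_le ht.1]
        have e3 : ∫ r, rep k r = ∫ r in Ioi (0:ℝ), rep k r := by
          rw [← integral_Ici_eq_integral_Ioi, ← integral_indicator measurableSet_Ici]
          congr 1; ext r
          by_cases hr : r ∈ Ici (0:ℝ)
          · rw [indicator_of_mem hr]
          · rw [indicator_of_notMem hr]
            exact (sup_rep k).lt (not_le.1 hr)
        rw [e3, ← Ioc_union_Ioi_eq_Ioi ht.1, setIntegral_union (by
          rw [Set.disjoint_left]; intro x h1 h2; exact absurd h2 (not_lt.2 h1.2)) measurableSet_Ioi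
          (integrable_rep k).integrableOn (integrable_rep k).integrableOn]
      rw [e1, mul_one, e2]
      have e4 : (∫ r in (0:ℝ)..t, rep k r) - ((∫ r in (0:ℝ)..t, rep k r) + ∫ r in Ioi t, rep k r)
          = -∫ r in Ioi t, rep k r := by ring
      rw [e4, norm_neg]
      by_cases hlt : t < ε
      · rw [indicator_of_mem (show t ∈ Ico 0 ε from ⟨ht.1, hlt⟩), norm_eq]
        refine (norm_integral_le_integral_norm _).trans ?_
        exact setIntegral_le_integral (integrable_rep k).norm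
          (Eventually.of_forall fun _ => norm_nonneg _)
      · rw [indicator_of_notMem (fun hh => hlt hh.2)]
        have : ∫ r in Ioi t, rep k r = 0 := by
          apply setIntegral_eq_zero_of_ae_eq_zero
          filter_upwards [hk0] with r hr hrt
          exact hr (by have : t < r := hrt; linarith)
        rw [this, norm_zero]
    · rw [indicator_of_notMem ht]
      have e1 : uf t = 0 := uf_notMem ht
      rw [e1, mul_zero, sub_zero, norm_zero]
      exact indicator_nonneg (fun _ _ => norm_nonneg _) _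
  refine (integral_mono_of_nonneg (Eventually.of_forall fun _ => norm_nonneg _) ?_ h1).trans ?_
  · rw [integrable_indicator_iff measurableSet_Ico]
    exact integrableOn_const (by simp) (by simp)
  · rw [integral_indicator measurableSet_Ico]
    simp [hε]

lemma P_cont (f : L1) : Continuous (fun a => P a f) := by
  set N : ℝ → ℝ := fun a => ∫ t in (0:ℝ)..a, ‖rep f t‖ with hN
  have hNc : Continuous N :=
    intervalIntegral.continuous_primitive (fun a b => (integrable_rep f).norm.intervalIntegrable) 0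
  have key : ∀ a b, a ≤ b → ‖P b f - P a f‖ = N b - N a := by
    intro a b hab
    rw [norm_eq]
    have e1 : ∫ t, ‖rep (P b f - P a f) t‖ = ∫ t, (Ico a b).indicator (fun t => ‖rep f t‖) t := by
      apply integral_congr_ae
      filter_upwards [rep_sub (P b f) (P a f), rep_W (wP a) 0 f, rep_W (wP b) 0 f] with t h1 h2 h3
      have h2' : rep (P a f) t = Wf (wP a).m 0 (rep f) t := h2
      have h3' : rep (P b f) t = Wf (wP b).m 0 (rep f) t := h3
      rw [h1, h2', h3']
      by_cases ht : t ∈ Ico (0:ℝ) 1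
      · rw [Wf_apply_mem _ _ _ ht, Wf_apply_mem _ _ _ ht, sub_zero]
        by_cases h4 : t < a
        · rw [wP_lt h4, wP_lt (by linarith), indicator_of_notMem (fun hh => by linarith [hh.1])]
          simp
        · by_cases h5 : t < b
          · rw [wP_ge h4, wP_lt h5, indicator_of_mem (show t ∈ Ico a b from ⟨not_lt.1 h4, h5⟩)]; simp
          · rw [wP_ge h4, wP_ge h5, indicator_of_notMem (fun hh => h5 hh.2)]; simp
      · rw [Wf_apply_notMem _ _ _ ht, Wf_apply_notMem _ _ _ ht]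
        simp only [indicator]
        split_ifs
        · rw [sup_rep f t ht]; simp
        · simp
    rw [e1, integral_indicator measurableSet_Ico, integral_Ico_eq_integral_Ioc,
      ← intervalIntegral.integral_of_le hab, hN]
    simp only
    rw [intervalIntegral.integral_interval_sub_left] 
    all_goals exact (integrable_rep f).norm.intervalIntegrable
  have key2 : ∀ a b, dist (P a f) (P b f) = dist (N a) (N b) := by
    intro a b
    rcases le_total a b with h | h
    · rw [dist_comm, dist_comm (N a), dist_eq_norm, key a b h, Real.dist_eq, abs_of_nonneg]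
      rw [← key a b h]; exact norm_nonneg _
    · rw [dist_eq_norm, key b a h, Real.dist_eq, abs_of_nonneg]
      rw [← key b a h]; exact norm_nonneg _
  rw [Metric.continuous_iff] at hNc ⊢
  intro b ε hε
  obtain ⟨δ, hδ, h⟩ := hNc b ε hε
  exact ⟨δ, hδ, fun a ha => by rw [key2]; exact h a ha⟩

end L1

end Volt
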