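import Pool.Agent.Helper56.Volt.Model2

/-!
Density, the scalar lemma and the square lemma.
-/

set_option linter.deprecated false

namespace Volt

open MeasureTheory Set Filter Topology

namespace L1

lemma I_Pu (h : ℝ) (h0 : 0 ≤ h) (h1 : h ≤ 1) : I (P h u) = h := by
  rw [I_apply]
  have e1 : ∫ t, rep (P h u) t = ∫ t, (Ico (0:ℝ) h).indicator (fun _ => (1:ℂ)) t := by
    apply integral_congr_ae
    filter_upwards [rep_P h u, rep_u] with t h2 h3
    rw [h2]
    by_cases ht : t ∈ Ico (0:ℝ) 1
    · rw [Wf_apply_mem _ _ _ ht, sub_zero, h3, uf_mem ht]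
      by_cases hlt : t < h
      · rw [wP_lt hlt, indicator_of_mem (show t ∈ Ico 0 h from ⟨ht.1, hlt⟩)]; simp
      · rw [wP_ge hlt, indicator_of_notMem (show t ∉ Ico 0 h from fun hh => hlt hh.2)]; simp
    · rw [Wf_apply_notMem _ _ _ ht, indicator_of_notMem]
      intro hh
      exact ht ⟨hh.1, by linarith [hh.2]⟩
  rw [e1, integral_indicator measurableSet_Ico]
  simp [h0]

/-- the closed submodule generated by `u * L¹` -/
noncomputable def clU : Submodule ℂ L1 :=
  (LinearMap.range (LinearMap.mulLeft ℂ u)).topologicalClosure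

lemma mem_clU {f : L1} (hf : f ∈ clU) : f ∈ closure (Set.range (fun g => u * g)) := hf

lemma mul_mem_clU (g : L1) : u * g ∈ clU :=
  Submodule.le_topologicalClosure _ ⟨g, rfl⟩

lemma u_mem_clU : u ∈ clU := by
  change u ∈ closure _
  rw [Metric.mem_closure_iff]
  intro ε hε
  set h : ℝ := min (ε / 2) 1 with hh
  have h0 : 0 < h := by positivity
  have h1 : h ≤ 1 := min_le_right _ _
  set k : L1 := ((h⁻¹ : ℝ) : ℂ) • P h u with hk
  refine ⟨u * k, ⟨k, rfl⟩, ?_⟩
  have e1 : P h k = k := by rw [hk, map_smul, P_P, min_self]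
  have e2 := avg h h0.le k e1
  have e3 : I k = 1 := by
    rw [hk, map_smul, I_Pu h h0.le h1, smul_eq_mul]
    push_cast
    have : (h:ℂ) ≠ 0 := by exact_mod_cast h0.ne'
    field_simp
  have e4 : ‖k‖ = 1 := by
    rw [hk, norm_smul, norm_Pu h h0.le h1, Complex.norm_real, Real.norm_eq_abs, abs_inv,
      abs_of_pos h0]
    field_simp
  rw [e3, one_smul, e4, mul_one] at e2
  rw [dist_comm, dist_eq_norm, mul_comm]
  have : h ≤ ε / 2 := min_le_left _ _
  linarith

lemma smooth_mem_clU {g : ℝ → ℂ} (hg : ContDiff ℝ 1 g) (hc : HasCompactSupport g) 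
    (hgi : Integrable g) : mk g hgi ∈ clU := by
  have hg'c : Continuous (deriv g) := hg.continuous_deriv le_rfl
  have hg's : HasCompactSupport (deriv g) := hc.deriv
  have hg'i : Integrable (deriv g) := hg'c.integrable_of_hasCompactSupport hg's
  have key : mk g hgi = (g 0) • u + u * mk (deriv g) hg'i := by
    apply ext_rep
    refine (rep_mk _ _).trans (EventuallyEq.trans ?_ (rep_add _ _).symm)
    filter_upwards [rep_smul (g 0) u, rep_u, rep_u_mul (mk (deriv g) hg'i)] with t h1 h2 h3
    rw [h1, h2, h3]
    by_cases ht : t ∈ Ico (0:ℝ) 1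
    · rw [indicator_of_mem ht, indicator_of_mem ht, uf_mem ht,
        intervalIntegral_congr_ae' (rep_mk _ _)]
      have e1 : ∫ r in (0:ℝ)..t, (Ico (0:ℝ) 1).indicator (deriv g) r
          = ∫ r in (0:ℝ)..t, deriv g r := by
        apply intervalIntegral.integral_congr
        intro r hr
        rw [uIcc_of_le ht.1] at hr
        exact indicator_of_mem (show r ∈ Ico (0:ℝ) 1 from ⟨hr.1, hr.2.trans_lt ht.2⟩) _
      rw [e1, intervalIntegral.integral_deriv_eq_sub
        (fun x _ => (hg.differentiable one_ne_zero).differentiableAt)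
        (hg'c.intervalIntegrable _ _)]
      ring
    · rw [indicator_of_notMem ht, indicator_of_notMem ht, uf_notMem ht]; ring
  rw [key]
  exact clU.add_mem (clU.smul_mem _ u_mem_clU) (mul_mem_clU _)

lemma dense (f : L1) : f ∈ closure (Set.range (fun g => u * g)) := by
  apply mem_clU
  have hcl : IsClosed (clU : Set L1) := Submodule.isClosed_topologicalClosure _
  rw [← SetLike.mem_coe, ← hcl.closure_eq, Metric.mem_closure_iff]
  intro ε hε
  have hm : MemLp (rep f) 1 volume := memLp_one_iff_integrable.2 (integrable_rep f)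
  obtain ⟨g, hg1, hg2, hg3⟩ := hm.exist_eLpNorm_sub_le (by simp) le_rfl
    (show 0 < ε / 2 by positivity)
  have hgi : Integrable g := hg2.continuous.integrable_of_hasCompactSupport hg1
  refine ⟨mk g hgi, smooth_mem_clU (hg2.of_le (by exact_mod_cast le_top)) hg1 hgi, ?_⟩
  rw [dist_eq_norm, norm_eq]
  have e1 : ∫ t, ‖rep (f - mk g hgi) t‖ ≤ ∫ t, ‖rep f t - g t‖ := by
    apply integral_mono_ae (integrable_rep _).norm ((integrable_rep f).sub hgi).norm
    filter_upwards [rep_sub f (mk g hgi), rep_mk g hgi] with t h1 h2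
    rw [h1, h2]
    by_cases ht : t ∈ Ico (0:ℝ) 1
    · rw [indicator_of_mem ht]; exact le_rfl
    · rw [indicator_of_notMem ht, sup_rep f t ht]; simp
  have e2 : ∫ t, ‖rep f t - g t‖ ≤ ε / 2 := by
    rw [eLpNorm_one_eq_lintegral_enorm, ← ofReal_integral_norm_eq_lintegral_enorm
      ((integrable_rep f).sub hgi)] at hg3
    exact (ENNReal.ofReal_le_ofReal_iff (by positivity)).1 hg3
  linarith

/-- primitive zero implies zero -/
lemma ae_zero_of_primitive_zero {F : ℝ → ℂ} (hF : Integrable F) {T : ℝ}
    (h : ∀ t ∈ Ioo 0 T, ∫ r in (0:ℝ)..t, F r = 0) : ∀ᵐ t, t ∈ Ioo 0 T → F t = 0 := by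
  filter_upwards [LocallyIntegrable.ae_hasDerivAt_integral hF.locallyIntegrable] with t ht htT
  have h1 := ht 0
  have h2 : HasDerivAt (fun x => ∫ r in (0:ℝ)..x, F r) 0 t := by
    refine (hasDerivAt_const t (0:ℂ)).congr_of_eventuallyEq ?_
    filter_upwards [Ioo_mem_nhds htT.1 htT.2] with x hx
    exact h x hx
  exact h1.unique h2

lemma P_eq_zero_iff {a : ℝ} {f : L1} : P a f = 0 ↔ ∀ᵐ t, t < a → rep f t = 0 := by
  constructor
  · intro h
    have h0 : rep (P a f) =ᵐ[volume] fun _ => (0:ℂ) := by rw [h]; exact rep_zero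
    filter_upwards [h0, rep_P a f] with t h1 h2 h3
    rw [h1] at h2
    by_cases ht : t ∈ Ico (0:ℝ) 1
    · rw [Wf_apply_mem _ _ _ ht, wP_lt h3, one_mul, sub_zero] at h2
      exact h2.symm
    · exact sup_rep f t ht
  · intro h
    apply ext_rep
    refine EventuallyEq.trans ?_ rep_zero.symm
    filter_upwards [h, rep_P a f] with t h1 h2
    rw [h2]
    by_cases ht : t ∈ Ico (0:ℝ) 1
    · rw [Wf_apply_mem _ _ _ ht, sub_zero]
      by_cases h3 : t < a
      · rw [h1 h3, mul_zero]
      · rw [wP_ge h3, zero_mul]
    · rw [Wf_apply_notMem _ _ _ ht]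

lemma P_eq_iff {a : ℝ} {f g : L1} : P a f = P a g ↔ ∀ᵐ t, t < a → rep f t = rep g t := by
  rw [← sub_eq_zero, ← map_sub, P_eq_zero_iff]
  constructor
  · intro h
    filter_upwards [h, rep_sub f g] with t h1 h2 h3
    have := h1 h3
    rw [h2, sub_eq_zero] at this
    exact this
  · intro h
    filter_upwards [h, rep_sub f g] with t h1 h2 h3
    rw [h2, h1 h3, sub_self]

/-- `X f = u * f` forces `f` constant -/
lemma scalar (a : ℝ) (f : L1) (h : P a (X f) = P a (u * f)) : ∃ c : ℂ, P a f = c • P a u := by
  rcases le_or_gt a 0 with ha | ha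
  · exact ⟨0, by rw [P_nonpos a ha, zero_smul]⟩
  set b := min a 1 with hb
  have hb0 : 0 < b := lt_min ha one_pos
  set F := rep f with hF
  have hFi : Integrable F := integrable_rep f
  set Φ : ℝ → ℂ := fun t => ∫ r in (0:ℝ)..t, F r with hΦ
  have hΦc : Continuous Φ :=
    intervalIntegral.continuous_primitive (fun a b => hFi.intervalIntegrable) 0
  have h1 : ∀ᵐ t, t ∈ Ioo 0 b → F t = Φ t / t := by
    filter_upwards [P_eq_iff.1 h, rep_X f, rep_u_mul f] with t h2 h3 h4 h5
    have h6 := h2 (h5.2.trans_le (min_le_left _ _))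
    have ht : t ∈ Ico (0:ℝ) 1 := ⟨h5.1.le, h5.2.trans_le (min_le_right _ _)⟩
    rw [h3, h4, Wf_apply_mem _ _ _ ht, indicator_of_mem ht, wX_m, sub_zero] at h6
    have h7 : (t:ℂ) ≠ 0 := by exact_mod_cast h5.1.ne'
    rw [eq_div_iff h7, mul_comm]
    exact h6
  -- `Φ` is differentiable with derivative `Φ t / t`
  have hder : ∀ t ∈ Ioo 0 b, HasDerivAt Φ (Φ t / t) t := by
    intro t ht
    set s := t / 2 with hs
    have hs0 : 0 < s := by have := ht.1; positivity
    have hst : s < t := by have := ht.1; linarith
    have hcont : ContinuousOn (fun r : ℝ => Φ r / (r:ℂ)) (Ioi 0) := by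
      apply ContinuousOn.div hΦc.continuousOn Complex.continuous_ofReal.continuousOn
      intro x hx
      exact_mod_cast (ne_of_gt hx)
    have h2 : ∀ x ∈ Ioo s b, Φ x = Φ s + ∫ r in s..x, Φ r / (r:ℂ) := by
      intro x hx
      have e1 : Φ x = Φ s + ∫ r in s..x, F r := by
        rw [hΦ]
        exact (intervalIntegral.integral_add_adjacent_intervals hFi.intervalIntegrable
          hFi.intervalIntegrable).symm
      rw [e1]
      congr 1
      apply intervalIntegral.integral_congr_ae
      filter_upwards [h1] with r hr hr2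
      rw [uIoc_of_le hx.1.le] at hr2
      exact hr ⟨hs0.trans hr2.1, hr2.2.trans_lt hx.2⟩
    have h3 : HasDerivAt (fun x => Φ s + ∫ r in s..x, Φ r / (r:ℂ)) (Φ t / t) t := by
      apply HasDerivAt.const_add
      apply intervalIntegral.integral_hasDerivAt_right
      · apply ContinuousOn.intervalIntegrable
        rw [uIcc_of_le hst.le]
        exact hcont.mono fun x hx => hs0.trans_le hx.1
      · exact hcont.stronglyMeasurableAtFilter isOpen_Ioi t ht.1
      · exact hcont.continuousAt (Ioi_mem_nhds ht.1)
    refine h3.congr_of_eventuallyEq ?_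
    filter_upwards [Ioo_mem_nhds hst ht.2] with x hx
    exact h2 x hx
  have hder2 : ∀ t ∈ Ioo 0 b, HasDerivAt (fun t : ℝ => Φ t / (t:ℂ)) 0 t := by
    intro t ht
    have h7 : (t:ℂ) ≠ 0 := by exact_mod_cast ht.1.ne'
    have h8 := (hder t ht).div (Complex.ofRealCLM.hasDerivAt (x := t)) (by simpa using h7)
    simp only [Complex.ofRealCLM_apply, Complex.ofReal_one] at h8
    have h9 : (Φ t / (t:ℂ) * (t:ℂ) - Φ t * 1) / (t:ℂ)^2 = 0 := by
      rw [div_mul_cancel₀ _ h7, mul_one, sub_self, zero_div]
    rw [h9] at h8
    exact h8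
  obtain ⟨c, hc⟩ := isOpen_Ioo.exists_is_const_of_deriv_eq_zero (isPreconnected_Ioo (a := 0)
    (b := b)) (f := fun t : ℝ => Φ t / (t:ℂ))
    (fun t ht => (hder2 t ht).differentiableAt.differentiableWithinAt)
    (fun t ht => (hder2 t ht).deriv)
  refine ⟨c, ?_⟩
  rw [← map_smul, P_eq_iff]
  have hne : ∀ᵐ t : ℝ, t ≠ 0 := by simp [ae_iff, measure_singleton]
  filter_upwards [h1, rep_smul c u, rep_u, hne] with t h2 h3 h4 h5 h6
  rw [h3, h4]
  by_cases ht : t ∈ Ico (0:ℝ) 1
  · have ht2 : t ∈ Ioo 0 b := ⟨lt_of_le_of_ne ht.1 (Ne.symm h5), lt_min h6 ht.2⟩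
    rw [uf_mem ht, mul_one, ← hc t ht2]
    exact h2 ht2
  · rw [uf_notMem ht, mul_zero]
    exact sup_rep f t ht

/-- Mikusiński's moment lemma -/
lemma moment {g : ℝ → ℂ} (hg : Integrable g) {T : ℝ} (hT : ∀ x, T < x → g x = 0) {M : ℝ}
    (hM : ∀ n : ℕ, ‖∫ x, (Real.exp (n * x) : ℂ) * g x‖ ≤ M) (t : ℝ) (ht : 0 < t) :
    ∫ x in Ioi t, g x = 0 := by
  have hM0 : 0 ≤ M := (norm_nonneg _).trans (hM 0)
  -- the kernels
  set E : ℕ → ℝ → ℝ := fun n x => 1 - Real.exp (-Real.exp (n * (x - t))) with hE
  have hE0 : ∀ n x, 0 ≤ E n x := by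
    intro n x
    have : Real.exp (-Real.exp (n * (x - t))) ≤ 1 := by
      rw [Real.exp_le_one_iff]
      have := Real.exp_pos (n * (x - t))
      linarith
    simp only [hE]; linarith
  have hE1 : ∀ n x, E n x ≤ 1 := by
    intro n x
    have := Real.exp_pos (-Real.exp (n * (x - t)))
    simp only [hE]; linarith
  have hEc : ∀ n, Continuous (E n) := by
    intro n; simp only [hE]; fun_prop
  -- the limit
  have hne : ∀ᵐ x : ℝ, x ≠ t := by simp [ae_iff, measure_singleton]
  have hlim : Tendsto (fun n : ℕ => ∫ x, (E n x : ℂ) * g x) atTop (𝓝 (∫ x in Ioi t, g x)) := by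
    rw [← integral_indicator measurableSet_Ioi]
    apply tendsto_integral_of_dominated_convergence (fun x => ‖g x‖)
    · intro n
      exact ((Complex.continuous_ofReal.comp (hEc n)).aestronglyMeasurable).mul
        hg.aestronglyMeasurable
    · exact hg.norm
    · intro n
      refine Eventually.of_forall fun x => ?_
      rw [norm_mul, Complex.norm_real, Real.norm_eq_abs, abs_of_nonneg (hE0 n x)]
      have := norm_nonneg (g x)
      have := hE1 n x
      nlinarith
    · filter_upwards [hne] with x hx
      rcases lt_or_gt_of_ne hx with h | h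
      · rw [indicator_of_notMem (by simpa using h.le)]
        have h1 : Tendsto (fun n : ℕ => E n x) atTop (𝓝 0) := by
          have h2 : Tendsto (fun n : ℕ => (n:ℝ) * (x - t)) atTop atBot :=
            (tendsto_natCast_atTop_atTop).atTop_mul_const_of_neg (by linarith)
          have h3 := Real.tendsto_exp_atBot.comp h2
          have h4 : Tendsto (fun n : ℕ => 1 - Real.exp (-Real.exp ((n:ℝ) * (x - t)))) atTop
              (𝓝 (1 - Real.exp (-0))) :=
            tendsto_const_nhds.sub ((Real.continuous_exp.tendsto _).comp h3.neg)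
          simpa using h4
        have h2 : Tendsto (fun n : ℕ => ((E n x : ℝ) : ℂ) * g x) atTop (𝓝 (((0:ℝ):ℂ) * g x)) :=
          ((Complex.continuous_ofReal.tendsto _).comp h1).mul_const _
        simpa using h2
      · rw [indicator_of_mem (show x ∈ Ioi t from h)]
        have h1 : Tendsto (fun n : ℕ => E n x) atTop (𝓝 1) := by
          have h2 : Tendsto (fun n : ℕ => (n:ℝ) * (x - t)) atTop atTop :=
            (tendsto_natCast_atTop_atTop).atTop_mul_const (by linarith)
          have h3 := Real.tendsto_exp_atTop.comp h2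
          have h5 := Real.tendsto_exp_neg_atTop_nhds_zero.comp h3
          have h4 : Tendsto (fun n : ℕ => 1 - Real.exp (-Real.exp ((n:ℝ) * (x - t)))) atTop
              (𝓝 (1 - 0)) :=
            tendsto_const_nhds.sub h5
          simpa using h4
        have h2 : Tendsto (fun n : ℕ => ((E n x : ℝ) : ℂ) * g x) atTop (𝓝 (((1:ℝ):ℂ) * g x)) :=
          ((Complex.continuous_ofReal.tendsto _).comp h1).mul_const _
        simpa using h2
  -- the bound
  have hbound : ∀ n : ℕ, ‖∫ x, (E n x : ℂ) * g x‖ ≤ M * (Real.exp (Real.exp (-(n * t))) - 1) := by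
    intro n
    -- the series
    set a : ℕ → ℝ := fun k => (-1)^k / (Nat.factorial (k+1) : ℝ) with ha
    have hser : ∀ y : ℝ, HasSum (fun k : ℕ => a k * y^(k+1)) (1 - Real.exp (-y)) := by
      intro y
      have h1 : HasSum (fun k : ℕ => (-y)^k / (Nat.factorial k : ℝ)) (Real.exp (-y)) := by
        rw [Real.exp_eq_exp_ℝ]
        exact NormedSpace.expSeries_div_hasSum_exp (-y)
      have h2 : HasSum (fun k : ℕ => (-y)^(k+1) / (Nat.factorial (k+1) : ℝ))
          (Real.exp (-y) - 1) := by
        rw [hasSum_nat_add_iff (f := fun k : ℕ => (-y)^k / (Nat.factorial k : ℝ)) 1]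
        simpa using h1
      have h3 := h2.neg
      rw [neg_sub] at h3
      refine h3.congr_fun ?_
      intro k
      simp only [ha]
      rw [neg_pow y (k+1), pow_succ (-1:ℝ)]
      ring
    have hak : ∀ k, |a k| = 1 / (Nat.factorial (k+1) : ℝ) := by
      intro k
      simp only [ha]
      rw [abs_div, abs_pow, abs_neg, abs_one, one_pow, Nat.abs_cast]
    set f : ℕ → ℝ → ℂ := fun k x =>
      ((a k * Real.exp (-((k+1) * (n * t))) : ℝ) : ℂ) * ((Real.exp (((n * (k+1) : ℕ) : ℝ) * x) : ℂ)
        * g x) with hf
    have hpt : ∀ x, HasSum (fun k => f k x) ((E n x : ℂ) * g x) := by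
      intro x
      have h1 := hser (Real.exp (n * (x - t)))
      have h2 := (Complex.hasSum_ofReal.2 h1).mul_right (g x)
      refine h2.congr_fun ?_
      intro k
      simp only [hf]
      rw [← mul_assoc]
      congr 1
      rw [← Complex.ofReal_mul]
      congr 1
      rw [mul_assoc, ← Real.exp_add, ← Real.exp_nat_mul]
      congr 2
      push_cast
      ring
    have hexpT : ∀ (j : ℕ), Integrable (fun x => (Real.exp ((j:ℝ) * x) : ℂ) * g x) := by
      intro j
      refine Integrable.mono' (hg.norm.const_mul (Real.exp (j * T))) ?_ ?_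
      · exact ((Complex.continuous_ofReal.comp (by fun_prop)).aestronglyMeasurable).mul
          hg.aestronglyMeasurable
      · refine Eventually.of_forall fun x => ?_
        rcases le_or_gt x T with h | h
        · rw [norm_mul, Complex.norm_real, Real.norm_eq_abs, abs_of_pos (Real.exp_pos _)]
          gcongr
        · rw [hT x h]; simp
    have hfi : ∀ k, Integrable (f k) := fun k => (hexpT (n * (k+1))).const_mul _
    have hfn : ∀ k, ∫ x, ‖f k x‖ ≤ (Real.exp (n * |T|))^(k+1) / (Nat.factorial (k+1) : ℝ)
        * ∫ x, ‖g x‖ := by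
      intro k
      rw [← integral_const_mul]
      apply integral_mono_of_nonneg (Eventually.of_forall fun _ => norm_nonneg _)
      · exact hg.norm.const_mul _
      · refine Eventually.of_forall fun x => ?_
        simp only [hf]
        rw [norm_mul, Complex.norm_real, Real.norm_eq_abs, abs_mul, hak,
          abs_of_pos (Real.exp_pos _)]
        rcases le_or_gt x T with h | h
        · rw [norm_mul, Complex.norm_real, Real.norm_eq_abs, abs_of_pos (Real.exp_pos _)]
          have e1 : Real.exp (-((k+1) * (n * t))) ≤ 1 := by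
            rw [Real.exp_le_one_iff]
            have : 0 ≤ ((k:ℝ)+1) * (n * t) := by positivity
            linarith
          have e2 : Real.exp (((n * (k+1) : ℕ) : ℝ) * x) ≤ (Real.exp (n * |T|))^(k+1) := by
            rw [← Real.exp_nat_mul]
            apply Real.exp_le_exp.2
            push_cast
            have : x ≤ |T| := h.trans (le_abs_self T)
            calc (n:ℝ) * (k+1) * x ≤ n * (k+1) * |T| := by gcongr
              _ = _ := by ring
          calc 1 / (Nat.factorial (k+1) : ℝ) * Real.exp (-((k+1) * (n * t)))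
                * (Real.exp (((n * (k+1) : ℕ) : ℝ) * x) * ‖g x‖)
              ≤ 1 / (Nat.factorial (k+1) : ℝ) * 1 * ((Real.exp (n * |T|))^(k+1) * ‖g x‖) := by
                gcongr
            _ = _ := by ring
        · rw [hT x h]; simp
    have hfs : Summable (fun k => ∫ x, ‖f k x‖) := by
      refine Summable.of_nonneg_of_le (fun k => integral_nonneg fun _ => norm_nonneg _) hfn ?_
      apply Summable.mul_right
      exact (summable_nat_add_iff 1).2 (Real.summable_pow_div_factorial (Real.exp (n * |T|)))
    have hint := hasSum_integral_of_summable_integral_norm hfi hfs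
    have hint2 : ∫ x, ∑' k, f k x = ∫ x, (E n x : ℂ) * g x := by
      congr 1; ext x; exact (hpt x).tsum_eq
    rw [hint2] at hint
    -- norm bound
    have hexp2 : HasSum (fun k : ℕ => M * ((Real.exp (-(n * t)))^(k+1) / (Nat.factorial (k+1) : ℝ)))
        (M * (Real.exp (Real.exp (-(n * t))) - 1)) := by
      apply HasSum.mul_left
      have h1 : HasSum (fun k : ℕ => (Real.exp (-(n * t)))^k / (Nat.factorial k : ℝ))
          (Real.exp (Real.exp (-(n * t)))) := by
        rw [Real.exp_eq_exp_ℝ]
        exact NormedSpace.expSeries_div_hasSum_exp _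
      rw [hasSum_nat_add_iff (f := fun k : ℕ => (Real.exp (-(n * t)))^k / (Nat.factorial k : ℝ)) 1]
      simpa using h1
    refine hint.norm_le_of_bounded hexp2 ?_
    intro k
    simp only [hf]
    rw [integral_const_mul, norm_mul, Complex.norm_real, Real.norm_eq_abs, abs_mul, hak,
      abs_of_pos (Real.exp_pos _)]
    have e1 := hM (n * (k+1))
    have e2 : Real.exp (-((k+1) * (n * t))) = (Real.exp (-(n * t)))^(k+1) := by
      rw [← Real.exp_nat_mul]; congr 1; push_cast; ring
    rw [e2]
    calc 1 / (Nat.factorial (k+1) : ℝ) * (Real.exp (-(n * t)))^(k+1) *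
          ‖∫ x, (Real.exp (((n * (k+1) : ℕ) : ℝ) * x) : ℂ) * g x‖
        ≤ 1 / (Nat.factorial (k+1) : ℝ) * (Real.exp (-(n * t)))^(k+1) * M := by gcongr
      _ = _ := by ring
  have hb0 : Tendsto (fun n : ℕ => M * (Real.exp (Real.exp (-(n * t))) - 1)) atTop (𝓝 0) := by
    have h2 : Tendsto (fun n : ℕ => -((n:ℝ) * t)) atTop atBot :=
      tendsto_neg_atTop_atBot.comp ((tendsto_natCast_atTop_atTop).atTop_mul_const ht)
    have h3 := Real.tendsto_exp_atBot.comp h2
    have h4 : Tendsto (fun n : ℕ => M * (Real.exp (Real.exp (-((n:ℝ) * t))) - 1)) atTop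
        (𝓝 (M * (Real.exp 0 - 1))) :=
      (((Real.continuous_exp.tendsto _).comp h3).sub_const _).const_mul _
    simpa using h4
  have h0 : Tendsto (fun n : ℕ => ‖∫ x, (E n x : ℂ) * g x‖) atTop (𝓝 0) :=
    squeeze_zero (fun _ => norm_nonneg _) hbound hb0
  have := tendsto_nhds_unique hlim.norm h0
  exact norm_eq_zero.1 this

/-- the square lemma (special case of Titchmarsh's theorem) -/
lemma square (a : ℝ) (ha : 0 ≤ a) (ha1 : 2 * a ≤ 1) (f : L1) (h : P (2 * a) (f * f) = 0) :
    P a f = 0 := by
  rcases eq_or_lt_of_le ha with h0 | ha0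
  · exact P_nonpos a (by linarith) f
  set F := rep f with hFdef
  have hFi : Integrable F := integrable_rep f
  have hFs : Sup F := sup_rep f
  have hcv0 : ∀ᵐ t, t < 2 * a → cv F F t = 0 := by
    filter_upwards [P_eq_zero_iff.1 h, rep_conv f f] with t h1 h2 h3
    rcases lt_or_ge t 0 with h4 | h4
    · exact cv_neg (fun _ => hFs.lt) (fun _ => hFs.lt) h4
    · have ht : t ∈ Ico (0:ℝ) 1 := ⟨h4, by linarith⟩
      have h5 := h1 h3
      change rep (conv f f) t = 0 at h5
      rw [h2, indicator_of_mem ht] at h5
      exact h5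
  set N := ∫ t, ‖F t‖ with hN
  have hN0 : 0 ≤ N := integral_nonneg fun _ => norm_nonneg _
  -- the truncated exponentials
  have hKi : ∀ (n : ℕ) (b : ℝ), Integrable ((Iio b).indicator
      (fun t => (Real.exp (-(n * t)) : ℂ) * F t)) := by
    intro n b
    apply Integrable.indicator _ measurableSet_Iio
    refine Integrable.mono' hFi.norm ?_ ?_
    · exact ((Complex.continuous_ofReal.comp (by fun_prop)).aestronglyMeasurable).mul
        hFi.aestronglyMeasurable
    · refine Eventually.of_forall fun t => ?_
      rcases lt_or_ge t 0 with h4 | h4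
      · rw [hFs.lt h4]; simp
      · rw [norm_mul, Complex.norm_real, Real.norm_eq_abs, abs_of_pos (Real.exp_pos _)]
        have : Real.exp (-(n * t)) ≤ 1 := by
          rw [Real.exp_le_one_iff]
          have : 0 ≤ (n:ℝ) * t := by positivity
          linarith
        have := norm_nonneg (F t)
        nlinarith
  have hK2 : ∀ n : ℕ, ‖∫ t, (Iio (2 * a)).indicator
      (fun t => (Real.exp (-(n * t)) : ℂ) * F t) t‖ ≤ Real.exp (-(n * a)) * N := by
    intro n
    set K := (Iio (2 * a)).indicator (fun t => (Real.exp (-(n * t)) : ℂ) * F t) with hK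
    have hKint : Integrable K := hKi n (2 * a)
    have e1 : ∫ t, cv K K t = (∫ t, K t) * ∫ t, K t := by
      have := integral_convolution (ContinuousLinearMap.mul ℂ ℂ) (μ := volume) (ν := volume)
        hKint hKint
      rw [ContinuousLinearMap.mul_apply'] at this
      exact this
    have e2 : ∀ᵐ w, ‖cv K K w‖ ≤ Real.exp (-(2 * (n * a))) *
        (convolution (fun t => ‖F t‖) (fun t => ‖F t‖) (ContinuousLinearMap.mul ℝ ℝ) volume) w := by
      filter_upwards [hcv0, hFi.norm.ae_convolution_exists (ContinuousLinearMap.mul ℝ ℝ) hFi.norm]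
        with w hw hw2
      rcases lt_or_ge w (2 * a) with h4 | h4
      · have e3 : cv K K w = (Real.exp (-(n * w)) : ℂ) * cv F F w := by
          simp only [cv]
          rw [← integral_const_mul]
          congr 1; ext r
          by_cases hr0 : r < 0
          · have : K r = 0 := by
              simp only [hK, indicator]
              split_ifs
              · rw [hFs.lt hr0, mul_zero]
              · rfl
            rw [this, hFs.lt hr0]; ring
          · by_cases hrw : w < r
            · have : K (w - r) = 0 := by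
                simp only [hK, indicator]
                split_ifs
                · rw [hFs.lt (show w - r < 0 by linarith), mul_zero]
                · rfl
              rw [this, hFs.lt (show w - r < 0 by linarith)]; ring
            · have m1 : r ∈ Iio (2 * a) := by
                change r < 2 * a
                linarith
              have m2 : w - r ∈ Iio (2 * a) := by
                change w - r < 2 * a
                linarith
              simp only [hK]
              rw [indicator_of_mem m1, indicator_of_mem m2]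
              have e4 : (Real.exp (-(n * w)) : ℂ) = (Real.exp (-(n * r)) : ℂ)
                  * (Real.exp (-(n * (w - r))) : ℂ) := by
                rw [← Complex.ofReal_mul, ← Real.exp_add]; congr 2; ring
              rw [e4]; ring
        rw [e3, hw h4, mul_zero, norm_zero]
        apply mul_nonneg (Real.exp_pos _).le
        apply integral_nonneg
        intro r
        simp only [ContinuousLinearMap.mul_apply', Pi.zero_apply]
        positivity
      · simp only [cv, convolution_def, ContinuousLinearMap.mul_apply']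
        rw [← integral_const_mul]
        refine (norm_integral_le_integral_norm _).trans ?_
        apply integral_mono_of_nonneg (Eventually.of_forall fun _ => norm_nonneg _)
        · exact Integrable.const_mul hw2 _
        · refine Eventually.of_forall fun r => ?_
          simp only [hK]
          have e5 : ∀ r, ‖(Iio (2 * a)).indicator (fun t => (Real.exp (-(n * t)) : ℂ) * F t) r‖
              ≤ Real.exp (-(n * r)) * ‖F r‖ := by
            intro r
            refine (norm_indicator_le_norm_self _ _).trans ?_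
            rw [norm_mul, Complex.norm_real, Real.norm_eq_abs, abs_of_pos (Real.exp_pos _)]
          rw [norm_mul]
          have e6 : Real.exp (-(n * r)) * Real.exp (-(n * (w - r))) ≤ Real.exp (-(2 * (n * a))) := by
            rw [← Real.exp_add]
            apply Real.exp_le_exp.2
            have : (n:ℝ) * (2 * a) ≤ n * w := by gcongr
            linarith
          calc _ ≤ (Real.exp (-(n * r)) * ‖F r‖) * (Real.exp (-(n * (w - r))) * ‖F (w - r)‖) := by
                gcongr
                · exact e5 r
                · exact e5 (w - r)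
            _ = (Real.exp (-(n * r)) * Real.exp (-(n * (w - r)))) * (‖F r‖ * ‖F (w - r)‖) := by ring
            _ ≤ _ := by gcongr
    have e3 : ‖∫ t, cv K K t‖ ≤ Real.exp (-(2 * (n * a))) * (N * N) := by
      have e4 := integral_convolution (ContinuousLinearMap.mul ℝ ℝ) (μ := volume) (ν := volume)
        hFi.norm hFi.norm
      rw [ContinuousLinearMap.mul_apply'] at e4
      rw [← e4, ← integral_const_mul]
      refine (norm_integral_le_integral_norm _).trans ?_
      exact integral_mono_of_nonneg (Eventually.of_forall fun _ => norm_nonneg _)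
        ((hFi.norm.integrable_convolution _ hFi.norm).const_mul _) e2
    rw [e1, norm_mul] at e3
    have e7 : Real.exp (-(2 * (n * a))) = Real.exp (-(n * a)) * Real.exp (-(n * a)) := by
      rw [← Real.exp_add]; congr 1; ring
    rw [e7] at e3
    have e8 : 0 ≤ Real.exp (-(n * a)) * N := mul_nonneg (Real.exp_pos _).le hN0
    refine abs_le_of_sq_le_sq' ?_ e8 |>.2
    nlinarith
  -- the reflected function
  set g : ℝ → ℂ := (Ioi (0:ℝ)).indicator (fun x => F (a - x)) with hg
  have hgi : Integrable g := (hFi.comp_sub_left a).indicator measurableSet_Ioi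
  have hgT : ∀ x, a < x → g x = 0 := by
    intro x hx
    simp only [hg, indicator]
    split_ifs
    · exact hFs.lt (by linarith)
    · rfl
  have hgM : ∀ n : ℕ, ‖∫ x, (Real.exp (n * x) : ℂ) * g x‖ ≤ 2 * N := by
    intro n
    have e1 : ∫ x, (Real.exp (n * x) : ℂ) * g x = (Real.exp (n * a) : ℂ) *
        ∫ t, (Iio a).indicator (fun t => (Real.exp (-(n * t)) : ℂ) * F t) t := by
      rw [← integral_const_mul, ← integral_sub_left_eq_self (fun t => (Real.exp (n * a) : ℂ) *
        (Iio a).indicator (fun t => (Real.exp (-(n * t)) : ℂ) * F t) t) volume a]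
      congr 1; ext x
      by_cases hx : 0 < x
      · simp only [hg]
        rw [indicator_of_mem (show x ∈ Ioi (0:ℝ) from hx),
          indicator_of_mem (show a - x ∈ Iio a by change a - x < a; linarith), ← mul_assoc,
          ← Complex.ofReal_mul, ← Real.exp_add]
        congr 3; ring
      · simp only [hg]
        rw [indicator_of_notMem (show x ∉ Ioi (0:ℝ) from hx),
          indicator_of_notMem (show a - x ∉ Iio a by change ¬ (a - x < a); linarith)]
        ring
    have e2 : ∫ t, (Iio a).indicator (fun t => (Real.exp (-(n * t)) : ℂ) * F t) t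
        = (∫ t, (Iio (2 * a)).indicator (fun t => (Real.exp (-(n * t)) : ℂ) * F t) t)
          - ∫ t, ((Iio (2 * a)).indicator (fun t => (Real.exp (-(n * t)) : ℂ) * F t) t
            - (Iio a).indicator (fun t => (Real.exp (-(n * t)) : ℂ) * F t) t) := by
      rw [integral_sub (hKi n _) (hKi n _)]; ring
    have e3 : ‖∫ t, ((Iio (2 * a)).indicator (fun t => (Real.exp (-(n * t)) : ℂ) * F t) t
            - (Iio a).indicator (fun t => (Real.exp (-(n * t)) : ℂ) * F t) t)‖
            ≤ Real.exp (-(n * a)) * N := by
      rw [hN, ← integral_const_mul]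
      refine (norm_integral_le_integral_norm _).trans ?_
      apply integral_mono_of_nonneg (Eventually.of_forall fun _ => norm_nonneg _)
      · exact hFi.norm.const_mul _
      · refine Eventually.of_forall fun t => ?_
        simp only
        by_cases h1 : t < a
        · rw [indicator_of_mem (show t ∈ Iio a from h1),
            indicator_of_mem (show t ∈ Iio (2 * a) by change t < 2 * a; linarith), sub_self,
            norm_zero]
          positivity
        · rw [indicator_of_notMem (show t ∉ Iio a from h1), sub_zero]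
          refine (norm_indicator_le_norm_self _ _).trans ?_
          rw [norm_mul, Complex.norm_real, Real.norm_eq_abs, abs_of_pos (Real.exp_pos _)]
          have : (n:ℝ) * a ≤ n * t := by
            have := not_lt.1 h1
            gcongr
          gcongr
    rw [e1, norm_mul, Complex.norm_real, Real.norm_eq_abs, abs_of_pos (Real.exp_pos _), e2]
    have e4 : Real.exp (n * a) * Real.exp (-(n * a)) = 1 := by
      rw [← Real.exp_add, add_neg_cancel, Real.exp_zero]
    calc Real.exp (n * a) * _ ≤ Real.exp (n * a) *
          (Real.exp (-(n * a)) * N + Real.exp (-(n * a)) * N) := by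
          gcongr
          exact (norm_sub_le _ _).trans (add_le_add (hK2 n) e3)
      _ = 2 * (Real.exp (n * a) * Real.exp (-(n * a))) * N := by ring
      _ = 2 * N := by rw [e4]; ring
  have hmom := moment hgi hgT hgM
  -- conclusion
  have hprim : ∀ w ∈ Ioo 0 a, ∫ r in (0:ℝ)..w, F r = 0 := by
    intro w hw
    have e1 := hmom (a - w) (by linarith [hw.2])
    rw [← integral_indicator measurableSet_Ioi] at e1
    rw [intervalIntegral.integral_of_le hw.1.le, ← integral_indicator measurableSet_Ioc,
      ← integral_sub_left_eq_self ((Ioc 0 w).indicator fun x => F x) volume a]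
    rw [← e1]
    apply integral_congr_ae
    have hne : ∀ᵐ x : ℝ, x ≠ a - w := by simp [ae_iff, measure_singleton]
    have hne2 : ∀ᵐ x : ℝ, x ≠ a := by simp [ae_iff, measure_singleton]
    filter_upwards [hne, hne2] with x hx hx2
    by_cases h1 : a - w < x
    · rw [indicator_of_mem (show x ∈ Ioi (a - w) from h1)]
      simp only [hg]
      rw [indicator_of_mem (show x ∈ Ioi (0:ℝ) by change 0 < x; linarith [hw.2])]
      by_cases h2 : x < a
      · rw [indicator_of_mem (show a - x ∈ Ioc 0 w from ⟨by linarith, by linarith⟩)]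
      · rw [indicator_of_notMem (show a - x ∉ Ioc 0 w from fun hh => h2 (by linarith [hh.1]))]
        have : a < x := lt_of_le_of_ne (not_lt.1 h2) (Ne.symm hx2)
        rw [hFs.lt (by linarith)]
    · rw [indicator_of_notMem (show x ∉ Ioi (a - w) from h1),
        indicator_of_notMem (show a - x ∉ Ioc 0 w from fun hh => ?_)]
      have := hh.2
      exact hx (le_antisymm (not_lt.1 h1) (by linarith))
  have hz := ae_zero_of_primitive_zero hFi hprim
  rw [P_eq_zero_iff]
  have hne : ∀ᵐ t : ℝ, t ≠ 0 := by simp [ae_iff, measure_singleton]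
  filter_upwards [hz, hne] with t h1 h2 h3
  rcases lt_or_gt_of_ne h2 with h4 | h4
  · exact hFs.lt h4
  · exact h1 ⟨h4, h3⟩

end L1

end Volt
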