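import Pool.Agent.Helper56.Volt.Nec

/-!
The abstract determination of the orbit of `u`.
-/

set_option linter.unusedSectionVars false
set_option linter.deprecated false

namespace Volt

open Filter Topology NormedSpace

variable {A : Type*} [NonUnitalNormedCommRing A] [NormedSpace ℂ A] [IsScalarTower ℂ A A]
  [SMulCommClass ℂ A A]

namespace VD

variable (V : VD A)

lemma mul_P_eq_zero {s r : ℝ} (hs : 0 ≤ s) (hr : 0 ≤ r) {f g : A} (hf : V.P s f = 0)
    (hg : V.P r g = 0) : V.P (s + r) (f * g) = 0 := by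
  rw [← V.eq_S_of_P_eq_zero hs hf, ← V.eq_S_of_P_eq_zero hr hg, ← V.S_mul s hs, mul_comm,
    ← V.S_mul r hr, ← V.S_add s r hs hr]
  exact V.P_S_self _ (by linarith) _

lemma iterate_sq_zero (m : ℕ) : ∀ (s : ℝ), 0 ≤ s → ∀ f : A, V.P s f = 0 →
    V.P (2^m * s) ((fun x : A => x * x)^[m] f) = 0 := by
  induction m with
  | zero => intro s _ f hf; simpa using hf
  | succ m ih =>
    intro s hs f hf
    rw [Function.iterate_succ_apply]
    have h1 := V.mul_P_eq_zero hs hs hf hf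
    have h2 := ih (s + s) (by linarith) (f * f) h1
    rw [show (2:ℝ)^(m+1) * s = 2^m * (s + s) by ring]
    exact h2

lemma of_iterate_sq_zero (m : ℕ) : ∀ (s : ℝ), 0 ≤ s → 2^m * s ≤ 1 → ∀ f : A,
    V.P (2^m * s) ((fun x : A => x * x)^[m] f) = 0 → V.P s f = 0 := by
  induction m with
  | zero => intro s _ _ f hf; simpa using hf
  | succ m ih =>
    intro s hs hs1 f hf
    have e0 : (2:ℝ)^(m+1) * s = 2^m * (2 * s) := by ring
    rw [Function.iterate_succ_apply, e0] at hf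
    rw [e0] at hs1
    have h1 : (1:ℝ) ≤ 2^m := one_le_pow₀ (by norm_num)
    have h2 : 2 * s ≤ 1 := by nlinarith
    exact V.square s hs h2 f (ih (2 * s) (by linarith) hs1 (f * f) hf)

section

variable {T : A →L[ℂ] A} (hm : ∀ f g, T (f * g) = T f * T g)
include hm

lemma pres_pow (n : ℕ) {f : A} (hf : V.P ((1/2)^n) f = 0) : V.P ((1/2)^n) (T f) = 0 := by
  have hs : (0:ℝ) ≤ (1/2)^n := by positivity
  have h2 : (2:ℝ)^n * (1/2)^n = 1 := by rw [← mul_pow]; norm_num
  have h1 := V.iterate_sq_zero n _ hs f hf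
  rw [h2, V.P_one_le 1 le_rfl] at h1
  have h3 : ∀ k (x : A), T ((fun x : A => x * x)^[k] x) = (fun x : A => x * x)^[k] (T x) := by
    intro k
    induction k with
    | zero => intro x; simp
    | succ k ih => intro x; rw [Function.iterate_succ_apply, Function.iterate_succ_apply, ih, hm]
  apply V.of_iterate_sq_zero n _ hs h2.le
  rw [h2, V.P_one_le 1 le_rfl, ← h3, h1, map_zero]

lemma pres_S (n j : ℕ) (f : A) : V.P (j * (1/2)^n) (T (V.S (j * (1/2)^n) f)) = 0 := by
  have hs : (0:ℝ) ≤ (1/2)^n := by positivity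
  induction j generalizing f with
  | zero => simp [V.P_nonpos 0 le_rfl]
  | succ j ih =>
    have hj : (0:ℝ) ≤ j * (1/2)^n := by positivity
    have e0 : (((j+1 : ℕ) : ℝ) * (1/2)^n) = j * (1/2)^n + (1/2)^n := by push_cast; ring
    rw [e0]
    have h1 : (V.P (j * (1/2)^n + (1/2)^n)) * T * (V.S (j * (1/2)^n + (1/2)^n)) = 0 := by
      apply V.ext_dense
      intro g
      simp only [ContinuousLinearMap.mul_apply, ContinuousLinearMap.zero_apply]
      have e1 : V.S (j * (1/2)^n + (1/2)^n) (V.u * g)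
          = V.S (j * (1/2)^n) V.u * V.S ((1/2)^n) g := by
        rw [V.S_add _ _ hj hs, mul_comm V.u, V.S_mul _ hs, mul_comm _ V.u, V.S_mul _ hj]
      rw [e1, hm]
      exact V.mul_P_eq_zero hj hs (ih _) (V.pres_pow hm n (V.P_S_self _ hs _))
    have h2 := congrArg (fun M : A →L[ℂ] A => M f) h1
    simpa using h2

lemma pres_al (n : ℕ) (f : A) : V.P (al n) (T (V.P (al n) f)) = V.P (al n) (T f) := by
  have e0 : al n = ((2^n - 1 : ℕ) : ℝ) * (1/2)^n := by
    have : 1 ≤ 2^n := Nat.one_le_two_pow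
    rw [Nat.cast_sub this]
    push_cast
    unfold al
    rw [sub_mul, ← mul_pow]; norm_num
  have h1 := V.pres_S hm n (2^n - 1) (V.R (al n) f)
  rw [← e0, V.S_R _ (al_nonneg n), map_sub, map_sub, sub_eq_zero] at h1
  exact h1.symm

end

variable [CompleteSpace A]

/-- extraction of the local semigroup -/
lemma exists_kdata {T T' : A →L[ℂ] A} (h1 : ∀ f, T (T' f) = f) (h2 : ∀ f, T' (T f) = f)
    (hm : ∀ f g, T (f * g) = T f * T g) (hm' : ∀ f g, T' (f * g) = T' f * T' g) :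
    ∃ (κ lam : ℕ → A →L[ℂ] A) (K : ℝ), V.KData κ lam K ∧
      ∀ n f, V.S ((1/2)^n) (κ n f) = T (V.S ((1/2)^n) (T' f)) := by
  set K0 := ‖T‖ * ‖T'‖ with hK0
  have hK0nn : 0 ≤ K0 := by positivity
  have hK01 : 1 ≤ K0 := by
    have e1 : ‖V.u‖ ≤ K0 * ‖V.u‖ := by
      calc ‖V.u‖ = ‖T (T' V.u)‖ := by rw [h1]
        _ ≤ ‖T‖ * (‖T'‖ * ‖V.u‖) := (T.le_opNorm _).trans
            (mul_le_mul_of_nonneg_left (T'.le_opNorm _) (norm_nonneg _))
        _ = _ := by ring
    rwa [V.norm_u, mul_one] at e1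
  set s : ℕ → ℝ := fun n => (1/2)^n with hsdef
  have hs : ∀ n, 0 ≤ s n := fun n => by positivity
  have hs1 : ∀ n, 1 - s n = al n := fun n => rfl
  set κ : ℕ → A →L[ℂ] A := fun n => V.R (s n) * T * V.S (s n) * T' with hκ
  set κ' : ℕ → A →L[ℂ] A := fun n => V.R (s n) * T' * V.S (s n) * T with hκ'
  have hκa : ∀ n f, κ n f = V.R (s n) (T (V.S (s n) (T' f))) := fun n f => rfl
  have hκ'a : ∀ n f, κ' n f = V.R (s n) (T' (V.S (s n) (T f))) := fun n f => rfl
  have hSκ : ∀ n f, V.S (s n) (κ n f) = T (V.S (s n) (T' f)) := by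
    intro n f
    rw [hκa, V.eq_S_of_P_eq_zero (hs n)]
    exact V.pres_pow hm n (V.P_S_self _ (hs n) _)
  have hSκ' : ∀ n f, V.S (s n) (κ' n f) = T' (V.S (s n) (T f)) := by
    intro n f
    rw [hκ'a, V.eq_S_of_P_eq_zero (hs n)]
    exact V.pres_pow hm' n (V.P_S_self _ (hs n) _)
  have hmulκ : ∀ n, V.IsMul (al n) (κ n) := by
    intro n f g
    rw [hκa, hm', V.S_mul _ (hs n), hm, h1, ← hSκ, ← V.S_mul _ (hs n), V.R_S _ (hs n), hs1]
  have hmulκ' : ∀ n, V.IsMul (al n) (κ' n) := by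
    intro n f g
    rw [hκ'a, hm, V.S_mul _ (hs n), hm', h2, ← hSκ', ← V.S_mul _ (hs n), V.R_S _ (hs n), hs1]
  set lam : ℕ → A →L[ℂ] A := fun n => V.P (al n) * T * κ' n * T' with hlam
  have hlama : ∀ n f, lam n f = V.P (al n) (T (κ' n (T' f))) := fun n f => rfl
  have hmulL : ∀ n, V.IsMul (al n) (lam n) := by
    intro n f g
    rw [hlama, hlama, hm', hmulκ' n, V.pres_al hm, hm, h1, V.P_mul]
  have hinv : ∀ n f, κ n (lam n f) = V.P (al n) f := by
    intro n f
    rw [hlama, (hmulκ n).apply_P]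
    have e1 : V.S (s n) (κ n (T (κ' n (T' f)))) = V.S (s n) f := by
      rw [hSκ, h2, hSκ', h1, h1]
    have e2 := V.S_injOn (hs n) e1
    rw [hs1, (hmulκ n).P_apply] at e2
    exact e2
  have hnκ : ∀ n f, ‖κ n f‖ ≤ K0 * ‖f‖ := by
    intro n f
    rw [hκa]
    calc ‖V.R (s n) (T (V.S (s n) (T' f)))‖ ≤ ‖T (V.S (s n) (T' f))‖ := V.norm_R_le _ (hs n) _
      _ ≤ ‖T‖ * (‖T'‖ * ‖f‖) := (T.le_opNorm _).trans
          (mul_le_mul_of_nonneg_left ((V.norm_S_le _ (hs n) _).trans (T'.le_opNorm _))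
            (norm_nonneg _))
      _ = _ := by ring
  have hnκ' : ∀ n f, ‖κ' n f‖ ≤ K0 * ‖f‖ := by
    intro n f
    rw [hκ'a]
    calc ‖V.R (s n) (T' (V.S (s n) (T f)))‖ ≤ ‖T' (V.S (s n) (T f))‖ := V.norm_R_le _ (hs n) _
      _ ≤ ‖T'‖ * (‖T‖ * ‖f‖) := (T'.le_opNorm _).trans
          (mul_le_mul_of_nonneg_left ((V.norm_S_le _ (hs n) _).trans (T.le_opNorm _))
            (norm_nonneg _))
      _ = _ := by ring
  refine ⟨κ, lam, K0^2, ⟨?_, hmulκ, hmulL, hinv, ?_, ?_, ?_⟩, hSκ⟩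
  · nlinarith
  · intro n f
    have hss : s n = s (n+1) + s (n+1) := by simp only [hsdef, pow_succ]; ring
    have e1 : V.S (s n) (κ n f) = V.S (s n) (κ (n+1) (κ (n+1) f)) := by
      rw [hSκ, hss, V.S_add _ _ (hs _) (hs _), V.S_add _ _ (hs _) (hs _)]
      have e2 : T (V.S (s (n+1)) (V.S (s (n+1)) (T' f)))
          = V.S (s (n+1)) (κ (n+1) (V.S (s (n+1)) (κ (n+1) f))) := by
        rw [hSκ, hSκ, h2]
      rw [e2, (hmulκ (n+1)).apply_S (hs _), ← hs1, ← V.P_S 1 _ (hs _), V.P_one_le 1 le_rfl]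
    have e4 := V.S_injOn (hs n) e1
    rw [hs1, (hmulκ n).P_apply] at e4
    exact e4.symm
  · intro n f
    refine (hnκ n f).trans ?_
    have := norm_nonneg f
    gcongr
    nlinarith
  · intro n f
    rw [hlama]
    calc ‖V.P (al n) (T (κ' n (T' f)))‖ ≤ ‖T (κ' n (T' f))‖ := V.norm_P_le _ _
      _ ≤ ‖T‖ * (K0 * (‖T'‖ * ‖f‖)) := (T.le_opNorm _).trans
          (mul_le_mul_of_nonneg_left ((hnκ' n _).trans
            (mul_le_mul_of_nonneg_left (T'.le_opNorm _) hK0nn)) (norm_nonneg _))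
      _ = _ := by rw [hK0]; ring

/-- Necessity. -/
theorem necessity {T T' : A →L[ℂ] A} (h1 : ∀ f, T (T' f) = f) (h2 : ∀ f, T' (T f) = f)
    (hm : ∀ f g, T (f * g) = T f * T g) (hm' : ∀ f g, T' (f * g) = T' f * T' g) :
    ∃ (C : ℕ → A →L[ℂ] A) (K : ℝ), V.CFam C K ∧
      ∀ n, V.P (al n) (T V.u + V.u * C n (T V.u)) = V.P (al n) V.u := by
  obtain ⟨κ, lam, K, hKD, hSκ⟩ := V.exists_kdata h1 h2 hm hm'
  obtain ⟨C, K', χ, hC, hχ⟩ := hKD.exists_gen
  set g := T V.u with hg
  set h : ℕ → ℝ := fun m => (1/2)^m with hh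
  have hh0 : ∀ m, 0 < h m := fun m => by positivity
  have hht : Tendsto h atTop (𝓝[>] 0) := by
    apply tendsto_nhdsWithin_iff.2
    exact ⟨tendsto_pow_atTop_nhds_zero_of_lt_one (by norm_num) (by norm_num),
      Eventually.of_forall hh0⟩
  have hhC : ∀ m, ((h m : ℝ) : ℂ) = ((2:ℂ)^m)⁻¹ := by
    intro m
    simp only [hh]
    push_cast
    rw [one_div, inv_pow]
  set z : ℕ → ℂ := fun m => (((h m)⁻¹ : ℝ) : ℂ) * (1 - χ m) with hz
  -- the exponential slope
  have hexp : ∀ n, Tendsto (fun m => (((h m)⁻¹ : ℝ) : ℂ) •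
      (g - exp ((-((2:ℂ)^m)⁻¹) • C n) g)) atTop (𝓝 (C n g)) := by
    intro n
    letI : NormedAlgebra ℚ (A →L[ℂ] A) := NormedAlgebra.restrictScalars ℚ ℂ _
    have hd := hasDerivAt_exp_smul_const (𝕂 := ℂ) (-(C n)) (0:ℂ)
    rw [zero_smul, exp_zero, one_mul] at hd
    have hs := hd.tendsto_slope_zero
    have hof : Tendsto (fun m : ℕ => ((h m : ℝ) : ℂ)) atTop (𝓝[≠] 0) := by
      apply tendsto_nhdsWithin_iff.2
      constructor
      · have e1 := (Complex.continuous_ofReal.tendsto 0).comp (hht.mono_right nhdsWithin_le_nhds)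
        rwa [Complex.ofReal_zero] at e1
      · refine Eventually.of_forall fun m => ?_
        have := (hh0 m).ne'
        simpa using this
    have hs2 := hs.comp hof
    have hs3 := (((ContinuousLinearMap.apply ℂ A g).continuous.tendsto _).comp hs2).neg
    simp only [ContinuousLinearMap.apply_apply, ContinuousLinearMap.neg_apply, neg_neg] at hs3
    refine hs3.congr ?_
    intro m
    simp only [Function.comp_apply, zero_add, zero_smul, exp_zero,
      ContinuousLinearMap.apply_apply, ContinuousLinearMap.smul_apply,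
      ContinuousLinearMap.sub_apply, ContinuousLinearMap.one_apply]
    rw [← smul_neg, neg_sub, smul_neg, ← neg_smul, Complex.ofReal_inv, hhC]
  have hexp1 : ∀ n, Tendsto (fun m => exp ((-((2:ℂ)^m)⁻¹) • C n) g) atTop (𝓝 g) := by
    intro n
    rw [tendsto_iff_norm_sub_tendsto_zero]
    have e1 := (exp_tendsto_one (C n)).mul_const ‖g‖
    rw [zero_mul] at e1
    refine squeeze_zero (fun _ => norm_nonneg _) (fun m => ?_) e1
    exact ContinuousLinearMap.le_opNorm (exp ((-((2:ℂ)^m)⁻¹) • C n) - 1) g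
  -- the main identity
  have hTe : Tendsto (fun m => V.u * T (V.e (h m))) atTop (𝓝 V.u) := by
    have e1 : Tendsto (fun m => T (V.e (h m) * T' V.u)) atTop (𝓝 (T (T' V.u))) :=
      (T.continuous.tendsto _).comp ((V.tendsto_e_mul (T' V.u)).comp hht)
    rw [h1] at e1
    refine e1.congr ?_
    intro m
    rw [hm, h1, mul_comm]
  have hlim : ∀ n, 1 ≤ n → Tendsto (fun m => z m • V.P (al n)
      (V.S (h m) V.u * exp ((-((2:ℂ)^m)⁻¹) • C n) g)) atTop
      (𝓝 (V.P (al n) (V.u - g - V.u * C n g))) := by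
    intro n hn
    have e1 : Tendsto (fun m => V.P (al n) (V.u * T (V.e (h m)) - V.e (h m) * g
        - V.S (h m) V.u * ((((h m)⁻¹ : ℝ) : ℂ) • (g - exp ((-((2:ℂ)^m)⁻¹) • C n) g)))) atTop
        (𝓝 (V.P (al n) (V.u - g - V.u * C n g))) := by
      refine ((V.P (al n)).continuous.tendsto _).comp ?_
      exact (hTe.sub ((V.tendsto_e_mul g).comp hht)).sub
        (((V.S_tendsto V.u).comp hht).mul (hexp n))
    refine e1.congr' ?_
    filter_upwards [eventually_ge_atTop n] with m hmn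
    set E := exp ((-((2:ℂ)^m)⁻¹) • C n) g with hE
    have hhm := (hh0 m).le
    set w : ℂ := (((h m)⁻¹ : ℝ) : ℂ) with hw
    have e2 : T (V.e (h m)) = w • (g - V.S (h m) (κ m g)) := by
      have e3 : V.S (h m) (κ m g) = T (V.S (h m) V.u) := by
        rw [hSκ m g, hg, h2]
      rw [e, map_smul, ← V.u_sub _ hhm, map_sub, e3]
    have e4 : V.e (h m) * g = w • (V.u * g - V.S (h m) V.u * g) := by
      rw [V.e_mul _ hhm, V.S_mul _ hhm]
    have e5 : V.u * T (V.e (h m)) = w • (V.u * g - V.S (h m) V.u * κ m g) := by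
      rw [e2, mul_smul_comm, mul_sub, mul_comm V.u (V.S (h m) (κ m g)), ← V.S_mul _ hhm,
        mul_comm (κ m g) V.u, V.S_mul _ hhm]
    have e6 : V.P (al n) (V.S (h m) V.u * κ m g) = χ m • V.P (al n) (V.S (h m) V.u * E) := by
      rw [V.P_mul_right, hχ n hn m hmn g, mul_smul_comm, map_smul, ← V.P_mul_right]
    rw [e5, e4, mul_smul_comm, ← smul_sub, ← smul_sub, map_smul]
    have e7 : V.u * g - V.S (h m) V.u * κ m g - (V.u * g - V.S (h m) V.u * g)
        - V.S (h m) V.u * (g - E) = V.S (h m) V.u * E - V.S (h m) V.u * κ m g := by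
      rw [mul_sub]; abel
    rw [e7, map_sub, e6, hz]
    simp only
    rw [← hw, mul_smul]
    congr 1
    rw [sub_smul, one_smul]
  have hv : ∀ n, Tendsto (fun m => V.P (al n)
      (V.S (h m) V.u * exp ((-((2:ℂ)^m)⁻¹) • C n) g)) atTop (𝓝 (V.P (al n) (V.u * g))) := by
    intro n
    refine ((V.P (al n)).continuous.tendsto _).comp ?_
    exact ((V.S_tendsto V.u).comp hht).mul (hexp1 n)
  -- nonvanishing
  have hne : V.P (al 1) (V.u * g) ≠ 0 := by
    intro h0
    have e1 := V.u_mul_inj h0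
    have e2 : V.P ((1/2)^1) g = 0 := by
      have : al 1 = (1/2)^1 := by rw [al_one]; norm_num
      rwa [this] at e1
    have e3 := V.pres_pow hm' 1 e2
    rw [hg, h2] at e3
    have e4 := V.norm_Pu ((1/2)^1) (by norm_num) (by norm_num)
    rw [e3, norm_zero] at e4
    norm_num at e4
  -- convergence of `z`
  obtain ⟨c, hc⟩ : ∃ c, Tendsto z atTop (𝓝 c) := by
    obtain ⟨φ, hφ⟩ := SeparatingDual.exists_ne_zero (R := ℂ) hne
    have e1 := (φ.continuous.tendsto _).comp (hlim 1 le_rfl)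
    have e2 := (φ.continuous.tendsto _).comp (hv 1)
    have e3 := e1.div e2 hφ
    refine ⟨_, e3.congr' ?_⟩
    have e4 := e2.eventually_ne hφ
    filter_upwards [e4] with m hm4
    simp only [Function.comp_apply, Pi.div_apply, map_smul, smul_eq_mul] at hm4 ⊢
    rw [mul_div_assoc, div_self hm4, mul_one]
  have hceq : ∀ n, 1 ≤ n → c • V.P (al n) (V.u * g) = V.P (al n) (V.u - g - V.u * C n g) :=
    fun n hn => tendsto_nhds_unique (hc.smul (hv n)) (hlim n hn)
  -- the corrected family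
  refine ⟨fun n => C n + c • V.P (al n), K' + ‖c‖, ⟨?_, ?_, ?_, ?_⟩, ?_⟩
  · have := hC.nonneg; positivity
  · intro n
    exact (hC.mul n).add ((V.isMul_P _).smul c)
  · intro n
    rw [mul_add, hC.compat, mul_smul_comm]
    congr 2
    ext f
    exact V.P_P_le (al_mono (Nat.le_succ n)) f
  · intro n f
    rw [ContinuousLinearMap.add_apply, ContinuousLinearMap.smul_apply]
    have h2n : (1:ℝ) ≤ 2^n := one_le_pow₀ (by norm_num)
    have e1 : ‖c • V.P (al n) f‖ ≤ ‖c‖ * 2^n * ‖f‖ := by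
      rw [norm_smul]
      have e2 := V.norm_P_le (al n) f
      calc ‖c‖ * ‖V.P (al n) f‖ ≤ (‖c‖ * 2^n) * ‖f‖ := by
            apply mul_le_mul _ e2 (norm_nonneg _) (by positivity)
            exact le_mul_of_one_le_right (norm_nonneg _) h2n
        _ = _ := rfl
    calc ‖C n f + c • V.P (al n) f‖ ≤ K' * 2^n * ‖f‖ + ‖c‖ * 2^n * ‖f‖ :=
          (norm_add_le _ _).trans (add_le_add (hC.bound n f) e1)
      _ = _ := by ring
  · intro n
    rcases Nat.eq_zero_or_pos n with h0 | h0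
    · rw [h0, al_zero, V.P_nonpos 0 le_rfl, V.P_nonpos 0 le_rfl]
    · have e1 := hceq n h0
      rw [ContinuousLinearMap.add_apply, ContinuousLinearMap.smul_apply, mul_add, mul_smul_comm,
        map_add, map_add, map_smul, ← V.P_mul_right, e1, map_sub, map_sub]
      abel

/-- **Abstract orbit theorem.** -/
theorem orbit (g : A) :
    (∃ T : A →ₗ[ℂ] A, Function.Bijective T ∧ (∀ f h, T (f * h) = T f * T h) ∧ T V.u = g) ↔
    ∃ (R : ℕ → A) (K : ℝ), V.RFam R K ∧ ∀ n, V.P (al n) g = V.P (al n) (V.u + V.u * R n) := by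
  constructor
  · rintro ⟨T, hbij, hmul, rfl⟩
    have hcont : Continuous T := V.auto_continuous T hbij.2 hmul
    let e : A ≃ₗ[ℂ] A := LinearEquiv.ofBijective T hbij
    let eL : A ≃L[ℂ] A := e.toContinuousLinearEquivOfContinuous hcont
    have hT : ∀ f, (eL : A →L[ℂ] A) f = T f := fun f => rfl
    have hinj : Function.Injective T := hbij.1
    obtain ⟨C, K, hC, hCg⟩ := V.necessity (T := (eL : A →L[ℂ] A))
      (T' := (eL.symm : A →L[ℂ] A)) (fun f => eL.apply_symm_apply f)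
      (fun f => eL.symm_apply_apply f) (fun f g => by rw [hT, hT, hT, hmul]) (fun f g => by
        apply hinj
        have e1 : ∀ f, T ((eL.symm : A →L[ℂ] A) f) = f := fun f => eL.apply_symm_apply f
        rw [e1, hmul, e1, e1])
    have := hC.toRFam hCg
    exact ⟨_, _, this.1, this.2⟩
  · rintro ⟨R, K, hR, hg⟩
    obtain ⟨C, K', hC, hCR⟩ := hR.toCFam
    obtain ⟨T, hT⟩ := hC.exists_T
    refine ⟨T, ⟨CFam.T_inj hC hT, CFam.T_surj hC hT⟩, CFam.T_mul hC hT, ?_⟩
    apply V.ext_al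
    intro n
    have h1 := CFam.T_u_eq hC hT n
    -- the same equation for `g`
    have hCg : C n g = - R n := by
      rw [← (hC.mul n).apply_P, hg, (hC.mul n).apply_P, hCR]
    have h2 : V.P (al n) (g + V.u * C n g) = V.P (al n) V.u := by
      rw [hCg, map_add, hg n, ← map_add]
      congr 1
      rw [mul_neg]; abel
    have h3 : V.P (al n) ((T V.u - g) + V.u * C n (T V.u - g)) = 0 := by
      have : (T V.u - g) + V.u * C n (T V.u - g)
          = (T V.u + V.u * C n (T V.u)) - (g + V.u * C n g) := by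
        rw [map_sub, mul_sub]; abel
      rw [this, map_sub]
      have h1' : V.P (al n) (T V.u + V.u * C n (T V.u)) = V.P (al n) V.u := h1
      rw [h1', h2, sub_self]
    have h4 := IsMul.unique V (hC.mul n) h3
    rw [map_sub, sub_eq_zero] at h4
    exact h4

end VD

end Volt
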