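import Pool.Agent.Helper56.Volt.Model3
import Pool.Agent.Helper56.Volt.Orbit

/-!
The concrete model satisfies the axioms.
-/

set_option linter.deprecated false

namespace Volt

open MeasureTheory Set Filter Topology

namespace L1

/-- The Volterra algebra `L¹[0,1]` as a model of the axioms. -/
noncomputable def vd : VD L1 where
  u := u
  X := X
  S := S
  R := R
  P := P
  I := I
  X_mul := X_mul
  X_u := X_u
  X_P_norm := X_P_norm
  le_X_norm := le_X_norm
  P_P := P_P
  P_nonpos := P_nonpos
  P_one_le := P_one_le
  norm_P_add := norm_P_add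
  P_cont := P_cont
  P_X := P_X
  P_mul := P_mul
  S_zero := S_zero
  S_add := S_add
  S_mul := S_mul
  X_S := X_S
  P_S := P_S
  norm_S := norm_S
  R_S := R_S
  S_R := S_R
  P_R := P_R
  u_sub := u_sub
  norm_Pu := norm_Pu
  I_norm := I_norm
  avg := avg
  dense := dense
  scalar := scalar
  square := square

end L1

end Volt
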