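import Pool.Agent.Helper56.Volt.Defs

/-!
Approximate identity and local multipliers.
-/

set_option linter.unusedSectionVars false
set_option linter.deprecated false

namespace Volt

open Filter Topology

variable {A : Type*} [NonUnitalNormedCommRing A] [NormedSpace ℂ A] [IsScalarTower ℂ A A]
  [SMulCommClass ℂ A A]

namespace VD

variable (V : VD A)

lemma tendsto_of_dense {ι : Type*} {l : Filter ι} (T : ι → A →L[ℂ] A) (K : ℝ)
    (hK : ∀ᶠ i in l, ∀ f, ‖T i f‖ ≤ K * ‖f‖) (T0 : A →L[ℂ] A)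
    (h : ∀ g, Tendsto (fun i => T i (V.u * g)) l (𝓝 (T0 (V.u * g)))) (f : A) :
    Tendsto (fun i => T i f) l (𝓝 (T0 f)) := by
  rw [Metric.tendsto_nhds]
  intro ε hε
  set K' := max K 0 + ‖T0‖ + 1 with hK'
  have hK'pos : 0 < K' := by positivity
  obtain ⟨y, ⟨g, rfl⟩, hg⟩ := Metric.mem_closure_iff.1 (V.dense f) (ε / (2 * K')) (by positivity)
  have h1 := (Metric.tendsto_nhds.1 (h g)) (ε / 2) (by positivity)
  filter_upwards [hK, h1] with i hi h1i
  rw [dist_eq_norm] at *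
  have : T i f - T0 f = T i (f - V.u * g) + (T i (V.u * g) - T0 (V.u * g))
      - T0 (f - V.u * g) := by
    simp only [map_sub]; abel
  rw [this]
  have h2 : ‖T i (f - V.u * g)‖ ≤ max K 0 * ‖f - V.u * g‖ :=
    (hi _).trans (mul_le_mul_of_nonneg_right (le_max_left _ _) (norm_nonneg _))
  have h3 := T0.le_opNorm (f - V.u * g)
  have h4 : ‖f - V.u * g‖ < ε / (2 * K') := hg
  have h5 : (max K 0 + ‖T0‖) * ‖f - V.u * g‖ ≤ ε / 2 := by
    calc (max K 0 + ‖T0‖) * ‖f - V.u * g‖ ≤ K' * (ε / (2 * K')) := by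
          apply mul_le_mul _ h4.le (norm_nonneg _) hK'pos.le
          rw [hK']; linarith
      _ = ε / 2 := by field_simp
  calc ‖T i (f - V.u * g) + (T i (V.u * g) - T0 (V.u * g)) - T0 (f - V.u * g)‖
      ≤ ‖T i (f - V.u * g)‖ + ‖T i (V.u * g) - T0 (V.u * g)‖ + ‖T0 (f - V.u * g)‖ :=
        (norm_sub_le _ _).trans (add_le_add_left (norm_add_le _ _) _)
    _ < ε := by nlinarith

lemma ext_dense {T T' : A →L[ℂ] A} (h : ∀ g, T (V.u * g) = T' (V.u * g)) : T = T' := by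
  ext f
  have hcl : IsClosed {f | T f = T' f} := isClosed_eq T.continuous T'.continuous
  have : closure (Set.range (fun g => V.u * g)) ⊆ {f | T f = T' f} := by
    apply closure_minimal _ hcl
    rintro _ ⟨g, rfl⟩
    exact h g
  exact this (V.dense f)

/-- The approximate identity. -/
noncomputable def e (h : ℝ) : A := ((h⁻¹ : ℝ) : ℂ) • V.P h V.u

lemma norm_e {h : ℝ} (h0 : 0 < h) (h1 : h ≤ 1) : ‖V.e h‖ = 1 := by
  rw [e, norm_smul, V.norm_Pu h h0.le h1]
  simp only [Complex.norm_real, Real.norm_eq_abs, abs_inv, abs_of_pos h0]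
  field_simp

lemma P_e (h : ℝ) : V.P h (V.e h) = V.e h := by
  rw [e, map_smul, V.P_idem]

lemma e_mul (h : ℝ) (h0 : 0 ≤ h) (f : A) :
    V.e h * f = ((h⁻¹ : ℝ) : ℂ) • (V.u * f - V.S h (V.u * f)) := by
  rw [e, ← V.u_sub h h0, smul_mul_assoc, sub_mul, V.S_mul h h0]

lemma e_mul_u_sub {h : ℝ} (h0 : 0 < h) :
    V.e h * V.u - V.u = ((h⁻¹ : ℝ) : ℂ) • V.X (V.P h V.u) - V.P h V.u := by
  have hne : ((h : ℝ) : ℂ) ≠ 0 := by exact_mod_cast h0.ne'
  rw [V.e_mul h h0.le, ← V.X_u]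
  have h1 : V.S h (V.X V.u) = V.X (V.S h V.u) - (h : ℂ) • V.S h V.u := by
    rw [V.X_S h h0.le]; abel
  rw [h1]
  have h2 : V.X V.u - (V.X (V.S h V.u) - (h : ℂ) • V.S h V.u)
      = V.X (V.P h V.u) + (h : ℂ) • V.S h V.u := by
    rw [← V.u_sub h h0.le, map_sub]; abel
  rw [h2, smul_add, smul_smul, ← V.u_sub h h0.le]
  have : ((h⁻¹ : ℝ) : ℂ) * (h : ℂ) = 1 := by
    push_cast; field_simp
  rw [this, one_smul]
  abel

lemma norm_e_mul_u_sub {h : ℝ} (h0 : 0 < h) (h1 : h ≤ 1) :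
    ‖V.e h * V.u - V.u‖ ≤ 2 * h := by
  rw [V.e_mul_u_sub h0]
  have hX := V.X_P_norm h h0.le V.u
  rw [V.norm_Pu h h0.le h1] at hX
  calc ‖((h⁻¹ : ℝ) : ℂ) • V.X (V.P h V.u) - V.P h V.u‖
      ≤ ‖((h⁻¹ : ℝ) : ℂ) • V.X (V.P h V.u)‖ + ‖V.P h V.u‖ := norm_sub_le _ _
    _ ≤ h⁻¹ * (h * h) + h := by
        rw [norm_smul, V.norm_Pu h h0.le h1]
        simp only [Complex.norm_real, Real.norm_eq_abs, abs_inv, abs_of_pos h0]
        gcongr
    _ = 2 * h := by field_simp; ring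

lemma tendsto_e_mul_u : Tendsto (fun h => V.e h * V.u) (𝓝[>] 0) (𝓝 V.u) := by
  rw [tendsto_iff_norm_sub_tendsto_zero]
  have h1 : Tendsto (fun h : ℝ => 2 * h) (𝓝[>] 0) (𝓝 0) := by
    have : Tendsto (fun h : ℝ => 2 * h) (𝓝 0) (𝓝 (2 * 0)) := tendsto_id.const_mul 2
    rw [mul_zero] at this
    exact this.mono_left nhdsWithin_le_nhds
  refine squeeze_zero' (Eventually.of_forall fun _ => norm_nonneg _) ?_ h1
  filter_upwards [Ioc_mem_nhdsGT (zero_lt_one : (0:ℝ) < 1)] with h hh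
  exact V.norm_e_mul_u_sub hh.1 hh.2

lemma tendsto_e_mul (f : A) : Tendsto (fun h => V.e h * f) (𝓝[>] 0) (𝓝 f) := by
  have := V.tendsto_of_dense (l := 𝓝[>] (0:ℝ)) (fun h => ContinuousLinearMap.mul ℂ A (V.e h)) 1
    (by
      filter_upwards [Ioc_mem_nhdsGT (zero_lt_one : (0:ℝ) < 1)] with h hh f
      rw [ContinuousLinearMap.mul_apply']
      refine (norm_mul_le _ _).trans ?_
      rw [V.norm_e hh.1 hh.2])
    (ContinuousLinearMap.id ℂ A)
    (by
      intro g
      simp only [ContinuousLinearMap.mul_apply', ContinuousLinearMap.id_apply]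
      have := (V.tendsto_e_mul_u).mul_const g
      simpa only [mul_assoc] using this) f
  simpa using this

lemma S_tendsto (f : A) : Tendsto (fun h => V.S h f) (𝓝[>] 0) (𝓝 f) := by
  have := V.tendsto_of_dense (l := 𝓝[>] (0:ℝ)) (fun h => V.S h) 1
    (by
      filter_upwards [self_mem_nhdsWithin] with h hh f
      rw [one_mul]
      exact V.norm_S_le h (le_of_lt hh) f)
    (ContinuousLinearMap.id ℂ A)
    (by
      intro g
      simp only [ContinuousLinearMap.id_apply]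
      have h1 : Tendsto (fun h => V.u * g - V.P h V.u * g) (𝓝[>] 0) (𝓝 (V.u * g - 0 * g)) :=
        tendsto_const_nhds.sub ((V.P_tendsto_zero V.u).mul_const g)
      rw [zero_mul, sub_zero] at h1
      refine h1.congr' ?_
      filter_upwards [self_mem_nhdsWithin] with h hh
      have hh' : 0 ≤ h := le_of_lt hh
      rw [← V.u_sub h hh', sub_mul, V.S_mul h hh']
      abel) f
  simpa using this

/-- faithfulness -/
lemma faithful {a : ℝ} {f : A} (h : ∀ g, V.P a (f * g) = 0) : V.P a f = 0 := by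
  have h1 : Tendsto (fun h => V.P a (V.e h * f)) (𝓝[>] 0) (𝓝 (V.P a f)) :=
    ((V.P a).continuous.tendsto f).comp (V.tendsto_e_mul f)
  have h2 : Tendsto (fun h => V.P a (V.e h * f)) (𝓝[>] 0) (𝓝 0) := by
    refine tendsto_const_nhds.congr ?_
    intro k
    rw [mul_comm, h]
  exact tendsto_nhds_unique h1 h2

/-- injectivity of `u * ·` -/
lemma u_mul_inj {a : ℝ} {f : A} (h : V.P a (V.u * f) = 0) : V.P a f = 0 := by
  have h1 : Tendsto (fun h => V.P a (V.e h * f)) (𝓝[>] 0) (𝓝 (V.P a f)) :=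
    ((V.P a).continuous.tendsto f).comp (V.tendsto_e_mul f)
  have h2 : Tendsto (fun h => V.P a (V.e h * f)) (𝓝[>] 0) (𝓝 0) := by
    refine tendsto_const_nhds.congr' ?_
    filter_upwards [self_mem_nhdsWithin] with k hk
    have hk' : 0 ≤ k := le_of_lt hk
    rw [V.e_mul k hk', map_smul, map_sub, h, V.P_S a k hk',
      ← V.P_P_le (show a - k ≤ a by linarith), h, map_zero, map_zero, sub_zero, smul_zero]
  exact tendsto_nhds_unique h1 h2

/-- Local multipliers: `M` lives on `[0,a)`. -/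
def IsMul (a : ℝ) (M : A →L[ℂ] A) : Prop := ∀ f g, M (f * g) = V.P a (M f * g)

namespace IsMul

variable {V} {a : ℝ} {M M' : A →L[ℂ] A}

lemma P_apply (hM : V.IsMul a M) (f : A) : V.P a (M f) = M f := by
  have : (V.P a) * M = M := by
    apply V.ext_dense
    intro g
    rw [ContinuousLinearMap.mul_apply, hM, V.P_idem]
  have h := congrArg (fun T : A →L[ℂ] A => T f) this
  simpa using h

lemma comm_apply (hM : V.IsMul a M) (f g : A) : V.P a (M f * g) = V.P a (f * M g) := by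
  rw [← hM, mul_comm, hM, mul_comm]

lemma apply_P (hM : V.IsMul a M) (f : A) : M (V.P a f) = M f := by
  have h : V.P a (M (f - V.P a f)) = 0 := by
    apply V.faithful
    intro g
    rw [hM.comm_apply, V.P_mul, map_sub, V.P_idem, sub_self, zero_mul, map_zero]
  rw [hM.P_apply, map_sub, sub_eq_zero] at h
  exact h.symm

lemma apply_P_of_le (hM : V.IsMul a M) {b : ℝ} (hb : a ≤ b) (f : A) :
    M (V.P b f) = M f := by
  rw [← hM.apply_P, V.P_P_le hb, hM.apply_P]

lemma P_apply_of_le (hM : V.IsMul a M) {b : ℝ} (hb : a ≤ b) (f : A) :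
    V.P b (M f) = M f := by
  rw [← hM.P_apply, V.P_P_le' hb]

lemma mul_apply' (hM : V.IsMul a M) (f g : A) : M (f * g) = V.P a (f * M g) := by
  rw [hM, hM.comm_apply]

lemma comm (hM : V.IsMul a M) (hM' : V.IsMul a M') : M * M' = M' * M := by
  apply V.ext_dense
  intro g
  rw [ContinuousLinearMap.mul_apply, ContinuousLinearMap.mul_apply, hM', hM.apply_P, hM.mul_apply',
    hM.mul_apply', hM'.apply_P, hM']

lemma comm_at (hM : V.IsMul a M) (hM' : V.IsMul a M') (f : A) : M (M' f) = M' (M f) := by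
  have := congrArg (fun T : A →L[ℂ] A => T f) (hM.comm hM')
  simpa using this

lemma mul (hM : V.IsMul a M) (hM' : V.IsMul a M') : V.IsMul a (M * M') := by
  intro f g
  rw [ContinuousLinearMap.mul_apply, ContinuousLinearMap.mul_apply, hM', hM.apply_P, hM]

lemma add (hM : V.IsMul a M) (hM' : V.IsMul a M') : V.IsMul a (M + M') := by
  intro f g
  rw [ContinuousLinearMap.add_apply, ContinuousLinearMap.add_apply, hM', hM, add_mul, map_add]

lemma sub (hM : V.IsMul a M) (hM' : V.IsMul a M') : V.IsMul a (M - M') := by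
  intro f g
  rw [ContinuousLinearMap.sub_apply, ContinuousLinearMap.sub_apply, hM', hM, sub_mul, map_sub]

lemma neg (hM : V.IsMul a M) : V.IsMul a (-M) := by
  intro f g
  rw [ContinuousLinearMap.neg_apply, ContinuousLinearMap.neg_apply, hM, neg_mul, map_neg]

lemma smul (hM : V.IsMul a M) (c : ℂ) : V.IsMul a (c • M) := by
  intro f g
  rw [ContinuousLinearMap.smul_apply, ContinuousLinearMap.smul_apply, hM, smul_mul_assoc, map_smul]

lemma restrict (hM : V.IsMul a M) {b : ℝ} (hb : b ≤ a) : V.IsMul b (V.P b * M) := by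
  intro f g
  rw [ContinuousLinearMap.mul_apply, ContinuousLinearMap.mul_apply, hM, V.P_P_le hb, V.P_mul]

lemma bracket (hM : V.IsMul a M) : V.IsMul a (V.X * M - M * V.X) := by
  intro f g
  simp only [ContinuousLinearMap.sub_apply, ContinuousLinearMap.mul_apply]
  rw [hM, ← V.P_X, V.X_mul, V.X_mul, map_add, map_add, hM, hM, sub_mul, map_sub]
  abel

lemma apply_S (hM : V.IsMul a M) {s : ℝ} (hs : 0 ≤ s) (f : A) :
    M (V.S s f) = V.P a (V.S s (M f)) := by
  have h : V.P a (M (V.S s f) - V.S s (M f)) = 0 := by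
    apply V.faithful
    intro g
    rw [sub_mul, map_sub, ← hM, ← V.S_mul s hs, ← V.S_mul s hs, mul_comm f g, V.S_mul s hs g f,
      hM.mul_apply', mul_comm (M f) g, V.S_mul s hs, sub_self]
  rw [map_sub, hM.P_apply, sub_eq_zero] at h
  exact h

end IsMul

lemma isMul_P (a : ℝ) : V.IsMul a (V.P a) := by
  intro f g
  rw [V.P_mul]

lemma isMul_mulLeft (a : ℝ) (N : A) : V.IsMul a (V.P a * ContinuousLinearMap.mul ℂ A N) := by
  intro f g
  simp only [ContinuousLinearMap.mul_apply, ContinuousLinearMap.mul_apply']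
  rw [← V.P_mul, mul_assoc]

lemma isMul_zero (a : ℝ) : V.IsMul a 0 := by
  intro f g; simp

lemma IsMul.isClosed (a : ℝ) : IsClosed {M : A →L[ℂ] A | V.IsMul a M} := by
  have : {M : A →L[ℂ] A | V.IsMul a M}
      = ⋂ f, ⋂ g, {M : A →L[ℂ] A | M (f * g) = V.P a (M f * g)} := by
    ext M; simp [IsMul]
  rw [this]
  refine isClosed_iInter fun f => isClosed_iInter fun g => isClosed_eq ?_ ?_
  · fun_prop
  · have h1 : Continuous fun M : A →L[ℂ] A => M f * g := by
      have : Continuous fun M : A →L[ℂ] A => M f := by fun_prop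
      exact this.mul continuous_const
    exact (V.P a).continuous.comp h1

lemma IsMul.of_tendsto {a : ℝ} {ι : Type*} {l : Filter ι} [l.NeBot] {F : ι → A →L[ℂ] A}
    {M : A →L[ℂ] A} (h : Tendsto F l (𝓝 M)) (hF : ∀ i, V.IsMul a (F i)) : V.IsMul a M :=
  (IsMul.isClosed V a).mem_of_tendsto h (Eventually.of_forall hF)

/-- Norm estimate through the approximate identity. -/
lemma IsMul.norm_le_of_e {a : ℝ} {M : A →L[ℂ] A} (hM : V.IsMul a M) {B : ℝ}
    (h : ∃ᶠ k in 𝓝[>] (0:ℝ), ‖M (V.e k)‖ ≤ B) (f : A) : ‖M f‖ ≤ B * ‖f‖ := by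
  have h1 : Tendsto (fun k => ‖M (V.e k * f)‖) (𝓝[>] 0) (𝓝 ‖M f‖) :=
    ((M.continuous.tendsto f).comp (V.tendsto_e_mul f)).norm
  refine le_of_tendsto_of_frequently h1 ?_
  refine h.mono ?_
  intro k hk
  rw [hM]
  refine (V.norm_P_le _ _).trans ((norm_mul_le _ _).trans ?_)
  exact mul_le_mul_of_nonneg_right hk (norm_nonneg _)

/-- a multiplier is controlled by its part near `0` and its commutator with `X` -/
lemma IsMul.norm_le_bracket {a : ℝ} {M : A →L[ℂ] A} (hM : V.IsMul a M) {ε : ℝ} (hε : 0 < ε)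
    {B₀ B₁ : ℝ} (h0 : ∀ f, ‖V.P ε (M f)‖ ≤ B₀ * ‖f‖)
    (h1 : ∀ f, ‖V.X (M f) - M (V.X f)‖ ≤ B₁ * ‖f‖) (f : A) :
    ‖M f‖ ≤ (B₀ + ε⁻¹ * B₁) * ‖f‖ := by
  -- for all `δ > 0`
  have key : ∀ δ > 0, ‖M f‖ ≤ (B₀ + ε⁻¹ * (B₁ + δ)) * ‖f‖ := by
    intro δ hδ
    refine IsMul.norm_le_of_e V hM ?_ f
    apply Eventually.frequently
    have hev : ∀ᶠ k : ℝ in 𝓝[>] 0, ‖M‖ * k ≤ δ := by
      have : Tendsto (fun k : ℝ => ‖M‖ * k) (𝓝[>] 0) (𝓝 (‖M‖ * 0)) :=
        (tendsto_id.const_mul _).mono_left nhdsWithin_le_nhds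
      rw [mul_zero] at this
      exact this.eventually (eventually_le_nhds hδ) 
    filter_upwards [Ioc_mem_nhdsGT (zero_lt_one : (0:ℝ) < 1), hev] with k hk hkδ
    have he : ‖V.e k‖ = 1 := V.norm_e hk.1 hk.2
    have h2 : ‖V.P ε (M (V.e k))‖ ≤ B₀ := by
      have := h0 (V.e k); rwa [he, mul_one] at this
    have hXe : ‖V.X (V.e k)‖ ≤ k := by
      have := V.X_P_norm k hk.1.le (V.e k)
      rwa [V.P_e, he, mul_one] at this
    have h3 : ‖V.X (M (V.e k))‖ ≤ B₁ + δ := by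
      have h4 := h1 (V.e k)
      rw [he, mul_one] at h4
      have h5 : ‖M (V.X (V.e k))‖ ≤ ‖M‖ * k :=
        (M.le_opNorm _).trans (mul_le_mul_of_nonneg_left hXe (norm_nonneg _))
      have : V.X (M (V.e k)) = (V.X (M (V.e k)) - M (V.X (V.e k))) + M (V.X (V.e k)) := by abel
      rw [this]
      refine (norm_add_le _ _).trans ?_
      linarith
    have h6 : ε * ‖M (V.e k) - V.P ε (M (V.e k))‖ ≤ ‖V.X (M (V.e k))‖ := by
      have h7 := V.le_X_norm ε hε.le (M (V.e k) - V.P ε (M (V.e k)))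
        (by rw [map_sub, V.P_idem, sub_self])
      refine h7.trans ?_
      rw [map_sub, ← V.P_X]
      exact V.norm_sub_P_le _ _
    have h8 : ‖M (V.e k) - V.P ε (M (V.e k))‖ ≤ ε⁻¹ * (B₁ + δ) := by
      rw [inv_mul_eq_div, le_div_iff₀ hε, mul_comm]
      exact h6.trans h3
    rw [← V.norm_P_add ε (M (V.e k))]
    linarith
  have hlim : Tendsto (fun δ : ℝ => (B₀ + ε⁻¹ * (B₁ + δ)) * ‖f‖) (𝓝[>] 0)
      (𝓝 ((B₀ + ε⁻¹ * (B₁ + 0)) * ‖f‖)) := by
    apply Tendsto.mono_left _ nhdsWithin_le_nhds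
    apply Continuous.tendsto
    fun_prop
  rw [add_zero] at hlim
  refine ge_of_tendsto hlim ?_
  filter_upwards [self_mem_nhdsWithin] with δ hδ
  exact key δ hδ

end VD

end Volt
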