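import Pool.Agent.Helper56.Volt.Log

/-!
From the local semigroup `κ` of an automorphism to its generator.
-/

set_option linter.unusedSectionVars false
set_option linter.deprecated false

namespace Volt

open Filter Topology NormedSpace

variable {A : Type*} [NonUnitalNormedCommRing A] [NormedSpace ℂ A] [IsScalarTower ℂ A A]
  [SMulCommClass ℂ A A]

namespace VD

variable (V : VD A)

/-- the local semigroup data -/
structure KData (κ lam : ℕ → A →L[ℂ] A) (K : ℝ) : Prop where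
  one_le : 1 ≤ K
  mulκ : ∀ n, V.IsMul (al n) (κ n)
  mulL : ∀ n, V.IsMul (al n) (lam n)
  inv : ∀ n f, κ n (lam n f) = V.P (al n) f
  semi : ∀ n f, V.P (al n) (κ (n+1) (κ (n+1) f)) = κ n f
  nκ : ∀ n f, ‖κ n f‖ ≤ K * ‖f‖
  nL : ∀ n f, ‖lam n f‖ ≤ K * ‖f‖

variable {V}

/-- log derivative -/
noncomputable def ZZ (V : VD A) (κ lam : ℕ → A →L[ℂ] A) (n : ℕ) : A →L[ℂ] A :=
  (-((2:ℂ)^n)) • ((V.X * κ n - κ n * V.X) * lam n)

lemma P_X_comm (b : ℝ) (M : A →L[ℂ] A) :
    V.X * (V.P b * M) - (V.P b * M) * V.X = V.P b * (V.X * M - M * V.X) := by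
  ext f
  simp only [ContinuousLinearMap.sub_apply, ContinuousLinearMap.mul_apply, map_sub]
  rw [← V.P_X]

section

variable {κ lam : ℕ → A →L[ℂ] A} {K : ℝ} (h : V.KData κ lam K)
include h

lemma KData.inv' (n : ℕ) (f : A) : lam n (κ n f) = V.P (al n) f := by
  rw [(h.mulL n).comm_at (h.mulκ n), h.inv]

lemma KData.Zmul (n : ℕ) : V.IsMul (al n) (ZZ V κ lam n) :=
  ((h.mulκ n).bracket.mul (h.mulL n)).smul _

lemma KData.Zeq (n : ℕ) : V.X * κ n - κ n * V.X
    = (-((2:ℂ)^n)⁻¹) • (ZZ V κ lam n * κ n) := by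
  ext f
  simp only [ZZ, ContinuousLinearMap.smul_apply, ContinuousLinearMap.mul_apply, smul_smul]
  rw [h.inv', (h.mulκ n).bracket.apply_P]
  have : (2:ℂ)^n ≠ 0 := pow_ne_zero _ two_ne_zero
  have h2 : -((2:ℂ)^n)⁻¹ * -(2:ℂ)^n = 1 := by field_simp
  rw [h2, one_smul]

lemma KData.Zcompat (n : ℕ) : V.P (al n) * ZZ V κ lam (n+1) = ZZ V κ lam n := by
  have hle : al n ≤ al (n+1) := al_mono (Nat.le_succ n)
  set D' := V.X * κ (n+1) - κ (n+1) * V.X with hD'
  have hD'm : V.IsMul (al (n+1)) D' := (h.mulκ (n+1)).bracket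
  -- `P λ' = P κ' λ`
  have h1 : ∀ f, V.P (al n) (lam (n+1) f) = V.P (al n) (κ (n+1) (lam n f)) := by
    intro f
    have e1 : V.P (al n) f = V.P (al n) (κ (n+1) (κ (n+1) (lam n f))) := by
      rw [h.semi, h.inv]
    rw [← (h.mulL (n+1)).P_apply_P hle, e1, (h.mulL (n+1)).P_apply_P hle, h.inv',
      V.P_P_le hle]
  -- `[X,κ] = 2 P κ' D'`
  have h2 : ∀ f, V.X (κ n f) - κ n (V.X f) = (2:ℂ) • V.P (al n) (κ (n+1) (D' f)) := by
    intro f
    have a1 := h.semi n f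
    have a2 := h.semi n (V.X f)
    rw [← a1, ← a2, ← V.P_X, ← map_sub]
    have e1 : V.X (κ (n+1) (κ (n+1) f)) - κ (n+1) (κ (n+1) (V.X f))
        = D' (κ (n+1) f) + κ (n+1) (D' f) := by
      simp only [hD', ContinuousLinearMap.sub_apply, ContinuousLinearMap.mul_apply, map_sub]
      abel
    rw [e1, hD'm.comm_at (h.mulκ (n+1)), ← two_smul ℂ, map_smul]
  ext f
  simp only [ZZ, ContinuousLinearMap.smul_apply, ContinuousLinearMap.mul_apply, map_smul]
  have h3 : (V.X * κ n - κ n * V.X) (lam n f) = (2:ℂ) • V.P (al n) (κ (n+1) (D' (lam n f))) := by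
    rw [← h2]; rfl
  rw [h3, smul_smul, ← hD', ← hD'm.P_apply_P hle, h1, hD'm.P_apply_P hle,
    hD'm.comm_at (h.mulκ (n+1))]
  congr 1
  rw [pow_succ]; ring

lemma KData.Zcompat_le {m n : ℕ} (hmn : m ≤ n) (f : A) :
    V.P (al m) (ZZ V κ lam n f) = ZZ V κ lam m f :=
  compat_le h.Zcompat hmn f

lemma KData.Znorm (n : ℕ) (f : A) : ‖ZZ V κ lam n f‖ ≤ 2 * K^2 * 2^n * ‖f‖ := by
  have hK : 0 ≤ K := zero_le_one.trans h.one_le
  simp only [ZZ, ContinuousLinearMap.smul_apply, ContinuousLinearMap.mul_apply,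
    ContinuousLinearMap.sub_apply]
  rw [norm_smul, norm_neg, norm_pow, Complex.norm_ofNat]
  have h1 : ‖V.X (κ n (lam n f)) - κ n (V.X (lam n f))‖ ≤ 2 * K^2 * ‖f‖ := by
    refine (norm_sub_le _ _).trans ?_
    have e1 : ‖V.X (κ n (lam n f))‖ ≤ K * (K * ‖f‖) :=
      (V.norm_X_le _).trans ((h.nκ n _).trans (mul_le_mul_of_nonneg_left (h.nL n f) hK))
    have e2 : ‖κ n (V.X (lam n f))‖ ≤ K * (K * ‖f‖) :=
      (h.nκ n _).trans (mul_le_mul_of_nonneg_left ((V.norm_X_le _).trans (h.nL n f)) hK)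
    calc _ ≤ K * (K * ‖f‖) + K * (K * ‖f‖) := add_le_add e1 e2
      _ = _ := by ring
  calc (2:ℝ)^n * ‖V.X (κ n (lam n f)) - κ n (V.X (lam n f))‖ ≤ 2^n * (2 * K^2 * ‖f‖) := by gcongr
    _ = _ := by ring

variable [CompleteSpace A]

/-- scalar times exponential -/
lemma KData.exp_scalar {n : ℕ} {b : ℝ} (hb : b ≤ al n) {C : A →L[ℂ] A} (hC : V.IsMul b C)
    (hX : V.X * C - C * V.X = V.P b * ZZ V κ lam n) :
    ∃ χ : ℂ, ∀ f, V.P b (κ n f) = χ • V.P b (exp ((-((2:ℂ)^n)⁻¹) • C) f) := by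
  set s : ℂ := ((2:ℂ)^n)⁻¹ with hs
  set Z := ZZ V κ lam n with hZ
  have hsC : V.IsMul b (s • C) := hC.smul s
  set Y := V.P b * exp (s • C) with hY
  have hYm : V.IsMul b Y := hsC.exp
  set κb := V.P b * κ n with hκb
  have hκbm : V.IsMul b κb := (h.mulκ n).restrict hb
  have hZb : V.IsMul b (V.P b * Z) := (h.Zmul n).restrict hb
  have e1 : V.X * Y - Y * V.X = s • (Y * (V.P b * Z)) := by
    rw [hY, P_X_comm, hsC.bracket_exp, mul_smul_comm, smul_mul_assoc, ← smul_sub, hX,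
      mul_smul_comm, mul_smul_comm, mul_assoc]
  have e2 : V.X * κb - κb * V.X = (-s) • ((V.P b * Z) * κb) := by
    rw [hκb, P_X_comm, h.Zeq, mul_smul_comm, ← hs, ← hZ]
    congr 1
    ext f
    simp only [ContinuousLinearMap.mul_apply]
    rw [(h.Zmul n).P_apply_P hb]
  have hM : V.IsMul b (κb * Y) := hκbm.mul hYm
  have e3 : V.X * (κb * Y) - (κb * Y) * V.X = 0 := by
    have : V.X * (κb * Y) - (κb * Y) * V.X
        = (V.X * κb - κb * V.X) * Y + κb * (V.X * Y - Y * V.X) := by noncomm_ring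
    rw [this, e1, e2, smul_mul_assoc, mul_smul_comm, ← mul_assoc κb Y, (hκbm.mul hYm).comm hZb,
      mul_assoc (V.P b * Z) κb Y, neg_smul, neg_add_cancel]
  obtain ⟨χ, hχ⟩ := IsMul.scalar V hM e3
  refine ⟨χ, fun f => ?_⟩
  have e4 := congrArg (fun T : A →L[ℂ] A => T (exp (-(s • C)) f)) hχ
  simp only [ContinuousLinearMap.mul_apply, ContinuousLinearMap.smul_apply, hY, hκb] at e4
  rw [exp_exp_neg, (h.mulκ n).P_apply_P hb] at e4
  rw [e4, neg_smul]

/-- logarithm at a level where `κ` is close to a scalar -/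
lemma KData.log {n : ℕ} {b : ℝ} (hb : b ≤ al n) {χ : ℂ} (hχ : χ ≠ 0)
    (hn : ∀ f, ‖χ⁻¹ • V.P b (κ n f) - V.P b f‖ ≤ 1/2 * ‖f‖) :
    ∃ C : A →L[ℂ] A, V.IsMul b C ∧ V.X * C - C * V.X = V.P b * ZZ V κ lam n := by
  set s : ℂ := ((2:ℂ)^n)⁻¹ with hs
  have h2n : (2:ℂ)^n ≠ 0 := pow_ne_zero _ two_ne_zero
  set Z := ZZ V κ lam n with hZ
  set E := χ⁻¹ • (V.P b * κ n) - V.P b with hE
  have hκbm : V.IsMul b (V.P b * κ n) := (h.mulκ n).restrict hb
  have hEm : V.IsMul b E := (hκbm.smul _).sub (V.isMul_P b)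
  have hEn : ‖E‖ ≤ 1/2 := ContinuousLinearMap.opNorm_le_bound _ (by norm_num) hn
  obtain ⟨CL, hCL, hlog⟩ := hEm.exists_log hEn
  set D := V.X * CL - CL * V.X with hD
  have hDm : V.IsMul b D := hCL.bracket
  have e1 : V.X * E - E * V.X = (χ⁻¹ * (-s)) • (V.P b * (Z * κ n)) := by
    have : V.X * E - E * V.X = χ⁻¹ • (V.X * (V.P b * κ n) - (V.P b * κ n) * V.X)
        - (V.X * (V.P b * 1) - (V.P b * 1) * V.X) := by
      rw [hE, mul_one, mul_sub, sub_mul, mul_smul_comm, smul_mul_assoc, smul_sub]; abel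
    rw [this, P_X_comm, P_X_comm, h.Zeq, ← hs, ← hZ]
    simp only [mul_one, one_mul, sub_self, mul_zero, sub_zero, mul_smul_comm, smul_smul]
  have e2 : ∀ f, χ⁻¹ • V.P b (κ n (D f)) = (χ⁻¹ * (-s)) • V.P b (Z (κ n f)) := by
    intro f
    have := congrArg (fun T : A →L[ℂ] A => T f) (hlog.trans e1)
    simp only [ContinuousLinearMap.add_apply, ContinuousLinearMap.mul_apply,
      ContinuousLinearMap.smul_apply] at this
    rw [← this, hE]
    simp only [ContinuousLinearMap.sub_apply, ContinuousLinearMap.smul_apply,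
      ContinuousLinearMap.mul_apply]
    rw [hDm.P_apply]; abel
  have e3 : ∀ f, D f = (-s) • V.P b (Z f) := by
    intro f
    have e4 : V.P b (κ n (D f)) = (-s) • V.P b (Z (κ n f)) := by
      have := congrArg (fun y => χ • y) (e2 f)
      simpa only [smul_smul, mul_inv_cancel₀ hχ, one_smul, ← mul_assoc, one_mul] using this
    have e5 := congrArg (fun y => V.P b (lam n y)) e4
    rw [(h.mulL n).P_apply_P hb, h.inv', V.P_P_le hb, hDm.P_apply, map_smul, map_smul,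
      (h.mulL n).P_apply_P hb, (h.mulL n).comm_at (h.Zmul n), h.inv', (h.Zmul n).apply_P] at e5
    exact e5
  refine ⟨(-((2:ℂ)^n)) • CL, hCL.smul _, ?_⟩
  rw [mul_smul_comm, smul_mul_assoc, ← smul_sub, ← hD]
  ext f
  rw [ContinuousLinearMap.smul_apply, e3, smul_smul, hs, ContinuousLinearMap.mul_apply]
  have : -(2:ℂ)^n * -((2:ℂ)^n)⁻¹ = 1 := by field_simp
  rw [this, one_smul]

omit h in
lemma norm_exp_apply_le (W : VD A) (M : A →L[ℂ] A) (f : A) :
    ‖exp M f‖ ≤ Real.exp ‖M‖ * ‖f‖ := by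
  have := norm_P_exp_le (V := W) (b := 1) M (norm_nonneg M) (by
    intro f
    rw [W.P_one_le 1 le_rfl, W.P_one_le 1 le_rfl]; exact M.le_opNorm f) f
  rwa [W.P_one_le 1 le_rfl, W.P_one_le 1 le_rfl] at this

omit h [IsScalarTower ℂ A A] [SMulCommClass ℂ A A] in
lemma exp_tendsto_one (C : A →L[ℂ] A) :
    Tendsto (fun m : ℕ => ‖exp ((-((2:ℂ)^m)⁻¹) • C) - 1‖) atTop (𝓝 0) := by
  letI : NormedAlgebra ℚ (A →L[ℂ] A) := NormedAlgebra.restrictScalars ℚ ℂ _
  have h1 : Tendsto (fun m : ℕ => (-((2:ℂ)^m)⁻¹)) atTop (𝓝 0) := by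
    have : Tendsto (fun m : ℕ => ((2:ℂ)⁻¹)^m) atTop (𝓝 0) :=
      tendsto_pow_atTop_nhds_zero_of_norm_lt_one (by norm_num)
    simp_rw [inv_pow] at this
    simpa using this.neg
  have h2 : Tendsto (fun m : ℕ => exp ((-((2:ℂ)^m)⁻¹) • C)) atTop (𝓝 (exp ((0:ℂ) • C))) :=
    (exp_continuous.tendsto _).comp (h1.smul_const C)
  rw [zero_smul, exp_zero] at h2
  exact tendsto_iff_norm_sub_tendsto_zero.1 h2

/-- The generator. -/
theorem KData.exists_gen : ∃ (C : ℕ → A →L[ℂ] A) (K' : ℝ) (χ : ℕ → ℂ), V.CFam C K' ∧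
    ∀ n, 1 ≤ n → ∀ m, n ≤ m → ∀ f,
      V.P (al n) (κ m f) = χ m • V.P (al n) (exp ((-((2:ℂ)^m)⁻¹) • C n) f) := by
  classical
  have hK1 := h.one_le
  have hK : 0 < K := zero_lt_one.trans_le hK1
  -- mass at zero of `κ 1`
  have hal1 : (0:ℝ) < al 1 := by rw [al_one]; norm_num
  obtain ⟨ε, hε0, hεle, χ1, hχ1⟩ := IsMul.mass V hal1 (h.mulκ 1)
    (η := 1 / (4 * K)) (by positivity)
  have hε1 : ε ≤ 1 := hεle.trans (by rw [al_one]; norm_num)
  have hPu : ‖V.P ε V.u‖ = ε := V.norm_Pu ε hε0.le hε1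
  have hPune : V.P ε V.u ≠ 0 := by
    rw [← norm_pos_iff, hPu]; exact hε0
  have hχ1n : 3 / (4 * K) ≤ ‖χ1‖ := by
    have e1 : V.P ε V.u = V.P ε (lam 1 (V.P ε (κ 1 V.u))) := by
      rw [(h.mulL 1).P_apply_P hεle, h.inv', V.P_P_le hεle]
    have e2 : ‖V.P ε (κ 1 V.u)‖ ≤ (‖χ1‖ + 1 / (4 * K)) * ε := by
      have := hχ1 V.u
      rw [hPu] at this
      have e3 : V.P ε (κ 1 V.u) = (V.P ε (κ 1 V.u) - χ1 • V.P ε V.u) + χ1 • V.P ε V.u := by abel
      rw [e3]
      refine (norm_add_le _ _).trans ?_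
      rw [norm_smul, hPu]
      linarith
    have e4 : ε ≤ K * ((‖χ1‖ + 1 / (4 * K)) * ε) := by
      calc ε = ‖V.P ε V.u‖ := hPu.symm
        _ = ‖V.P ε (lam 1 (V.P ε (κ 1 V.u)))‖ := by rw [← e1]
        _ ≤ ‖lam 1 (V.P ε (κ 1 V.u))‖ := V.norm_P_le _ _
        _ ≤ K * ‖V.P ε (κ 1 V.u)‖ := h.nL 1 _
        _ ≤ _ := by gcongr
    have e5 : 1 ≤ K * (‖χ1‖ + 1 / (4 * K)) := by
      have : ε * 1 ≤ ε * (K * (‖χ1‖ + 1 / (4 * K))) := by linarith
      exact le_of_mul_le_mul_left this hε0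
    rw [div_le_iff₀ (by positivity)]
    have e6 : K * (1 / (4 * K)) = 1/4 := by field_simp
    nlinarith
  have hχ1pos : 0 < ‖χ1‖ := lt_of_lt_of_le (by positivity) hχ1n
  have hχ1ne : χ1 ≠ 0 := norm_pos_iff.1 hχ1pos
  obtain ⟨C0, hC0, hC0X⟩ := h.log hεle hχ1ne (by
    intro f
    have e1 : χ1⁻¹ • V.P ε (κ 1 f) - V.P ε f = χ1⁻¹ • (V.P ε (κ 1 f) - χ1 • V.P ε f) := by
      rw [smul_sub, smul_smul, inv_mul_cancel₀ hχ1ne, one_smul]
    rw [e1, norm_smul, norm_inv]
    have e2 : ‖χ1‖⁻¹ ≤ 4 * K / 3 := by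
      rw [inv_le_comm₀ hχ1pos (by positivity)]
      calc (4 * K / 3)⁻¹ = 3 / (4 * K) := by field_simp
        _ ≤ _ := hχ1n
    calc ‖χ1‖⁻¹ * ‖V.P ε (κ 1 f) - χ1 • V.P ε f‖ ≤ (4 * K / 3) * (1 / (4 * K) * ‖f‖) := by
          have := (hχ1 f).trans (mul_le_mul_of_nonneg_left (V.norm_P_le ε f)
            (by positivity : 0 ≤ 1 / (4 * K)))
          gcongr
      _ = 1/3 * ‖f‖ := by field_simp
      _ ≤ 1/2 * ‖f‖ := by
          have := norm_nonneg f
          linarith)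
  -- scalar relation at level `ε`
  have hεal : ∀ n, 1 ≤ n → ε ≤ al n := fun n hn => hεle.trans (al_mono hn)
  have hZε : ∀ n, 1 ≤ n → V.P ε * ZZ V κ lam n = V.P ε * ZZ V κ lam 1 := by
    intro n hn
    ext f
    simp only [ContinuousLinearMap.mul_apply]
    rw [← h.Zcompat_le hn, V.P_P_le hεle]
  have hχex : ∀ m, ∃ χ : ℂ, 1 ≤ m → ∀ f,
      V.P ε (κ m f) = χ • V.P ε (exp ((-((2:ℂ)^m)⁻¹) • C0) f) := by
    intro m
    by_cases hm : 1 ≤ m
    · obtain ⟨χ, hχ⟩ := h.exp_scalar (hεal m hm) hC0 (by rw [hC0X, hZε m hm])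
      exact ⟨χ, fun _ => hχ⟩
    · exact ⟨0, fun h => absurd h hm⟩
  choose χ hχ using hχex
  -- lower bound for `χ`
  set c₀ : ℝ := ε / (K * Real.exp ‖C0‖) with hc₀
  have hc₀pos : 0 < c₀ := by positivity
  have hχlow : ∀ m, 1 ≤ m → c₀ ≤ ‖χ m‖ := by
    intro m hm
    have e1 : V.P ε V.u = V.P ε (lam m (V.P ε (κ m V.u))) := by
      rw [(h.mulL m).P_apply_P (hεal m hm), h.inv', V.P_P_le (hεal m hm)]
    have e2 : ‖V.P ε (κ m V.u)‖ ≤ ‖χ m‖ * Real.exp ‖C0‖ := by
      rw [hχ m hm, norm_smul]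
      refine mul_le_mul_of_nonneg_left ?_ (norm_nonneg _)
      refine (V.norm_P_le _ _).trans ((norm_exp_apply_le V _ _).trans ?_)
      rw [V.norm_u, mul_one]
      apply Real.exp_le_exp.2
      rw [norm_smul, norm_neg, norm_inv, norm_pow, Complex.norm_ofNat]
      have : ((2:ℝ)^m)⁻¹ ≤ 1 := inv_le_one_of_one_le₀ (one_le_pow₀ (by norm_num))
      calc ((2:ℝ)^m)⁻¹ * ‖C0‖ ≤ 1 * ‖C0‖ := by gcongr
        _ = _ := one_mul _
    rw [hc₀, div_le_iff₀ (by positivity)]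
    calc ε = ‖V.P ε V.u‖ := hPu.symm
      _ = ‖V.P ε (lam m (V.P ε (κ m V.u)))‖ := by rw [← e1]
      _ ≤ ‖lam m (V.P ε (κ m V.u))‖ := V.norm_P_le _ _
      _ ≤ K * ‖V.P ε (κ m V.u)‖ := h.nL m _
      _ ≤ K * (‖χ m‖ * Real.exp ‖C0‖) := by gcongr
      _ = _ := by ring
  have hχne : ∀ m, 1 ≤ m → χ m ≠ 0 := fun m hm =>
    norm_pos_iff.1 (hc₀pos.trans_le (hχlow m hm))
  -- existence of `C n`
  have hCex : ∀ n, 1 ≤ n → ∃ C : A →L[ℂ] A, V.IsMul (al n) C ∧
      V.X * C - C * V.X = ZZ V κ lam n ∧ V.P ε * C = C0 := by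
    intro n hn
    have hmain : ∃ C : A →L[ℂ] A, V.IsMul (al n) C ∧
      V.X * C - C * V.X = ZZ V κ lam n := by
      have hB : Tendsto (fun m : ℕ => ‖exp ((-((2:ℂ)^m)⁻¹) • C0) - 1‖
          + ε⁻¹ * (c₀⁻¹ * (((1:ℝ)/2)^m * (2 * K^2 * 2^n * K)))) atTop
          (𝓝 (0 + ε⁻¹ * (c₀⁻¹ * (0 * (2 * K^2 * 2^n * K))))) := by
        refine (exp_tendsto_one C0).add (Tendsto.const_mul _ (Tendsto.const_mul _
          (Tendsto.mul_const _ ?_)))
        exact tendsto_pow_atTop_nhds_zero_of_lt_one (by norm_num) (by norm_num)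
      rw [zero_mul, mul_zero, mul_zero, add_zero] at hB
      obtain ⟨m, hm1, hm2⟩ := ((hB.eventually (gt_mem_nhds (show (0:ℝ) < 1/2 by norm_num))).and
        (eventually_ge_atTop n)).exists
      have hm : 1 ≤ m := hn.trans hm2
      have hle : al n ≤ al m := al_mono hm2
      set M : A →L[ℂ] A := (χ m)⁻¹ • (V.P (al n) * κ m) - V.P (al n) with hM
      have hMm : V.IsMul (al n) M := (((h.mulκ m).restrict hle).smul _).sub (V.isMul_P _)
      have hMn := hMm.norm_le_bracket V hε0 (B₀ := ‖exp ((-((2:ℂ)^m)⁻¹) • C0) - 1‖)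
        (B₁ := c₀⁻¹ * (((1:ℝ)/2)^m * (2 * K^2 * 2^n * K))) (by
          intro f
          have e1 : V.P ε (M f) = V.P ε ((exp ((-((2:ℂ)^m)⁻¹) • C0) - 1) f) := by
            rw [hM]
            simp only [ContinuousLinearMap.sub_apply, ContinuousLinearMap.smul_apply,
              ContinuousLinearMap.mul_apply, ContinuousLinearMap.one_apply, map_sub, map_smul]
            rw [V.P_P_le (hεal n hn), V.P_P_le (hεal n hn), hχ m hm, smul_smul,
              inv_mul_cancel₀ (hχne m hm), one_smul]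
          rw [e1]
          exact (V.norm_P_le _ _).trans (ContinuousLinearMap.le_opNorm _ _)) (by
          intro f
          have e1 : V.X (M f) - M (V.X f)
              = ((χ m)⁻¹ * (-((2:ℂ)^m)⁻¹)) • ZZ V κ lam n (κ m f) := by
            have e2 := congrArg (fun T : A →L[ℂ] A => T f) (h.Zeq m)
            simp only [ContinuousLinearMap.sub_apply, ContinuousLinearMap.smul_apply,
              ContinuousLinearMap.mul_apply] at e2
            rw [hM]
            simp only [ContinuousLinearMap.sub_apply, ContinuousLinearMap.smul_apply,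
              ContinuousLinearMap.mul_apply, map_sub, map_smul]
            rw [← V.P_X, ← V.P_X]
            have e3 : (χ m)⁻¹ • V.P (al n) (V.X (κ m f)) - V.P (al n) (V.X f)
                - ((χ m)⁻¹ • V.P (al n) (κ m (V.X f)) - V.P (al n) (V.X f))
                = (χ m)⁻¹ • V.P (al n) (V.X (κ m f) - κ m (V.X f)) := by
              rw [map_sub, smul_sub]; abel
            rw [e3, e2, map_smul, h.Zcompat_le hm2, smul_smul]
          rw [e1, norm_smul, norm_mul, norm_inv, norm_neg, norm_inv, norm_pow, Complex.norm_ofNat,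
            mul_assoc, mul_assoc]
          have e4 : ‖χ m‖⁻¹ ≤ c₀⁻¹ := inv_anti₀ hc₀pos (hχlow m hm)
          have e5 : ‖ZZ V κ lam n (κ m f)‖ ≤ (2 * K^2 * 2^n) * (K * ‖f‖) := by
            refine (h.Znorm n _).trans ?_
            gcongr
            exact h.nκ m f
          have e6 : ((2:ℝ)^m)⁻¹ = (1/2)^m := by rw [one_div, inv_pow]
          rw [e6]
          calc ‖χ m‖⁻¹ * ((1/2)^m * ‖ZZ V κ lam n (κ m f)‖)
              ≤ c₀⁻¹ * ((1/2)^m * ((2 * K^2 * 2^n) * (K * ‖f‖))) := by gcongr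
            _ = _ := by ring)
      obtain ⟨C, hC, hCX⟩ := h.log hle (hχne m hm) (fun f => by
        refine (hMn f).trans ?_
        exact mul_le_mul_of_nonneg_right hm1.le (norm_nonneg _))
      refine ⟨C, hC, ?_⟩
      rw [hCX]
      ext f
      exact h.Zcompat_le hm2 f
    obtain ⟨C, hC, hCX⟩ := hmain
    -- normalisation
    have hdm : V.IsMul ε (V.P ε * C - C0) := (hC.restrict (hεal n hn)).sub hC0
    obtain ⟨c, hc⟩ := IsMul.scalar V hdm (by
      have : V.X * (V.P ε * C - C0) - (V.P ε * C - C0) * V.X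
          = (V.X * (V.P ε * C) - (V.P ε * C) * V.X) - (V.X * C0 - C0 * V.X) := by noncomm_ring
      rw [this, P_X_comm, hCX, hC0X, hZε n hn, sub_self])
    refine ⟨C - c • V.P (al n), hC.sub ((V.isMul_P _).smul c), ?_, ?_⟩
    · have e1 : V.X * (V.P (al n) * 1) - (V.P (al n) * 1) * V.X = 0 := by
        rw [P_X_comm]; simp
      rw [mul_one] at e1
      have : V.X * (C - c • V.P (al n)) - (C - c • V.P (al n)) * V.X
          = (V.X * C - C * V.X) - c • (V.X * V.P (al n) - V.P (al n) * V.X) := by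
        rw [mul_sub, sub_mul, mul_smul_comm, smul_mul_assoc, smul_sub]; abel
      rw [this, hCX, e1, smul_zero, sub_zero]
    · have : V.P ε * (C - c • V.P (al n)) = (V.P ε * C - C0) + C0 - c • V.P ε := by
        rw [mul_sub, mul_smul_comm]
        have e2 : V.P ε * V.P (al n) = V.P ε := by
          ext f
          exact V.P_P_le (hεal n hn) f
        rw [e2]; abel
      rw [this, hc]; abel
  choose! C1 hC1 hC1X hC1ε using hCex
  set C : ℕ → A →L[ℂ] A := fun n => if 1 ≤ n then C1 n else 0 with hCdef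
  have hCn : ∀ n, 1 ≤ n → C n = C1 n := fun n hn => if_pos hn
  have hC00 : C 0 = 0 := if_neg (by norm_num)
  refine ⟨C, ‖C0‖ + ε⁻¹ * (2 * K^2), χ, ⟨by positivity, ?_, ?_, ?_⟩, ?_⟩
  · intro n
    rcases Nat.eq_zero_or_pos n with h0 | h0
    · rw [h0, hC00]; exact V.isMul_zero _
    · rw [hCn n h0]; exact hC1 n h0
  · intro n
    rcases Nat.eq_zero_or_pos n with h0 | h0
    · rw [h0, hC00]
      ext f
      rw [ContinuousLinearMap.mul_apply, al_zero, V.P_nonpos 0 le_rfl]; rfl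
    · rw [hCn n h0, hCn (n+1) (by omega)]
      have hle : al n ≤ al (n+1) := al_mono (Nat.le_succ n)
      have hm1 : V.IsMul (al n) (V.P (al n) * C1 (n+1) - C1 n) :=
        ((hC1 (n+1) (by omega)).restrict hle).sub (hC1 n h0)
      obtain ⟨c, hc⟩ := IsMul.scalar V hm1 (by
        have : V.X * (V.P (al n) * C1 (n+1) - C1 n) - (V.P (al n) * C1 (n+1) - C1 n) * V.X
            = (V.X * (V.P (al n) * C1 (n+1)) - (V.P (al n) * C1 (n+1)) * V.X)
              - (V.X * C1 n - C1 n * V.X) := by noncomm_ring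
        rw [this, P_X_comm, hC1X (n+1) (by omega), hC1X n h0, h.Zcompat, sub_self])
      have e1 : c • V.P ε V.u = 0 := by
        have e2 := congrArg (fun T : A →L[ℂ] A => V.P ε (T V.u)) hc
        simp only [ContinuousLinearMap.sub_apply, ContinuousLinearMap.mul_apply,
          ContinuousLinearMap.smul_apply, map_sub, map_smul] at e2
        rw [V.P_P_le (hεal n h0), V.P_P_le (hεal n h0)] at e2
        have e3 := congrArg (fun T : A →L[ℂ] A => T V.u) (hC1ε (n+1) (by omega))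
        have e4 := congrArg (fun T : A →L[ℂ] A => T V.u) (hC1ε n h0)
        simp only [ContinuousLinearMap.mul_apply] at e3 e4
        rw [← e2, e3, e4, sub_self]
      have hc0 : c = 0 := by
        rcases smul_eq_zero.1 e1 with h1 | h1
        · exact h1
        · exact absurd h1 hPune
      rw [hc0, zero_smul, sub_eq_zero] at hc
      exact hc
  · intro n f
    rcases Nat.eq_zero_or_pos n with h0 | h0
    · rw [h0, hC00, ContinuousLinearMap.zero_apply, norm_zero]; positivity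
    · rw [hCn n h0]
      have h1 := (hC1 n h0).norm_le_bracket V hε0 (B₀ := ‖C0‖) (B₁ := 2 * K^2 * 2^n) (by
        intro f
        have e3 := congrArg (fun T : A →L[ℂ] A => T f) (hC1ε n h0)
        simp only [ContinuousLinearMap.mul_apply] at e3
        rw [e3]; exact C0.le_opNorm f) (by
        intro f
        have e3 := congrArg (fun T : A →L[ℂ] A => T f) (hC1X n h0)
        simp only [ContinuousLinearMap.sub_apply, ContinuousLinearMap.mul_apply] at e3
        rw [e3]; exact h.Znorm n f) f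
      refine h1.trans ?_
      refine mul_le_mul_of_nonneg_right ?_ (norm_nonneg _)
      have h2n : (1:ℝ) ≤ 2^n := one_le_pow₀ (by norm_num)
      have h2 : ‖C0‖ ≤ ‖C0‖ * 2^n := le_mul_of_one_le_right (norm_nonneg _) h2n
      calc ‖C0‖ + ε⁻¹ * (2 * K^2 * 2^n) ≤ ‖C0‖ * 2^n + ε⁻¹ * (2 * K^2 * 2^n) := by linarith
        _ = _ := by ring
  · intro n hn m hm f
    rw [hCn n hn]
    have hle : al n ≤ al m := al_mono hm
    obtain ⟨χ', hχ'⟩ := h.exp_scalar hle (hC1 n hn) (by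
      rw [hC1X n hn]
      ext f
      exact (h.Zcompat_le hm f).symm)
    have hcong : ∀ f, V.P ε (exp ((-((2:ℂ)^m)⁻¹) • C1 n) f)
        = V.P ε (exp ((-((2:ℂ)^m)⁻¹) • C0) f) := by
      apply P_exp_congr
      · intro f
        have e3 := congrArg (fun T : A →L[ℂ] A => T f) (hC1ε n hn)
        simp only [ContinuousLinearMap.mul_apply] at e3
        simp only [ContinuousLinearMap.smul_apply, map_smul]
        rw [e3, hC0.P_apply]
      · intro f
        simp only [ContinuousLinearMap.smul_apply, map_smul]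
        rw [hC0.apply_P]
    have hχeq : χ' = χ m := by
      set y := exp (((2:ℂ)^m)⁻¹ • C0) V.u with hy
      have e1 := congrArg (V.P ε) (hχ' y)
      rw [V.P_P_le (hεal n hn), map_smul, V.P_P_le (hεal n hn), hcong, hχ m (hn.trans hm), hy,
        neg_smul, exp_neg_exp] at e1
      have e2 : (χ m - χ') • V.P ε V.u = 0 := by rw [sub_smul, e1, sub_self]
      rcases smul_eq_zero.1 e2 with h1 | h1
      · exact (sub_eq_zero.1 h1).symm
      · exact absurd h1 hPune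
    rw [hχ', hχeq]

end

end VD

end Volt
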