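import Pool.Agent.Helper56.Volt.Smooth

/-!
The exponent and the constant of a power type function are determined by the function.
-/

set_option linter.deprecated false

namespace Volt

open MeasureTheory Set Filter Topology

namespace L1

/-- `f` is of power type: `f = c (t^(a-1) + t^(a-1) * S)` with `S` in the class. -/
def PT (a c : ℂ) (f : L1) : Prop := ∃ S : ℝ → ℂ, BVC S ∧ ∀ᵐ t ∂mu0,
  f t = c * ((t:ℂ)^(a-1) + ∫ s in (0:ℝ)..t, ((t - s : ℝ):ℂ)^(a-1) * S s)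

lemma bvc_bound {S : ℝ → ℂ} (hS : BVC S) : ∃ M : ℝ, 0 ≤ M ∧ ∀ t ∈ Icc (0:ℝ) (1/2), ‖S t‖ ≤ M := by
  obtain ⟨C, hC⟩ := hS
  have h1 := hC (1/2) ⟨by norm_num, by norm_num⟩
  have h2 : BoundedVariationOn S (Icc 0 (1 - 1/2)) := ne_top_of_le_ne_top ENNReal.ofReal_ne_top h1
  rw [show (1:ℝ) - 1/2 = 1/2 by norm_num] at h2
  refine ⟨‖S 0‖ + (eVariationOn S (Icc 0 (1/2))).toReal, by positivity, fun t ht => ?_⟩
  exact bv_bound (by norm_num) h2 ht

lemma norm_frac_le {a : ℂ} (ha : 0 < a.re) {S : ℝ → ℂ} {M : ℝ}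
    (hM : ∀ t ∈ Icc (0:ℝ) (1/2), ‖S t‖ ≤ M) {t : ℝ} (ht : t ∈ Ioc (0:ℝ) (1/2)) :
    ‖∫ s in (0:ℝ)..t, ((t - s : ℝ):ℂ)^(a-1) * S s‖ ≤ M * (t ^ a.re / a.re) := by
  have e1 : ∫ s in (0:ℝ)..t, (t - s) ^ (a.re - 1) * M = M * (t ^ a.re / a.re) := by
    rw [intervalIntegral.integral_mul_const,
      intervalIntegral.integral_comp_sub_left (fun x : ℝ => x ^ (a.re - 1)) t, sub_self, sub_zero,
      integral_rpow (Or.inl (by linarith)), sub_add_cancel, Real.zero_rpow ha.ne', sub_zero,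
      mul_comm]
  rw [← e1]
  apply intervalIntegral.norm_integral_le_of_norm_le ht.1.le
  · filter_upwards [ae_ne t] with s hs hs2
    have hpos : 0 < t - s := by
      rcases lt_or_eq_of_le hs2.2 with h | h
      · linarith
      · exact absurd h hs
    rw [norm_mul, Complex.norm_cpow_eq_rpow_re_of_pos hpos, Complex.sub_re, Complex.one_re]
    exact mul_le_mul_of_nonneg_left (hM s ⟨hs2.1.le, hs2.2.trans ht.2⟩) (by positivity)
  · have h1 : IntervalIntegrable (fun x : ℝ => x ^ (a.re - 1)) volume (t - 0) (t - t) :=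
      intervalIntegral.intervalIntegrable_rpow' (by linarith)
    have h2 := h1.comp_sub_left t
    simp only [sub_sub_cancel] at h2
    exact h2.mul_const M

/-- the filter of almost every point near `0+` -/
noncomputable def zf : Filter ℝ := 𝓝[>] (0:ℝ) ⊓ ae volume

instance : NeBot zf := by
  rw [zf, inf_neBot_iff]
  intro s hs s' hs'
  obtain ⟨e, he, hsub⟩ := mem_nhdsGT_iff_exists_Ioo_subset.1 hs
  have he' : (0:ℝ) < e := he
  by_contra hne
  rw [not_nonempty_iff_eq_empty] at hne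
  have h1 : Ioo 0 e ⊆ s'ᶜ := by
    intro x hx hx2
    have : x ∈ s ∩ s' := ⟨hsub hx, hx2⟩
    rw [hne] at this
    exact this
  have h2 : volume (Ioo (0:ℝ) e) = 0 := measure_mono_null h1 hs'
  rw [Real.volume_Ioo, sub_zero, ENNReal.ofReal_eq_zero] at h2
  linarith

lemma tendsto_scale {r : ℝ} (hr : 0 < r) : Tendsto (fun t => r * t) zf zf := by
  rw [zf, tendsto_inf]
  constructor
  · refine Tendsto.mono_left ?_ inf_le_left
    apply tendsto_nhdsWithin_of_tendsto_nhds_of_eventually_within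
    · have : Tendsto (fun t : ℝ => r * t) (𝓝 0) (𝓝 (r * 0)) := by
        exact (continuous_const.mul continuous_id).tendsto 0
      rw [mul_zero] at this
      exact this.mono_left nhdsWithin_le_nhds
    · filter_upwards [self_mem_nhdsWithin] with t ht
      exact mul_pos hr ht
  · refine Tendsto.mono_left ?_ inf_le_right
    intro s hs
    rw [mem_map, mem_ae_iff]
    have h1 : volume sᶜ = 0 := hs
    have h2 := Real.volume_preimage_mul_left hr.ne' sᶜ
    rw [h1, mul_zero] at h2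
    exact h2

lemma tendsto_lead {a c : ℂ} (ha : 0 < a.re) {f : L1} (hf : PT a c f) :
    Tendsto (fun t : ℝ => f t * (t:ℂ)^(1-a)) zf (𝓝 c) := by
  obtain ⟨S, hS, h⟩ := hf
  obtain ⟨M, hM0, hM⟩ := bvc_bound hS
  have h' : ∀ᵐ t : ℝ, t ∈ Icc (0:ℝ) 1 →
      f t = c * ((t:ℂ)^(a-1) + ∫ s in (0:ℝ)..t, ((t - s : ℝ):ℂ)^(a-1) * S s) :=
    (ae_restrict_iff' measurableSet_Icc).1 h
  rw [tendsto_iff_norm_sub_tendsto_zero]
  have hb : Tendsto (fun t : ℝ => ‖c‖ * (M / a.re) * t) zf (𝓝 0) := by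
    have h1 : Tendsto (fun t : ℝ => ‖c‖ * (M / a.re) * t) (𝓝 0) (𝓝 (‖c‖ * (M / a.re) * 0)) :=
      (continuous_const.mul continuous_id).tendsto 0
    rw [mul_zero] at h1
    exact h1.mono_left (inf_le_left.trans nhdsWithin_le_nhds)
  refine tendsto_of_tendsto_of_tendsto_of_le_of_le' tendsto_const_nhds hb
    (Eventually.of_forall fun _ => norm_nonneg _) ?_
  have h1 : ∀ᶠ t in zf, t ∈ Ioo (0:ℝ) (1/2) := by
    apply mem_inf_of_left
    exact Ioo_mem_nhdsGT (by norm_num)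
  have h2 : ∀ᶠ t in zf, t ∈ Icc (0:ℝ) 1 →
      f t = c * ((t:ℂ)^(a-1) + ∫ s in (0:ℝ)..t, ((t - s : ℝ):ℂ)^(a-1) * S s) :=
    mem_inf_of_right h'
  filter_upwards [h1, h2] with t ht ht2
  have h3 := ht2 ⟨ht.1.le, by linarith [ht.2]⟩
  have h4 := norm_frac_le ha hM (t := t) ⟨ht.1, ht.2.le⟩
  set E := ∫ s in (0:ℝ)..t, ((t - s : ℝ):ℂ)^(a-1) * S s with hE
  have ht0 : (t:ℂ) ≠ 0 := by exact_mod_cast ht.1.ne'
  have h5 : (t:ℂ)^(a-1) * (t:ℂ)^(1-a) = 1 := by
    rw [← Complex.cpow_add _ _ ht0]; simp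
  have h6 : f t * (t:ℂ)^(1-a) - c = c * (E * (t:ℂ)^(1-a)) := by
    rw [h3]
    linear_combination c * h5
  rw [h6, norm_mul, norm_mul, Complex.norm_cpow_eq_rpow_re_of_pos ht.1, Complex.sub_re,
    Complex.one_re]
  have h7 : t ^ a.re * t ^ (1 - a.re) = t := by
    rw [← Real.rpow_add ht.1]; simp
  calc ‖c‖ * (‖E‖ * t ^ (1 - a.re)) ≤ ‖c‖ * ((M * (t ^ a.re / a.re)) * t ^ (1 - a.re)) := by
        gcongr
        exact Real.rpow_nonneg ht.1.le _
    _ = ‖c‖ * (M / a.re) * (t ^ a.re * t ^ (1 - a.re)) := by ring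
    _ = _ := by rw [h7]

/-- **Exponent and constant are determined.** -/
theorem pt_unique {a b c d : ℂ} (ha : 0 < a.re) (hb : 0 < b.re) (hc : c ≠ 0) (hd : d ≠ 0) {f : L1}
    (h1 : PT a c f) (h2 : PT b d f) : a = b ∧ c = d := by
  have t1 := tendsto_lead ha h1
  have t2 := tendsto_lead hb h2
  have hpos : ∀ᶠ t in zf, (0:ℝ) < t := mem_inf_of_left self_mem_nhdsWithin
  -- the quotient
  have t3 : Tendsto (fun t : ℝ => (t:ℂ)^(a-b)) zf (𝓝 (d / c)) := by
    refine (t2.div t1 hc).congr' ?_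
    have hne : ∀ᶠ t in zf, f t * (t:ℂ)^(1-a) ≠ 0 := t1.eventually_ne hc
    filter_upwards [hpos, hne] with t ht ht2
    have ht0 : (t:ℂ) ≠ 0 := by exact_mod_cast ht.ne'
    have hf0 : f t ≠ 0 := left_ne_zero_of_mul ht2
    change (f t * (t:ℂ)^(1-b)) / (f t * (t:ℂ)^(1-a)) = (t:ℂ)^(a-b)
    rw [mul_div_mul_left _ _ hf0, ← Complex.cpow_sub _ _ ht0]
    congr 1; ring
  have hdc : d / c ≠ 0 := div_ne_zero hd hc
  have key : ∀ r : ℝ, 0 < r → (r:ℂ)^(a-b) = 1 := by
    intro r hr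
    have t4 := t3.comp (tendsto_scale hr)
    have t5 : Tendsto (fun t : ℝ => (r:ℂ)^(a-b) * (t:ℂ)^(a-b)) zf (𝓝 ((r:ℂ)^(a-b) * (d / c))) :=
      t3.const_mul _
    have t6 : Tendsto (fun t : ℝ => (r:ℂ)^(a-b) * (t:ℂ)^(a-b)) zf (𝓝 (d / c)) := by
      refine t4.congr' ?_
      filter_upwards [hpos] with t ht
      simp only [Function.comp]
      rw [Complex.ofReal_mul, Complex.mul_cpow_ofReal_nonneg hr.le ht.le]
    have := tendsto_nhds_unique t5 t6
    exact mul_right_cancel₀ hdc (by rw [this, one_mul])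
  have hab : a - b = 0 := by
    by_contra hne
    set w := a - b with hw
    have hw0 : 0 < ‖w‖ := norm_pos_iff.2 hne
    set x : ℝ := 1 / ‖w‖ with hx
    have h3 := key (Real.exp x) (Real.exp_pos x)
    rw [Complex.cpow_def_of_ne_zero (by exact_mod_cast (Real.exp_pos x).ne'),
      ← Complex.ofReal_log (Real.exp_pos x).le, Real.log_exp, Complex.exp_eq_one_iff] at h3
    obtain ⟨n, hn⟩ := h3
    have h4 : ‖(x:ℂ) * w‖ = 1 := by
      rw [norm_mul, Complex.norm_real, Real.norm_eq_abs, abs_of_pos (by positivity), hx]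
      field_simp
    have h5 : ‖(2 * (Real.pi : ℂ)) * Complex.I‖ = 2 * Real.pi := by
      rw [norm_mul, Complex.norm_I, mul_one, norm_mul, Complex.norm_real, Real.norm_eq_abs,
        abs_of_pos Real.pi_pos]
      simp
    rw [hn, norm_mul, h5, Complex.norm_intCast] at h4
    rcases eq_or_ne n 0 with h6 | h6
    · rw [h6] at h4; simp at h4
    · have h7 : (1:ℝ) ≤ |(n:ℝ)| := by exact_mod_cast Int.one_le_abs h6
      have := Real.pi_gt_three
      nlinarith
  have hab' : a = b := sub_eq_zero.1 hab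
  refine ⟨hab', ?_⟩
  subst hab'
  exact tendsto_nhds_unique t1 t2

end L1

end Volt
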