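import Pool.Agent.Helper56.Volt.Conc
import Pool.Agent.Helper56.Volt.AbsPairs

/-!
Density of polynomials.
-/

set_option linter.deprecated false

namespace Volt

open MeasureTheory Set Filter Topology

namespace L1

/-- the closure of the polynomials -/
noncomputable def clP : Submodule ℂ L1 :=
  (Submodule.span ℂ (Set.range fun j : ℕ => (vd.U ^ j) vd.u)).topologicalClosure

lemma rep_X_pow (j : ℕ) (f : L1) : rep ((X ^ j) f) =ᵐ[volume] fun t => (t:ℂ) ^ j * rep f t := by
  induction j with
  | zero => simp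
  | succ j ih =>
    rw [pow_succ' X, ContinuousLinearMap.mul_apply]
    filter_upwards [rep_X ((X ^ j) f), ih] with t h1 h2
    rw [h1]
    by_cases ht : t ∈ Ico (0:ℝ) 1
    · rw [Wf_apply_mem _ _ _ ht, sub_zero, wX_m, h2]; ring
    · rw [Wf_apply_notMem _ _ _ ht, sup_rep f t ht]; ring

lemma X_pow_mem (j : ℕ) : (X ^ j) u ∈ clP := by
  have h := vd.X_pow_u j
  change (X ^ j) u = _ at h
  rw [h]
  apply clP.smul_mem
  apply Submodule.le_topologicalClosure
  exact Submodule.subset_span ⟨j, rfl⟩

/-- the class of a polynomial -/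
noncomputable def pc (p : Polynomial ℂ) : L1 := (Polynomial.aeval X p) u

lemma pc_mem (p : Polynomial ℂ) : pc p ∈ clP := by
  unfold pc
  rw [Polynomial.aeval_eq_sum_range]
  simp only [ContinuousLinearMap.sum_apply, ContinuousLinearMap.smul_apply]
  exact clP.sum_mem fun i _ => clP.smul_mem _ (X_pow_mem i)

lemma rep_pc (p : Polynomial ℂ) : rep (pc p) =ᵐ[volume]
    (Ico (0:ℝ) 1).indicator (fun t => p.eval (t:ℂ)) := by
  induction p using Polynomial.induction_on' with
  | add p q hp hq =>
    have e : pc (p + q) = pc p + pc q := by simp [pc]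
    rw [e]
    filter_upwards [rep_add (pc p) (pc q), hp, hq] with t h1 h2 h3
    rw [h1, h2, h3]
    by_cases ht : t ∈ Ico (0:ℝ) 1
    · simp only [indicator_of_mem ht]; simp
    · simp only [indicator_of_notMem ht]; simp
  | monomial n a =>
    have e : pc (Polynomial.monomial n a) = a • (X ^ n) u := by
      rw [pc, Polynomial.aeval_monomial]
      simp
    rw [e]
    filter_upwards [rep_smul a ((X ^ n) u), rep_X_pow n u, rep_u] with t h1 h2 h3
    rw [h1, h2, h3]
    by_cases ht : t ∈ Ico (0:ℝ) 1
    · rw [indicator_of_mem ht, uf_mem ht]; simp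
    · rw [indicator_of_notMem ht, uf_notMem ht]; simp

lemma span_dense :
    (Submodule.span ℂ (Set.range fun j : ℕ => (vd.U ^ j) vd.u)).topologicalClosure = ⊤ := by
  rw [eq_top_iff]
  intro f _
  change f ∈ clP
  have hcl : IsClosed (clP : Set L1) := Submodule.isClosed_topologicalClosure _
  rw [← SetLike.mem_coe, ← hcl.closure_eq, Metric.mem_closure_iff]
  intro ε hε
  have hm : MemLp (rep f) 1 volume := memLp_one_iff_integrable.2 (integrable_rep f)
  obtain ⟨g, hg1, hg2, hg3⟩ := hm.exist_eLpNorm_sub_le (by simp) le_rfl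
    (show 0 < ε / 4 by positivity)
  have hgi : Integrable g := hg2.continuous.integrable_of_hasCompactSupport hg1
  have hgc := hg2.continuous
  obtain ⟨p, hp⟩ := exists_polynomial_near_of_continuousOn 0 1 (fun t => (g t).re)
    (Complex.continuous_re.comp hgc).continuousOn (ε / 4) (by positivity)
  obtain ⟨q, hq⟩ := exists_polynomial_near_of_continuousOn 0 1 (fun t => (g t).im)
    (Complex.continuous_im.comp hgc).continuousOn (ε / 4) (by positivity)
  set P' : Polynomial ℂ := p.map Complex.ofRealHom + Polynomial.C Complex.I * q.map Complex.ofRealHom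
    with hP'
  refine ⟨pc P', pc_mem P', ?_⟩
  have hev : ∀ t : ℝ, P'.eval (t:ℂ) = ((p.eval t : ℝ) : ℂ) + Complex.I * ((q.eval t : ℝ) : ℂ) := by
    intro t
    rw [hP', Polynomial.eval_add, Polynomial.eval_mul, Polynomial.eval_C]
    have h1 : ∀ r : Polynomial ℝ, (r.map Complex.ofRealHom).eval (t:ℂ) = ((r.eval t : ℝ) : ℂ) := by
      intro r
      have := Polynomial.eval_map_apply (f := Complex.ofRealHom) (p := r) t
      simpa using this
    rw [h1, h1]
  have hclose : ∀ t ∈ Icc (0:ℝ) 1, ‖g t - P'.eval (t:ℂ)‖ ≤ ε / 2 := by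
    intro t ht
    rw [hev]
    have h1 := (hp t ht).le
    have h2 := (hq t ht).le
    have e : g t - (((p.eval t : ℝ) : ℂ) + Complex.I * ((q.eval t : ℝ) : ℂ))
        = (((g t).re - p.eval t : ℝ) : ℂ) + Complex.I * (((g t).im - q.eval t : ℝ) : ℂ) := by
      conv_lhs => rw [← Complex.re_add_im (g t)]
      push_cast; ring
    rw [e]
    refine (norm_add_le _ _).trans ?_
    rw [norm_mul, Complex.norm_I, one_mul, Complex.norm_real, Complex.norm_real, Real.norm_eq_abs,
      Real.norm_eq_abs, abs_sub_comm, abs_sub_comm (g t).im]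
    linarith
  rw [dist_eq_norm, norm_eq]
  have hi2 : Integrable ((Ico (0:ℝ) 1).indicator (fun _ => ε / 2)) := by
    rw [integrable_indicator_iff measurableSet_Ico]
    exact integrableOn_const (by simp) (by simp)
  have e1 : ∫ t, ‖rep (f - pc P') t‖
      ≤ ∫ t, (‖rep f t - g t‖ + (Ico (0:ℝ) 1).indicator (fun _ => ε / 2) t) := by
    have hadd : Integrable (fun t => ‖rep f t - g t‖ + (Ico (0:ℝ) 1).indicator (fun _ => ε / 2) t) :=
      ((integrable_rep f).sub hgi).norm.add hi2
    apply integral_mono_ae (integrable_rep _).norm hadd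
    filter_upwards [rep_sub f (pc P'), rep_pc P'] with t h1 h2
    simp only [h1, h2]
    by_cases ht : t ∈ Ico (0:ℝ) 1
    · rw [indicator_of_mem ht, indicator_of_mem ht]
      calc ‖rep f t - P'.eval (t:ℂ)‖ = ‖(rep f t - g t) + (g t - P'.eval (t:ℂ))‖ := by
            rw [sub_add_sub_cancel]
        _ ≤ _ := (norm_add_le _ _).trans (by
            have := hclose t (Ico_subset_Icc_self ht)
            linarith)
    · rw [indicator_of_notMem ht, indicator_of_notMem ht, sup_rep f t ht]; simp
  have e2 : ∫ t, ‖rep f t - g t‖ ≤ ε / 4 := by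
    rw [eLpNorm_one_eq_lintegral_enorm, ← ofReal_integral_norm_eq_lintegral_enorm
      ((integrable_rep f).sub hgi)] at hg3
    exact (ENNReal.ofReal_le_ofReal_iff (by positivity)).1 hg3
  have hn : Integrable (fun t => ‖rep f t - g t‖) := ((integrable_rep f).sub hgi).norm
  rw [integral_add hn hi2, integral_indicator measurableSet_Ico] at e1
  have e3 : ∫ _ in Ico (0:ℝ) 1, ε / 2 = ε / 2 := by simp
  rw [e3] at e1
  linarith

end L1

end Volt
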