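import Pool.Agent.Helper56.Volt.Conc2

/-!
Power functions `t^(a-1)` in `L¹[0,1]` and the concrete form of `g = v + v * R`.
-/

set_option linter.deprecated false

namespace Volt

open MeasureTheory Set Filter Topology

namespace L1

/-- the function `t^(a-1)` on `[0,1)` -/
noncomputable def powf (a : ℂ) : ℝ → ℂ := (Ico (0:ℝ) 1).indicator (fun t => (t:ℂ)^(a-1))

lemma powf_integrable {a : ℂ} (ha : 0 < a.re) : Integrable (powf a) := by
  rw [powf, integrable_indicator_iff measurableSet_Ico]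
  have h1 : IntervalIntegrable (fun x : ℝ => (x:ℂ)^(a-1)) volume 0 1 :=
    intervalIntegral.intervalIntegrable_cpow' (by simpa using ha)
  rw [intervalIntegrable_iff_integrableOn_Icc_of_le zero_le_one] at h1
  exact h1.mono_set Ico_subset_Icc_self

open Classical in
/-- the class of `t^(a-1)` (junk value `0` if `Re a ≤ 0`) -/
noncomputable def vp (a : ℂ) : L1 := if h : 0 < a.re then mk (powf a) (powf_integrable h) else 0

lemma rep_vp {a : ℂ} (ha : 0 < a.re) : rep (vp a) =ᵐ[volume] powf a := by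
  rw [vp, dif_pos ha]
  refine (rep_mk _ _).trans (Eventually.of_forall fun t => ?_)
  simp only [powf, indicator]
  split_ifs <;> rfl

lemma powf_mem {a : ℂ} {t : ℝ} (ht : t ∈ Ico (0:ℝ) 1) : powf a t = (t:ℂ)^(a-1) :=
  indicator_of_mem ht _

lemma powf_notMem {a : ℂ} {t : ℝ} (ht : t ∉ Ico (0:ℝ) 1) : powf a t = 0 :=
  indicator_of_notMem ht _

lemma coe_vp {a : ℂ} (ha : 0 < a.re) : ∀ᵐ t ∂mu0, vp a t = (t:ℂ)^(a-1) := by
  have h1 : ∀ᵐ t ∂mu0, rep (vp a) t = powf a t := ae_restrict_of_ae (rep_vp ha)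
  filter_upwards [coe_ae_rep (vp a), h1, ae_mu0_Ico] with t h2 h3 h4
  rw [h2, h3, powf_mem h4]

lemma eq_vp {a : ℂ} (ha : 0 < a.re) {v : L1} (h : ∀ᵐ t ∂mu0, v t = (t:ℂ)^(a-1)) : v = vp a := by
  apply Lp.ext
  filter_upwards [h, coe_vp ha] with t h1 h2
  rw [h1, h2]

/-- **The differential equation of the power functions.** -/
theorem X_vp {a : ℂ} (ha : 0 < a.re) : X (vp a) = a • (u * vp a) := by
  have ha0 : a ≠ 0 := by
    rintro rfl
    simp at ha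
  apply ext_rep
  refine (rep_X (vp a)).trans ?_
  filter_upwards [rep_smul a (u * vp a), rep_u_mul (vp a), rep_vp ha, ae_ne 0] with t h1 h2 h3 h4
  rw [h1, h2]
  by_cases ht : t ∈ Ico (0:ℝ) 1
  · rw [Wf_apply_mem _ _ _ ht, sub_zero, wX_m, h3, powf_mem ht, indicator_of_mem ht,
      intervalIntegral_congr_ae' (rep_vp ha)]
    have e1 : ∫ r in (0:ℝ)..t, powf a r = ∫ r in (0:ℝ)..t, (r:ℂ)^(a-1) := by
      apply intervalIntegral.integral_congr
      intro r hr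
      rw [uIcc_of_le ht.1] at hr
      exact powf_mem ⟨hr.1, hr.2.trans_lt ht.2⟩
    rw [e1, integral_cpow (Or.inl (by simpa using ha)), sub_add_cancel, Complex.ofReal_zero,
      Complex.zero_cpow ha0, sub_zero]
    have h5 : (t:ℂ) ≠ 0 := by exact_mod_cast h4
    rw [Complex.cpow_sub _ _ h5, Complex.cpow_one]
    field_simp
  · rw [Wf_apply_notMem _ _ _ ht, indicator_of_notMem ht, mul_zero]

/-- the concrete convolution with a local function -/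
lemma cv_loc {R : ℕ → L1} {Rf : ℝ → ℂ} (hR : Loc Rf R) (v : L1) (n : ℕ) {t : ℝ}
    (ht : t ∈ Ico 0 (al n)) :
    ∫ s in (0:ℝ)..t, v (t - s) * Rf s = cv (rep v) (rep (R n)) t := by
  rw [cv_comm, cv_interval (fun _ => (sup_rep _).lt) (fun _ => (sup_rep _).lt) ht.1]
  apply intervalIntegral.integral_congr_ae
  filter_upwards [hR n] with s h1 hs
  rw [uIoc_of_le ht.1] at hs
  have h2 : t - s ∈ Ico (0:ℝ) 1 :=
    ⟨by linarith [hs.2], by linarith [hs.1, ht.2, al_lt_one n]⟩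
  have h3 : rep v (t - s) = v (t - s) := indicator_of_mem h2 _
  rw [h1 ⟨hs.1.le, hs.2.trans_lt ht.2⟩, h3, mul_comm]

/-- translation of the equation `g = v + v * R` -/
lemma eqnv_iff {R : ℕ → L1} {Rf : ℝ → ℂ} (hR : Loc Rf R) (v g : L1) :
    (∀ n, P (al n) g = P (al n) (v + v * R n)) ↔
      ∀ᵐ t ∂mu0, g t = v t + ∫ s in (0:ℝ)..t, v (t - s) * Rf s := by
  have hrhs : ∀ n, ∀ᵐ t, t ∈ Ico 0 (al n) →
      rep (v + v * R n) t = v t + ∫ s in (0:ℝ)..t, v (t - s) * Rf s := by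
    intro n
    filter_upwards [rep_add v (v * R n), rep_conv v (R n)] with t h1 h2 h4
    have h5 : t ∈ Ico (0:ℝ) 1 := ⟨h4.1, h4.2.trans (al_lt_one n)⟩
    have h3 : rep v t = v t := indicator_of_mem h5 _
    have h6 : rep (v * R n) t = (Ico (0:ℝ) 1).indicator (cv (rep v) (rep (R n))) t := h2
    rw [h1, h6, indicator_of_mem h5, h3, cv_loc hR v n h4]
  constructor
  · intro h
    have h1 : ∀ᵐ t, ∀ n, t ∈ Ico 0 (al n) →
        rep g t = v t + ∫ s in (0:ℝ)..t, v (t - s) * Rf s := by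
      rw [ae_all_iff]
      intro n
      filter_upwards [hrhs n, P_eq_iff.1 (h n)] with t h2 h3 h4
      rw [h3 h4.2, h2 h4]
    filter_upwards [coe_ae_rep g, ae_restrict_of_ae h1, ae_mu0_Ico] with t h2 h3 h4
    obtain ⟨n, hn⟩ := (al_tendsto.eventually (lt_mem_nhds h4.2)).exists
    rw [h2, h3 n ⟨h4.1, hn⟩]
  · intro h n
    rw [P_eq_iff]
    have h1 : ∀ᵐ t, t ∈ Icc (0:ℝ) 1 → g t = v t + ∫ s in (0:ℝ)..t, v (t - s) * Rf s :=
      (ae_restrict_iff' measurableSet_Icc).1 h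
    filter_upwards [hrhs n, h1] with t h2 h3 h4
    by_cases h5 : 0 ≤ t
    · have h6 : t ∈ Ico (0:ℝ) 1 := ⟨h5, h4.trans (al_lt_one n)⟩
      rw [h2 ⟨h5, h4⟩, ← h3 (Ico_subset_Icc_self h6), rep, indicator_of_mem h6]
    · rw [(sup_rep g).lt (not_le.1 h5), (sup_rep _).lt (not_le.1 h5)]

/-- **Concrete form of `g = v + v * R`**, `R` in the class. -/
theorem fam_iff (v g : L1) :
    (∃ (R : ℕ → L1) (K : ℝ), vd.RFam R K ∧ ∀ n, P (al n) g = P (al n) (v + v * R n)) ↔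
    ∃ Rf : ℝ → ℂ, BVC Rf ∧ ∀ᵐ t ∂mu0, g t = v t + ∫ s in (0:ℝ)..t, v (t - s) * Rf s := by
  constructor
  · rintro ⟨R, K, hR, hg⟩
    obtain ⟨Rf, h1, h2⟩ := exists_bv hR
    exact ⟨Rf, ⟨2 * K, h1⟩, (eqnv_iff h2 v g).1 hg⟩
  · rintro ⟨Rf, ⟨C, h1⟩, h2⟩
    obtain ⟨R, K, hR, h3⟩ := of_bv h1
    exact ⟨R, K, hR, (eqnv_iff h3 v g).2 h2⟩

/-- **Concrete form for the power functions.** -/
theorem fam_vp_iff {a : ℂ} (ha : 0 < a.re) (g : L1) :
    (∃ (R : ℕ → L1) (K : ℝ), vd.RFam R K ∧ ∀ n, P (al n) g = P (al n) (vp a + vp a * R n)) ↔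
    ∃ Rf : ℝ → ℂ, BVC Rf ∧ ∀ᵐ t ∂mu0,
      g t = (t:ℂ)^(a-1) + ∫ s in (0:ℝ)..t, ((t - s : ℝ):ℂ)^(a-1) * Rf s := by
  rw [fam_iff]
  have hv : ∀ᵐ r : ℝ, r ∈ Icc (0:ℝ) 1 → vp a r = (r:ℂ)^(a-1) :=
    (ae_restrict_iff' measurableSet_Icc).1 (coe_vp ha)
  have hconv : ∀ (Rf : ℝ → ℂ) (t : ℝ), t ∈ Ico (0:ℝ) 1 →
      ∫ s in (0:ℝ)..t, vp a (t - s) * Rf s = ∫ s in (0:ℝ)..t, ((t - s : ℝ):ℂ)^(a-1) * Rf s := by
    intro Rf t ht
    apply intervalIntegral.integral_congr_ae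
    filter_upwards [ae_reflect hv t] with s h1 hs
    rw [uIoc_of_le ht.1] at hs
    rw [h1 ⟨by linarith [hs.2], by linarith [hs.1, ht.2]⟩]
  constructor
  · rintro ⟨Rf, h1, h2⟩
    refine ⟨Rf, h1, ?_⟩
    filter_upwards [h2, coe_vp ha, ae_mu0_Ico] with t h3 h4 h5
    rw [h3, h4, hconv Rf t h5]
  · rintro ⟨Rf, h1, h2⟩
    refine ⟨Rf, h1, ?_⟩
    filter_upwards [h2, coe_vp ha, ae_mu0_Ico] with t h3 h4 h5
    rw [h3, h4, hconv Rf t h5]

end L1

end Volt
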