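import Pool.Agent.Helper56.Volt.Mult

/-!
Multipliers from `L¹`-Lipschitz elements, resolvents, uniqueness.
-/

set_option linter.unusedSectionVars false
set_option linter.deprecated false

namespace Volt

open Filter Topology

variable {A : Type*} [NonUnitalNormedCommRing A] [NormedSpace ℂ A] [IsScalarTower ℂ A A]
  [SMulCommClass ℂ A A]

namespace VD

variable (V : VD A)

/-- `L¹`-Lipschitz bound at level `a`. -/
def Lip (a K : ℝ) (N : A) : Prop := ∀ᶠ h in 𝓝[>] (0:ℝ), ‖V.P a (N - V.S h N)‖ ≤ K * h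

lemma IsMul.norm_le_of_lip {a K : ℝ} {C : A →L[ℂ] A} (hC : V.IsMul a C) {N : A}
    (hN : C V.u = V.P a N) (hL : V.Lip a K N) (f : A) : ‖C f‖ ≤ K * ‖f‖ := by
  refine IsMul.norm_le_of_e V hC (Eventually.frequently ?_) f
  filter_upwards [hL, self_mem_nhdsWithin] with h hh hpos
  have hpos' : (0:ℝ) < h := hpos
  have h1 : C (V.e h) = ((h⁻¹ : ℝ) : ℂ) • V.P a (N - V.S h N) := by
    rw [e, map_smul, ← V.u_sub h hpos'.le, map_sub, hC.apply_S hpos'.le, hN, map_sub]
    congr 2
    rw [V.P_S a h hpos'.le, V.P_S a h hpos'.le, V.P_P_le (by linarith)]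
  rw [h1, norm_smul]
  simp only [Complex.norm_real, Real.norm_eq_abs, abs_inv, abs_of_pos hpos']
  calc h⁻¹ * ‖V.P a (N - V.S h N)‖ ≤ h⁻¹ * (K * h) := by gcongr
    _ = K := by field_simp

lemma denseRange_u : DenseRange (LinearMap.mulLeft ℂ V.u : A →ₗ[ℂ] A) := by
  intro f
  have := V.dense f
  exact this

/-- Existence of the multiplier `C` with `C u = N`. -/
lemma exists_isMul [CompleteSpace A] {a K : ℝ} {N : A} (hL : V.Lip a K N) :
    ∃ C : A →L[ℂ] A, V.IsMul a C ∧ C V.u = V.P a N ∧ ∀ f, ‖C f‖ ≤ K * ‖f‖ := by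
  classical
  set F : A →ₗ[ℂ] A := (V.P a).toLinearMap ∘ₗ (LinearMap.mulLeft ℂ N) with hF
  set E : A →ₗ[ℂ] A := LinearMap.mulLeft ℂ V.u with hE
  have hbound : ∀ φ, ‖F φ‖ ≤ K * ‖E φ‖ := by
    intro φ
    have h1 : Tendsto (fun h => ‖V.P a (N * (V.e h * φ))‖) (𝓝[>] 0) (𝓝 ‖V.P a (N * φ)‖) :=
      (((V.P a).continuous.tendsto _).comp ((V.tendsto_e_mul φ).const_mul N)).norm
    refine le_of_tendsto h1 ?_
    filter_upwards [hL, self_mem_nhdsWithin] with h hh hpos
    have hpos' : (0:ℝ) < h := hpos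
    have h2 : N * (V.e h * φ) = ((h⁻¹ : ℝ) : ℂ) • ((N - V.S h N) * (V.u * φ)) := by
      rw [V.e_mul h hpos'.le, mul_smul_comm, mul_sub, sub_mul, mul_comm N (V.S h (V.u * φ)),
        ← V.S_mul h hpos'.le, ← V.S_mul h hpos'.le, mul_comm N]
    rw [h2, map_smul, norm_smul]
    simp only [Complex.norm_real, Real.norm_eq_abs, abs_inv, abs_of_pos hpos']
    have h3 : ‖V.P a ((N - V.S h N) * (V.u * φ))‖ ≤ (K * h) * ‖V.u * φ‖ := by
      refine (V.norm_P_mul_le _ _ _).trans ?_
      refine mul_le_mul hh (V.norm_P_le _ _) (norm_nonneg _) ?_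
      exact (norm_nonneg _).trans hh
    calc h⁻¹ * ‖V.P a ((N - V.S h N) * (V.u * φ))‖ ≤ h⁻¹ * ((K * h) * ‖V.u * φ‖) := by gcongr
      _ = K * ‖V.u * φ‖ := by field_simp
  have hd : DenseRange E := V.denseRange_u
  set C : A →L[ℂ] A := F.extendOfNorm E with hC
  have hCE : ∀ φ, C (V.u * φ) = V.P a (N * φ) := fun φ =>
    LinearMap.extendOfNorm_eq hd ⟨K, hbound⟩ φ
  have hmul : V.IsMul a C := by
    intro f g
    have h1 : C * ((ContinuousLinearMap.mul ℂ A).flip g)
        = (V.P a) * ((ContinuousLinearMap.mul ℂ A).flip g) * C := by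
      apply V.ext_dense
      intro φ
      simp only [ContinuousLinearMap.mul_apply, ContinuousLinearMap.flip_apply,
        ContinuousLinearMap.mul_apply']
      rw [mul_assoc, hCE, hCE, ← V.P_mul, mul_assoc]
    have h2 := congrArg (fun T : A →L[ℂ] A => T f) h1
    have h3 : C (g * f) = V.P a (g * C f) := by simpa using h2
    rw [mul_comm f g, h3, mul_comm]
  have hCu : C V.u = V.P a N := by
    have h1 : Tendsto (fun h => C (V.u * V.e h)) (𝓝[>] 0) (𝓝 (C V.u)) := by
      have := V.tendsto_e_mul V.u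
      simp_rw [mul_comm _ V.u] at this
      exact (C.continuous.tendsto _).comp this
    have h2 : Tendsto (fun h => C (V.u * V.e h)) (𝓝[>] 0) (𝓝 (V.P a N)) := by
      have := ((V.P a).continuous.tendsto _).comp (V.tendsto_e_mul N)
      refine this.congr ?_
      intro h
      simp only [Function.comp_apply]
      rw [hCE, mul_comm]
    exact tendsto_nhds_unique h1 h2
  exact ⟨C, hmul, hCu, fun f => IsMul.norm_le_of_lip V hmul hCu hL f⟩

/-- a multiplier is determined by its value at `u` -/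
lemma IsMul.ext_u {a : ℝ} {C C' : A →L[ℂ] A} (hC : V.IsMul a C) (hC' : V.IsMul a C')
    (h : C V.u = C' V.u) : C = C' := by
  apply V.ext_dense
  intro g
  rw [hC, hC', h]

/-- splitting of the truncated product -/
lemma norm_P_mul_split (a : ℝ) (f g : A) :
    ‖V.P a (f * g)‖ ≤ ‖V.P (1/2) f‖ * ‖V.P a g‖ + ‖V.P a f‖ * ‖V.P (1/2) g‖ := by
  rw [V.P_mul, V.P_mul_right]
  set f' := V.P a f
  set g' := V.P a g
  have hf1 : ‖V.P (1/2) f'‖ ≤ ‖V.P (1/2) f‖ := by
    rw [V.P_P, min_comm, ← V.P_P]; exact V.norm_P_le _ _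
  have hg1 : ‖V.P (1/2) g'‖ ≤ ‖V.P (1/2) g‖ := by
    rw [V.P_P, min_comm, ← V.P_P]; exact V.norm_P_le _ _
  set f₂ := f' - V.P (1/2) f'
  set g₂ := g' - V.P (1/2) g'
  have hf2 : V.P (1/2) f₂ = 0 := by simp only [f₂, map_sub, V.P_idem, sub_self]
  have hg2 : V.P (1/2) g₂ = 0 := by simp only [g₂, map_sub, V.P_idem, sub_self]
  have h0 : f₂ * g₂ = 0 := by
    rw [← V.eq_S_of_P_eq_zero (by norm_num : (0:ℝ) ≤ 1/2) hf2,
      ← V.eq_S_of_P_eq_zero (by norm_num : (0:ℝ) ≤ 1/2) hg2, ← V.S_mul _ (by norm_num), mul_comm,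
      ← V.S_mul _ (by norm_num), ← V.S_add _ _ (by norm_num) (by norm_num)]
    exact V.S_one _ (by norm_num) _
  have hsum : f' * g' = V.P (1/2) f' * g' + f₂ * V.P (1/2) g' := by
    have e1 : f' = V.P (1/2) f' + f₂ := by simp only [f₂]; abel
    have e2 : g' = V.P (1/2) g' + g₂ := by simp only [g₂]; abel
    calc f' * g' = V.P (1/2) f' * g' + f₂ * g' := by
          conv_lhs => rw [e1]
          rw [add_mul]
      _ = V.P (1/2) f' * g' + f₂ * V.P (1/2) g' := by
          congr 1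
          conv_lhs => rw [e2]
          rw [mul_add, h0, add_zero]
  refine (V.norm_P_le _ _).trans ?_
  rw [hsum]
  refine (norm_add_le _ _).trans (add_le_add ?_ ?_)
  · exact (norm_mul_le _ _).trans (mul_le_mul_of_nonneg_right hf1 (norm_nonneg _))
  · refine (norm_mul_le _ _).trans (mul_le_mul ?_ hg1 (norm_nonneg _) (norm_nonneg _))
    exact V.norm_sub_P_le _ _

/-- convolution with `u` as an operator -/
noncomputable def U : A →L[ℂ] A := ContinuousLinearMap.mul ℂ A V.u

lemma U_apply (f : A) : V.U f = V.u * f := rfl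

lemma norm_u : ‖V.u‖ = 1 := by
  rw [← V.P_one_le 1 le_rfl V.u]; exact V.norm_Pu 1 zero_le_one le_rfl

lemma X_U_pow_u (j : ℕ) : V.X ((V.U ^ j) V.u) = ((j:ℂ) + 1) • (V.U ^ (j+1)) V.u := by
  induction j with
  | zero => simp [V.X_u, U_apply]
  | succ j ih =>
    rw [pow_succ', ContinuousLinearMap.mul_apply, U_apply, V.X_mul, ih, V.X_u, mul_smul_comm,
      pow_succ' V.U (j+1), ContinuousLinearMap.mul_apply, U_apply, pow_succ' V.U j,
      ContinuousLinearMap.mul_apply, U_apply, mul_assoc]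
    push_cast
    rw [add_smul ((j:ℂ)+1) 1, one_smul]
    abel

lemma X_pow_u (j : ℕ) : (V.X ^ j) V.u = (Nat.factorial j : ℂ) • (V.U ^ j) V.u := by
  induction j with
  | zero => simp
  | succ j ih =>
    rw [pow_succ', ContinuousLinearMap.mul_apply, ih, map_smul, X_U_pow_u, smul_smul,
      Nat.factorial_succ]
    push_cast
    rw [mul_comm]

lemma norm_X_pow_le (j : ℕ) (f : A) : ‖(V.X ^ j) f‖ ≤ ‖f‖ := by
  induction j with
  | zero => simp
  | succ j ih =>
    rw [pow_succ', ContinuousLinearMap.mul_apply]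
    exact (V.norm_X_le _).trans ih

lemma norm_U_pow_u_le (j : ℕ) : ‖(V.U ^ j) V.u‖ ≤ 1 / (Nat.factorial j : ℝ) := by
  have h1 := V.norm_X_pow_le j V.u
  rw [X_pow_u, norm_smul, norm_u] at h1
  simp only [Complex.norm_natCast] at h1
  have : (0:ℝ) < Nat.factorial j := by exact_mod_cast Nat.factorial_pos j
  rw [le_div_iff₀ this, mul_comm]
  exact h1

lemma U_pow_succ_apply (j : ℕ) (f : A) : (V.U ^ (j+1)) f = (V.U ^ j) V.u * f := by
  induction j with
  | zero => simp [U_apply]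
  | succ j ih =>
    rw [pow_succ', ContinuousLinearMap.mul_apply, ih, U_apply, ← mul_assoc, ← U_apply,
      ← ContinuousLinearMap.mul_apply, ← pow_succ']

lemma norm_U_pow_succ_le (j : ℕ) (f : A) :
    ‖(V.U ^ (j+1)) f‖ ≤ 1 / (Nat.factorial j : ℝ) * ‖f‖ := by
  rw [U_pow_succ_apply]
  exact (norm_mul_le _ _).trans
    (mul_le_mul_of_nonneg_right (V.norm_U_pow_u_le j) (norm_nonneg _))

section quasi

variable {a : ℝ} {C : A →L[ℂ] A} (hC : V.IsMul a C)
include hC

lemma IsMul.pow_succ (j : ℕ) : V.IsMul a (C ^ (j+1)) := by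
  induction j with
  | zero => simpa using hC
  | succ j ih => rw [_root_.pow_succ]; exact ih.mul hC

lemma IsMul.P_mul_pow (j : ℕ) : V.IsMul a (V.P a * C ^ j) := by
  cases j with
  | zero => simpa using V.isMul_P a
  | succ j =>
    have h1 := IsMul.pow_succ V hC j
    have : V.P a * C ^ (j+1) = C ^ (j+1) := by
      ext f; exact h1.P_apply f
    rw [this]; exact h1

lemma IsMul.CU_pow (j : ℕ) (f : A) : ((C * V.U) ^ (j+1)) f = (C ^ (j+1)) ((V.U ^ (j+1)) f) := by
  induction j with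
  | zero => simp
  | succ j ih =>
    have h1 := IsMul.pow_succ V hC j
    rw [_root_.pow_succ', ContinuousLinearMap.mul_apply, ih, _root_.pow_succ' C (j+1),
      ContinuousLinearMap.mul_apply, ContinuousLinearMap.mul_apply, _root_.pow_succ' V.U (j+1),
      ContinuousLinearMap.mul_apply, U_apply, U_apply, h1.mul_apply', hC.apply_P]

lemma IsMul.norm_CU_pow_le (j : ℕ) : ‖(C * V.U) ^ (j+1)‖ ≤ ‖C‖ ^ (j+1) / (Nat.factorial j : ℝ) := by
  refine ContinuousLinearMap.opNorm_le_bound _ (by positivity) ?_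
  intro f
  rw [IsMul.CU_pow V hC]
  refine ((C ^ (j+1)).le_opNorm _).trans ?_
  have h2 : ‖C ^ (j+1)‖ ≤ ‖C‖ ^ (j+1) := norm_pow_le' _ (Nat.succ_pos _)
  calc ‖C ^ (j+1)‖ * ‖(V.U ^ (j+1)) f‖ ≤ ‖C‖ ^ (j+1) * (1 / (Nat.factorial j : ℝ) * ‖f‖) := by
        gcongr
        exact V.norm_U_pow_succ_le j f
    _ = _ := by ring

lemma IsMul.summable_neg_CU_pow [CompleteSpace A] : Summable (fun j => (-(C * V.U)) ^ j) := by
  rw [← summable_nat_add_iff 1]
  apply Summable.of_norm_bounded (g := fun j => ‖C‖ * (‖C‖ ^ j / (Nat.factorial j : ℝ)))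
  · exact (Real.summable_pow_div_factorial ‖C‖).mul_left _
  · intro j
    have h1 := IsMul.norm_CU_pow_le V hC j
    rw [neg_pow]
    have h2 : ‖(-1 : A →L[ℂ] A) ^ (j+1) * (C * V.U) ^ (j+1)‖ ≤ ‖(C * V.U) ^ (j+1)‖ := by
      rcases neg_one_pow_eq_or (A →L[ℂ] A) (j+1) with h | h
      · rw [h, one_mul]
      · rw [h, neg_one_mul, norm_neg]
    refine h2.trans (h1.trans (le_of_eq ?_))
    rw [_root_.pow_succ]; ring

/-- `1 + C U` is invertible. -/
lemma IsMul.exists_inv [CompleteSpace A] : ∃ G : A →L[ℂ] A,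
    (∀ f, G f + C (V.u * G f) = f) ∧ (∀ f, G (f + C (V.u * f)) = f) := by
  have hs := IsMul.summable_neg_CU_pow V hC
  set W := -(C * V.U) with hW
  have h1 : (∑' j, W ^ j) = 1 + W * ∑' j, W ^ j := by
    rw [← hs.tsum_mul_left]
    conv_lhs => rw [hs.tsum_eq_zero_add]
    simp [_root_.pow_succ']
  have h2 : (∑' j, W ^ j) = 1 + (∑' j, W ^ j) * W := by
    rw [← hs.tsum_mul_right]
    conv_lhs => rw [hs.tsum_eq_zero_add]
    simp [_root_.pow_succ]
  refine ⟨∑' j, W ^ j, fun f => ?_, fun f => ?_⟩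
  · have := congrArg (fun T : A →L[ℂ] A => T f) h1
    simp only [ContinuousLinearMap.add_apply, ContinuousLinearMap.mul_apply,
      ContinuousLinearMap.one_apply] at this
    set y := (∑' j, W ^ j : A →L[ℂ] A) f
    rw [hW, ContinuousLinearMap.neg_apply, ContinuousLinearMap.mul_apply, U_apply] at this
    nth_rewrite 1 [this]
    abel
  · have := congrArg (fun T : A →L[ℂ] A => T f) h2
    simp only [ContinuousLinearMap.add_apply, ContinuousLinearMap.mul_apply,
      ContinuousLinearMap.one_apply] at this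
    rw [map_add, this]
    conv_lhs => enter [1, 2, 2]; rw [hW]
    rw [ContinuousLinearMap.neg_apply, ContinuousLinearMap.mul_apply, U_apply, map_neg]
    abel

/-- uniqueness for the Volterra type equation -/
lemma IsMul.unique [CompleteSpace A] {w : A} (h : V.P a (w + V.u * C w) = 0) : V.P a w = 0 := by
  obtain ⟨G, -, hG⟩ := IsMul.exists_inv V hC
  have h1 : V.P a w + C (V.u * V.P a w) = 0 := by
    rw [map_add] at h
    rw [← h, hC.mul_apply', hC.apply_P]
  have := hG (V.P a w)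
  rw [h1, map_zero] at this
  exact this.symm

end quasi

end VD

end Volt
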