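import Pool.Agent.Helper56.Volt.Power

/-!
Smooth functions which are not flat at `0` are of power type.
-/

set_option linter.deprecated false

namespace Volt

open MeasureTheory Set Filter Topology
open scoped Nat

namespace L1

lemma uniqueDiffOn_Icc01 : UniqueDiffOn ℝ (Icc (0:ℝ) 1) := uniqueDiffOn_Icc zero_lt_one

/-- restriction of iterated derivatives to a smaller interval -/
lemma iteratedDerivWithin_sub {F : ℝ → ℂ} {n j : ℕ} (hF : ContDiffOn ℝ n F (Icc 0 1)) (hj : j ≤ n)
    {t : ℝ} (ht0 : 0 < t) (ht1 : t ≤ 1) {x : ℝ} (hx : x ∈ Icc 0 t) :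
    iteratedDerivWithin j F (Icc 0 t) x = iteratedDerivWithin j F (Icc 0 1) x := by
  rw [iteratedDerivWithin, iteratedDerivWithin,
    iteratedFDerivWithin_subset (Icc_subset_Icc_right ht1) (uniqueDiffOn_Icc ht0)
      uniqueDiffOn_Icc01 (hF.of_le (by exact_mod_cast hj)) hx]

/-- Lipschitz functions on `[0,1]` belong to the class -/
lemma bvc_of_contDiffOn {S : ℝ → ℂ} (hS : ContDiffOn ℝ 1 S (Icc 0 1)) : BVC S := by
  obtain ⟨K, hK⟩ := hS.exists_lipschitzOnWith (by simp) (convex_Icc 0 1) isCompact_Icc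
  have h1 : LocallyBoundedVariationOn S (Icc 0 1) := hK.locallyBoundedVariationOn
  have h2 := h1 0 1 (left_mem_Icc.2 zero_le_one) (right_mem_Icc.2 zero_le_one)
  rw [inter_self] at h2
  have h3 : eVariationOn S (Icc 0 1) ≠ ⊤ := h2
  refine ⟨(eVariationOn S (Icc 0 1)).toReal, fun x hx => ?_⟩
  calc eVariationOn S (Icc 0 (1 - x)) ≤ eVariationOn S (Icc 0 1) :=
        eVariationOn.mono S (Icc_subset_Icc_right (by linarith [hx.1]))
    _ = ENNReal.ofReal (eVariationOn S (Icc 0 1)).toReal := (ENNReal.ofReal_toReal h3).symm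
    _ ≤ _ := by
      apply ENNReal.ofReal_le_ofReal
      rw [le_div_iff₀ hx.1]
      have := ENNReal.toReal_nonneg (a := eVariationOn S (Icc 0 1))
      nlinarith [hx.2]

/-- **Smooth functions with a zero of exact order `k` at `0` are of power type.** -/
theorem pt_of_smooth {F : ℝ → ℂ} {k : ℕ} {c : ℂ} (hc : c ≠ 0)
    (hF : ContDiffOn ℝ (k + 2 : ℕ) F (Icc 0 1))
    (h0 : ∀ j < k, iteratedDerivWithin j F (Icc 0 1) 0 = 0)
    (hk : iteratedDerivWithin k F (Icc 0 1) 0 = c * (k ! : ℂ)) :
    ∃ S : ℝ → ℂ, BVC S ∧ ∀ t ∈ Icc (0:ℝ) 1,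
      F t = c * ((t:ℂ)^k + ∫ s in (0:ℝ)..t, ((t - s : ℝ) : ℂ)^k * S s) := by
  have hkf : (k ! : ℂ) ≠ 0 := by exact_mod_cast Nat.factorial_ne_zero k
  refine ⟨fun s => (c * (k ! : ℂ))⁻¹ * iteratedDerivWithin (k + 1) F (Icc 0 1) s, ?_, ?_⟩
  · apply bvc_of_contDiffOn
    apply ContDiffOn.mul contDiffOn_const
    have h1 := (contDiffOn_nat_succ_iff_contDiffOn_one_iteratedDerivWithin
      (n := k + 1) uniqueDiffOn_Icc01).1 hF
    exact h1.2
  · intro t ht
    rcases eq_or_lt_of_le ht.1 with h | hpos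
    · subst h
      rw [intervalIntegral.integral_same, add_zero]
      rcases Nat.eq_zero_or_pos k with h2 | h2
      · subst h2
        have := hk
        rw [iteratedDerivWithin_zero] at this
        rw [this]; simp
      · have := h0 0 h2
        rw [iteratedDerivWithin_zero] at this
        rw [this]; simp [h2.ne']
    · have hF1 : ContDiffOn ℝ (k + 1 : ℕ) F (uIcc 0 t) := by
        rw [uIcc_of_le ht.1]
        exact (hF.of_le (by exact_mod_cast Nat.le_succ _)).mono (Icc_subset_Icc_right ht.2)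
      have h1 := taylor_integral_remainder hF1
      rw [uIcc_of_le ht.1, taylor_within_apply] at h1
      have h2 : ∑ j ∈ Finset.range (k + 1), ((j ! : ℝ)⁻¹ * (t - 0) ^ j) •
          iteratedDerivWithin j F (Icc 0 t) 0 = c * (t:ℂ)^k := by
        rw [Finset.sum_range_succ, Finset.sum_eq_zero]
        · rw [zero_add, iteratedDerivWithin_sub hF (by omega) hpos ht.2 (left_mem_Icc.2 ht.1), hk,
            sub_zero, Complex.real_smul]
          push_cast
          field_simp
        · intro j hj
          rw [Finset.mem_range] at hj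
          rw [iteratedDerivWithin_sub hF (by omega) hpos ht.2 (left_mem_Icc.2 ht.1), h0 j hj,
            smul_zero]
      rw [h2, sub_eq_iff_eq_add] at h1
      rw [h1, mul_add, add_comm]
      congr 1
      rw [← intervalIntegral.integral_const_mul]
      apply intervalIntegral.integral_congr
      intro s hs
      rw [uIcc_of_le ht.1] at hs
      change ((t - s) ^ k / (k ! : ℝ)) • iteratedDerivWithin (k + 1) F (Icc 0 t) s
        = c * (((t - s : ℝ) : ℂ) ^ k * ((c * (k ! : ℂ))⁻¹ *
          iteratedDerivWithin (k + 1) F (Icc 0 1) s))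
      rw [iteratedDerivWithin_sub hF (by omega) hpos ht.2 hs, Complex.real_smul]
      push_cast
      field_simp

end L1

end Volt
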