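import Pool.Agent.Helper56.Volt.Exp

/-!
Construction of the automorphism attached to a compatible family of local multipliers.
-/

set_option linter.unusedSectionVars false
set_option linter.deprecated false

namespace Volt

open Filter Topology Finset

variable {A : Type*} [NonUnitalNormedCommRing A] [NormedSpace ℂ A] [IsScalarTower ℂ A A]
  [SMulCommClass ℂ A A]

namespace VD

variable (V : VD A)

lemma S_injOn {s : ℝ} (hs : 0 ≤ s) {x y : A} (h : V.S s x = V.S s y) :
    V.P (1 - s) x = V.P (1 - s) y := by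
  rw [← V.R_S s hs, ← V.R_S s hs, h]

lemma P_R' (a : ℝ) {s : ℝ} (hs : 0 ≤ s) (f : A) : V.P a (V.R s f) = V.R s (V.P (a + s) f) := by
  have h1 : V.S s (V.P a (V.R s f)) = V.S s (V.R s (V.P (a + s) f)) := by
    have e1 := V.P_S (a + s) s hs (V.R s f)
    rw [add_sub_cancel_right] at e1
    rw [← e1, V.S_R s hs, V.S_R s hs, map_sub, V.P_P, V.P_P, min_comm]
  have h2 := V.S_injOn hs h1
  rw [V.P_P, min_comm, ← V.P_P, V.P_R s hs, V.P_R s hs] at h2
  exact h2

lemma norm_le_of_blocks (T : A →L[ℂ] A) {m : ℕ} (hm : 0 < m) {B : ℝ}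
    (h : ∀ s, 0 ≤ s → s < 1 → ∀ f, V.P (1 / (m:ℝ)) f = f → ‖T (V.S s f)‖ ≤ B * ‖f‖) (hB : 0 ≤ B)
    (f : A) : ‖T f‖ ≤ B * ‖f‖ := by
  have hm' : (0:ℝ) < m := by exact_mod_cast hm
  have key : ∀ i : ℕ, i ≤ m → ‖T (V.P ((i:ℝ) / m) f)‖ ≤ B * ‖V.P ((i:ℝ) / m) f‖ := by
    intro i
    induction i with
    | zero =>
      intro _
      simp [V.P_nonpos 0 le_rfl]
    | succ i ih =>
      intro hi
      have ih' := ih (by omega)
      set s : ℝ := (i:ℝ) / m with hs
      have hs0 : 0 ≤ s := by positivity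
      have hs1 : s < 1 := by
        rw [hs, div_lt_one hm']; exact_mod_cast hi
      have hsucc : (((i+1 : ℕ) : ℝ) / m) = s + 1 / m := by
        rw [hs]; push_cast; ring
      set F := V.P (((i+1 : ℕ) : ℝ) / m) f with hF
      have hle : s ≤ ((i+1 : ℕ) : ℝ) / m := by rw [hsucc]; have : 0 < 1 / (m:ℝ) := by positivity
                                               linarith
      have hPF : V.P s F = V.P s f := by rw [hF, V.P_P_le hle]
      set blk := F - V.P s F with hblk
      have hblk0 : V.P s blk = 0 := by rw [hblk, map_sub, V.P_idem, sub_self]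
      have hblk1 : V.P (((i+1 : ℕ) : ℝ) / m) blk = blk := by
        rw [hblk, map_sub, hF, V.P_idem, V.P_P_le' hle]
      have hS := V.eq_S_of_P_eq_zero hs0 hblk0
      have hR : V.P (1 / (m:ℝ)) (V.R s blk) = V.R s blk := by
        rw [V.P_R' _ hs0, add_comm, ← hsucc, hblk1]
      have h1 := h s hs0 hs1 (V.R s blk) hR
      rw [hS] at h1
      have h2 : ‖T blk‖ ≤ B * ‖blk‖ := by
        refine h1.trans ?_
        gcongr
        exact V.norm_R_le s hs0 blk
      have h3 : F = V.P s f + blk := by rw [hblk, hPF]; abel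
      have h4 := V.norm_P_add s F
      rw [hPF] at h4
      have h5 : ‖blk‖ = ‖F - V.P s f‖ := by rw [hblk, hPF]
      calc ‖T F‖ = ‖T (V.P s f) + T blk‖ := by rw [h3, map_add]
        _ ≤ ‖T (V.P s f)‖ + ‖T blk‖ := norm_add_le _ _
        _ ≤ B * ‖V.P s f‖ + B * ‖blk‖ := add_le_add ih' h2
        _ = B * ‖F‖ := by rw [h5, ← h4]; ring
  have := key m le_rfl
  rw [div_self hm'.ne', V.P_one_le 1 le_rfl] at this
  exact this

lemma P_eq_zero_of_lt {c : ℝ} {w : A} (h : ∀ b < c, V.P b w = 0) : V.P c w = 0 := by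
  have h1 : Tendsto (fun b => V.P b w) (𝓝[<] c) (𝓝 (V.P c w)) :=
    ((V.P_cont w).tendsto c).mono_left nhdsWithin_le_nhds
  have h2 : Tendsto (fun b => V.P b w) (𝓝[<] c) (𝓝 0) := by
    refine tendsto_const_nhds.congr' ?_
    filter_upwards [self_mem_nhdsWithin] with b hb
    exact (h b hb).symm
  exact tendsto_nhds_unique h1 h2

lemma ext_al {x y : A} (h : ∀ n, V.P (al n) x = V.P (al n) y) : x = y := by
  have h1 : ∀ z : A, Tendsto (fun n => V.P (al n) z) atTop (𝓝 z) := by
    intro z
    have := ((V.P_cont z).tendsto 1).comp al_tendsto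
    rwa [V.P_one_le 1 le_rfl] at this
  refine tendsto_nhds_unique (h1 x) ?_
  simp_rw [h]
  exact h1 y

lemma exists_limit [CompleteSpace A] {y : ℕ → A} (hc : ∀ n, V.P (al n) (y (n+1)) = y n) {B : ℝ}
    (hB : ∀ n, ‖y n‖ ≤ B) : ∃ z, (∀ n, V.P (al n) z = y n) ∧ ‖z‖ ≤ B := by
  have hc' : ∀ m n, m ≤ n → V.P (al m) (y n) = y m := fun m n h => compat_le' hc h
  have hmono : Monotone (fun n => ‖y n‖) := by
    intro m n h
    simp only
    rw [← hc' m n h]; exact V.norm_P_le _ _
  have hbdd : BddAbove (Set.range (fun n => ‖y n‖)) := ⟨B, by rintro _ ⟨n, rfl⟩; exact hB n⟩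
  have hr := (tendsto_atTop_ciSup hmono hbdd).cauchySeq
  have hy : CauchySeq y := by
    rw [Metric.cauchySeq_iff'] at hr ⊢
    intro ε hε
    obtain ⟨N, hN⟩ := hr ε hε
    refine ⟨N, fun n hn => ?_⟩
    have h1 := hN n hn
    have h2 := V.norm_P_add (al N) (y n)
    rw [hc' N n hn] at h2
    rw [dist_eq_norm]
    rw [Real.dist_eq, abs_of_nonneg (by linarith [hmono hn])] at h1
    linarith
  obtain ⟨z, hz⟩ := cauchySeq_tendsto_of_complete hy
  refine ⟨z, fun n => ?_, le_of_tendsto hz.norm (Eventually.of_forall hB)⟩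
  have h1 : Tendsto (fun k => V.P (al n) (y k)) atTop (𝓝 (V.P (al n) z)) :=
    ((V.P (al n)).continuous.tendsto _).comp hz
  refine tendsto_nhds_unique h1 ?_
  refine tendsto_const_nhds.congr' ?_
  filter_upwards [eventually_ge_atTop n] with k hk
  exact (hc' n k hk).symm

variable {V}

/-- the multiplier `C n` at lower level -/
lemma IsMul.P_apply_P {a b : ℝ} {C : A →L[ℂ] A} (hC : V.IsMul a C) (hb : b ≤ a) (f : A) :
    V.P b (C (V.P b f)) = V.P b (C f) := (hC.restrict hb).apply_P f

lemma CFam.local_bound {C : ℕ → A →L[ℂ] A} {K : ℝ} (hC : V.CFam C K) {b : ℝ} (hb0 : 0 ≤ b)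
    {n : ℕ} (hb : b ≤ al n) (f : A) : ‖V.P b (C n f)‖ ≤ 2 * K / (1 - b) * ‖V.P b f‖ := by
  have hb1 : b < 1 := hb.trans_lt (al_lt_one n)
  have hK := hC.nonneg
  obtain ⟨m, hm, h2m⟩ := exists_al hb1 hb0
  have h1b : 0 < 1 - b := by linarith
  have hKm : K * 2 ^ m ≤ 2 * K / (1 - b) := by
    rw [le_div_iff₀ h1b]
    calc K * 2 ^ m * (1 - b) = K * (2 ^ m * (1 - b)) := by ring
      _ ≤ K * 2 := by gcongr
      _ = 2 * K := by ring
  have key : ∀ k, b ≤ al k → ‖V.P b (C k f)‖ ≤ K * 2 ^ k * ‖V.P b f‖ := by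
    intro k hk
    rw [← (hC.mul k).P_apply_P hk]
    exact (V.norm_P_le _ _).trans (hC.bound k _)
  rcases le_total m n with hmn | hmn
  · have : V.P b (C n f) = V.P b (C m f) := by
      rw [← compat_le hC.compat hmn, V.P_P_le hm]
    rw [this]
    exact (key m hm).trans (mul_le_mul_of_nonneg_right hKm (norm_nonneg _))
  · refine (key n hb).trans (mul_le_mul_of_nonneg_right (le_trans ?_ hKm) (norm_nonneg _))
    gcongr
    norm_num

lemma CFam.norm_P_TT_le [CompleteSpace A] {C : ℕ → A →L[ℂ] A} {K : ℝ} (hC : V.CFam C K) (n : ℕ)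
    (f : A) : ‖V.P (al n) (V.TT (C n) f)‖ ≤ Real.exp (2 * K) * ‖f‖ := by
  have hK := hC.nonneg
  set c := ‖C n‖ with hc
  have key : ∀ m : ℕ, ‖V.P (al n) (V.TT (C n) f)‖
      ≤ (Real.exp (2 * K) * Real.exp (1 / ((m:ℝ) + 1) * c)) * ‖f‖ := by
    intro m
    have := V.norm_le_of_blocks (V.P (al n) * V.TT (C n)) (m := m + 1) (Nat.succ_pos m)
      (B := Real.exp (2 * K) * Real.exp (1 / ((m:ℝ) + 1) * c)) ?_ (by positivity) f
    · exact this
    · intro s hs hs1 k hk
      rw [ContinuousLinearMap.mul_apply, (hC.mul n).P_TT_S hs, V.P_S _ s hs]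
      refine (V.norm_S_le s hs _).trans ?_
      rcases le_or_gt (al n - s) 0 with hneg | hpos
      · rw [V.P_nonpos _ hneg, norm_zero]; positivity
      · have hb : al n - s ≤ al n := by linarith
        have hal := al_lt_one n
        have h1b : 0 < 1 - (al n - s) := by linarith
        have h1 := norm_P_exp_le (V := V) (b := al n - s) (-((s:ℂ) • C n))
          (c := s * (2 * K / (1 - (al n - s)))) (by positivity) (by
            intro f
            rw [ContinuousLinearMap.neg_apply, ContinuousLinearMap.smul_apply, map_neg, norm_neg,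
              map_smul, norm_smul, Complex.norm_real, Real.norm_eq_abs, abs_of_nonneg hs, mul_assoc]
            exact mul_le_mul_of_nonneg_left (hC.local_bound hpos.le hb f) hs) (V.TT (C n) k)
        refine h1.trans ?_
        have h2 : s * (2 * K / (1 - (al n - s))) ≤ 2 * K := by
          rw [mul_div_assoc', div_le_iff₀ h1b]
          nlinarith
        have h3 : ‖V.TT (C n) k‖ ≤ Real.exp (1 / ((m:ℝ) + 1) * c) * ‖k‖ := by
          apply norm_TT_le (V := V) (C n) (norm_nonneg _) (by positivity) (C n).le_opNorm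
          push_cast at hk
          exact hk
        calc Real.exp (s * (2 * K / (1 - (al n - s)))) * ‖V.P (al n - s) (V.TT (C n) k)‖
            ≤ Real.exp (2 * K) * (Real.exp (1 / ((m:ℝ) + 1) * c) * ‖k‖) := by
              gcongr
              exact (V.norm_P_le _ _).trans h3
          _ = _ := by ring
  have hlim : Tendsto (fun m : ℕ => (Real.exp (2 * K) * Real.exp (1 / ((m:ℝ) + 1) * c)) * ‖f‖) atTop
      (𝓝 ((Real.exp (2 * K) * Real.exp (0 * c)) * ‖f‖)) := by
    have h0 := tendsto_one_div_add_atTop_nhds_zero_nat (𝕜 := ℝ)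
    exact (((Real.continuous_exp.tendsto _).comp (h0.mul_const c)).const_mul _).mul_const _
  rw [zero_mul, Real.exp_zero, mul_one] at hlim
  exact ge_of_tendsto' hlim key

/-- equality of powers at lower level -/
lemma P_pow_congr {b : ℝ} {M M' : A →L[ℂ] A} (h1 : ∀ f, V.P b (M f) = V.P b (M' f))
    (h2 : ∀ f, V.P b (M' (V.P b f)) = V.P b (M' f)) (j : ℕ) (f : A) :
    V.P b ((M ^ j) f) = V.P b ((M' ^ j) f) := by
  induction j with
  | zero => simp
  | succ j ih =>
    rw [pow_succ', pow_succ', ContinuousLinearMap.mul_apply, ContinuousLinearMap.mul_apply, h1,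
      ← h2, ih, h2]

lemma P_pow_P {b : ℝ} {M' : A →L[ℂ] A} 
    (h2 : ∀ f, V.P b (M' (V.P b f)) = V.P b (M' f)) (j : ℕ) (f : A) :
    V.P b ((M' ^ j) (V.P b f)) = V.P b ((M' ^ j) f) := by
  induction j with
  | zero => simp
  | succ j ih =>
    rw [pow_succ', ContinuousLinearMap.mul_apply, ContinuousLinearMap.mul_apply, ← h2, ih, h2]

variable [CompleteSpace A]

open NormedSpace

omit [IsScalarTower ℂ A A] [SMulCommClass ℂ A A] in
lemma hasSum_exp_apply (M : A →L[ℂ] A) (f : A) :
    HasSum (fun j : ℕ => ((Nat.factorial j : ℂ)⁻¹) • (M ^ j) f) (exp M f) := by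
  have := (exp_series_hasSum_exp' (𝕂 := ℂ) M).mapL (ContinuousLinearMap.apply ℂ A f)
  simpa only [ContinuousLinearMap.apply_apply, ContinuousLinearMap.smul_apply] using this

lemma P_exp_congr {b : ℝ} {M M' : A →L[ℂ] A} (h1 : ∀ f, V.P b (M f) = V.P b (M' f))
    (h2 : ∀ f, V.P b (M' (V.P b f)) = V.P b (M' f)) (f : A) :
    V.P b (exp M f) = V.P b (exp M' f) := by
  have e1 := (hasSum_exp_apply M f).mapL (V.P b)
  have e2 := (hasSum_exp_apply M' f).mapL (V.P b)
  refine e1.unique ?_
  simpa only [map_smul, P_pow_congr h1 h2] using e2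

lemma P_exp_P {b : ℝ} {M : A →L[ℂ] A} 
    (h2 : ∀ f, V.P b (M (V.P b f)) = V.P b (M f)) (f : A) :
    V.P b (exp M (V.P b f)) = V.P b (exp M f) := by
  have e1 := (hasSum_exp_apply M (V.P b f)).mapL (V.P b)
  have e2 := (hasSum_exp_apply M f).mapL (V.P b)
  refine e1.unique ?_
  simpa only [map_smul, P_pow_P h2] using e2

omit [IsScalarTower ℂ A A] [SMulCommClass ℂ A A] in
lemma exp_exp_neg (M : A →L[ℂ] A) (f : A) : exp M (exp (-M) f) = f := by
  letI : NormedAlgebra ℚ (A →L[ℂ] A) := NormedAlgebra.restrictScalars ℚ ℂ _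
  have h : exp M * exp (-M) = 1 := by
    rw [← exp_add_of_commute (Commute.neg_right (Commute.refl M)), add_neg_cancel, exp_zero]
  have := congrArg (fun T : A →L[ℂ] A => T f) h
  simpa using this

omit [IsScalarTower ℂ A A] [SMulCommClass ℂ A A] in
lemma exp_neg_exp (M : A →L[ℂ] A) (f : A) : exp (-M) (exp M f) = f := by
  have := exp_exp_neg (-M) f
  rwa [neg_neg] at this

/-- The operator `T` attached to the family. -/
lemma CFam.exists_T {C : ℕ → A →L[ℂ] A} {K : ℝ} (hC : V.CFam C K) :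
    ∃ T : A →L[ℂ] A, ∀ n f, V.P (al n) (T f) = V.P (al n) (V.TT (C n) f) := by
  have hcompat : ∀ f n, V.P (al n) (V.P (al (n+1)) (V.TT (C (n+1)) f))
      = V.P (al n) (V.TT (C n) f) := by
    intro f n
    rw [V.P_P_le (al_mono (Nat.le_succ n))]
    have e1 := (V.hasSum_TT_apply (C (n+1)) f).mapL (V.P (al n))
    have e2 := (V.hasSum_TT_apply (C n) f).mapL (V.P (al n))
    refine e1.unique ?_
    convert e2 using 1
    funext j
    rw [tt_apply, tt_apply, map_smul, map_smul]
    congr 1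
    apply P_pow_congr
    · intro f
      rw [ContinuousLinearMap.neg_apply, ContinuousLinearMap.neg_apply, map_neg, map_neg,
        compat_le hC.compat (Nat.le_succ n), (hC.mul n).P_apply]
    · intro f
      rw [ContinuousLinearMap.neg_apply, ContinuousLinearMap.neg_apply, map_neg, map_neg,
        (hC.mul n).apply_P]
  choose T0 hT0 hT0n using fun f => V.exists_limit (y := fun n => V.P (al n) (V.TT (C n) f))
    (hcompat f) (B := Real.exp (2 * K) * ‖f‖) (fun n => hC.norm_P_TT_le n f)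
  let Tl : A →ₗ[ℂ] A :=
    { toFun := T0
      map_add' := by
        intro f g
        apply V.ext_al
        intro n
        rw [hT0, map_add, map_add, map_add, hT0, hT0]
      map_smul' := by
        intro c f
        apply V.ext_al
        intro n
        rw [hT0, map_smul, map_smul, RingHom.id_apply, map_smul, hT0] }
  exact ⟨Tl.mkContinuous (Real.exp (2 * K)) hT0n, fun n f => hT0 f n⟩

section

variable {C : ℕ → A →L[ℂ] A} {K : ℝ} (hC : V.CFam C K) {T : A →L[ℂ] A}
  (hT : ∀ n f, V.P (al n) (T f) = V.P (al n) (V.TT (C n) f))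
include hC hT

lemma CFam.T_mul (f g : A) : T (f * g) = T f * T g := by
  apply V.ext_al
  intro n
  rw [hT, (hC.mul n).P_TT_mul, V.P_mul, V.P_mul_right, ← hT, ← hT, ← V.P_mul_right, ← V.P_mul]

lemma CFam.P_T_S {n : ℕ} {b : ℝ} (hb : b ≤ al n) {s : ℝ} (hs : 0 ≤ s) (k : A) :
    V.P b (T (V.S s k)) = V.S s (V.P (b - s) (exp (-((s:ℂ) • C n)) (T k))) := by
  have h2 : ∀ {b' : ℝ}, b' ≤ al n → ∀ f, V.P b' ((-((s:ℂ) • C n)) (V.P b' f))
      = V.P b' ((-((s:ℂ) • C n)) f) := by
    intro b' hb' f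
    simp only [ContinuousLinearMap.neg_apply, ContinuousLinearMap.smul_apply, map_neg, map_smul]
    rw [(hC.mul n).P_apply_P hb']
  have hbs : b - s ≤ al n := by linarith
  rw [← V.P_P_le hb, hT, (hC.mul n).P_TT_S hs, V.P_P_le hb, V.P_S b s hs,
    ← P_exp_P (h2 hbs) (V.TT (C n) k), ← V.P_P_le hbs (V.TT (C n) k), ← hT, V.P_P_le hbs,
    P_exp_P (h2 hbs)]

lemma CFam.P_T {b : ℝ} (hb : b < 1) (f : A) : V.P b (T (V.P b f)) = V.P b (T f) := by
  rcases le_or_gt b 0 with h0 | h0
  · rw [V.P_nonpos b h0, V.P_nonpos b h0]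
  · obtain ⟨n, hn, -⟩ := exists_al hb h0.le
    have h1 := CFam.P_T_S hC hT hn h0.le (V.R b f)
    rw [sub_self, V.P_nonpos 0 le_rfl, map_zero, V.S_R b h0.le, map_sub, map_sub,
      sub_eq_zero] at h1
    exact h1.symm

/-- near-identity on small blocks -/
lemma CFam.exists_block : ∃ m : ℕ, 0 < m ∧ 1 / (m:ℝ) ≤ 1/2 ∧
    (∀ w, ∃ k, V.P (1 / (m:ℝ)) (T k) = V.P (1 / (m:ℝ)) w) ∧
    (∀ k, V.P (1 / (m:ℝ)) (T k) = 0 → V.P (1 / (m:ℝ)) k = 0) := by
  set c := ‖C 1‖ with hc
  have hlim : Tendsto (fun m : ℕ => Real.exp (1 / ((m:ℝ) + 1) * c) - 1) atTop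
      (𝓝 (Real.exp (0 * c) - 1)) := by
    have h0 := tendsto_one_div_add_atTop_nhds_zero_nat (𝕜 := ℝ)
    exact (((Real.continuous_exp.tendsto _).comp (h0.mul_const c))).sub_const _
  rw [zero_mul, Real.exp_zero, sub_self] at hlim
  have hev := hlim.eventually (gt_mem_nhds (show (0:ℝ) < 1/2 by norm_num))
  obtain ⟨m0, hm0, hm1⟩ := (hev.and (eventually_ge_atTop 1)).exists
  refine ⟨m0 + 1, Nat.succ_pos _, ?_, ?_⟩
  · push_cast
    rw [div_le_div_iff₀ (by positivity) (by norm_num)]
    have : (1:ℝ) ≤ m0 := by exact_mod_cast hm1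
    linarith
  set δ : ℝ := 1 / ((m0 + 1 : ℕ) : ℝ) with hδ
  have hδ0 : 0 ≤ δ := by positivity
  have hδ1 : δ ≤ 1/2 := by
    rw [hδ]
    push_cast
    rw [div_le_div_iff₀ (by positivity) (by norm_num)]
    have : (1:ℝ) ≤ m0 := by exact_mod_cast hm1
    linarith
  have hexp : Real.exp (δ * c) - 1 < 1/2 := by
    have := hm0
    rw [hδ]; push_cast; exact this
  set F : A →L[ℂ] A := V.P δ * (T - 1) * V.P δ with hF
  have hFn : ‖F‖ ≤ 1/2 := by
    refine ContinuousLinearMap.opNorm_le_bound _ (by norm_num) ?_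
    intro f
    have h1 : F f = V.P δ (V.TT (C 1) (V.P δ f) - V.P δ f) := by
      simp only [hF, ContinuousLinearMap.mul_apply, ContinuousLinearMap.sub_apply,
        ContinuousLinearMap.one_apply]
      have h2 : V.P δ (T (V.P δ f)) = V.P δ (V.TT (C 1) (V.P δ f)) := by
        have hle : δ ≤ al 1 := by rw [al_one]; exact hδ1
        rw [← V.P_P_le hle, hT, V.P_P_le hle]
      rw [map_sub, map_sub, h2]
    rw [h1]
    refine (V.norm_P_le _ _).trans ?_
    refine (norm_TT_sub_le (V := V) (C 1) (norm_nonneg _) hδ0 (C 1).le_opNorm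
      (V.P_idem δ f)).trans ?_
    have h3 : 0 ≤ ‖V.P δ f‖ := norm_nonneg _
    have h4 : ‖V.P δ f‖ ≤ ‖f‖ := V.norm_P_le _ _
    have h5 : 0 ≤ Real.exp (δ * c) - 1 := by
      have := Real.one_le_exp (show 0 ≤ δ * c by positivity)
      linarith
    nlinarith
  have hFn' : ‖-F‖ < 1 := by rw [norm_neg]; linarith
  obtain ⟨G, hG1, hG2⟩ : ∃ G : A →L[ℂ] A, (1 + F) * G = 1 ∧ G * (1 + F) = 1 := by
    refine ⟨↑(Units.oneSub (-F) hFn')⁻¹, ?_, ?_⟩
    · have := (Units.oneSub (-F) hFn').mul_inv
      simpa using this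
    · have := (Units.oneSub (-F) hFn').inv_mul
      simpa using this
  have hPF : ∀ k, V.P δ k = k → V.P δ (T k) = (1 + F) k := by
    intro k hk
    simp only [hF, ContinuousLinearMap.mul_apply, ContinuousLinearMap.sub_apply,
        ContinuousLinearMap.one_apply, ContinuousLinearMap.add_apply]
    rw [hk, map_sub, hk]; abel
  constructor
  · intro w
    have h1 : (1 + F) (G (V.P δ w)) = V.P δ w := by
      have := congrArg (fun T : A →L[ℂ] A => T (V.P δ w)) hG1
      simpa using this
    have h2 : V.P δ (G (V.P δ w)) = G (V.P δ w) := by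
      have h3 : G (V.P δ w) = V.P δ w - F (G (V.P δ w)) := by
        rw [ContinuousLinearMap.add_apply, ContinuousLinearMap.one_apply] at h1
        nth_rewrite 2 [← h1]; abel
      have h4 : ∀ f, V.P δ (F f) = F f := by
        intro f
        simp only [hF, ContinuousLinearMap.mul_apply, V.P_idem]
      rw [h3, map_sub, V.P_idem, h4]
    exact ⟨G (V.P δ w), by rw [hPF _ h2, h1]⟩
  · intro k hk
    have hδlt : δ < 1 := by linarith
    have h1 : V.P δ (T (V.P δ k)) = 0 := by rw [CFam.P_T hC hT hδlt, hk]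
    rw [hPF _ (V.P_idem δ k)] at h1
    have := congrArg (fun T : A →L[ℂ] A => T (V.P δ k)) hG2
    simp only [ContinuousLinearMap.mul_apply, h1, map_zero, ContinuousLinearMap.one_apply] at this
    exact this.symm

lemma CFam.exp_compat {n : ℕ} (hn : 1 ≤ n) {b : ℝ} (hb : b ≤ 1/2) (s : ℝ) (f : A) :
    V.P b (exp (((s:ℂ) • C n)) f) = V.P b (exp (((s:ℂ) • C 1)) f) := by
  have hb1 : b ≤ al 1 := by rw [al_one]; exact hb
  apply P_exp_congr
  · intro f
    simp only [ContinuousLinearMap.smul_apply, map_smul]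
    rw [← V.P_P_le hb1, compat_le hC.compat hn]
  · intro f
    simp only [ContinuousLinearMap.smul_apply, map_smul]
    rw [(hC.mul 1).P_apply_P hb1]

lemma CFam.exp_P {n : ℕ} {b : ℝ} (hb : b ≤ al n) (s : ℂ) (f : A) :
    V.P b (exp ((s • C n)) (V.P b f)) = V.P b (exp ((s • C n)) f) := by
  apply P_exp_P
  intro f
  simp only [ContinuousLinearMap.smul_apply, map_smul]
  rw [(hC.mul n).P_apply_P hb]

lemma CFam.T_surj : Function.Surjective T := by
  obtain ⟨m, hm, hm2, hsurj, -⟩ := CFam.exists_block hC hT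
  have hm' : (0:ℝ) < m := by exact_mod_cast hm
  intro f
  have key : ∀ i : ℕ, i ≤ m → ∃ k, V.P ((i:ℝ) / m) (T k - f) = 0 := by
    intro i
    induction i with
    | zero => intro _; exact ⟨0, by simp [V.P_nonpos 0 le_rfl]⟩
    | succ i ih =>
      intro hi
      obtain ⟨k, hk⟩ := ih (by omega)
      set s : ℝ := (i:ℝ) / m with hs
      set δ : ℝ := 1 / (m:ℝ) with hδ
      have hδ0 : 0 < δ := by positivity
      have hs0 : 0 ≤ s := by positivity
      have hsucc : (((i+1 : ℕ) : ℝ) / m) = s + δ := by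
        rw [hs]; push_cast; ring
      have hle1 : s + δ ≤ 1 := by
        rw [← hsucc, div_le_one hm']; exact_mod_cast hi
      set r := f - T k with hr
      have hr0 : V.P s r = 0 := by
        rw [hr, ← neg_sub, map_neg, hk, neg_zero]
      set f' := V.R s r with hf'
      have hf'S : V.S s f' = r := V.eq_S_of_P_eq_zero hs0 hr0
      obtain ⟨k', hk'⟩ := hsurj (exp ((s:ℂ) • C 1) f')
      refine ⟨k + V.S s k', ?_⟩
      rw [hsucc]
      apply V.P_eq_zero_of_lt
      intro b hb
      rcases le_or_gt b 0 with hb0 | hb0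
      · exact V.P_nonpos b hb0 _
      obtain ⟨n0, hn0, -⟩ := exists_al (show b < 1 by linarith) hb0.le
      -- choose n ≥ 1
      set n := n0 + 1 with hn
      have hbn : b ≤ al n := hn0.trans (al_mono (Nat.le_succ n0))
      have hbs : b - s ≤ δ := by linarith
      have hbsn : b - s ≤ al n := by linarith
      have hδh : δ ≤ 1/2 := hm2
      have h1 : V.P (b - s) (exp (-((s:ℂ) • C n)) (T k')) = V.P (b - s) f' := by
        have e1 : V.P (b - s) (T k') = V.P (b - s) (exp ((s:ℂ) • C n) f') := by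
          rw [← V.P_P_le hbs, hk', V.P_P_le hbs]
          exact (CFam.exp_compat hC hT (by omega) (by linarith) s f').symm
        have e2 : -((s:ℂ) • C n) = ((-s : ℂ)) • C n := by rw [neg_smul]
        rw [e2, ← CFam.exp_P hC hT hbsn, e1, CFam.exp_P hC hT hbsn, ← e2, exp_neg_exp]
      have h2 : V.P b (T (V.S s k')) = V.P b r := by
        rw [CFam.P_T_S hC hT hbn hs0, h1, ← V.P_S b s hs0, hf'S]
      rw [map_add, map_sub, map_add, h2, hr, map_sub]
      abel
  obtain ⟨k, hk⟩ := key m le_rfl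
  rw [div_self hm'.ne', V.P_one_le 1 le_rfl, sub_eq_zero] at hk
  exact ⟨k, hk⟩

lemma CFam.T_inj : Function.Injective T := by
  obtain ⟨m, hm, hm2, -, hinj⟩ := CFam.exists_block hC hT
  have hm' : (0:ℝ) < m := by exact_mod_cast hm
  rw [injective_iff_map_eq_zero]
  intro k hk
  have key : ∀ i : ℕ, i ≤ m → V.P ((i:ℝ) / m) k = 0 := by
    intro i
    induction i with
    | zero => intro _; simp [V.P_nonpos 0 le_rfl]
    | succ i ih =>
      intro hi
      have hk0 := ih (by omega)
      set s : ℝ := (i:ℝ) / m with hs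
      set δ : ℝ := 1 / (m:ℝ) with hδ
      have hδ0 : 0 < δ := by positivity
      have hs0 : 0 ≤ s := by positivity
      have hsucc : (((i+1 : ℕ) : ℝ) / m) = s + δ := by
        rw [hs]; push_cast; ring
      have hle1 : s + δ ≤ 1 := by
        rw [← hsucc, div_le_one hm']; exact_mod_cast hi
      set k' := V.R s k with hk'
      have hk'S : V.S s k' = k := V.eq_S_of_P_eq_zero hs0 hk0
      have h1 : V.P δ (T k') = 0 := by
        apply V.P_eq_zero_of_lt
        intro c hc
        rcases le_or_gt c 0 with hc0 | hc0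
        · exact V.P_nonpos c hc0 _
        obtain ⟨n, hn, -⟩ := exists_al (show c + s < 1 by linarith) (by linarith)
        have e1 := CFam.P_T_S hC hT hn hs0 k'
        rw [hk'S, hk, map_zero, add_sub_cancel_right] at e1
        have e2 := V.R_S s hs0 (V.P c (exp (-((s:ℂ) • C n)) (T k')))
        rw [← e1, map_zero, V.P_P_le' (show c ≤ 1 - s by linarith)] at e2
        have hcn : c ≤ al n := by linarith
        have e3 : V.P c (T k') = V.P c (exp ((s:ℂ) • C n) (exp (-((s:ℂ) • C n)) (T k'))) := by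
          rw [exp_exp_neg]
        rw [e3, ← CFam.exp_P hC hT hcn, ← e2, map_zero, map_zero]
      have h2 := hinj k' h1
      rw [hsucc, ← hk'S, V.P_S _ s hs0, add_sub_cancel_left, h2, map_zero]
  have := key m le_rfl
  rwa [div_self hm'.ne', V.P_one_le 1 le_rfl] at this

/-- the equation satisfied by `T u` -/
lemma CFam.T_u_eq (n : ℕ) : V.P (al n) (T V.u + V.u * C n (T V.u)) = V.P (al n) V.u := by
  set a := al n with ha
  set y := V.TT (C n) V.u with hy
  have hm := hC.mul n
  -- first the equation for `y`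
  have hmain : V.P a (y + V.u * C n y) = V.P a V.u := by
    have hlim1 : Tendsto (fun h : ℝ => V.P a (V.u * V.TT (C n) (V.e h))) (𝓝[>] 0)
        (𝓝 (V.P a V.u)) := by
      have h1 : Tendsto (fun h : ℝ => V.TT (C n) (V.e h) - V.e h) (𝓝[>] 0) (𝓝 0) := by
        rw [tendsto_zero_iff_norm_tendsto_zero]
        have h2 : Tendsto (fun h : ℝ => Real.exp (h * ‖C n‖) - 1) (𝓝[>] 0) (𝓝 0) := by
          have : Tendsto (fun h : ℝ => Real.exp (h * ‖C n‖) - 1) (𝓝 0)
              (𝓝 (Real.exp (0 * ‖C n‖) - 1)) := by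
            apply Continuous.tendsto; fun_prop
          rw [zero_mul, Real.exp_zero, sub_self] at this
          exact this.mono_left nhdsWithin_le_nhds
        refine squeeze_zero' (Eventually.of_forall fun _ => norm_nonneg _) ?_ h2
        filter_upwards [Ioc_mem_nhdsGT (zero_lt_one : (0:ℝ) < 1)] with h hh
        have := norm_TT_sub_le (V := V) (C n) (norm_nonneg _) hh.1.le (C n).le_opNorm (V.P_e h)
        rwa [V.norm_e hh.1 hh.2, mul_one] at this
      have h3 : Tendsto (fun h : ℝ => V.u * (V.TT (C n) (V.e h) - V.e h) + V.u * V.e h) (𝓝[>] 0)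
          (𝓝 (V.u * 0 + V.u)) := by
        refine (h1.const_mul V.u).add ?_
        have := V.tendsto_e_mul V.u
        simp_rw [mul_comm _ V.u] at this
        exact this
      rw [mul_zero, zero_add] at h3
      have h4 := ((V.P a).continuous.tendsto _).comp h3
      refine h4.congr ?_
      intro h
      simp only [Function.comp_apply]
      rw [← mul_add, sub_add_cancel]
    have hlim2 : Tendsto (fun h : ℝ => V.P a (V.u * V.TT (C n) (V.e h))) (𝓝[>] 0)
        (𝓝 (V.P a (y + V.u * C n y))) := by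
      have hexp : Tendsto (fun h : ℝ => ((h⁻¹ : ℝ) : ℂ) • (y - exp (-((h:ℂ) • C n)) y)) (𝓝[>] 0)
          (𝓝 (C n y)) := by
        have hd := hasDerivAt_exp_smul_const (𝕂 := ℂ) (-(C n)) (0:ℂ)
        rw [zero_smul, exp_zero, one_mul] at hd
        have hs := hd.tendsto_slope_zero
        have hof : Tendsto (fun h : ℝ => (h:ℂ)) (𝓝[>] 0) (𝓝[≠] 0) := by
          apply tendsto_nhdsWithin_iff.2
          constructor
          · have := Complex.continuous_ofReal.tendsto 0
            rw [Complex.ofReal_zero] at this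
            exact this.mono_left nhdsWithin_le_nhds
          · filter_upwards [self_mem_nhdsWithin] with h hh
            have : (0:ℝ) < h := hh
            simp [this.ne']
        have hs2 := hs.comp hof
        have hs3 := (((ContinuousLinearMap.apply ℂ A y).continuous.tendsto _).comp hs2).neg
        simp only [ContinuousLinearMap.apply_apply, ContinuousLinearMap.neg_apply, neg_neg] at hs3
        refine hs3.congr ?_
        intro h
        simp only [Function.comp_apply, zero_add, zero_smul, exp_zero,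
          ContinuousLinearMap.apply_apply, ContinuousLinearMap.smul_apply,
          ContinuousLinearMap.sub_apply, ContinuousLinearMap.one_apply]
        rw [← smul_neg, neg_sub, smul_neg, Complex.ofReal_inv]
      have h1 : Tendsto (fun h : ℝ => V.P a (V.e h * y + V.S h V.u *
          (((h⁻¹ : ℝ) : ℂ) • (y - exp (-((h:ℂ) • C n)) y)))) (𝓝[>] 0)
          (𝓝 (V.P a (y + V.u * C n y))) := by
        refine ((V.P a).continuous.tendsto _).comp ?_
        exact (V.tendsto_e_mul y).add ((V.S_tendsto V.u).mul hexp)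
      refine h1.congr' ?_
      filter_upwards [self_mem_nhdsWithin] with h hh
      have hh' : (0:ℝ) < h := hh
      have e1 : V.P a (V.TT (C n) (V.S h V.u)) = V.P a (V.S h (exp (-((h:ℂ) • C n)) y)) :=
        hm.P_TT_S hh'.le V.u
      have e2 : V.P a (V.u * V.TT (C n) (V.e h)) = ((h⁻¹ : ℝ) : ℂ) •
          V.P a (V.u * (y - V.S h (exp (-((h:ℂ) • C n)) y))) := by
        rw [e, map_smul, mul_smul_comm, map_smul, ← V.u_sub h hh'.le, map_sub, V.P_mul_right,
          map_sub, e1, ← map_sub, ← V.P_mul_right]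
      rw [e2, V.e_mul h hh'.le, ← map_smul]
      congr 1
      rw [mul_smul_comm, ← smul_add]
      congr 1
      rw [mul_sub, mul_sub, V.S_mul h hh'.le, mul_comm V.u (V.S h _), ← V.S_mul h hh'.le,
        ← V.S_mul h hh'.le, ← V.S_mul h hh'.le, mul_comm _ V.u]
      abel
    exact tendsto_nhds_unique hlim2 hlim1
  have hy' : V.P a (T V.u) = V.P a y := hT n V.u
  have h5 : C n (T V.u) = C n y := by
    rw [← hm.apply_P (T V.u), hy', hm.apply_P]
  rw [h5, map_add, hy', ← map_add, hmain]

end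

end VD

end Volt
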