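import Pool.Agent.Helper56.Volt.Defs

/-!
Abstract part of the Titchmarsh convolution theorem: from `f * g = 0` on `[0,c]` to
`(X^i f) * (X^j g) = 0` on `[0,c]`, by a concavity argument.
-/

namespace Volt

open Filter Topology Set

namespace VD

variable {A : Type*} [NonUnitalNormedCommRing A] [NormedSpace ℂ A] (V : VD A)

/-- the product of elements vanishing on `[0,p]` and `[0,q]` vanishes on `[0,p+q]` -/
lemma P_mul_add {p q : ℝ} (hp : 0 ≤ p) (hq : 0 ≤ q) {f g : A} (hf : V.P p f = 0)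
    (hg : V.P q g = 0) : V.P (p + q) (f * g) = 0 := by
  have e : f * g = V.S (p + q) (V.R q g * V.R p f) := by
    rw [V.S_add p q hp hq, V.S_mul q hq, V.eq_S_of_P_eq_zero hq hg, mul_comm g, V.S_mul p hp,
      V.eq_S_of_P_eq_zero hp hf]
  rw [e]
  exact V.P_S_le (by positivity) le_rfl _

lemma P_zero_mono {a b : ℝ} (h : a ≤ b) {f : A} (hf : V.P b f = 0) : V.P a f = 0 := by
  rw [← V.P_P_le h, hf, map_zero]

/-- the level-`n` vanishing statement -/
def Lev (f g : A) (n : ℕ) (a : ℝ) : Prop :=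
  ∀ i j : ℕ, i + j = n → V.P a ((V.X)^[i] f * (V.X)^[j] g) = 0

lemma lev_step {f g : A} {n : ℕ} {p q r : ℝ} (hp0 : 0 ≤ p) (hq0 : 0 ≤ q) (hr0 : 0 ≤ r)
    (hp : p ≤ 1 / 2) (hq : q ≤ 1 / 2)
    (h0 : V.Lev f g n p) (h1 : V.Lev f g (n + 1) q) (h2 : V.Lev f g (n + 2) r) :
    V.Lev f g (n + 1) ((p + min q r) / 2) := by
  intro i j hij
  set m := min q r with hm
  have hm0 : 0 ≤ m := le_min hq0 hr0
  have hmq : m ≤ q := min_le_left _ _
  have hmr : m ≤ r := min_le_right _ _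
  apply V.square _ (by positivity) (by linarith)
  rw [show 2 * ((p + m) / 2) = p + m by ring]
  rcases Nat.eq_zero_or_pos j with hj | hj
  · -- `j = 0`, so `i = i' + 1`
    subst hj
    obtain rfl : i = n + 1 := by omega
    set F := (V.X)^[n] f with hF
    have e1 : (V.X)^[n + 1] f = V.X F := by rw [Function.iterate_succ_apply']
    have e2 : (V.X)^[0] g = g := rfl
    rw [e1, e2]
    have e3 : (V.X F * g) * (V.X F * g)
        = V.X (F * g) * (V.X F * g) - (F * g) * (V.X F * V.X g) := by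
      rw [V.X_mul, add_mul]
      have : F * V.X g * (V.X F * g) = F * g * (V.X F * V.X g) := by
        rw [mul_mul_mul_comm, mul_comm (V.X g), ← mul_mul_mul_comm]
      rw [this]; abel
    rw [e3, map_sub]
    have hFg : V.P p (F * g) = 0 := h0 n 0 (by omega)
    have hXFg : V.P q (V.X F * g) = 0 := by
      have := h1 (n + 1) 0 (by omega)
      rwa [e1, e2] at this
    have hXX : V.P r (V.X F * V.X g) = 0 := by
      have := h2 (n + 1) 1 (by omega)
      rwa [e1] at this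
    have hXX2 : V.P p (V.X (F * g)) = 0 := by rw [V.P_X, hFg, map_zero]
    rw [V.P_mul_add hp0 hm0 hXX2 (V.P_zero_mono hmq hXFg),
      V.P_mul_add hp0 hm0 hFg (V.P_zero_mono hmr hXX), sub_zero]
  · obtain ⟨j, rfl⟩ : ∃ j', j = j' + 1 := ⟨j - 1, by omega⟩
    set F := (V.X)^[i] f with hF
    set G := (V.X)^[j] g with hG
    have e1 : (V.X)^[j + 1] g = V.X G := by rw [Function.iterate_succ_apply']
    rw [e1]
    have e3 : (F * V.X G) * (F * V.X G)
        = V.X (F * G) * (F * V.X G) - (F * G) * (V.X F * V.X G) := by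
      rw [V.X_mul, add_mul]
      have : F * G * (V.X F * V.X G) = V.X F * G * (F * V.X G) := by
        rw [mul_comm F G, mul_comm (V.X F) G, mul_assoc, mul_assoc, ← mul_assoc F,
          ← mul_assoc (V.X F), mul_comm F]
      rw [this]; abel
    rw [e3, map_sub]
    have hFg : V.P p (F * G) = 0 := h0 i j (by omega)
    have hXFg : V.P q (F * V.X G) = 0 := by
      have := h1 i (j + 1) (by omega)
      rwa [e1] at this
    have hXX : V.P r (V.X F * V.X G) = 0 := by
      have := h2 (i + 1) (j + 1) (by omega)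
      rwa [e1, Function.iterate_succ_apply'] at this
    have hXX2 : V.P p (V.X (F * G)) = 0 := by rw [V.P_X, hFg, map_zero]
    rw [V.P_mul_add hp0 hm0 hXX2 (V.P_zero_mono hmq hXFg),
      V.P_mul_add hp0 hm0 hFg (V.P_zero_mono hmr hXX), sub_zero]

/-- the best level, capped at `1/2` -/
noncomputable def lev (f g : A) (n : ℕ) : ℝ := sSup {a : ℝ | a ∈ Icc (0:ℝ) (1 / 2) ∧ V.Lev f g n a}

lemma lev_zero_mem (f g : A) (n : ℕ) :
    (0:ℝ) ∈ {a : ℝ | a ∈ Icc (0:ℝ) (1 / 2) ∧ V.Lev f g n a} :=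
  ⟨⟨le_rfl, by norm_num⟩, fun _ _ _ => V.P_nonpos 0 le_rfl _⟩

lemma lev_bdd (f g : A) (n : ℕ) :
    BddAbove {a : ℝ | a ∈ Icc (0:ℝ) (1 / 2) ∧ V.Lev f g n a} :=
  ⟨1 / 2, fun _ h => h.1.2⟩

lemma lev_closed (f g : A) (n : ℕ) :
    IsClosed {a : ℝ | a ∈ Icc (0:ℝ) (1 / 2) ∧ V.Lev f g n a} := by
  have e : {a : ℝ | a ∈ Icc (0:ℝ) (1 / 2) ∧ V.Lev f g n a} = Icc (0:ℝ) (1 / 2) ∩
      ⋂ i : ℕ, ⋂ j : ℕ, ⋂ (_ : i + j = n), {a | V.P a ((V.X)^[i] f * (V.X)^[j] g) = 0} := by
    ext a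
    simp [Lev]
  rw [e]
  apply isClosed_Icc.inter
  refine isClosed_iInter fun i => isClosed_iInter fun j => isClosed_iInter fun _ => ?_
  exact isClosed_eq (V.P_cont _) continuous_const

lemma lev_mem (f g : A) (n : ℕ) : V.lev f g n ∈ Icc (0:ℝ) (1 / 2) ∧ V.Lev f g n (V.lev f g n) :=
  (V.lev_closed f g n).csSup_mem ⟨0, V.lev_zero_mem f g n⟩ (V.lev_bdd f g n)

lemma le_lev {f g : A} {n : ℕ} {a : ℝ} (h0 : 0 ≤ a) (h1 : a ≤ 1 / 2) (h : V.Lev f g n a) :
    a ≤ V.lev f g n := le_csSup (V.lev_bdd f g n) ⟨⟨h0, h1⟩, h⟩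

lemma lev_ineq (f g : A) (n : ℕ) :
    (V.lev f g n + min (V.lev f g (n + 1)) (V.lev f g (n + 2))) / 2 ≤ V.lev f g (n + 1) := by
  obtain ⟨⟨a0, a1⟩, a2⟩ := V.lev_mem f g n
  obtain ⟨⟨b0, b1⟩, b2⟩ := V.lev_mem f g (n + 1)
  obtain ⟨⟨c0, c1⟩, c2⟩ := V.lev_mem f g (n + 2)
  apply V.le_lev
  · have : 0 ≤ min (V.lev f g (n + 1)) (V.lev f g (n + 2)) := le_min b0 c0
    positivity
  · have : min (V.lev f g (n + 1)) (V.lev f g (n + 2)) ≤ V.lev f g (n + 1) := min_le_left _ _
    linarith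
  · exact V.lev_step a0 b0 c0 a1 b1 a2 b2 c2

end VD

/-- a bounded-below sequence which is mid-point concave wherever it decreases is nondecreasing -/
lemma seq_mono {a : ℕ → ℝ} (h0 : ∀ n, 0 ≤ a n)
    (h : ∀ n, (a n + min (a (n + 1)) (a (n + 2))) / 2 ≤ a (n + 1)) (n : ℕ) : a n ≤ a (n + 1) := by
  by_contra hlt
  rw [not_le] at hlt
  set δ := a n - a (n + 1) with hδ
  have hδ0 : 0 < δ := by rw [hδ]; linarith
  have step : ∀ k, δ ≤ a (n + k) - a (n + k + 1) := by
    intro k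
    induction k with
    | zero => exact le_of_eq hδ
    | succ k ih =>
      have h1 := h (n + k)
      have h2 : a (n + k + 2) < a (n + k + 1) := by
        by_contra h3
        rw [not_lt] at h3
        rw [min_eq_left h3] at h1
        linarith
      rw [min_eq_right h2.le] at h1
      have e1 : n + (k + 1) = n + k + 1 := by ring
      rw [e1]
      change δ ≤ a (n + k + 1) - a (n + k + 2)
      linarith
  have tot : ∀ k : ℕ, a (n + k) ≤ a n - k * δ := by
    intro k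
    induction k with
    | zero => simp
    | succ k ih =>
      have := step k
      have e1 : n + (k + 1) = n + k + 1 := by ring
      rw [e1]
      push_cast
      linarith
  obtain ⟨k, hk⟩ := exists_nat_gt (a n / δ)
  rw [div_lt_iff₀ hδ0] at hk
  have := tot k
  have := h0 (n + k)
  linarith

/-- **Polynomial multipliers.** If `f * g` vanishes on `[0,c]`, `c ≤ 1/2`, so do all the products
`(X^i f) * (X^j g)`. -/
theorem VD.titch_poly {A : Type*} [NonUnitalNormedCommRing A] [NormedSpace ℂ A] (V : VD A)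
    {c : ℝ} (hc0 : 0 ≤ c) (hc : c ≤ 1 / 2) {f g : A} (h : V.P c (f * g) = 0) (i j : ℕ) :
    V.P c ((V.X)^[i] f * (V.X)^[j] g) = 0 := by
  have hmono : Monotone (V.lev f g) :=
    monotone_nat_of_le_succ (seq_mono (fun n => (V.lev_mem f g n).1.1) (V.lev_ineq f g))
  have h1 : c ≤ V.lev f g 0 := by
    apply V.le_lev hc0 hc
    intro i j hij
    obtain rfl : i = 0 := by omega
    obtain rfl : j = 0 := by omega
    exact h
  have h2 : c ≤ V.lev f g (i + j) := h1.trans (hmono (Nat.zero_le _))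
  exact V.P_zero_mono h2 ((V.lev_mem f g (i + j)).2 i j rfl)

end Volt
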