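import Pool.Agent.Helper56.Volt.TitchA
import Pool.Agent.Helper56.Volt.Model4

/-!
Titchmarsh's convolution theorem in the Volterra algebra `L¹[0,1]`.
-/

set_option linter.deprecated false

namespace Volt

open MeasureTheory Set Filter Topology

namespace L1

lemma integrable_cont_mul {K : ℝ → ℂ} (hK : Integrable K)
    (hs : ∀ t, t ∉ Icc (0:ℝ) 1 → K t = 0) {φ : ℝ → ℝ} (hφ : Continuous φ) :
    Integrable (fun t => (φ t : ℂ) * K t) := by
  obtain ⟨C, hC⟩ := isCompact_Icc.exists_bound_of_continuousOn (s := Icc (0:ℝ) 1) hφ.continuousOn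
  refine Integrable.mono' (hK.norm.const_mul C) ?_ ?_
  · exact ((Complex.continuous_ofReal.comp hφ).aestronglyMeasurable).mul hK.aestronglyMeasurable
  · refine Eventually.of_forall fun t => ?_
    by_cases ht : t ∈ Icc (0:ℝ) 1
    · rw [norm_mul, Complex.norm_real]
      exact mul_le_mul_of_nonneg_right (hC t ht) (norm_nonneg _)
    · rw [hs t ht]; simp

/-- an integrable function supported in `[0,1]` all of whose moments vanish is zero -/
lemma ae_zero_of_moments {K : ℝ → ℂ} (hK : Integrable K)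
    (hs : ∀ t, t ∉ Icc (0:ℝ) 1 → K t = 0)
    (h : ∀ j : ℕ, ∫ t : ℝ, (t:ℂ)^j * K t = 0) : ∀ᵐ t, K t = 0 := by
  have hint : ∀ j : ℕ, Integrable (fun t : ℝ => (t:ℂ)^j * K t) := by
    intro j
    have := integrable_cont_mul hK hs (φ := fun t : ℝ => t^j) (by fun_prop)
    simpa using this
  have hpoly : ∀ p : Polynomial ℝ, ∫ t : ℝ, ((p.eval t : ℝ) : ℂ) * K t = 0 := by
    intro p
    have e : ∀ t : ℝ, ((p.eval t : ℝ) : ℂ) * K t
        = ∑ j ∈ Finset.range (p.natDegree + 1), (p.coeff j : ℂ) * ((t:ℂ)^j * K t) := by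
      intro t
      rw [Polynomial.eval_eq_sum_range]
      push_cast
      rw [Finset.sum_mul]
      apply Finset.sum_congr rfl
      intros
      ring
    simp_rw [e]
    rw [integral_finset_sum _ (fun j _ => (hint j).const_mul _)]
    simp_rw [integral_const_mul, h, mul_zero, Finset.sum_const_zero]
  have hcont : ∀ φ : ℝ → ℝ, Continuous φ → ∫ t, (φ t : ℂ) * K t = 0 := by
    intro φ hφ
    have hb : ∀ ε > 0, ‖∫ t, (φ t : ℂ) * K t‖ ≤ ε * ∫ t, ‖K t‖ := by
      intro ε hε
      obtain ⟨p, hp⟩ := exists_polynomial_near_of_continuousOn 0 1 φ hφ.continuousOn ε hε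
      have hpi : Integrable (fun t : ℝ => ((p.eval t : ℝ) : ℂ) * K t) :=
        integrable_cont_mul hK hs (by fun_prop)
      have e : ∫ t, (φ t : ℂ) * K t = ∫ t : ℝ, ((φ t : ℂ) * K t - ((p.eval t : ℝ) : ℂ) * K t) := by
        rw [integral_sub (integrable_cont_mul hK hs hφ) hpi, hpoly, sub_zero]
      rw [e, ← integral_const_mul]
      refine (norm_integral_le_integral_norm _).trans ?_
      apply integral_mono_of_nonneg (Eventually.of_forall fun _ => norm_nonneg _)
        (hK.norm.const_mul ε)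
      refine Eventually.of_forall fun t => ?_
      by_cases ht : t ∈ Icc (0:ℝ) 1
      · change ‖(φ t : ℂ) * K t - ((p.eval t : ℝ) : ℂ) * K t‖ ≤ ε * ‖K t‖
        rw [← sub_mul, norm_mul, ← Complex.ofReal_sub, Complex.norm_real, Real.norm_eq_abs,
          abs_sub_comm]
        exact mul_le_mul_of_nonneg_right (hp t ht).le (norm_nonneg _)
      · change ‖(φ t : ℂ) * K t - ((p.eval t : ℝ) : ℂ) * K t‖ ≤ ε * ‖K t‖
        rw [hs t ht]; simp
    set M := ∫ t, ‖K t‖ with hM
    have hM0 : 0 ≤ M := integral_nonneg fun _ => norm_nonneg _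
    rw [← norm_eq_zero]
    apply le_antisymm _ (norm_nonneg _)
    apply le_of_forall_pos_le_add
    intro δ hδ
    have := hb (δ / (M + 1)) (by positivity)
    refine this.trans ?_
    rw [zero_add, div_mul_eq_mul_div, div_le_iff₀ (by positivity)]
    nlinarith
  refine ae_eq_zero_of_integral_contDiff_smul_eq_zero hK.locallyIntegrable ?_
  intro g hg _
  have := hcont g hg.continuous
  simpa [Complex.real_smul] using this

lemma rep_stronglyMeasurable (f : L1) : StronglyMeasurable (rep f) :=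
  (Lp.stronglyMeasurable f).indicator measurableSet_Ico

lemma rep_measurable (f : L1) : Measurable (rep f) := (rep_stronglyMeasurable f).measurable

lemma rep_X_iterate (j : ℕ) (g : L1) :
    rep ((X)^[j] g) =ᵐ[volume] fun t => (t:ℂ)^j * rep g t := by
  induction j with
  | zero => exact Eventually.of_forall fun t => by simp
  | succ j ih =>
    rw [Function.iterate_succ_apply']
    filter_upwards [ih, rep_X ((X)^[j] g)] with t h1 h2
    rw [h2]
    by_cases ht : t ∈ Ico (0:ℝ) 1
    · rw [Wf_apply_mem _ _ _ ht, sub_zero, wX_m, h1]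
      ring
    · rw [Wf_apply_notMem _ _ _ ht, sup_rep g t ht, mul_zero]

/-- for `t < c` the convolution vanishes -/
lemma ae_cv_eq_zero {c : ℝ} (hc : c ≤ 1) {f g : L1} (h : P c (f * g) = 0) :
    ∀ᵐ t, t < c → cv (rep f) (rep g) t = 0 := by
  filter_upwards [P_eq_zero_iff.1 h, rep_conv f g] with t h1 h2 h3
  rcases lt_or_ge t 0 with h4 | h4
  · exact cv_neg (fun _ => (sup_rep f).lt) (fun _ => (sup_rep g).lt) h4
  · have ht : t ∈ Ico (0:ℝ) 1 := ⟨h4, by linarith⟩
    have h5 := h1 h3
    change rep (conv f g) t = 0 at h5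
    rw [h2, indicator_of_mem ht] at h5
    exact h5

lemma ae_mul_eq_zero {c : ℝ} (hc0 : 0 ≤ c) (hc : c ≤ 1 / 2) {f g : L1} (h : P c (f * g) = 0) :
    ∀ᵐ t, ∀ᵐ r, t < c → rep g r * rep f (t - r) = 0 := by
  have h1 : ∀ j : ℕ, ∀ᵐ t, t < c → ∫ r : ℝ, (r:ℂ)^j * (rep g r * rep f (t - r)) = 0 := by
    intro j
    have h2 : P c (f * (X)^[j] g) = 0 := vd.titch_poly hc0 hc h 0 j
    filter_upwards [ae_cv_eq_zero (by linarith) h2] with t ht htc
    have h3 := ht htc
    rw [cv_comm, cv_congr (rep_X_iterate j g) (EventuallyEq.refl _ (rep f))] at h3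
    simp only [cv] at h3
    rw [← h3]
    congr 1; ext r; ring
  have h4 : ∀ᵐ t, Integrable (fun r => rep g r * rep f (t - r)) :=
    (integrable_rep g).ae_convolution_exists (ContinuousLinearMap.mul ℂ ℂ) (integrable_rep f)
  filter_upwards [ae_all_iff.2 h1, h4] with t h5 h6
  by_cases htc : t < c
  · have h7 : ∀ᵐ r, rep g r * rep f (t - r) = 0 := by
      apply ae_zero_of_moments h6
      · intro r hr
        rw [sup_rep g r (fun hh => hr ⟨hh.1, hh.2.le⟩), zero_mul]
      · exact fun j => h5 j htc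
    filter_upwards [h7] with r hr _ using hr
  · exact Eventually.of_forall fun r h => absurd h htc

/-- local form, `c ≤ 1/2` -/
lemma titch_half {c : ℝ} (hc0 : 0 ≤ c) (hc : c ≤ 1 / 2) {f g : L1} (h : P c (f * g) = 0)
    (hg : ∀ a > 0, P a g ≠ 0) : P c f = 0 := by
  have h3 := ae_mul_eq_zero hc0 hc h
  have hmeas : MeasurableSet {x : ℝ × ℝ | x.1 < c → rep g x.2 * rep f (x.1 - x.2) = 0} := by
    have e : {x : ℝ × ℝ | x.1 < c → rep g x.2 * rep f (x.1 - x.2) = 0}
        = {x : ℝ × ℝ | x.1 < c}ᶜ ∪ {x : ℝ × ℝ | rep g x.2 * rep f (x.1 - x.2) = 0} := by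
      ext x
      simp only [mem_setOf_eq, mem_union, mem_compl_iff]
      tauto
    rw [e]
    apply MeasurableSet.union
    · exact (measurableSet_lt measurable_fst measurable_const).compl
    · apply measurableSet_eq_fun _ measurable_const
      exact ((rep_measurable g).comp measurable_snd).mul
        ((rep_measurable f).comp (measurable_fst.sub measurable_snd))
  rw [Measure.ae_ae_comm hmeas] at h3
  have key : ∀ a > 0, P (c - a) f = 0 := by
    intro a ha
    by_contra hne
    apply hg a ha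
    rw [P_eq_zero_iff]
    filter_upwards [h3] with r hr hra
    by_contra hgr
    apply hne
    rw [P_eq_zero_iff]
    have h5 : ∀ᵐ t, t + r < c → rep g r * rep f (t + r - r) = 0 :=
      (measurePreserving_add_right volume r).quasiMeasurePreserving.ae hr
    filter_upwards [h5] with t ht htc
    have h6 := ht (by linarith)
    rw [add_sub_cancel_right] at h6
    exact (mul_eq_zero.1 h6).resolve_left hgr
  have hcl : IsClosed {a : ℝ | P a f = 0} := isClosed_eq (P_cont f) continuous_const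
  have hsub : Iio c ⊆ {a : ℝ | P a f = 0} := by
    intro a ha
    have := key (c - a) (by have : a < c := ha; linarith)
    rwa [sub_sub_cancel] at this
  have h7 : closure (Iio c) ⊆ {a : ℝ | P a f = 0} := hcl.closure_subset_iff.2 hsub
  rw [closure_Iio] at h7
  exact h7 (show c ≤ c from le_rfl)

lemma P_of_S_eq_zero {s : ℝ} (hs : 0 ≤ s) {f : L1} (h : S s f = 0) : P (1 - s) f = 0 := by
  rw [← norm_eq_zero, ← norm_S s hs, h, norm_zero]

/-- local form, `c ≤ 1` -/
lemma titch_local {c : ℝ} (hc : c ≤ 1) {f g : L1} (h : P c (f * g) = 0)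
    (hg : ∀ a > 0, P a g ≠ 0) : P c f = 0 := by
  rcases le_or_gt c 0 with h0 | h0
  · exact P_nonpos c h0 f
  rcases le_or_gt c (1 / 2) with h2 | h2
  · exact titch_half h0.le h2 h hg
  have h1 : P (1 / 2) f = 0 :=
    titch_half (by norm_num) le_rfl (vd.P_zero_mono h2.le h) hg
  have e1 : S (1 / 2) (R (1 / 2) f) = f := vd.eq_S_of_P_eq_zero (by norm_num) h1
  have e2 : S (1 / 2) (P (c - 1 / 2) (R (1 / 2) f * g)) = 0 := by
    rw [← P_S c (1 / 2) (by norm_num), S_mul (1 / 2) (by norm_num), e1, h]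
  have e3 := P_of_S_eq_zero (by norm_num) e2
  rw [P_P, min_eq_right (by linarith)] at e3
  have e4 : P (c - 1 / 2) (R (1 / 2) f) = 0 := titch_half (by linarith) (by linarith) e3 hg
  rw [← e1, P_S c (1 / 2) (by norm_num), e4, map_zero]

/-- **Titchmarsh's convolution theorem**, case where one factor has `0` in its support. -/
theorem titchmarsh {f g : L1} (h : f * g = 0) (hg : ∀ a > 0, P a g ≠ 0) : f = 0 := by
  have h1 : P 1 f = 0 := titch_local le_rfl (by rw [h, map_zero]) hg
  rwa [P_one_le 1 le_rfl] at h1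

/-- **Titchmarsh's convolution theorem** for `L¹[0,1]`: if `f * g` vanishes on `[0,c]`, then
`f` vanishes on `[0,p]` and `g` vanishes on `[0,q]` with `p + q ≥ c`. -/
theorem titchmarsh_full {c : ℝ} (hc0 : 0 ≤ c) (hc : c ≤ 1) {f g : L1} (h : P c (f * g) = 0) :
    ∃ p q : ℝ, 0 ≤ p ∧ 0 ≤ q ∧ c = p + q ∧ P p f = 0 ∧ P q g = 0 := by
  set s : Set ℝ := {a : ℝ | a ∈ Icc (0:ℝ) c ∧ P a g = 0} with hs
  have hcl : IsClosed s := by
    have e : s = Icc (0:ℝ) c ∩ {a : ℝ | P a g = 0} := by ext a; simp [hs]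
    rw [e]
    exact isClosed_Icc.inter (isClosed_eq (P_cont g) continuous_const)
  have hne : s.Nonempty := ⟨0, ⟨le_rfl, hc0⟩, P_nonpos 0 le_rfl g⟩
  have hb : BddAbove s := ⟨c, fun a ha => ha.1.2⟩
  set q := sSup s with hq
  obtain ⟨⟨hq0, hqc⟩, hqg⟩ := hcl.csSup_mem hne hb
  rw [← hq] at hq0 hqc hqg
  refine ⟨c - q, q, by linarith, hq0, by ring, ?_, hqg⟩
  rcases eq_or_lt_of_le hqc with heq | hlt
  · rw [heq, sub_self]; exact P_nonpos 0 le_rfl f
  have e1 : S q (R q g) = g := vd.eq_S_of_P_eq_zero hq0 hqg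
  have e2 : S q (P (c - q) (f * R q g)) = 0 := by
    rw [← P_S c q hq0, mul_comm f, S_mul q hq0, e1, mul_comm, h]
  have e3 := P_of_S_eq_zero hq0 e2
  rw [P_P, min_eq_right (by linarith)] at e3
  apply titch_local (by linarith) e3
  intro a ha ha2
  set b := min a (c - q) with hb2
  have hb0 : 0 < b := lt_min ha (by linarith)
  have h4 : P b (R q g) = 0 := vd.P_zero_mono (min_le_left _ _) ha2
  have h5 : P (q + b) g = 0 := by
    rw [← e1, P_S (q + b) q hq0, add_sub_cancel_left, h4, map_zero]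
  have h6 : q + b ∈ s := ⟨⟨by linarith, by linarith [min_le_right a (c - q)]⟩, h5⟩
  have := le_csSup hb h6
  linarith

end L1

end Volt
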