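import Pool.Agent.Helper56.Volt.Conc2

/-!
# Automorphism orbits in the Volterra algebra `L¹[0,1]`

A necessary and sufficient condition for `T f = g` with `T` an automorphism of `L¹[0,1]` (truncated
convolution), for all pairs `(f,g)`: there is a function `N` on `[0,1)` of locally bounded variation
with `Var(N; [0,1-x]) ≤ C/x` such that `g = ∑ (-1)^j/j! · (dN)^{*j} * (t^j f)`.
For `f = u` (the constant function `1`) the condition is explicit: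
`g(t) = 1 + ∫₀ᵗ R` with `Var(R; [0,1-x]) ≤ C/x`.
-/

namespace Pool.Agent.Results.MP_c24bc3_an.VolterraAutomorphisms

open MeasureTheory Set Filter Topology

/-- The space `L¹[0,1]` of classes of integrable complex functions. -/
abbrev L1 : Type := Lp ℂ 1 (volume.restrict (Icc (0:ℝ) 1))

/-- `h` is the truncated convolution product `f * g`:
`h(t) = ∫₀ᵗ f(s) g(t-s) ds` for almost every `t ∈ [0,1]`. -/
def IsProd (f g h : L1) : Prop :=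
  ∀ᵐ t ∂(volume.restrict (Icc (0:ℝ) 1)), h t = ∫ s in (0:ℝ)..t, f s * g (t - s)

/-- `T` is an automorphism of the algebra `L¹[0,1]` (no continuity is assumed). -/
def IsAut (T : L1 →ₗ[ℂ] L1) : Prop :=
  Function.Bijective T ∧ ∀ f g h, IsProd f g h → IsProd (T f) (T g) (T h)

/-- The class of functions `N` with `Var(N; [0,1-x]) ≤ C/x` for all `0 < x < 1`, for some `C`. -/
def GrowthBV (N : ℝ → ℂ) : Prop :=
  ∃ C : ℝ, ∀ x ∈ Ioo (0:ℝ) 1, eVariationOn N (Icc 0 (1 - x)) ≤ ENNReal.ofReal (C / x)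

/-- `b = (N * a)'` on `[0,1)`, i.e. `b` is locally integrable on `[0,1)` and
`∫₀ᵗ b = ∫₀ᵗ N(t-s) a(s) ds` for almost every `t ∈ [0,1]`. -/
def DConv (N a b : ℝ → ℂ) : Prop :=
  (∀ x ∈ Ico (0:ℝ) 1, IntegrableOn b (Icc 0 x)) ∧
  ∀ᵐ t ∂(volume.restrict (Icc (0:ℝ) 1)),
    ∫ s in (0:ℝ)..t, b s = ∫ s in (0:ℝ)..t, N (t - s) * a s

/-- `g = ∑ⱼ (-1)^j/j! · Cⱼ` where `Cⱼ` arises from `t^j f(t)` by applying `j` times the operation
`a ↦ (N * a)'`; the series converges in `L¹[0,x]` for every `x < 1`. -/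
def Expands (N : ℝ → ℂ) (f g : L1) : Prop := ∃ y : ℕ → ℕ → ℝ → ℂ,
  (∀ j, y j 0 = fun t : ℝ => (t:ℂ)^j * f t) ∧
  (∀ j i, DConv N (y j i) (y j (i+1))) ∧
  ∀ x ∈ Ico (0:ℝ) 1, Tendsto (fun m : ℕ => ∫ t in (0:ℝ)..x,
    ‖g t - ∑ j ∈ Finset.range m, ((-1)^j / (Nat.factorial j : ℂ)) * y j j t‖) atTop (𝓝 0)

lemma isProd_iff (f g h : L1) : IsProd f g h ↔ h = (f * g : Volt.L1) :=
  Volt.L1.isConv_iff f g h

lemma isAut_iff (T : L1 →ₗ[ℂ] L1) : IsAut T ↔ Function.Bijective T ∧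
    ∀ f g : Volt.L1, T (f * g : Volt.L1) = (T f * T g : Volt.L1) := by
  unfold IsAut
  simp only [isProd_iff]
  constructor
  · rintro ⟨h1, h2⟩
    exact ⟨h1, fun f g => h2 f g _ rfl⟩
  · rintro ⟨h1, h2⟩
    refine ⟨h1, ?_⟩
    rintro f g h rfl
    exact h2 f g

theorem result :
    (∀ f g : L1, ∃! h : L1, IsProd f g h) ∧
    (∀ f g : L1, (∃ T, IsAut T ∧ T f = g) ↔ ∃ N : ℝ → ℂ, GrowthBV N ∧ Expands N f g) ∧
    (∀ u g : L1, (∀ᵐ t ∂(volume.restrict (Icc (0:ℝ) 1)), u t = 1) →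
      ((∃ T, IsAut T ∧ T u = g) ↔ ∃ R : ℝ → ℂ, GrowthBV R ∧
        ∀ᵐ t ∂(volume.restrict (Icc (0:ℝ) 1)), g t = 1 + ∫ s in (0:ℝ)..t, R s)) := by
  refine ⟨?_, ?_, ?_⟩
  · intro f g
    refine ⟨(f * g : Volt.L1), (isProd_iff _ _ _).2 rfl, fun h hh => (isProd_iff _ _ _).1 hh⟩
  · intro f g
    have h := Volt.L1.pairs f g
    simp only [isAut_iff]
    constructor
    · rintro ⟨T, ⟨h1, h2⟩, h3⟩
      exact h.1 ⟨T, h1, h2, h3⟩
    · rintro hN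
      obtain ⟨T, h1, h2, h3⟩ := h.2 hN
      exact ⟨T, ⟨h1, h2⟩, h3⟩
  · intro u g hu
    have hu' : u = Volt.L1.u := Volt.L1.eq_u hu
    have h := Volt.L1.orbit_u g
    simp only [isAut_iff]
    rw [hu']
    constructor
    · rintro ⟨T, ⟨h1, h2⟩, h3⟩
      obtain ⟨R, C, hR, hg⟩ := h.1 ⟨T, h1, h2, h3⟩
      exact ⟨R, ⟨C, hR⟩, hg⟩
    · rintro ⟨R, ⟨C, hR⟩, hg⟩
      obtain ⟨T, h1, h2, h3⟩ := h.2 ⟨R, C, hR, hg⟩
      exact ⟨T, ⟨h1, h2⟩, h3⟩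

end Pool.Agent.Results.MP_c24bc3_an.VolterraAutomorphisms
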